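import Pool.Agent.Q282.UZ.Sys
import Pool.Agent.Q193.LT.Prime

/-!
# Presentations by sums of at most three monomials over the rational numbers
-/

set_option autoImplicit false

open CategoryTheory AlgebraicGeometry MvPolynomial

namespace Pool.Agent.N882.UE

open Pool.Agent.Y116.UV Pool.Agent.Q282.UZ Pool.Agent.Q193.LT

variable {R : Type} [CommRing R]

/-- Polynomials with integral coefficients can be reached. -/
lemma reach_int (n : ℕ) (f : MvPolynomial (Fin n) ℤ) :
    MvPolynomial.map (Int.castRingHom R) f ∈ Reach (base R n) := by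
  have hm := base_neg (R := R) n
  have h1 : (1 : MvPolynomial (Fin n) R) ∈ Reach (base R n) := by
    have := reach_mul hm (reach_mark hm) (reach_mark hm)
    rwa [neg_mul_neg, one_mul] at this
  have h0 : (0 : MvPolynomial (Fin n) R) ∈ Reach (base R n) := by
    have := reach_add hm h1 (reach_mark hm)
    rwa [add_neg_cancel] at this
  have hz : ∀ k : ℤ, ((k : ℤ) : MvPolynomial (Fin n) R) ∈ Reach (base R n) := by
    intro k
    induction k using Int.induction_on with
    | zero => rwa [Int.cast_zero]
    | succ k hk =>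
      rw [Int.cast_add, Int.cast_one]
      exact reach_add hm hk h1
    | pred k hk =>
      rw [Int.cast_sub, Int.cast_one, sub_eq_add_neg]
      exact reach_add hm hk (reach_mark hm)
  induction f using MvPolynomial.induction_on with
  | C r =>
    have := hz r
    rwa [← map_intCast (C : R →+* MvPolynomial (Fin n) R), ← eq_intCast (Int.castRingHom R),
      ← map_C] at this
  | add p q hp hq =>
    rw [map_add]
    exact reach_add hm hp hq
  | mul_X p i hp =>
    rw [map_mul, map_X]
    refine reach_mul hm hp (reach_mark ⟨some i, ?_⟩)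
    change aeval _ (X (some i)) = _
    rw [aeval_X]
    rfl

/-- Every polynomial over a ring of fractions of the integers has an integral multiple by a unit. -/
lemma exists_int (hR : Frac R) {n : ℕ} (g : MvPolynomial (Fin n) R) :
    ∃ (d : ℤ) (f : MvPolynomial (Fin n) ℤ), IsUnit ((d : ℤ) : R) ∧
      MvPolynomial.map (Int.castRingHom R) f = C ((d : ℤ) : R) * g := by
  induction g using MvPolynomial.induction_on with
  | C r =>
    obtain ⟨d, w, hd, hw⟩ := hR r
    refine ⟨d, C w, hd, ?_⟩
    rw [map_C, ← map_mul, ← hw, eq_intCast]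
  | add p q hp hq =>
    obtain ⟨d, f, hd, hf⟩ := hp
    obtain ⟨d', f', hd', hf'⟩ := hq
    refine ⟨d * d', C d' * f + C d * f', by rw [Int.cast_mul]; exact hd.mul hd', ?_⟩
    rw [map_add, map_mul, map_mul, hf, hf', map_C, map_C, eq_intCast, eq_intCast, Int.cast_mul,
      map_mul]
    ring
  | mul_X p i hp =>
    obtain ⟨d, f, hd, hf⟩ := hp
    refine ⟨d, f * X i, hd, ?_⟩
    rw [map_mul, map_X, hf, mul_assoc]

lemma reach_set' (n : ℕ) (F : Finset (MvPolynomial (Fin n) R))
    (hF : ∀ g ∈ F, ∃ f : MvPolynomial (Fin n) ℤ, MvPolynomial.map (Int.castRingHom R) f = g) :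
    ∃ P : SP R (MvPolynomial (Fin n) R), (base R n).marks ⊆ P.marks ∧ ∀ f ∈ F, f ∈ P.marks := by
  classical
  induction F using Finset.induction_on with
  | empty => exact ⟨base R n, le_rfl, by simp⟩
  | insert f F _ ih =>
    obtain ⟨P, h1, h2⟩ := ih fun g hg => hF g (Finset.mem_insert_of_mem hg)
    obtain ⟨f', rfl⟩ := hF f (Finset.mem_insert_self _ _)
    obtain ⟨P', h3, h4⟩ := reach_int n f' P h1
    refine ⟨P', h1.trans h3, fun g hg => ?_⟩
    rcases Finset.mem_insert.mp hg with rfl | hg
    · exact h4
    · exact h3 (h2 g hg)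

theorem short_frac [IsNoetherianRing R] (hR : Frac R) : ShortPresents R := by
  classical
  intro A _ _ _
  obtain ⟨n, π, hπ⟩ := Algebra.FiniteType.iff_quotient_mvPolynomial''.mp
    (inferInstance : Algebra.FiniteType R A)
  obtain ⟨F0, hF0⟩ := (isNoetherianRing_iff_ideal_fg _).mp
    (inferInstance : IsNoetherianRing (MvPolynomial (Fin n) R)) (RingHom.ker π)
  choose d f hd hf using fun g : MvPolynomial (Fin n) R => exists_int hR g
  let F : Finset (MvPolynomial (Fin n) R) := F0.image fun g => C ((d g : ℤ) : R) * g
  have hF : Ideal.span (F : Set (MvPolynomial (Fin n) R)) = RingHom.ker π := by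
    rw [← hF0]
    apply le_antisymm
    · rw [Ideal.span_le]
      intro g hg
      obtain ⟨g', hg', rfl⟩ := Finset.mem_image.mp (Finset.mem_coe.mp hg)
      exact Ideal.mul_mem_left _ _ (Ideal.subset_span hg')
    · rw [Ideal.span_le]
      intro g hg
      have h1 : C ((d g : ℤ) : R) * g ∈ Ideal.span (F : Set (MvPolynomial (Fin n) R)) :=
        Ideal.subset_span (Finset.mem_coe.mpr (Finset.mem_image.mpr ⟨g, hg, rfl⟩))
      exact (Ideal.unit_mul_mem_iff_mem _ ((hd g).map C)).mp h1
  obtain ⟨P, hP0, hP⟩ := reach_set' n F (by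
    intro g hg
    obtain ⟨g', hg', rfl⟩ := Finset.mem_image.mp hg
    exact ⟨f g', hf g'⟩)
  have hne : Nonempty P.V := by
    obtain ⟨v, _⟩ := hP0 (base_neg n)
    exact ⟨v⟩
  choose! v hv using hP
  let Q : SP R A :=
    { V := P.V
      fin := P.fin
      φ := π.comp P.φ
      G := P.G ∪ (fun f => X (v f)) '' (F : Set (MvPolynomial (Fin n) R))
      finG := P.finG.union (F.finite_toSet.image _)
      surj := fun a => by
        obtain ⟨b, rfl⟩ := hπ a
        obtain ⟨c, rfl⟩ := P.surj b
        exact ⟨c, rfl⟩
      ker := by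
        have h1 : RingHom.ker (π.comp P.φ) = Ideal.comap (P.φ : MvPolynomial P.V R →+* _)
            (RingHom.ker π) := rfl
        have h2 : RingHom.ker π = Ideal.map (P.φ : MvPolynomial P.V R →+* _)
            (Ideal.span ((fun f => X (v f)) '' (F : Set (MvPolynomial (Fin n) R)))) := by
          rw [Ideal.map_span, ← hF, Set.image_image]
          congr 1
          ext x
          constructor
          · intro hx
            exact ⟨x, hx, hv x hx⟩
          · rintro ⟨y, hy, rfl⟩
            have : (P.φ : MvPolynomial P.V R →+* _) (X (v y)) = y := hv y hy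
            change (P.φ : MvPolynomial P.V R →+* MvPolynomial (Fin n) R) (X (v y)) ∈ _
            rw [this]
            exact hy
        have h3 : RingHom.ker (P.φ : MvPolynomial P.V R →+* MvPolynomial (Fin n) R) =
            Ideal.span P.G := P.ker
        rw [h1, h2, Ideal.comap_map_of_surjective'
          (P.φ : MvPolynomial P.V R →+* MvPolynomial (Fin n) R) P.surj, Ideal.span_union, sup_comm,
          h3]
      short := by
        rintro g (hg | ⟨f, _, rfl⟩)
        · exact P.short g hg
        · refine ⟨{Finsupp.single (v f) 1}, by simp, ?_⟩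
          rw [ms, Finset.sum_singleton]
          rfl }
  exact Q.toFin

end Pool.Agent.N882.UE
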