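import Pool.Agent.N882.UE.Common
import Pool.Agent.N882.UE.ShortFrac

/-!
# Families of properties and large sets of indices
-/

set_option autoImplicit false

open CategoryTheory AlgebraicGeometry MvPolynomial Filter

namespace Pool.Agent.N882.UE

open Pool.Agent.Y116.UV Pool.Agent.Z125.UN Pool.Agent.Q282.UK Pool.Agent.Q282.UZ

variable {R : Type} [CommRing R] {sep : Prop} {I : Type} {P : I → Sch R → Prop}

/-- For every finite list of schemes in the class `K` the set of the indices `v` such that all members of
the list have the property `P v` is large. -/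
def ForLists (Big : Set I → Prop) (P : I → Sch R → Prop) (K : Sch R → Prop) : Prop :=
  ∀ L : List (Sch R), (∀ X ∈ L, K X) → Big {v | ∀ X ∈ L, P v X}

/-- For every scheme in the class `K` the set of the indices `v` such that it has the property `P v` is
large. -/
def ForEach (Big : Set I → Prop) (P : I → Sch R → Prop) (K : Sch R → Prop) : Prop :=
  ∀ X : Sch R, K X → Big {v | P v X}

variable {Big : Set I → Prop} (hBig : ∀ S S' : Set I, S ⊆ S' → Big S → Big S')

include hBig

theorem lists_of {E K : Sch R → Prop}
    (hder : ∀ 𝓕 : Filter I, (∀ X, E X → ∀ᶠ v in 𝓕, P v X) → ∀ X, K X → ∀ᶠ v in 𝓕, P v X)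
    (h : ForLists Big P E) : ForLists Big P K := by
  intro L hL
  let G : Set (Set I) := {S | ∃ X, E X ∧ S = {v | P v X}}
  have hG : ∀ X, E X → ∀ᶠ v in Filter.generate G, P v X :=
    fun X hX => Filter.GenerateSets.basic ⟨X, hX, rfl⟩
  have h1 : ∀ L : List (Sch R), (∀ X ∈ L, K X) → ∀ᶠ v in Filter.generate G, ∀ X ∈ L, P v X := by
    intro L
    induction L with
    | nil => exact fun _ => Eventually.of_forall fun v X hX => absurd hX List.not_mem_nil
    | cons X L ih =>
      intro hL
      have h2 := hder _ hG X (hL X List.mem_cons_self)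
      have h3 := ih fun Y hY => hL Y (List.mem_cons_of_mem _ hY)
      filter_upwards [h2, h3] with v h4 h5 Y hY
      rcases List.mem_cons.mp hY with rfl | hY
      · exact h4
      · exact h5 Y hY
  obtain ⟨t, ht, htf, hs⟩ := Filter.mem_generate_iff.mp (h1 L hL)
  have key : ∃ L' : List (Sch R), (∀ X ∈ L', E X) ∧ {v | ∀ X ∈ L', P v X} ⊆ ⋂₀ t := by
    clear hs
    induction t, htf using Set.Finite.induction_on with
    | empty => exact ⟨[], by simp, by simp⟩
    | @insert S t _ _ ih =>
      obtain ⟨L', hL', hs⟩ := ih fun x hx => ht (Set.mem_insert_of_mem _ hx)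
      obtain ⟨X, hX, rfl⟩ := ht (Set.mem_insert _ _)
      refine ⟨X :: L', ?_, ?_⟩
      · intro Y hY
        rcases List.mem_cons.mp hY with rfl | hY
        · exact hX
        · exact hL' Y hY
      · rintro v hv
        rw [Set.sInter_insert]
        exact ⟨hv X List.mem_cons_self, hs fun Y hY => hv Y (List.mem_cons_of_mem _ hY)⟩
  obtain ⟨L', hL', hs'⟩ := key
  exact hBig _ _ (hs'.trans hs) (h L' hL')

theorem each_of_lists {K : Sch R → Prop} (h : ForLists Big P K) : ForEach Big P K := by
  intro X hX
  refine hBig _ _ ?_ (h [X] fun Y hY => by rw [List.mem_singleton.mp hY]; exact hX)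
  exact fun v hv => hv X (List.mem_singleton.mpr rfl)

theorem lists_of_each {K : Sch R → Prop} (hne : ∃ Z, K Z)
    (hprod : ∀ X Y, K X → K Y → ∃ Z, K Z ∧ ∀ v, P v Z → P v X ∧ P v Y)
    (h : ForEach Big P K) : ForLists Big P K := by
  have h1 : ∀ L : List (Sch R), (∀ X ∈ L, K X) → ∃ Z, K Z ∧ ∀ v, P v Z → ∀ X ∈ L, P v X := by
    intro L
    induction L with
    | nil =>
      obtain ⟨Z, hZ⟩ := hne
      exact fun _ => ⟨Z, hZ, fun v _ X hX => absurd hX List.not_mem_nil⟩
    | cons X L ih =>
      intro hL
      obtain ⟨Z, hZ, h2⟩ := ih fun Y hY => hL Y (List.mem_cons_of_mem _ hY)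
      obtain ⟨W, hW, h3⟩ := hprod X Z (hL X List.mem_cons_self) hZ
      refine ⟨W, hW, fun v hv Y hY => ?_⟩
      rcases List.mem_cons.mp hY with rfl | hY
      · exact (h3 v hv).1
      · exact h2 v (h3 v hv).2 Y hY
  intro L hL
  obtain ⟨Z, hZ, h2⟩ := h1 L hL
  exact hBig _ _ (fun v hv => h2 v hv) (h Z hZ)

omit hBig

/-- The direct sum of two systems of bilinear equations: the equations of both, in different variables (the
closed subscheme given by it is the product of the two closed subschemes). -/
def dsum {a b c a' b' c' : ℕ} (t : Fin a → Fin b → Fin c → R) (t' : Fin a' → Fin b' → Fin c' → R) :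
    Fin (a + a') → Fin (b + b') → Fin (c + c') → R := fun i j l =>
  Fin.addCases
    (fun i => Fin.addCases (fun j => Fin.addCases (fun l => t i j l) (fun _ => 0) l) (fun _ => 0) j)
    (fun i => Fin.addCases (fun _ => 0) (fun j => Fin.addCases (fun _ => 0) (fun l => t' i j l) l) j)
    i

/-- The coefficients are `0` and `1`, and every equation has at most three terms. -/
def Short {a b c : ℕ} (t : Fin a → Fin b → Fin c → R) : Prop :=
  (∀ i j l, t i j l = 0 ∨ t i j l = 1) ∧
    ∀ l, ∃ E : Finset (Fin a × Fin b), E.card ≤ 3 ∧ ∀ i j, t i j l ≠ 0 → (i, j) ∈ E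

lemma short_sum {a b c a' b' c' : ℕ} {t : Fin a → Fin b → Fin c → R}
    {t' : Fin a' → Fin b' → Fin c' → R} (h : Short t) (h' : Short t') : Short (dsum t t') := by
  constructor
  · intro i j l
    refine Fin.addCases (fun i => ?_) (fun i => ?_) i <;>
    refine Fin.addCases (fun j => ?_) (fun j => ?_) j <;>
    refine Fin.addCases (fun l => ?_) (fun l => ?_) l
    · simpa [dsum] using h.1 i j l
    · simp [dsum]
    · simp [dsum]
    · simp [dsum]
    · simp [dsum]
    · simp [dsum]
    · simp [dsum]
    · simpa [dsum] using h'.1 i j l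
  · intro l
    refine Fin.addCases (fun l => ?_) (fun l => ?_) l
    · obtain ⟨E, hE, h1⟩ := h.2 l
      refine ⟨E.map ((Fin.castAddEmb _).prodMap (Fin.castAddEmb _)), by rwa [Finset.card_map], ?_⟩
      intro i j
      refine Fin.addCases (fun i => ?_) (fun i => ?_) i <;>
      refine Fin.addCases (fun j => ?_) (fun j => ?_) j
      · intro h2
        rw [Finset.mem_map]
        refine ⟨(i, j), h1 i j ?_, rfl⟩
        simpa [dsum] using h2
      · intro h2
        exact absurd (by simp [dsum]) h2
      · intro h2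
        exact absurd (by simp [dsum]) h2
      · intro h2
        exact absurd (by simp [dsum]) h2
    · obtain ⟨E, hE, h1⟩ := h'.2 l
      refine ⟨E.map ((Fin.natAddEmb _).prodMap (Fin.natAddEmb _)), by rwa [Finset.card_map], ?_⟩
      intro i j
      refine Fin.addCases (fun i => ?_) (fun i => ?_) i <;>
      refine Fin.addCases (fun j => ?_) (fun j => ?_) j
      · intro h2
        exact absurd (by simp [dsum]) h2
      · intro h2
        exact absurd (by simp [dsum]) h2
      · intro h2
        exact absurd (by simp [dsum]) h2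
      · intro h2
        rw [Finset.mem_map]
        refine ⟨(i, j), h1 i j ?_, rfl⟩
        simpa [dsum] using h2

open Classical in
/-- The coefficients of the system of the sets `E`. -/
noncomputable def ofSets (R : Type) [CommRing R] {a b c : ℕ} (E : Fin c → Finset (Fin a × Fin b)) :
    Fin a → Fin b → Fin c → R := fun i j l => if (i, j) ∈ E l then 1 else 0

lemma few_eq {a b c : ℕ} (E : Fin c → Finset (Fin a × Fin b)) (l : Fin c) :
    few R (E l) = bform (ofSets R E) l := by
  classical
  change ∑ e ∈ E l, X (Sum.inl e.1) * X (Sum.inr e.2) =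
    ∑ i, ∑ j, C (ofSets R E i j l) * X (Sum.inl i) * X (Sum.inr j)
  rw [← Finset.sum_product' Finset.univ Finset.univ
    fun i j => C (ofSets R E i j l) * X (Sum.inl i) * X (Sum.inr j)]
  rw [Finset.univ_product_univ, ← Finset.sum_subset (Finset.subset_univ (E l))]
  · refine Finset.sum_congr rfl fun e he => ?_
    have h1 : ofSets R E e.1 e.2 l = 1 := if_pos he
    rw [h1, map_one, one_mul]
  · intro e _ he
    have h1 : ofSets R E e.1 e.2 l = 0 := if_neg he
    rw [h1, map_zero, zero_mul, zero_mul]

lemma sysS_eq {a b c : ℕ} (E : Fin c → Finset (Fin a × Fin b)) :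
    sysS R E = bilS (ofSets R E) := by
  have h : (fun l => few R (E l)) = bform (ofSets R E) := funext fun l => few_eq E l
  unfold sysS bilS
  rw [h]

lemma short_ofSets {a b c : ℕ} (E : Fin c → Finset (Fin a × Fin b)) (h : ∀ l, (E l).card ≤ 3) :
    Short (ofSets R E) := by
  classical
  refine ⟨fun i j l => ?_, fun l => ⟨E l, h l, fun i j hij => ?_⟩⟩
  · by_cases h1 : (i, j) ∈ E l
    · exact Or.inr (if_pos h1)
    · exact Or.inl (if_neg h1)
  · by_contra h1
    exact hij (if_neg h1)

/-- The hypersurface of a trilinear form with coefficients `0` and `1`. -/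
lemma tripS_eq {a b c : ℕ} (t : Fin a → Fin b → Fin c → R) (h : ∀ i j l, t i j l = 0 ∨ t i j l = 1) :
    ∃ H : Finset (Fin a × Fin b × Fin c), hypS t = tripS R H := by
  classical
  let H : Finset (Fin a × Fin b × Fin c) := Finset.univ.filter fun h => t h.1 h.2.1 h.2.2 = 1
  have h1 : t = fun i j k => if (i, j, k) ∈ H then (1 : R) else 0 := by
    funext i j k
    have hm : (i, j, k) ∈ H ↔ t i j k = 1 := by
      rw [Finset.mem_filter]
      exact ⟨fun h => h.2, fun h => ⟨Finset.mem_univ _, h⟩⟩
    by_cases h2 : t i j k = 1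
    · rw [if_pos (hm.mpr h2), h2]
    · rw [if_neg fun h3 => h2 (hm.mp h3)]
      rcases h i j k with h3 | h3
      · exact h3
      · exact absurd h3 h2
  refine ⟨H, ?_⟩
  unfold tripS Trip
  rw [← tri_ind, ← h1]
  rfl

end Pool.Agent.N882.UE
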