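import Pool.Agent.N882.UE.Tb
import Pool.Agent.N882.UE.Bil

/-!
# Cycle class maps of singular varieties and regulators of degree one of smooth hypersurfaces
-/

set_option autoImplicit false

open CategoryTheory AlgebraicGeometry MvPolynomial

namespace Pool.Agent.N882.UE

open Pool.Agent.Y116.UV Pool.Agent.W495.FM Pool.Agent.Z125.UN Pool.Agent.Q282.UK

noncomputable section

variable {k Ω : Type} [Field k] [Field Ω] (T : Homology k Ω)

/-- In degree `i`, twist `j`, the image of the regulator of `X` spans the Frobenius invariant elements,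
and the eigenvalue one of the Frobenius is semisimple. -/
def OntoAt (X : Sch k) (i j : ℤ) : Prop :=
  (∀ e, T.frob X i j e = e → e ∈ Submodule.span Ω (Set.range (T.reg X i j))) ∧
    ∀ e, T.frob X i j (T.frob X i j e - e) = T.frob X i j e - e → T.frob X i j e = e

/-- For all `j` the regulator `CH_j(X, 1) ⊗ ℚ_ℓ → H_(2j+1)(X, ℚ_ℓ(j))^G` is surjective and the cycle
class map `CH_j(X) ⊗ ℚ_ℓ → H_(2j)(X, ℚ_ℓ(j))^G` is bijective (both with coefficients `Ω`, and the
eigenvalue one of the Frobenius on the two spaces is semisimple). -/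
def Kone (X : Sch k) : Prop :=
  ∀ j : ℤ, OntoAt T X (2 * j + 1) j ∧ OntoAt T X (2 * j) j ∧
    ∀ (r : ℕ) (x : Fin r → T.M X (2 * j) j), LinearIndependent ℚ x →
      LinearIndependent Ω fun l => T.reg X (2 * j) j (x l)

variable [CharZero Ω] {T}

/-- The five lemma with weaker assumptions. -/
theorem five' {A₁ A₂ A₃ A₄ A₅ : Node Ω} (a₁ : Arrow A₁ A₂) (a₂ : Arrow A₂ A₃) (a₃ : Arrow A₃ A₄)
    (a₄ : Arrow A₄ A₅) (e₁ : Function.Exact a₁.f a₂.f) (e₂ : Function.Exact a₂.f a₃.f)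
    (e₃ : Function.Exact a₃.f a₄.f) (e₁' : Function.Exact a₁.g a₂.g)
    (e₂' : Function.Exact a₂.g a₃.g) (e₃' : Function.Exact a₃.g a₄.g)
    (h₁ : NOnto A₁) (h₂ : A₂.Good) (h₄ : A₄.Good) (h₅ : A₅.Good) : A₃.Good := by
  have t₁ := a₁.exact_ten a₂ e₁
  have t₂ := a₂.exact_ten a₃ e₂
  have t₃ := a₃.exact_ten a₄ e₃
  constructor
  · rw [injective_iff_map_eq_zero]
    intro t ht
    have h1 : a₃.ten t = 0 := by
      apply h₄.1
      rw [a₃.lam_ten, ht, map_zero, map_zero]
    obtain ⟨u, rfl⟩ := (t₂ t).1 h1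
    have h2 : a₂.g (A₂.lam u) = 0 := by rw [← a₂.lam_ten, ht]
    obtain ⟨v, hv, hv'⟩ := a₁.fitting a₂ e₁' _ (A₂.inG_lam u) h2
    obtain ⟨w, rfl⟩ := h₁ v hv
    rw [← a₁.lam_ten] at hv'
    have h3 := h₂.1 hv'
    rw [← h3]
    exact (t₁ _).2 ⟨w, rfl⟩
  · intro e he
    obtain ⟨u, hu⟩ := h₄.2 _ (a₃.inG he)
    have h1 : a₄.ten u = 0 := by
      apply h₅.1
      rw [a₄.lam_ten, hu, map_zero]
      exact (e₃' _).2 ⟨e, rfl⟩
    obtain ⟨t, rfl⟩ := (t₃ u).1 h1
    rw [a₃.lam_ten] at hu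
    have h2 : a₃.g (e + -A₃.lam t) = 0 := by
      rw [map_add, map_neg, hu, add_neg_cancel]
    obtain ⟨v, hv, hv'⟩ := a₂.fitting a₃ e₂' _ (he.add (A₃.inG_lam t).neg) h2
    obtain ⟨w, rfl⟩ := h₂.2 v hv
    refine ⟨t + a₂.ten w, ?_⟩
    rw [map_add, a₂.lam_ten, hv']
    abel

theorem ontoAt_iff (hT : IsTheory T) (X : Sch k) (i j : ℤ) :
    OntoAt T X i j ↔ NOnto (node hT X i j) := by
  rw [nonto_iff]
  exact Iff.rfl

theorem kone_iff (hT : IsTheory T) (X : Sch k) : Kone T X ↔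
    ∀ j, NOnto (node hT X (2 * j + 1) j) ∧ (node hT X (2 * j) j).Good := by
  refine forall_congr' fun j => ?_
  rw [ontoAt_iff hT, ontoAt_iff hT]
  refine and_congr Iff.rfl ⟨fun h => ?_, fun h => ⟨h.2, ((Node.good_iff _).1 h).2.1⟩⟩
  have h1 := (nonto_iff _).1 h.1
  rw [Node.good_iff]
  refine ⟨fun e => ⟨h1.1 e, fun he => ?_⟩, h.2, h1.2⟩
  obtain ⟨t, rfl⟩ := (mem_span _ _).1 he
  exact Node.φ_lam _ t

/-- Direct factors. -/
theorem kone_factor (hT : IsTheory T) {X Y : Sch k} {r : ℤ} (h : IsFactor T X Y r)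
    (hY : Kone T Y) : Kone T X := by
  rw [kone_iff hT] at hY ⊢
  intro j
  constructor
  · intro e he
    obtain ⟨s, t, h1, h2⟩ := h (2 * j + 1) j
    have h4 := (hY (j + r)).1
    have h5 : 2 * (j + r) + 1 = 2 * j + 1 + 2 * r := by ring
    rw [h5] at h4
    obtain ⟨u, hu⟩ := h4 _ ((s.arr hT).inG he)
    refine ⟨(t.arr hT).ten u, ?_⟩
    rw [(t.arr hT).lam_ten, hu]
    exact h2 e
  · obtain ⟨s, t, h1, h2⟩ := h (2 * j) j
    have h4 := (hY (j + r)).2
    have h5 : 2 * (j + r) = 2 * j + 2 * r := by ring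
    rw [h5] at h4
    exact good_retract (s.arr hT) (t.arr hT) h1 h2 h4

/-- Localisation: the closed subscheme and its complement in a scheme with `TB`. -/
theorem kone_complement (hT : IsTheory T) (hW : HasWeights T) {Z X U : Sch k}
    (h : Localization T Z X U) (hX : TB T X) : Onto T Z ↔ Kone T U := by
  rw [onto_iff hT, kone_iff hT]
  rw [tb_iff hT] at hX
  constructor
  · intro hZ j
    obtain ⟨a, b, d, h⟩ := h j
    refine ⟨?_, ?_⟩
    · exact four ((b (2 * j + 1)).arr hT) ((d (2 * j)).arr hT) ((a (2 * j)).arr hT)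
        (h (2 * j)).2.2.1 (h (2 * j)).2.1.2 (h (2 * j)).2.2.2 (hX _ _).2 (hZ j) (hX _ _)
    · have hZ := hZ j
      obtain ⟨n, hn⟩ : ∃ n, 2 * j = n + 1 := ⟨2 * j - 1, by ring⟩
      have hlt : n < 2 * j := by omega
      rw [hn] at hZ ⊢
      exact five' ((a (n + 1)).arr hT) ((b (n + 1)).arr hT) ((d n).arr hT) ((a n).arr hT)
        (h (n + 1)).1.1 (h n).2.1.1 (h n).2.2.1 (h (n + 1)).1.2 (h n).2.1.2 (h n).2.2.2
        hZ (hX _ _) (good_below hT hW Z hlt) (hX _ _)
  · intro hU j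
    obtain ⟨a, b, d, h⟩ := h j
    exact four ((d (2 * j)).arr hT) ((a (2 * j)).arr hT) ((b (2 * j)).arr hT)
      (h (2 * j)).1.1 (h (2 * j)).2.2.2 (h (2 * j)).1.2 (hU j).1 (hX _ _).2 (hU j).2

/-- The zero set of `f` and Jouanolou's affine bundle over its complement. -/
theorem onto_jou (hT : IsTheory T) (hW : HasWeights T) {A : Type} [CommRing A] [Algebra k A]
    [Algebra.FiniteType k A] {m : ℕ} (f : Fin m → A) (hA : TB T (aff k A)) :
    Onto T (aff k (A ⧸ Ideal.span (Set.range f))) ↔ Kone T (aff k (Jou f)) := by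
  have ht : IsTriple (affMap (R := k) (Ideal.Quotient.mkₐ k (Ideal.span (Set.range f))))
      (opnMap (aff k A) (neOpen k f)) := by
    refine ⟨closed_affMap _ (Ideal.Quotient.mkₐ_surjective k _), inferInstance, ?_⟩
    rw [range_affMap _ (Ideal.Quotient.mkₐ_surjective k _), range_opnMap]
    ext x
    change (∀ a, Ideal.Quotient.mk (Ideal.span (Set.range f)) a = 0 → a ∈ x.asIdeal) ↔
      ¬ ∃ l, f l ∉ x.asIdeal
    push Not
    constructor
    · intro h l
      exact h (f l) (Ideal.Quotient.eq_zero_iff_mem.mpr (Ideal.subset_span ⟨l, rfl⟩))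
    · intro h a ha
      rw [Ideal.Quotient.eq_zero_iff_mem] at ha
      refine (Ideal.span_le.mpr ?_ : Ideal.span (Set.range f) ≤ x.asIdeal) ha
      rintro _ ⟨l, rfl⟩
      exact h l
  rw [kone_complement hT hW (hT.localization _ _ (ft_aff True) ht) hA]
  obtain ⟨h2, h3⟩ := hT.bundle A m f (opn (aff k A) (neOpen k f)) (opnMap (aff k A) (neOpen k f))
    inferInstance (range_opnMap _ _)
  exact ⟨kone_factor hT h2, kone_factor hT h3⟩

theorem kone_alg (hT : IsTheory T) {A B : Type} [CommRing A] [CommRing B] [Algebra k A]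
    [Algebra k B] [Algebra.FiniteType k A] (e : A ≃ₐ[k] B) (h : Kone T (aff k A)) :
    Kone T (aff k B) :=
  kone_factor hT (hT.iso (ft_aff True) ⟨(affIso e).symm⟩) h

/-- The properties of the class of schemes with surjective cycle class maps. -/
theorem clo_onto (hT : IsTheory T) (hW : HasWeights T) : Clo True (Onto T) where
  iso := fun hX e h2 => onto_factor hT (hT.iso hX e) h2
  total := fun i j hX ht hZ hU => onto_total hT hW (hT.localization i j hX ht) hZ hU
  opened := fun i j hX ht _ hX' => onto_opened hT hW (hT.localization i j hX ht) hX'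
  torus := fun B _ _ _ h2 => onto_factor hT (hT.torus B) h2

/-- The systems of bilinear equations and the hypersurfaces of trilinear forms. -/
theorem onto_hyp (hT : IsTheory T) (hW : HasWeights T) (h1 : TB T (aff k k)) {a b c : ℕ}
    (t : Fin a → Fin b → Fin c → k) : Onto T (bilS t) ↔ Kone T (hypS t) := by
  let t' : Fin c → Fin a → Fin b → k := fun l i j => t i j l
  have hB := bnd_tb hT h1
  have hA : TB T (aff k (MvPolynomial (Fin a ⊕ Fin b) k)) :=
    iso_alg hB.toUni (renameEquiv k (Fintype.equivFin (Fin a ⊕ Fin b)).symm) (hB.space _)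
  have h : bform t = bl t' := funext fun l => bform_eq t l
  have h3 : Onto T (bilS t) ↔ Kone T (aff k (Jou (bl t'))) := by
    unfold bilS
    rw [h]
    exact onto_jou hT hW (bl t') hA
  have h4 : Algebra.FiniteType k (Jou (bl t')) :=
    Algebra.FiniteType.trans (S := MvPolynomial (Fin a ⊕ Fin b) k) inferInstance inferInstance
  have e1 : Hyp t' ≃ₐ[k] Hyp fun i l j => t' l i j := swapL t'
  have e2 : (Hyp fun i l j => t' l i j) ≃ₐ[k] Hyp t := swapR fun i l j => t' l i j
  have e3 : Hyp t' ≃ₐ[k] Jou (bl t') := hypEquiv t'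
  rw [h3]
  exact ⟨kone_alg hT (e3.symm.trans (e1.trans e2)), kone_alg hT ((e3.symm.trans (e1.trans e2)).symm)⟩

end

end Pool.Agent.N882.UE
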