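import Pool.Agent.N882.UE.OpnDim

/-!
# Principal open subschemes of affine spaces are smooth
-/

set_option autoImplicit false

open CategoryTheory AlgebraicGeometry MvPolynomial

namespace Pool.Agent.N882.UE

open Pool.Agent.Y116.UV Pool.Agent.Z125.UN

lemma smooth_opnS {k : Type} [Field k] {σ : Type} [Finite σ] {r : ℕ}
    (f : Fin r → MvPolynomial σ k) : Smooth (opnS f).hom := by
  have h1 : Algebra.Smooth k (MvPolynomial σ k) := {}
  have h2 : Algebra.Smooth (MvPolynomial σ k) (Localization.Away (∏ l, f l)) :=
    Algebra.Smooth.of_isLocalization_Away (∏ l, f l)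
  exact smooth_aff (Algebra.Smooth.comp k (MvPolynomial σ k) (Localization.Away (∏ l, f l)))

lemma ft_opnS {k : Type} [CommRing k] {σ : Type} [Finite σ] {r : ℕ} {sep : Prop}
    (f : Fin r → MvPolynomial σ k) : FT sep (opnS f) := by
  have hf : Algebra.FiniteType k (Localization.Away (∏ l, f l)) :=
    Algebra.FiniteType.trans (S := MvPolynomial σ k) inferInstance inferInstance
  exact ft_aff sep

end Pool.Agent.N882.UE
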