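import Pool.Agent.R904.TR.Res
import Pool.Agent.N882.UE.OpnSmooth
import Pool.Agent.N882.UE.Dens
import Pool.Agent.N882.UE.K1

/-!
# Finite generation of K'-groups, degree by degree
-/

set_option autoImplicit false

open CategoryTheory CategoryTheory.Limits AlgebraicGeometry MvPolynomial

namespace Pool.Agent.N882.UE

open Pool.Agent.R904.CU Pool.Agent.R904.TR Pool.Agent.Y116.UV Pool.Agent.Z125.UN Pool.Agent.Q282.UK
  Pool.Agent.Q282.UZ

/-- The groups `K'_m(X)` are finitely generated for `m ≤ n`. -/
def UpTo (K : KThy) (n : ℕ) (X : Scheme.{0}) : Prop := ∀ m : ℕ, m ≤ n → AddGroup.FG (K.G m X)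

/-- `K'_0(A[t, 1/t]) = K'_0(A)`. -/
def Laurent0 (K : KThy) : Prop := ∀ (A : Type) [CommRing A] [Algebra.FiniteType ℤ A],
  Nonempty (K.G 0 (laurS A) ≃+ K.G 0 (sp A))

section

variable {R : Type} [CommRing R] [hR : Algebra.FiniteType ℤ R] (K : KThy) (sep : Prop) (n : ℕ)

include hR

/-- Closure properties of finite generation in degrees at most `n`. -/
theorem clo_upTo (hK : Laurent0 K) : Clo sep fun X : Sch R => UpTo K n X.left where
  iso {X Y} h e hX m hm := by
    obtain ⟨e⟩ := e
    exact fg_equiv (K.iso m _ _ ((Over.forget _).mapIso e)) (hX m hm)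
  total {Z X U} i j h ht hZ hU m hm := by
    obtain ⟨a, b, d, h1, h2, h3, -⟩ := K.localization X.left Z.left U.left _ i.left j.left
      (ft_int h) ht.closed ht.opened ht.compl
    exact fg_exact (a m) (b m) (h1 m) (hZ m hm) (hU m hm)
  opened {Z X U} i j h ht hZ hX m hm := by
    obtain ⟨a, b, d, h1, h2, h3, h4⟩ := K.localization X.left Z.left U.left _ i.left j.left
      (ft_int h) ht.closed ht.opened ht.compl
    cases m with
    | zero =>
      have := hX 0 hm
      exact AddGroup.fg_of_surjective h4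
    | succ m => exact fg_exact (b (m + 1)) (d m) (h2 m) (hX (m + 1) hm) (hZ m (by omega))
  torus A _ _ _ h m hm := by
    have := ft_trans (R := R) A
    cases m with
    | zero => exact fg_equiv (hK A) (h 0 hm)
    | succ m =>
      obtain ⟨e⟩ := K.laurent m A
      have h1 : AddGroup.FG (K.G (m + 1) (Spec (.of (LaurentPolynomial A)))) := h (m + 1) hm
      refine AddGroup.fg_of_surjective (f := (AddMonoidHom.fst (K.G (m + 1) (Spec (.of A)))
        (K.G m (Spec (.of A)))).comp e.toAddMonoidHom) (fun y => ⟨e.symm (y, 0), ?_⟩)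
      change (e (e.symm (y, 0))).1 = y
      rw [e.apply_symm_apply]

/-- The zero set of `f` and Jouanolou's affine bundle over its complement. -/
theorem upTo_jou {A : Type} [CommRing A] [Algebra R A] [Algebra.FiniteType R A] {m : ℕ}
    (f : Fin m → A) (hA : K.Fin (aff R A).left) :
    UpTo K n (aff R (A ⧸ Ideal.span (Set.range f))).left ↔ UpTo K (n + 1) (aff R (Jou f)).left := by
  have ht : IsTriple (affMap (R := R) (Ideal.Quotient.mkₐ R (Ideal.span (Set.range f))))
      (opnMap (aff R A) (neOpen R f)) := by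
    refine ⟨closed_affMap _ (Ideal.Quotient.mkₐ_surjective R _), inferInstance, ?_⟩
    rw [range_affMap _ (Ideal.Quotient.mkₐ_surjective R _), range_opnMap]
    ext x
    change (∀ a, Ideal.Quotient.mk (Ideal.span (Set.range f)) a = 0 → a ∈ x.asIdeal) ↔
      ¬ ∃ l, f l ∉ x.asIdeal
    push Not
    constructor
    · intro h l
      exact h (f l) (Ideal.Quotient.eq_zero_iff_mem.mpr (Ideal.subset_span ⟨l, rfl⟩))
    · intro h a ha
      rw [Ideal.Quotient.eq_zero_iff_mem] at ha
      refine (Ideal.span_le.mpr ?_ : Ideal.span (Set.range f) ≤ x.asIdeal) ha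
      rintro _ ⟨l, rfl⟩
      exact h l
  have hft : FT False (aff R A) := ft_aff False
  obtain ⟨a, b, d, h1, h2, h3, h4⟩ := K.localization _ _ _ _ _ _
    (ft_int hft) ht.closed ht.opened ht.compl
  have := ft_trans (R := R) A
  have hb : ∀ i, Nonempty (K.G i (opn (aff R A) (neOpen R f)).left ≃+ K.G i (jouS f)) :=
    fun i => K.bundle i A m f _ (opnMap (aff R A) (neOpen R f)).left
      ⟨ht.opened, range_opnMap _ _⟩
  constructor
  · intro hZ i hi
    refine fg_equiv (hb i) ?_
    cases i with
    | zero =>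
      have := hA 0
      exact AddGroup.fg_of_surjective h4
    | succ i => exact fg_exact (b (i + 1)) (d i) (h2 i) (hA (i + 1)) (hZ i (by omega))
  · intro hU i hi
    obtain ⟨e⟩ := hb (i + 1)
    exact fg_exact (d i) (a i) (h3 i) (fg_equiv ⟨e.symm⟩ (hU (i + 1) (by omega))) (hA i)

omit hR in
lemma upTo_alg {A B : Type} [CommRing A] [CommRing B] [Algebra R A] [Algebra R B] (e : A ≃ₐ[R] B)
    (h : UpTo K n (aff R A).left) : UpTo K n (aff R B).left := fun m hm =>
  fg_equiv (K.iso m _ _ ((Over.forget _).mapIso (affIso e).symm)) (h m hm)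

/-- The systems of bilinear equations and the hypersurfaces of trilinear forms. -/
theorem upTo_hyp (h0 : K.Fin (Spec (.of R))) {a b c : ℕ} (t : Fin a → Fin b → Fin c → R) :
    UpTo K n (bilS t).left ↔ UpTo K (n + 1) (hypS t).left := by
  let t' : Fin c → Fin a → Fin b → R := fun l i j => t i j l
  have hB := bnd K False h0
  have hA : K.Fin (aff R (MvPolynomial (Fin a ⊕ Fin b) R)).left :=
    iso_alg hB.toUni (renameEquiv R (Fintype.equivFin (Fin a ⊕ Fin b)).symm) (hB.space _)
  have h : bform t = bl t' := funext fun l => bform_eq t l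
  have h3 : UpTo K n (bilS t).left ↔ UpTo K (n + 1) (aff R (Jou (bl t'))).left := by
    unfold bilS
    rw [h]
    exact upTo_jou K n (bl t') hA
  have e1 : Hyp t' ≃ₐ[R] Hyp fun i l j => t' l i j := swapL t'
  have e2 : (Hyp fun i l j => t' l i j) ≃ₐ[R] Hyp t := swapR fun i l j => t' l i j
  have e3 : Hyp t' ≃ₐ[R] Jou (bl t') := hypEquiv t'
  rw [h3]
  exact ⟨upTo_alg K _ (e3.symm.trans (e1.trans e2)), upTo_alg K _ ((e3.symm.trans (e1.trans e2)).symm)⟩

end

/-- Principal opens of affine spaces over a regular ring are regular. -/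
theorem regular_opnS {R : Type} [CommRing R] [IsRegularRing R] {σ : Type} [Finite σ] {r : ℕ}
    (f : Fin r → MvPolynomial σ R) : IsRegularScheme (opnS f).left := by
  have h1 : IsRegularRing (MvPolynomial σ R) := inferInstance
  have h2 : IsRegularRing (Localization.Away (∏ l, f l)) :=
    isRegularRing_localization (MvPolynomial σ R) (Submonoid.powers (∏ l, f l)) _
  exact isRegularScheme_spec _

end Pool.Agent.N882.UE
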