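import Mathlib.LinearAlgebra.Dual.Lemmas
import Mathlib.LinearAlgebra.Basis.VectorSpace
import Mathlib.Algebra.Field.Subfield.Basic
import Mathlib.LinearAlgebra.Pi

/-!
# Subspaces which are rational for two rational structures
-/

set_option autoImplicit false
set_option linter.unusedSectionVars false

namespace Pool.Agent.N882.UE.BR

variable {E : Type} [Field E] {ι : Type} [Fintype ι]

/-- The subspace `W` of `E^ι` is rational for the structure over `k` formed by the vectors `u` such that
all coordinates `c i * u i` lie in `k`. -/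
def IsRat (k : Subfield E) (c : ι → E) (W : Submodule E (ι → E)) : Prop :=
  ∀ v ∈ W, v ∈ Submodule.span E {u : ι → E | u ∈ W ∧ ∀ i, c i * u i ∈ k}

/-- `i` and `j` are in the same class: the quotient of `c i` and `c j` lies in `k` -/
def Same (k : Subfield E) (c : ι → E) (i j : ι) : Prop := c i / c j ∈ k

variable {k : Subfield E} {c : ι → E} {W : Submodule E (ι → E)}

lemma apply_mem (hc : ∀ i, c i ≠ 0) (h : IsRat k c W) (φ : E →ₗ[k] E) {v : ι → E} (hv : v ∈ W) :
    (fun i => (c i)⁻¹ * φ (c i * v i)) ∈ W := by
  have key : ∀ v ∈ Submodule.span E {u : ι → E | u ∈ W ∧ ∀ i, c i * u i ∈ k}, ∀ x : E,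
      (fun i => (c i)⁻¹ * φ (c i * (x * v i))) ∈ W := by
    intro v hv
    induction hv using Submodule.span_induction with
    | mem u hu =>
      intro x
      have h1 : (fun i => (c i)⁻¹ * φ (c i * (x * u i))) = φ x • u := by
        funext i
        have h2 : c i * (x * u i) = (⟨c i * u i, hu.2 i⟩ : k) • x := by
          change _ = (c i * u i) * x
          ring
        rw [h2, map_smul]
        change (c i)⁻¹ * ((c i * u i) * φ x) = φ x * u i
        field_simp [hc i]
      rw [h1]
      exact W.smul_mem _ hu.1
    | zero =>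
      intro x
      have : (fun i => (c i)⁻¹ * φ (c i * (x * (0 : ι → E) i))) = 0 := by
        funext i
        simp
      rw [this]
      exact W.zero_mem
    | add u w _ _ hu hw =>
      intro x
      have : (fun i => (c i)⁻¹ * φ (c i * (x * (u + w) i))) =
          (fun i => (c i)⁻¹ * φ (c i * (x * u i))) + fun i => (c i)⁻¹ * φ (c i * (x * w i)) := by
        funext i
        rw [Pi.add_apply, Pi.add_apply, mul_add, mul_add, map_add, mul_add]
      rw [this]
      exact W.add_mem (hu x) (hw x)
    | smul a u _ hu =>
      intro x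
      have : (fun i => (c i)⁻¹ * φ (c i * (x * (a • u) i))) =
          fun i => (c i)⁻¹ * φ (c i * ((x * a) * u i)) := by
        funext i
        rw [Pi.smul_apply, smul_eq_mul, mul_assoc]
      rw [this]
      exact hu _
  have := key v (h v hv) 1
  simpa only [one_mul] using this

lemma diag_mem (hc : ∀ i, c i ≠ 0) (h : IsRat k c W) (h1 : IsRat k (1 : ι → E) W)
    (φ : E →ₗ[k] E) {v : ι → E} (hv : v ∈ W) : (fun i => (c i)⁻¹ * φ (c i) * v i) ∈ W := by
  have key : ∀ v ∈ Submodule.span E {u : ι → E | u ∈ W ∧ ∀ i, (1 : ι → E) i * u i ∈ k},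
      (fun i => (c i)⁻¹ * φ (c i) * v i) ∈ W := by
    intro v hv
    induction hv using Submodule.span_induction with
    | mem u hu =>
      have h2 := apply_mem hc h φ hu.1
      have h3 : (fun i => (c i)⁻¹ * φ (c i) * u i) = fun i => (c i)⁻¹ * φ (c i * u i) := by
        funext i
        have h4 : c i * u i = (⟨(1 : ι → E) i * u i, hu.2 i⟩ : k) • c i := by
          change _ = ((1 : ι → E) i * u i) * c i
          rw [Pi.one_apply]
          ring
        rw [h4, map_smul]
        change _ = (c i)⁻¹ * (((1 : ι → E) i * u i) * φ (c i))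
        rw [Pi.one_apply]
        ring
      rwa [h3]
    | zero =>
      have : (fun i => (c i)⁻¹ * φ (c i) * (0 : ι → E) i) = 0 := by
        funext i
        simp
      rw [this]
      exact W.zero_mem
    | add u w _ _ hu hw =>
      have : (fun i => (c i)⁻¹ * φ (c i) * (u + w) i) =
          (fun i => (c i)⁻¹ * φ (c i) * u i) + fun i => (c i)⁻¹ * φ (c i) * w i := by
        funext i
        rw [Pi.add_apply, Pi.add_apply, mul_add]
      rw [this]
      exact W.add_mem hu hw
    | smul a u _ hu =>
      have : (fun i => (c i)⁻¹ * φ (c i) * (a • u) i) =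
          a • fun i => (c i)⁻¹ * φ (c i) * u i := by
        funext i
        rw [Pi.smul_apply, Pi.smul_apply, smul_eq_mul, smul_eq_mul]
        ring
      rw [this]
      exact W.smul_mem _ hu
  exact key v (h1 v hv)

lemma exists_fun {x y : E} (hy : y ≠ 0) (h : x / y ∉ k) (hx : x ≠ 0) :
    ∃ φ : E →ₗ[k] E, φ y = y ∧ φ x = 0 := by
  have h1 : y ∉ Submodule.span k {x} := by
    intro h2
    obtain ⟨a, ha⟩ := Submodule.mem_span_singleton.mp h2
    apply h
    have h3 : (a : E) * x = y := ha
    have h4 : x / y = (a : E)⁻¹ := by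
      rw [← h3]
      have : (a : E) ≠ 0 := by
        intro h5
        rw [h5, zero_mul] at h3
        exact hy h3.symm
      field_simp
    rw [h4]
    exact k.inv_mem a.2
  obtain ⟨f, hf, hf'⟩ := Submodule.exists_dual_map_eq_bot_of_notMem h1 inferInstance
  have h2 : f x = 0 := by
    have : f x ∈ (Submodule.span k {x}).map f := ⟨x, Submodule.mem_span_singleton_self x, rfl⟩
    rw [hf'] at this
    exact (Submodule.mem_bot k).mp this
  refine ⟨(LinearMap.toSpanSingleton k E y) ∘ₗ ((f y)⁻¹ • f), ?_, ?_⟩
  · change ((f y)⁻¹ • f) y • y = y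
    rw [LinearMap.smul_apply, smul_eq_mul, inv_mul_cancel₀ hf, one_smul]
  · change ((f y)⁻¹ • f) x • y = 0
    rw [LinearMap.smul_apply, h2, smul_zero, zero_smul]

lemma same_apply (hc : ∀ i, c i ≠ 0) (φ : E →ₗ[k] E) {i j : ι} (h : Same k c i j)
    (hj : φ (c j) = c j) : φ (c i) = c i := by
  have h1 : c i = (⟨c i / c j, h⟩ : k) • c j := by
    change _ = c i / c j * c j
    rw [div_mul_cancel₀ _ (hc j)]
  rw [h1, map_smul, hj]

open Classical in
/-- a bi-rational subspace is stable under the projections to the classes -/
theorem class_mem (hc : ∀ i, c i ≠ 0) (h : IsRat k c W) (h1 : IsRat k (1 : ι → E) W) (j : ι)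
    {v : ι → E} (hv : v ∈ W) : (fun i => if Same k c i j then v i else 0) ∈ W := by
  have key : ∀ s : Finset ι, (∀ i ∈ s, ¬ Same k c i j) → ∃ d : ι → E,
      (∀ w ∈ W, (fun i => d i * w i) ∈ W) ∧ (∀ i, Same k c i j → d i = 1) ∧ ∀ i ∈ s, d i = 0 := by
    intro s
    induction s using Finset.induction_on with
    | empty =>
      intro _
      refine ⟨fun _ => 1, fun w hw => ?_, fun _ _ => rfl, by simp⟩
      simpa only [one_mul] using hw
    | insert a s _ ih =>
      intro hs
      obtain ⟨d, h2, h3, h4⟩ := ih fun i hi => hs i (Finset.mem_insert_of_mem hi)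
      obtain ⟨φ, h5, h6⟩ := exists_fun (hc j) (hs a (Finset.mem_insert_self _ _)) (hc a)
      refine ⟨fun i => (c i)⁻¹ * φ (c i) * d i, fun w hw => ?_, fun i hi => ?_, fun i hi => ?_⟩
      · have h7 := diag_mem hc h h1 φ (h2 w hw)
        have h8 : (fun i => (c i)⁻¹ * φ (c i) * d i * w i) =
            fun i => (c i)⁻¹ * φ (c i) * (d i * w i) := by
          funext i
          ring
        rwa [h8]
      · change (c i)⁻¹ * φ (c i) * d i = 1
        rw [h3 i hi, same_apply hc φ hi h5, inv_mul_cancel₀ (hc i), one_mul]
      · change (c i)⁻¹ * φ (c i) * d i = 0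
        rcases Finset.mem_insert.mp hi with rfl | hi
        · rw [h6, mul_zero, zero_mul]
        · rw [h4 i hi, mul_zero]
  obtain ⟨d, h2, h3, h4⟩ := key (Finset.univ.filter fun i => ¬ Same k c i j) (by simp)
  have h5 : (fun i => if Same k c i j then v i else 0) = fun i => d i * v i := by
    funext i
    split_ifs with h6
    · rw [h3 i h6, one_mul]
    · rw [h4 i (by simpa using h6), zero_mul]
  rw [h5]
  exact h2 v hv

/-- the subspace given by the equations `∑ a i * c i * v i = 0`, `a ∈ A` -/
def sol (c : ι → E) (A : Set (ι → k)) : Submodule E (ι → E) where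
  carrier := {v | ∀ a ∈ A, ∑ i, (a i : E) * (c i * v i) = 0}
  zero_mem' := fun a _ => Finset.sum_eq_zero fun i _ => by simp
  add_mem' := fun {u v} hu hv a ha => by
    have : ∀ i, (a i : E) * (c i * (u + v) i) = (a i : E) * (c i * u i) + (a i : E) * (c i * v i) := by
      intro i
      rw [Pi.add_apply]
      ring
    simp only [this, Finset.sum_add_distrib]
    rw [hu a ha, hv a ha, add_zero]
  smul_mem' := fun x u hu a ha => by
    have : ∀ i, (a i : E) * (c i * (x • u) i) = x * ((a i : E) * (c i * u i)) := by
      intro i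
      rw [Pi.smul_apply, smul_eq_mul]
      ring
    simp only [this, ← Finset.mul_sum]
    rw [hu a ha, mul_zero]

/-- decomposition of a vector into rational vectors -/
lemma decomp (hc : ∀ i, c i ≠ 0) (v : ι → E) : ∃ (n : ℕ) (x : Fin n → E) (y : Fin n → ι → k),
    (v = ∑ s, x s • fun i => (c i)⁻¹ * (y s i : E)) ∧
    ∀ a : ι → k, ∑ i, (a i : E) * (c i * v i) = 0 → ∀ s, ∑ i, a i * y s i = 0 := by
  classical
  let b := Module.Basis.ofVectorSpace k E
  let S : Finset (Module.Basis.ofVectorSpaceIndex k E) :=
    Finset.univ.biUnion fun i => (b.repr (c i * v i)).support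
  let e := S.equivFin
  have hsum : ∀ i, c i * v i = ∑ s ∈ S, ((b.repr (c i * v i) s : k) : E) * b s := by
    intro i
    have h1 := b.linearCombination_repr (c i * v i)
    rw [Finsupp.linearCombination_apply, Finsupp.sum] at h1
    rw [← Finset.sum_subset (Finset.subset_biUnion_of_mem
      (fun i => (b.repr (c i * v i)).support) (Finset.mem_univ i))]
    · exact h1.symm
    · intro s _ hs
      rw [Finsupp.notMem_support_iff.mp hs]
      simp
  refine ⟨S.card, fun s => b (e.symm s), fun s i => b.repr (c i * v i) (e.symm s), ?_, ?_⟩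
  · funext i
    rw [Finset.sum_apply]
    have h2 : v i = (c i)⁻¹ * (c i * v i) := by
      rw [← mul_assoc, inv_mul_cancel₀ (hc i), one_mul]
    refine (h2.trans (congrArg (fun x => (c i)⁻¹ * x) (hsum i))).trans ?_
    rw [Finset.mul_sum, ← Finset.sum_coe_sort S, ← e.symm.sum_comp]
    refine Finset.sum_congr rfl fun s _ => ?_
    change (c i)⁻¹ * _ = b (e.symm s) * ((c i)⁻¹ * _)
    ring
  · intro a ha s
    have h3 : b.repr (∑ i, (a i) • (c i * v i)) (e.symm s) = 0 := by
      have h4 : ∑ i, (a i) • (c i * v i) = 0 := ha
      rw [h4, map_zero, Finsupp.zero_apply]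
    rw [map_sum, Finsupp.finsetSum_apply] at h3
    simpa only [map_smul, Finsupp.smul_apply, smul_eq_mul] using h3

lemma sol_rat (hc : ∀ i, c i ≠ 0) (A : Set (ι → k)) : IsRat k c (sol c A) := by
  intro v hv
  obtain ⟨n, x, y, h1, h2⟩ := decomp (k := k) hc v
  rw [h1]
  refine Submodule.sum_mem _ fun s _ => Submodule.smul_mem _ _ (Submodule.subset_span ⟨?_, ?_⟩)
  · intro a ha
    have h3 := h2 a (hv a ha) s
    have h4 : ∀ i, (a i : E) * (c i * ((c i)⁻¹ * (y s i : E))) = ((a i * y s i : k) : E) := by
      intro i
      rw [← mul_assoc (c i), mul_inv_cancel₀ (hc i), one_mul]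
      rfl
    simp only [h4]
    have h5 := congrArg (fun z : k => (z : E)) h3
    simpa using h5
  · intro i
    have h4 : c i * ((c i)⁻¹ * (y s i : E)) = (y s i : E) := by
      rw [← mul_assoc (c i), mul_inv_cancel₀ (hc i), one_mul]
    rw [h4]
    exact (y s i).2

/-- the equations of `W` -/
def eqs (k : Subfield E) (c : ι → E) (W : Submodule E (ι → E)) : Set (ι → k) :=
  {a | ∀ u ∈ W, ∑ i, (a i : E) * (c i * u i) = 0}

lemma rat_sol (hc : ∀ i, c i ≠ 0) (h : IsRat k c W) {v : ι → E}
    (hv : ∀ a ∈ eqs k c W, ∑ i, (a i : E) * (c i * v i) = 0) : v ∈ W := by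
  classical
  obtain ⟨n, x, y, h1, h2⟩ := decomp (k := k) hc v
  let U : Submodule k (ι → k) :=
    { carrier := {y | (fun i => (c i)⁻¹ * (y i : E)) ∈ W}
      zero_mem' := by
        have : (fun i => (c i)⁻¹ * (((0 : ι → k) i : k) : E)) = 0 := by
          funext i
          simp
        change (fun i => (c i)⁻¹ * (((0 : ι → k) i : k) : E)) ∈ W
        rw [this]
        exact W.zero_mem
      add_mem' := by
        intro y z hy hz
        have : (fun i => (c i)⁻¹ * (((y + z) i : k) : E)) =
            (fun i => (c i)⁻¹ * (y i : E)) + fun i => (c i)⁻¹ * (z i : E) := by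
          funext i
          rw [Pi.add_apply, Pi.add_apply, Subfield.coe_add, mul_add]
        change (fun i => (c i)⁻¹ * (((y + z) i : k) : E)) ∈ W
        rw [this]
        exact W.add_mem hy hz
      smul_mem' := by
        intro a y hy
        have : (fun i => (c i)⁻¹ * (((a • y) i : k) : E)) =
            (a : E) • fun i => (c i)⁻¹ * (y i : E) := by
          funext i
          rw [Pi.smul_apply, Pi.smul_apply, smul_eq_mul, smul_eq_mul, Subfield.coe_mul]
          ring
        change (fun i => (c i)⁻¹ * (((a • y) i : k) : E)) ∈ W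
        rw [this]
        exact W.smul_mem _ hy }
  have h3 : ∀ s, y s ∈ U := by
    intro s
    by_contra h4
    obtain ⟨f, hf, hf'⟩ := Submodule.exists_dual_map_eq_bot_of_notMem h4 inferInstance
    let a : ι → k := fun i => f (Pi.single i 1)
    have hfa : ∀ z : ι → k, f z = ∑ i, a i * z i := by
      intro z
      conv_lhs => rw [← Finset.univ_sum_single z]
      rw [map_sum]
      refine Finset.sum_congr rfl fun i _ => ?_
      have : (Pi.single i (z i) : ι → k) = z i • Pi.single i 1 := by
        rw [← Pi.single_smul, smul_eq_mul, mul_one]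
      rw [this, map_smul, smul_eq_mul, mul_comm]
    have ha : a ∈ eqs k c W := by
      intro u hu
      have key : ∀ u ∈ Submodule.span E {u : ι → E | u ∈ W ∧ ∀ i, c i * u i ∈ k},
          u ∈ sol c ({a} : Set (ι → k)) := by
        intro u hu
        refine Submodule.span_le.mpr ?_ hu
        intro w hw b hb
        rw [Set.mem_singleton_iff.mp hb]
        let z : ι → k := fun i => ⟨c i * w i, hw.2 i⟩
        have hz : z ∈ U := by
          have : (fun i => (c i)⁻¹ * (z i : E)) = w := by
            funext i
            change (c i)⁻¹ * (c i * w i) = w i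
            rw [← mul_assoc, inv_mul_cancel₀ (hc i), one_mul]
          change (fun i => (c i)⁻¹ * (z i : E)) ∈ W
          rw [this]
          exact hw.1
        have h5 : f z = 0 := by
          have : f z ∈ U.map f := ⟨z, hz, rfl⟩
          rw [hf'] at this
          exact (Submodule.mem_bot k).mp this
        rw [hfa] at h5
        have h6 := congrArg (fun z : k => (z : E)) h5
        simpa using h6
      exact key u (h u hu) a rfl
    apply hf
    rw [hfa]
    exact h2 a (hv a ha) s
  rw [h1]
  exact Submodule.sum_mem _ fun s _ => W.smul_mem _ (h3 s)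

lemma same_refl (hc : ∀ i, c i ≠ 0) (i : ι) : Same k c i i := by
  change c i / c i ∈ k
  rw [div_self (hc i)]
  exact k.one_mem

lemma same_symm {i j : ι} (h : Same k c i j) : Same k c j i := by
  change c j / c i ∈ k
  rw [← inv_div]
  exact k.inv_mem h

lemma same_trans (hc : ∀ i, c i ≠ 0) {i j l : ι} (h : Same k c i j) (h' : Same k c j l) :
    Same k c i l := by
  change c i / c l ∈ k
  have : c i / c l = c i / c j * (c j / c l) := by
    have := hc j
    field_simp
  rw [this]
  exact k.mul_mem h h'

open Classical in
/-- a sum is zero if the sums over the classes are zero -/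
lemma sum_classes (hc : ∀ i, c i ≠ 0) (x : ι → E)
    (h : ∀ j, ∑ i, (if Same k c i j then x i else 0) = 0) : ∑ i, x i = 0 := by
  let st : Setoid ι := ⟨fun i j => Same k c i j, fun i => same_refl hc i, fun h => same_symm h,
    fun h h' => same_trans hc h h'⟩
  rw [← Finset.sum_fiberwise (Finset.univ : Finset ι) (fun i => (Quotient.mk st i)) x]
  refine Finset.sum_eq_zero fun q _ => ?_
  obtain ⟨j, rfl⟩ := Quotient.exists_rep q
  rw [← h j, Finset.sum_filter]
  refine Finset.sum_congr rfl fun i _ => ?_
  have : (Quotient.mk st i = Quotient.mk st j) ↔ Same k c i j := Quotient.eq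
  simp only [this]

open Classical in
/-- every relation over `k` between the numbers `c i * z i` is a sum of relations in the classes -/
def Splits (k : Subfield E) (c z : ι → E) : Prop :=
  ∀ a : ι → k, ∑ i, (a i : E) * (c i * z i) = 0 →
    ∀ j, ∑ i, (if Same k c i j then (a i : E) * (c i * z i) else 0) = 0

open Classical in
theorem splits_iff (hc : ∀ i, c i ≠ 0) (z : ι → E) :
    (∀ V : Submodule E (ι → E), IsRat k c V → z ∈ V → ∃ V' : Submodule E (ι → E), V' ≤ V ∧
      IsRat k c V' ∧ IsRat k (1 : ι → E) V' ∧ z ∈ V') ↔ Splits k c z := by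
  constructor
  · intro h a ha j
    obtain ⟨V', h1, h2, h3, h4⟩ := h (sol c {a}) (sol_rat hc _) (by
      intro b hb
      rw [Set.mem_singleton_iff.mp hb]
      exact ha)
    have h5 := h1 (class_mem hc h2 h3 j h4) a rfl
    refine Eq.trans (Finset.sum_congr rfl fun i _ => ?_) h5
    split_ifs
    · rfl
    · rw [mul_zero, mul_zero]
  · intro h V hV hz
    let A : Set (ι → k) := {b | ∃ a ∈ eqs k c V, ∃ j, ∀ i, b i = if Same k c i j then a i else 0}
    have hsplit : ∀ (a : ι → k) (v : ι → E) (j : ι) (b : ι → k),
        (∀ i, b i = if Same k c i j then a i else 0) →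
        ∑ i, (b i : E) * (c i * v i) =
          ∑ i, (if Same k c i j then (a i : E) * (c i * v i) else 0) := by
      intro a v j b hb
      refine Finset.sum_congr rfl fun i _ => ?_
      rw [hb i]
      split_ifs
      · rfl
      · rw [Subfield.coe_zero, zero_mul]
    have hr : IsRat k (1 : ι → E) (sol c A) := by
      let A' : Set (ι → k) := {b | ∃ a ∈ eqs k c V, ∃ j, ∀ i,
        (b i : E) = if Same k c i j then (a i : E) * (c i / c j) else 0}
      have h1 : sol c A = sol (1 : ι → E) A' := by
        apply le_antisymm
        · rintro v hv b' ⟨a, ha, j, hb'⟩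
          have h2 := hv (fun i => if Same k c i j then a i else 0) ⟨a, ha, j, fun _ => rfl⟩
          rw [hsplit a v j _ fun _ => rfl] at h2
          have h3 : ∀ i, (b' i : E) * ((1 : ι → E) i * v i) =
              (c j)⁻¹ * (if Same k c i j then (a i : E) * (c i * v i) else 0) := by
            intro i
            rw [hb' i, Pi.one_apply]
            split_ifs
            · rw [div_eq_mul_inv]
              ring
            · rw [zero_mul, mul_zero]
          simp only [h3, ← Finset.mul_sum]
          rw [h2, mul_zero]
        · rintro v hv b ⟨a, ha, j, hb⟩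
          rw [hsplit a v j b hb]
          let b' : ι → k := fun i => if h : Same k c i j then a i * ⟨c i / c j, h⟩ else 0
          have hb' : ∀ i, (b' i : E) = if Same k c i j then (a i : E) * (c i / c j) else 0 := by
            intro i
            change (((if h : Same k c i j then a i * ⟨c i / c j, h⟩ else 0) : k) : E) = _
            split_ifs
            · rfl
            · rfl
          have h2 := hv b' ⟨a, ha, j, hb'⟩
          have h3 : ∀ i, (if Same k c i j then (a i : E) * (c i * v i) else 0) =
              c j * ((b' i : E) * ((1 : ι → E) i * v i)) := by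
            intro i
            rw [hb' i, Pi.one_apply]
            have := hc j
            split_ifs
            · field_simp
            · rw [zero_mul, mul_zero]
          simp only [h3, ← Finset.mul_sum]
          rw [h2, mul_zero]
      rw [h1]
      exact sol_rat (fun _ => one_ne_zero) A'
    refine ⟨sol c A, ?_, sol_rat hc A, hr, ?_⟩
    · intro v hv
      refine rat_sol hc hV fun a ha => ?_
      refine sum_classes (k := k) hc _ fun j => ?_
      rw [← hsplit a v j (fun i => if Same k c i j then a i else 0) fun _ => rfl]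
      exact hv _ ⟨a, ha, j, fun _ => rfl⟩
    · rintro b ⟨a, ha, j, hb⟩
      rw [hsplit a z j b hb]
      exact h a (ha z hz) j

open Classical in
/-- the projection to the class of `j` -/
noncomputable def proj (k : Subfield E) (c : ι → E) (j : ι) (v : ι → E) : ι → E :=
  fun i => if Same k c i j then v i else 0

open Classical in
/-- the bi-rational subspaces are the rational subspaces which are stable under the projections to the
classes -/
theorem birat_iff (hc : ∀ i, c i ≠ 0) (W : Submodule E (ι → E)) :
    (IsRat k c W ∧ IsRat k (1 : ι → E) W) ↔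
      (IsRat k (1 : ι → E) W ∧ ∀ j, ∀ v ∈ W, proj k c j v ∈ W) := by
  constructor
  · rintro ⟨h, h1⟩
    exact ⟨h1, fun j v hv => class_mem hc h h1 j hv⟩
  · rintro ⟨h1, hp⟩
    refine ⟨fun v hv => ?_, h1⟩
    refine (Submodule.span_le.mpr ?_) (h1 v hv)
    rintro u ⟨hu, hu'⟩
    let st : Setoid ι := ⟨fun i j => Same k c i j, fun i => same_refl hc i, fun h => same_symm h,
      fun h h' => same_trans hc h h'⟩
    have h2 : u = ∑ q : Quotient st, proj k c (Quotient.out q) u := by
      funext i
      rw [Finset.sum_apply, Finset.sum_eq_single (Quotient.mk st i)]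
      · have h3 : Same k c i (Quotient.out (Quotient.mk st i)) :=
          same_symm (Quotient.mk_out (s := st) i)
        change _ = if Same k c i _ then u i else 0
        rw [if_pos h3]
      · intro q _ hq
        change (if Same k c i _ then u i else 0) = 0
        rw [if_neg]
        intro h3
        apply hq
        have h4 : Quotient.mk st i = Quotient.mk st (Quotient.out q) := Quotient.sound h3
        rw [h4, Quotient.out_eq]
      · intro h
        exact absurd (Finset.mem_univ _) h
    rw [h2]
    refine Submodule.sum_mem _ fun q _ => ?_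
    set j := Quotient.out q
    have h3 : proj k c j u = c j • ((c j)⁻¹ • proj k c j u) := by
      rw [smul_smul, mul_inv_cancel₀ (hc j), one_smul]
    rw [h3]
    refine Submodule.smul_mem _ _ (Submodule.subset_span ⟨W.smul_mem _ (hp j u hu), fun i => ?_⟩)
    change c i * ((c j)⁻¹ * (if Same k c i j then u i else 0)) ∈ k
    split_ifs with h4
    · have h5 := hu' i
      rw [Pi.one_apply, one_mul] at h5
      have h6 : c i * ((c j)⁻¹ * u i) = c i / c j * u i := by
        rw [div_eq_mul_inv]
        ring
      rw [h6]
      exact k.mul_mem h4 h5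
    · rw [mul_zero, mul_zero]
      exact k.zero_mem

/-- no relations over `k` between the nonzero ones of the numbers `c i * z i` -/
def Indep (k : Subfield E) (c z : ι → E) : Prop :=
  ∀ a : ι → k, ∑ i, (a i : E) * (c i * z i) = 0 → ∀ i, a i = 0 ∨ z i = 0

theorem splits_indep (hc : ∀ i, c i ≠ 0) (hs : ∀ i j, Same k c i j → i = j) (z : ι → E) :
    Splits k c z ↔ Indep k c z := by
  classical
  have key : ∀ (a : ι → k) (j : ι),
      ∑ i, (if Same k c i j then (a i : E) * (c i * z i) else 0) = (a j : E) * (c j * z j) := by
    intro a j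
    rw [Finset.sum_eq_single j]
    · rw [if_pos (same_refl hc j)]
    · intro i _ hi
      rw [if_neg fun h => hi (hs i j h)]
    · intro h
      exact absurd (Finset.mem_univ _) h
  constructor
  · intro h a ha i
    have h1 := h a ha i
    have h2 : (a i : E) * (c i * z i) = 0 := by
      rw [← key a i]
      convert h1
    rcases mul_eq_zero.mp h2 with h3 | h3
    · left
      exact_mod_cast h3
    · right
      exact (mul_eq_zero.mp h3).resolve_left (hc i)
  · intro h a ha j
    have h1 : (a j : E) * (c j * z j) = 0 := by
      rcases h a ha j with h2 | h2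
      · rw [h2, Subfield.coe_zero, zero_mul]
      · rw [h2, mul_zero, mul_zero]
    rw [← key a j] at h1
    convert h1

end Pool.Agent.N882.UE.BR
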