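import Pool.Agent.N882.UE.WkDim
import Pool.Agent.N882.UE.ShortFrac

/-!
# Spaces of classes and subspaces of distinguished classes
-/

set_option autoImplicit false

open CategoryTheory AlgebraicGeometry MvPolynomial

namespace Pool.Agent.N882.UE

open Pool.Agent.Y116.UV Pool.Agent.Z125.UN Pool.Agent.Q282.UK

noncomputable section

section swap

variable {R : Type} [CommRing R] {a b c : ℕ}

/-- Exchange of the two blocks of variables. -/
def bilSwap (t : Fin a → Fin b → Fin c → R) :
    (MvPolynomial (Fin a ⊕ Fin b) R ⧸ Ideal.span (Set.range (bform t))) ≃ₐ[R]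
      (MvPolynomial (Fin b ⊕ Fin a) R ⧸ Ideal.span (Set.range (bform fun j i l => t i j l))) :=
  Ideal.quotientEquivAlg _ _ (renameEquiv R (Equiv.sumComm (Fin a) (Fin b))) (by
    rw [Ideal.map_span, ← Set.range_comp]
    congr 2
    funext l
    simp only [Function.comp_apply, RingHom.coe_coe, bform, map_sum, map_mul,
      renameEquiv_apply, rename_C, rename_X, Equiv.sumComm_apply, Sum.swap_inl, Sum.swap_inr]
    rw [Finset.sum_comm]
    refine Finset.sum_congr rfl fun j _ => Finset.sum_congr rfl fun i _ => ?_
    ring)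

/-- A property of schemes with the closure properties `Clo` and the two blocks of variables. -/
lemma bil_swap {sep : Prop} {P : Sch R → Prop} (hP : Clo sep P) (t : Fin a → Fin b → Fin c → R)
    (h : P (bilS fun j i l => t i j l)) : P (bilS t) :=
  clo_alg hP (bilSwap t).symm h

end swap

/-- The dimension of an algebra of finite type is finite. -/
lemma exists_dim {k : Type} [Field k] (A : Type) [CommRing A] [Algebra k A]
    [Algebra.FiniteType k A] : ∃ n : ℕ, ringKrullDim A ≤ n := by
  obtain ⟨n, φ, hφ⟩ := Algebra.FiniteType.iff_quotient_mvPolynomial''.mp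
    (inferInstance : Algebra.FiniteType k A)
  refine ⟨n, ?_⟩
  have h1 : ringKrullDim (MvPolynomial (Fin n) k) = (n : ℕ) := by
    rw [MvPolynomial.ringKrullDim_of_isNoetherianRing, ringKrullDim_eq_zero_of_field, zero_add,
      Nat.card_eq_fintype_card, Fintype.card_fin]
  rw [← h1]
  exact ringKrullDim_le_of_surjective φ.toRingHom hφ

/-- Data of rational vector spaces `B X j` (for example the space of the Hodge classes in
`W_0 H_(2j)(X, ℚ(j))`) and of subspaces `A X j` (for example the space of the absolute Hodge classes) of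
the schemes `X` over the field `k`. -/
structure Classes (k : Type) [Field k] where
  /-- the space of classes -/
  B : Sch k → ℤ → Type
  [grp : ∀ X j, AddCommGroup (B X j)]
  [mod : ∀ X j, Module ℚ (B X j)]
  /-- the subspace of distinguished classes -/
  A : ∀ X j, Submodule ℚ (B X j)

attribute [instance] Classes.grp Classes.mod

variable {k : Type} [Field k] (T : Classes k)

/-- All classes of `X` are distinguished. -/
def AllIn (X : Sch k) : Prop := ∀ j, T.A X j = ⊤

/-- A linear map of the spaces of classes which maps distinguished classes to distinguished classes. -/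
structure CMap (X : Sch k) (i : ℤ) (Y : Sch k) (j : ℤ) where
  /-- the linear map -/
  f : T.B X i →ₗ[ℚ] T.B Y j
  dist : ∀ x ∈ T.A X i, f x ∈ T.A Y j

/-- The right exact sequence `B(Z) → B(X) → B(U) → 0`, with a surjection `A(X) → A(U)`. -/
def CLoc (Z X U : Sch k) : Prop :=
  ∀ j : ℤ, ∃ (a : CMap T Z j X j) (b : CMap T X j U j), Function.Exact a.f b.f ∧
    Function.Surjective b.f ∧ ∀ u ∈ T.A U j, ∃ x ∈ T.A X j, b.f x = u

/-- The classes of `X` are a direct factor of those of `Y`, in degree raised by `r`. -/
def CFac (X Y : Sch k) (r : ℤ) : Prop :=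
  ∀ j : ℤ, ∃ (s : CMap T X j Y (j + r)) (t : CMap T Y (j + r) X j), ∀ x, t.f (s.f x) = x

/-- The properties which are used: isomorphisms; right exact sequences for a closed subscheme and its
complement; `X` is a direct factor of `X × 𝔾_m`, and `X × 𝔸^n` of `X`. -/
structure IsClasses : Prop where
  iso : ∀ {X Y : Sch k}, FT True X → Nonempty (X ≅ Y) → CFac T Y X 0
  loc : ∀ {Z X U : Sch k} (i : Z ⟶ X) (j : U ⟶ X), FT True X → IsTriple i j → CLoc T Z X U
  torus : ∀ (A : Type) [CommRing A] [Algebra k A] [Algebra.FiniteType k A],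
    CFac T (aff k A) (aff k (LaurentPolynomial A)) 1
  space : ∀ (A : Type) [CommRing A] [Algebra k A] [Algebra.FiniteType k A] (n : ℕ),
    CFac T (aff k (MvPolynomial (Fin n) A)) (aff k A) (-n)

variable {T}

lemma allIn_fac {X Y : Sch k} {r : ℤ} (h : CFac T X Y r) (hY : AllIn T Y) : AllIn T X := by
  intro j
  obtain ⟨s, t, h⟩ := h j
  rw [eq_top_iff]
  intro x _
  rw [← h x]
  apply t.dist
  rw [hY]
  trivial

theorem clo_allIn (hT : IsClasses T) : Clo True (AllIn T) where
  iso := fun hX e h => allIn_fac (hT.iso hX e) h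
  total := fun i j hX ht hZ hU n => by
    obtain ⟨a, b, h1, h2, h3⟩ := hT.loc i j hX ht n
    rw [eq_top_iff]
    intro x _
    obtain ⟨y, hy, hxy⟩ := h3 (b.f x) (by rw [hU]; trivial)
    obtain ⟨z, hz⟩ := (h1 (x - y)).mp (by rw [map_sub, hxy, sub_self])
    have h4 : x = y + a.f z := by rw [hz]; abel
    rw [h4]
    exact Submodule.add_mem _ hy (a.dist z (by rw [hZ]; trivial))
  opened := fun i j hX ht _ hX' n => by
    obtain ⟨a, b, h1, h2, h3⟩ := hT.loc i j hX ht n
    rw [eq_top_iff]
    intro u _
    obtain ⟨x, rfl⟩ := h2 u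
    exact b.dist x (by rw [hX']; trivial)
  torus := fun B _ _ _ h => allIn_fac (hT.torus B) h

theorem wk_allIn (hT : IsClasses T) (h0 : AllIn T (aff k k)) : Wk True (AllIn T) where
  toClo := clo_allIn hT
  point := h0
  poly := fun A _ _ _ n h => allIn_fac (hT.space A n) h

end

end Pool.Agent.N882.UE
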