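import Pool.Agent.N882.UE.Wk

/-!
# Properties closed under closed-open decompositions: dimension, second part
-/

set_option autoImplicit false

open CategoryTheory AlgebraicGeometry MvPolynomial

namespace Pool.Agent.N882.UE

open Pool.Agent.Y116.UV Pool.Agent.Z125.UN Pool.Agent.Q282.UK

section

variable {R : Type} [CommRing R] {sep : Prop} {P : Sch R → Prop} (hP : Wk sep P)

include hP

/-- the empty scheme -/
lemma w_empty (B : Type) [CommRing B] [Algebra R B] (hB : Subsingleton B) : P (aff R B) := by
  let A := MvPolynomial (Fin 0) R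
  have h1 : P (aff R A) := hP.poly R 0 hP.point
  have h2 : P (aff R (A ⧸ Ideal.span {(0 : A)})) := by
    rw [Ideal.span_singleton_eq_bot.mpr rfl]
    exact clo_alg hP.toClo (AlgEquiv.quotientBot R A).symm h1
  have h3 : P (aff R (Localization.Away (0 : A))) := w_ring_open hP (0 : A) h2 h1
  have h4 : Subsingleton (Localization.Away (0 : A)) := by
    rw [← not_nontrivial_iff_subsingleton]
    intro hn
    have h5 := IsLocalization.Away.algebraMap_isUnit (S := Localization.Away (0 : A)) (0 : A)
    rw [map_zero] at h5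
    exact not_isUnit_zero h5
  have h6 : Algebra.FiniteType R (Localization.Away (0 : A)) :=
    Algebra.FiniteType.trans (S := A) inferInstance inferInstance
  let e : Localization.Away (0 : A) ≃ₐ[R] B :=
    AlgEquiv.ofRingEquiv (f := { toFun := fun _ => 0
                                 invFun := fun _ => 0
                                 left_inv := fun _ => Subsingleton.elim _ _
                                 right_inv := fun _ => Subsingleton.elim _ _
                                 map_mul' := fun _ _ => Subsingleton.elim _ _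
                                 map_add' := fun _ _ => Subsingleton.elim _ _ })
      (fun _ => Subsingleton.elim _ _)
  exact clo_alg hP.toClo e h3

section

variable {N : ℕ} (hA : ∀ I : Ideal (MvPolynomial (Fin N) R),
  P (aff R (MvPolynomial (Fin N) R ⧸ I)))

include hA

lemma w_of_surj {A : Type} [CommRing A] [Algebra R A] (φ : MvPolynomial (Fin N) R →ₐ[R] A)
    (hφ : Function.Surjective φ) : P (aff R A) :=
  clo_alg hP.toClo (Ideal.quotientKerAlgEquivOfSurjective (f := φ) hφ) (hA _)

lemma w_one_piece {c : ℕ} (hc : c ≤ N) (κ : Type) (g : κ → MvPolynomial (Fin c) R) :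
    P (aff R (Pc g 1)) := by
  let ρ : MvPolynomial (Fin N) R →ₐ[R] MvPolynomial (Fin c) R :=
    aeval fun i => if h : i.1 < c then X ⟨i.1, h⟩ else 0
  have hρ : Function.Surjective ρ := by
    intro p
    refine ⟨rename (Fin.castLE hc) p, ?_⟩
    change aeval _ (rename (Fin.castLE hc) p) = p
    rw [aeval_rename]
    have h : ((fun i : Fin N => if h : i.1 < c then (X ⟨i.1, h⟩ : MvPolynomial (Fin c) R) else 0) ∘
        Fin.castLE hc) = X := by
      funext i
      exact dif_pos i.2
    rw [h, aeval_X_left_apply]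
  refine w_of_surj hP hA (((oneE g).toAlgHom.comp
    (Ideal.Quotient.mkₐ R (Ideal.span (Set.range g)))).comp ρ) ?_
  exact ((oneE g).surjective.comp (Ideal.Quotient.mkₐ_surjective R _)).comp hρ

lemma w_piece {c : ℕ} (hc : c ≤ N) (κ : Type) (g : κ → MvPolynomial (Fin c) R)
    (w : MvPolynomial (Fin c) R) : P (aff R (Pc g w)) := by
  have h := w_pc_open hP (w_one_piece hP hA hc κ g) (w_one_piece hP hA hc (Option κ) (adj g w))
  rwa [one_mul] at h

/-- from closed subschemes of affine spaces to bilinear systems -/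
theorem w_to_bil (a b c : ℕ) (hb : b ≤ N + 1) (t : Fin a → Fin b → Fin c → R) : P (bilS t) := by
  have h := w_bilin hP b (fun c' hc' κ g w => w_piece hP hA (by omega) κ g w)
    (fun l i j => t i j l)
  have h2 : bform t = bl fun l i j => t i j l := funext fun l => bform_eq t l
  unfold bilS
  rw [h2]
  exact clo_alg hP.toClo (oneE _).symm h

end

/-- from bilinear systems to closed subschemes of affine spaces -/
theorem w_of_bil {N : ℕ} (hH : ∀ (a c : ℕ) (t : Fin a → Fin (N + 1) → Fin c → R), P (bilS t))
    (G : Finset (MvPolynomial (Fin N) R)) :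
    P (aff R (MvPolynomial (Fin N) R ⧸ Ideal.span (G : Set (MvPolynomial (Fin N) R)))) := by
  classical
  let D : ℕ := ∑ g ∈ G, ∑ m ∈ g.support, m.degree
  have hd : ∀ g ∈ G, ∀ m ∈ g.support, m.degree ≤ D := by
    intro g hg m hm
    have h1 : m.degree ≤ ∑ m ∈ g.support, m.degree :=
      Finset.single_le_sum (f := fun m : Fin N →₀ ℕ => m.degree) (fun _ _ => Nat.zero_le _) hm
    have h2 : ∑ m ∈ g.support, m.degree ≤ ∑ g ∈ G, ∑ m ∈ g.support, m.degree :=
      Finset.single_le_sum (f := fun g : MvPolynomial (Fin N) R => ∑ m ∈ g.support, m.degree)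
        (fun _ _ => Nat.zero_le _) hg
    omega
  have hB : ∀ (α β : Type) (_ : Fintype α) (_ : Fintype β) (T : α → β → Fin (N + 1) → R),
      P (aff R (Pc (bl T) 1)) := by
    intro α β _ _ T
    have h1 := hH (Fintype.card β) (Fintype.card α) fun i j l =>
      T ((Fintype.equivFin α).symm l) ((Fintype.equivFin β).symm i) j
    exact clo_alg hP.toClo (oneE (bl T)) (clo_alg hP.toClo
      (bilRename (Fintype.equivFin β).symm (Equiv.refl _) (Fintype.equivFin α).symm T) h1)
  have h1 : P (aff R (LC G D)) := by
    refine w_pc_open hP (hB _ _ inferInstance inferInstance (TT G)) ?_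
    rw [adj_TT]
    exact hB _ _ inferInstance inferInstance (TP G)
  have h2 : P (aff R (G2 G)) := clo_alg hP.toClo (kE G hd) h1
  have h3 := w_pc_torus _ _ hP (w_pc_torus _ _ hP h2)
  have h4 := clo_alg hP.toClo (oneE (gr G)).symm h3
  have h5 : Set.range (gr G) = (G : Set (MvPolynomial (Fin N) R)) := by
    ext x
    constructor
    · rintro ⟨g, rfl⟩
      exact g.2
    · intro hx
      exact ⟨⟨x, hx⟩, rfl⟩
  rwa [h5] at h4

/-- All closed subschemes of the affine space of dimension `N`, and the systems of bilinear equations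
with at most `N + 1` variables in the second block. -/
theorem w_graded [IsNoetherianRing R] (N : ℕ) :
    (∀ I : Ideal (MvPolynomial (Fin N) R), P (aff R (MvPolynomial (Fin N) R ⧸ I))) ↔
      ∀ (a b c : ℕ) (t : Fin a → Fin b → Fin c → R), b ≤ N + 1 → P (bilS t) := by
  constructor
  · intro hA a b c t hb
    exact w_to_bil hP hA a b c hb t
  · intro hH I
    obtain ⟨G, hG⟩ := (isNoetherianRing_iff_ideal_fg _).mp
      (inferInstance : IsNoetherianRing (MvPolynomial (Fin N) R)) I
    rw [← hG]
    exact w_of_bil hP (fun a c t => hH a _ c t le_rfl) G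

/-- locally closed subschemes of affine spaces -/
lemma w_emb {N : ℕ} (hA : ∀ I : Ideal (MvPolynomial (Fin N) R),
    P (aff R (MvPolynomial (Fin N) R ⧸ I))) {L : Type} [CommRing L] [Algebra R L]
    (φ : MvPolynomial (Fin N) R →ₐ[R] L) (g : MvPolynomial (Fin N) R) (hg : IsUnit (φ g))
    (hs : ∀ a, ∃ (m : ℕ) (p : MvPolynomial (Fin N) R), φ g ^ m * a = φ p) : P (aff R L) := by
  let Q := MvPolynomial (Fin N) R ⧸ RingHom.ker φ
  let ψ : Q →ₐ[R] L := Ideal.kerLiftAlg φ
  have hψ : Function.Injective ψ := Ideal.kerLiftAlg_injective φ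
  let gq : Q := Ideal.Quotient.mk _ g
  have h1 : P (aff R (Localization.Away gq)) := by
    refine w_ring_open hP gq ?_ (hA _)
    exact w_of_surj hP hA ((Ideal.Quotient.mkₐ R (Ideal.span {gq})).comp (Ideal.Quotient.mkₐ R _))
      ((Ideal.Quotient.mkₐ_surjective R _).comp (Ideal.Quotient.mkₐ_surjective R _))
  let _ : Algebra Q L := ψ.toRingHom.toAlgebra
  have hloc : IsLocalization.Away gq L := by
    have hgq : algebraMap Q L gq = φ g := rfl
    refine ⟨?_, ?_, ?_⟩
    · rintro ⟨_, n, rfl⟩
      change IsUnit (algebraMap Q L (gq ^ n))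
      rw [map_pow, hgq]
      exact hg.pow n
    · intro z
      obtain ⟨m, p, h⟩ := hs z
      refine ⟨(Ideal.Quotient.mk _ p, ⟨gq ^ m, m, rfl⟩), ?_⟩
      change z * algebraMap Q L (gq ^ m) = φ p
      rw [map_pow, hgq, ← h, mul_comm]
    · intro x y hxy
      refine ⟨1, ?_⟩
      rw [hψ hxy]
  let e : Localization.Away gq ≃ₐ[Q] L :=
    IsLocalization.algEquiv (Submonoid.powers gq) (Localization.Away gq) L
  let e2 : Localization.Away gq ≃ₐ[R] L := AlgEquiv.ofRingEquiv (f := e.toRingEquiv) (by
    intro r
    change e (algebraMap R (Localization.Away gq) r) = _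
    rw [IsScalarTower.algebraMap_apply R Q (Localization.Away gq), e.commutes]
    exact ψ.commutes r)
  have : Algebra.FiniteType R (Localization.Away gq) :=
    Algebra.FiniteType.trans (S := Q) inferInstance inferInstance
  exact clo_alg hP.toClo e2 h1

end

section field

variable {k : Type} [Field k] {sep : Prop} {P : Sch k → Prop} (hP : Wk sep P)

include hP

lemma w_dim_to_closed {n : ℕ} (h : ∀ (A : Type) [CommRing A] [Algebra k A]
    [Algebra.FiniteType k A], ringKrullDim A ≤ n → P (aff k A))
    (I : Ideal (MvPolynomial (Fin (n + 1)) k)) :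
    P (aff k (MvPolynomial (Fin (n + 1)) k ⧸ I)) := by
  by_cases hI : I = ⊥
  · subst hI
    exact clo_alg hP.toClo (AlgEquiv.quotientBot k _).symm (hP.poly k (n + 1) hP.point)
  · exact h _ (dim_quot I hI)

lemma w_closed_to_dim [PerfectField k] {n : ℕ} (h : ∀ I : Ideal (MvPolynomial (Fin (n + 1)) k),
    P (aff k (MvPolynomial (Fin (n + 1)) k ⧸ I))) (A : Type) [CommRing A] [Algebra k A]
    [Algebra.FiniteType k A] (hA : ringKrullDim A ≤ n) : P (aff k A) := by
  refine w_noeth hP (fun B _ _ hB => w_empty hP B hB) fun p hp => ?_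
  have hd : ringKrullDim (A ⧸ p) ≤ n := (ringKrullDim_quotient_le p).trans hA
  obtain ⟨x, hx⟩ := exists_gens k (A ⧸ p) n hd
  obtain ⟨w, hw, φ, g, h1, h2⟩ := exists_emb x hx
  exact ⟨w, hw, w_emb hP h φ g h1 h2⟩

lemma w_of_smooth [PerfectField k] {n : ℕ} (h : ∀ (A : Type) [CommRing A] [Algebra k A]
    [Algebra.Smooth k A], ringKrullDim A ≤ n → P (aff k A)) (A : Type) [CommRing A] [Algebra k A]
    [Algebra.FiniteType k A] (hA : ringKrullDim A ≤ n) : P (aff k A) := by
  refine w_noeth hP (fun B _ _ hB => w_empty hP B hB) fun p hp => ?_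
  obtain ⟨w, hw, hs⟩ := exists_smooth (k := k) (A ⧸ p)
  exact ⟨w, hw, h _ ((dim_away w).trans ((ringKrullDim_quotient_le p).trans hA))⟩

lemma w_of_affine_dim {n : ℕ} (h : ∀ (A : Type) [CommRing A] [Algebra k A]
    [Algebra.FiniteType k A], ringKrullDim A ≤ n → P (aff k A)) (X : Sch k) (hX : FT sep X)
    (hn : topologicalKrullDim X.left ≤ n) : P X := by
  refine of_affine' (P := fun X => topologicalKrullDim X.left ≤ n → P X) (sep := sep) ?_ ?_ ?_ X
    hX hn
  · intro X Y hX e hPX hY
    refine hP.iso hX e (hPX ?_)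
    obtain ⟨e⟩ := e
    let f := (Over.forget _).mapIso e
    exact (Topology.IsInducing.topologicalKrullDim_le
      (Scheme.homeoOfIso f).isInducing).trans hY
  · intro Z X U i j hX ht hZ hU hn
    refine hP.total i j hX ht (hZ ?_) (hU ?_)
    · have h1 := (have := ht.closed; i.left.isClosedEmbedding.isInducing)
      exact h1.topologicalKrullDim_le.trans hn
    · have h1 := (have := ht.opened; j.left.isOpenEmbedding.isInducing)
      exact h1.topologicalKrullDim_le.trans hn
  · intro A _ _ _ hA
    rw [topDim_aff] at hA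
    exact h A hA

/-- All schemes of dimension at most `n`, and the systems of bilinear equations with at most `n + 2`
variables in the second block. -/
theorem w_dim [PerfectField k] (n : ℕ) :
    (∀ (X : Sch k), FT sep X → topologicalKrullDim X.left ≤ n → P X) ↔
      ∀ (a b c : ℕ) (t : Fin a → Fin b → Fin c → k), b ≤ n + 2 → P (bilS t) := by
  rw [← w_graded hP (n + 1)]
  constructor
  · intro h
    refine w_dim_to_closed hP fun A _ _ _ hA => h _ (ft_aff sep) ?_
    rw [topDim_aff]
    exact hA
  · intro h
    exact w_of_affine_dim hP (w_closed_to_dim hP h)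

/-- smooth schemes of dimension at most `n` are sufficient -/
theorem w_smooth [PerfectField k] (n : ℕ) :
    (∀ (X : Sch k), FT sep X → topologicalKrullDim X.left ≤ n → P X) ↔
      ∀ (X : Sch k), FT sep X → Smooth X.hom → topologicalKrullDim X.left ≤ n → P X := by
  refine ⟨fun h X hX _ hn => h X hX hn, fun h X hX hn => ?_⟩
  refine w_of_affine_dim hP (w_of_smooth hP fun A _ _ _ hA => h _ (ft_aff sep)
    (smooth_aff inferInstance) ?_) X hX hn
  rw [topDim_aff]
  exact hA

end field

end Pool.Agent.N882.UE
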