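import Pool.Agent.N882.UE.Par
import Pool.Agent.N882.UE.WkDim

/-!
# Vanishing of rational motivic cohomology with compact supports: dimension
-/

set_option autoImplicit false

open CategoryTheory AlgebraicGeometry MvPolynomial

namespace Pool.Agent.N882.UE

open Pool.Agent.Y116.UV Pool.Agent.Z125.UN Pool.Agent.Q282.UK

section perm

variable {R : Type} [CommRing R] {a b c : ℕ}

/-- If `Q` is a property of the hypersurfaces `t(x, y, z) = 1` which is invariant under isomorphisms of
rings, then it is enough to know it for the forms with at most `m` variables in the second block, in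
order to have it for the forms with at most `m` variables in one of the blocks. -/
lemma of_second {Q : Sch R → ℤ → Prop}
    (hQ : ∀ {A B : Type} [CommRing A] [CommRing B] [Algebra R A] [Algebra R B]
      [Algebra.FiniteType R A] (_ : A ≃ₐ[R] B) {D : ℤ}, Q (aff R A) D → Q (aff R B) D) {m : ℕ}
    (h : ∀ (a b c : ℕ) (t : Fin a → Fin b → Fin c → R), b ≤ m → Q (hypS t) ((a : ℤ) + b + c - 1))
    (t : Fin a → Fin b → Fin c → R) (hm : a ≤ m ∨ b ≤ m ∨ c ≤ m) :
    Q (hypS t) ((a : ℤ) + b + c - 1) := by
  rcases hm with hm | hm | hm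
  · have h1 := h b a c (fun j i l => t i j l) hm
    have h2 := hQ (swapL t).symm h1
    rwa [show (b : ℤ) + a + c - 1 = (a : ℤ) + b + c - 1 by ring] at h2
  · exact h a b c t hm
  · have h1 := h a c b (fun i l j => t i j l) hm
    have h2 := hQ (swapR t).symm h1
    rwa [show (a : ℤ) + c + b - 1 = (a : ℤ) + b + c - 1 by ring] at h2

end perm

variable {k : Type} [Field k] {T : Compact k}

theorem wk_par (hT : IsCompact T) : Wk True (Par T) where
  toClo := clo_par hT
  point := clo_alg (clo_par hT) (isEmptyAlgEquiv k (Fin 0)) (par_space hT (σ := Fin 0))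
  poly := fun A _ _ _ n h m i hi => by
    have h0 : IsOpenImmersion (𝟙 (aff k A) : aff k A ⟶ aff k A).left :=
      inferInstanceAs (IsOpenImmersion (𝟙 (aff k A).left))
    obtain ⟨e⟩ := hT.bundle A (n + 1) (f1 A n) (aff k A) (𝟙 _) h0 (by
      have h1 : Set.range (𝟙 (aff k A) : aff k A ⟶ aff k A).left = Set.univ := Set.range_id
      have h2 : {x : PrimeSpectrum A | ∃ l, f1 A n l ∉ x.asIdeal} = Set.univ := by
        rw [Set.eq_univ_iff_forall]
        intro x
        exact ⟨0, fun h => x.isPrime.ne_top ((Ideal.eq_top_iff_one _).mpr h)⟩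
      exact h1.trans h2.symm) (i - 2 * n) (m - n)
    have hf : Algebra.FiniteType k (Jou (f1 A n)) :=
      Algebra.FiniteType.trans (S := A) inferInstance inferInstance
    obtain ⟨e'⟩ := same_zero (hT.iso (ft_aff True)
      ⟨(affIso ((jouOne A n).restrictScalars k)).symm⟩) i m
    rw [show i - 2 * (n : ℤ) + 2 * (((n + 1 : ℕ) : ℤ) - 1) = i by push_cast; ring,
      show m - (n : ℤ) + (((n + 1 : ℕ) : ℤ) - 1) = m by push_cast; ring] at e
    have h3 := h (m - n) (i - 2 * n) (by omega)
    exact (e.trans e').symm.toEquiv.subsingleton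

/-- `LikeSpace` for the hypersurfaces with at most `m` variables in one of the blocks, `Par` for the
systems with at most `m` variables in the second block. -/
theorem like_iff (hT : IsCompact T) (m : ℕ) :
    (∀ (a b c : ℕ) (t : Fin a → Fin b → Fin c → k), b ≤ m → Par T (bilS t)) ↔
      ∀ (a b c : ℕ) (t : Fin a → Fin b → Fin c → k), (a ≤ m ∨ b ≤ m ∨ c ≤ m) →
        LikeSpace T (hypS t) ((a : ℤ) + b + c - 1) := by
  constructor
  · intro h a b c t hm
    exact of_second (Q := LikeSpace T) (fun e _ h => likeSpace_iso hT e h)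
      (fun a b c t hb => (par_hyp hT t).mp (h a b c t hb)) t hm
  · intro h a b c t hb
    exact (par_hyp hT t).mpr (h a b c t (Or.inr (Or.inl hb)))

end Pool.Agent.N882.UE
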