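import Pool.Agent.N882.UE.Opn2
import Pool.Agent.N882.UE.Hdg
import Pool.Agent.N882.UE.ParDim

/-!
# Equivalent conditions for properties with all closure properties
-/

set_option autoImplicit false

open CategoryTheory AlgebraicGeometry MvPolynomial

namespace Pool.Agent.N882.UE

open Pool.Agent.Y116.UV Pool.Agent.Z125.UN Pool.Agent.Q282.UK Pool.Agent.Q282.UZ

section

variable {R : Type} [CommRing R] {sep : Prop} {P : Sch R → Prop}

lemma clo2_of_bnd (hP : Bnd sep P) : Clo2 sep P :=
  { clo_of_bnd hP with closed := hP.closed }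

end

variable {k : Type} [Field k] {P : Sch k → Prop}

/-- Schemes of dimension at most `d`, smooth schemes, bilinear equations, cubic hypersurfaces. -/
theorem gen_tfae [PerfectField k] (hP : Bnd True P) (d : ℕ) :
    [(∀ X : Sch k, FT True X → topologicalKrullDim X.left ≤ d → P X),
      (∀ X : Sch k, FT True X → Smooth X.hom → topologicalKrullDim X.left ≤ d → P X),
      (∀ (a b c : ℕ) (t : Fin a → Fin b → Fin c → k), (a ≤ d + 2 ∨ b ≤ d + 2) → P (bilS t)),
      (∀ (a b c : ℕ) (t : Fin a → Fin b → Fin c → k), c ≤ d + 2 → P (bilS t)),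
      (∀ (a b c : ℕ) (t : Fin a → Fin b → Fin c → k), (a ≤ d + 2 ∨ b ≤ d + 2 ∨ c ≤ d + 2) →
        P (hypS t))].TFAE := by
  tfae_have 1 ↔ 5 := Pool.Agent.Q193.LT.dim_iff hP d
  tfae_have 2 ↔ 5 := Pool.Agent.Q193.LT.smooth_iff hP d
  tfae_have 1 ↔ 4 := dim_bil hP d
  tfae_have 5 → 3 := by
    intro h a b c t hm
    rw [bil_iff hP]
    rcases hm with hm | hm
    · exact h a b c t (Or.inl hm)
    · exact h a b c t (Or.inr (Or.inl hm))
  tfae_have 3 → 5 := by
    intro h a b c t hm
    refine of_second (Q := fun X _ => P X) (fun e _ h => iso_alg hP.toUni e h) ?_ t hm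
    intro a b c t hb
    exact (bil_iff hP t).mp (h a b c t (Or.inr hb))
  tfae_finish

end Pool.Agent.N882.UE
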