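import Pool.Agent.N882.UE.Opn2
import Pool.Agent.N882.UE.Gen

/-!
# Principal open subschemes of affine spaces: number of forms, number of variables, dimension
-/

set_option autoImplicit false

open CategoryTheory AlgebraicGeometry MvPolynomial

namespace Pool.Agent.N882.UE

open Pool.Agent.Y116.UV Pool.Agent.Z125.UN Pool.Agent.Q282.UK Pool.Agent.Q282.UZ

variable {R : Type} [CommRing R] {sep : Prop} {P : Sch R → Prop}

section

variable (hP : Clo2 sep P) {σ : Type} [Finite σ] (F : Set (MvPolynomial σ R)) (r : ℕ)

include hP

/-- From principal opens to closed subschemes, with a bound for the number of polynomials. -/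
lemma pc_list_le
    (h : ∀ L : List (MvPolynomial σ R), L.length ≤ r → (∀ f ∈ L, f ∈ F) →
      P (aff R (Localization.Away L.prod))) :
    ∀ (m : ℕ) (G : Fin m → MvPolynomial σ R), (∀ l, G l ∈ F) → ∀ L : List (MvPolynomial σ R),
      (∀ f ∈ L, f ∈ F) → m + L.length ≤ r → P (aff R (Pc G L.prod)) := by
  intro m
  induction m with
  | zero =>
    intro G _ L hL hr
    have hf : Algebra.FiniteType R (Localization.Away L.prod) :=
      Algebra.FiniteType.trans (S := MvPolynomial σ R) inferInstance inferInstance
    exact clo_alg hP.toClo (awayE G L.prod) (h L (by omega) hL)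
  | succ m ih =>
    intro G hG L hL hr
    let G' : Fin m → MvPolynomial σ R := fun l => G l.castSucc
    let e := G (Fin.last m)
    have h1 : P (aff R (Pc G' L.prod)) := ih G' (fun l => hG _) L hL (by omega)
    have h2 : P (aff R (Pc G' (L.prod * e))) := by
      have h3 : L.prod * e = (L ++ [e]).prod := by rw [List.prod_append, List.prod_singleton]
      rw [h3]
      refine ih G' (fun l => hG _) _ (fun f hf => ?_) (by
        rw [List.length_append, List.length_singleton]
        omega)
      rcases List.mem_append.mp hf with hf | hf
      · exact hL f hf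
      · rw [List.mem_singleton.mp hf]
        exact hG _
    have h3 : P (aff R (Pc (adj G' e) L.prod)) :=
      clo_alg hP.toClo (cloE G' L.prod e) (hP.closed _ _ (ft_aff sep)
        (triple_away (pc G' L.prod e)) h1 (by
          have hf : Algebra.FiniteType R (Pc G' (L.prod * e)) := inferInstance
          exact clo_alg hP.toClo (opnE G' L.prod e).symm h2))
    refine clo_alg hP.toClo (pcSame ?_ (pc_unit _ _) ?_ (pc_unit _ _)) h3
    · rintro (_ | k)
      · exact pc_rel G L.prod (Fin.last m)
      · exact pc_rel G L.prod k.castSucc
    · intro k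
      refine Fin.lastCases ?_ (fun k => ?_) k
      · exact pc_rel (adj G' e) L.prod none
      · exact pc_rel (adj G' e) L.prod (some k)

/-- From closed subschemes to principal opens, with a bound for the number of polynomials. -/
lemma list_pc_le
    (h : ∀ m ≤ r, ∀ G : Fin m → MvPolynomial σ R, (∀ l, G l ∈ F) →
      P (aff R (MvPolynomial σ R ⧸ Ideal.span (Set.range G)))) :
    ∀ (L : List (MvPolynomial σ R)), (∀ f ∈ L, f ∈ F) → ∀ (m : ℕ) (G : Fin m → MvPolynomial σ R),
      (∀ l, G l ∈ F) → m + L.length ≤ r → P (aff R (Pc G L.prod)) := by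
  intro L
  induction L with
  | nil =>
    intro _ m G hG hr
    rw [List.prod_nil]
    exact clo_alg hP.toClo (oneE G) (h m (by simpa using hr) G hG)
  | cons e L ih =>
    intro hL m G hG hr
    rw [List.length_cons] at hr
    have hL' : ∀ f ∈ L, f ∈ F := fun f hf => hL f (List.mem_cons_of_mem _ hf)
    have h1 : P (aff R (Pc G L.prod)) := ih hL' m G hG (by omega)
    have h2 : P (aff R (Pc (Fin.snoc (α := fun _ => MvPolynomial σ R) G e) L.prod)) := by
      refine ih hL' (m + 1) _ (fun l => ?_) (by omega)
      refine Fin.lastCases ?_ (fun l => ?_) l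
      · rw [Fin.snoc_last]
        exact hL e List.mem_cons_self
      · rw [Fin.snoc_castSucc]
        exact hG l
    have h3 : P (aff R (Pc (adj G e) L.prod)) := by
      refine clo_alg hP.toClo (pcSame ?_ (pc_unit _ _) ?_ (pc_unit _ _)) h2
      · intro k
        refine Fin.lastCases ?_ (fun k => ?_) k
        · rw [Fin.snoc_last]
          exact pc_rel (adj G e) L.prod none
        · rw [Fin.snoc_castSucc]
          exact pc_rel (adj G e) L.prod (some k)
      · rintro (_ | k)
        · have h4 := pc_rel (Fin.snoc (α := fun _ => MvPolynomial σ R) G e) L.prod (Fin.last m)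
          rw [Fin.snoc_last] at h4
          exact h4
        · have h4 := pc_rel (Fin.snoc (α := fun _ => MvPolynomial σ R) G e) L.prod k.castSucc
          rw [Fin.snoc_castSucc] at h4
          exact h4
    have h4 : P (aff R (Pc G (L.prod * e))) := by
      have : Algebra.FiniteType R (Localization.Away (pc G L.prod e)) :=
        Algebra.FiniteType.trans (S := Pc G L.prod) inferInstance inferInstance
      exact clo_alg hP.toClo (opnE G L.prod e) (hP.opened _ _ (ft_aff sep)
        (triple_away (pc G L.prod e)) (clo_alg hP.toClo (cloE G L.prod e).symm h3) h1)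
    rw [List.prod_cons, mul_comm]
    exact h4

/-- Principal opens defined by products of at most `r` elements of `F`, and the closed subschemes defined
by at most `r` equations in `F`. -/
theorem opens_systems :
    (∀ L : List (MvPolynomial σ R), L.length ≤ r → (∀ f ∈ L, f ∈ F) →
      P (aff R (Localization.Away L.prod))) ↔
    ∀ m ≤ r, ∀ G : Fin m → MvPolynomial σ R, (∀ l, G l ∈ F) →
      P (aff R (MvPolynomial σ R ⧸ Ideal.span (Set.range G))) := by
  constructor
  · intro h m hm G hG
    have h1 := pc_list_le hP F r h m G hG [] (by simp) (by simpa using hm)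
    rw [List.prod_nil] at h1
    exact clo_alg hP.toClo (oneE G).symm h1
  · intro h L hr hL
    have h1 := list_pc_le hP F r h L hL 0 (fun l => l.elim0) (fun l => l.elim0) (by omega)
    have hf : Algebra.FiniteType R (Localization.Away L.prod) :=
      Algebra.FiniteType.trans (S := MvPolynomial σ R) inferInstance inferInstance
    exact clo_alg hP.toClo (awayE _ L.prod).symm h1

end

/-- Principal opens defined by at most `m` bilinear forms in `a + b` variables, and systems of at most
`m` bilinear equations in these variables. -/
theorem opens_block (hP : Clo2 sep P) (a b m : ℕ) :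
    (∀ r ≤ m, ∀ t : Fin a → Fin b → Fin r → R, P (opnS (bform t))) ↔
      ∀ c ≤ m, ∀ t : Fin a → Fin b → Fin c → R, P (bilS t) := by
  have h := opens_systems hP {f | ∃ M : Fin a → Fin b → R, bil (Fin a) (Fin b) M = f} m
  constructor
  · intro h1 c hc t
    refine h.mp ?_ c hc (bform t) (fun l => ⟨fun i j => t i j l, (bform_eq t l).symm⟩)
    intro L hr hL
    have h2 : ∀ l : Fin L.length, ∃ M : Fin a → Fin b → R, bil (Fin a) (Fin b) M = L.get l :=
      fun l => hL _ (List.get_mem L l)
    choose M hM using h2
    have h3 := h1 L.length hr fun i j l => M l i j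
    have h4 : L.prod = ∏ l, bform (fun i j l => M l i j) l := by
      rw [prod_list]
      refine Finset.prod_congr rfl fun l _ => ?_
      rw [bform_eq]
      exact (hM l).symm
    rw [h4]
    exact h3
  · intro h1 r hr t
    have h2 := h.mpr (fun c hc G hG => by
      choose M hM using hG
      have h3 := h1 c hc fun i j l => M l i j
      have h4 : G = bform (fun i j l => M l i j) := by
        funext l
        rw [bform_eq]
        exact (hM l).symm
      rw [h4]
      exact h3) (List.ofFn (bform t)) (by rw [List.length_ofFn]; exact hr) (fun f hf => by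
        obtain ⟨l, rfl⟩ := (List.mem_ofFn' (bform t) f).mp hf
        exact ⟨fun i j => t i j l, (bform_eq t l).symm⟩)
    rw [List.prod_ofFn] at h2
    exact h2

/-- Schemes of dimension at most `d`, and principal opens of affine spaces. -/
theorem opens_dim {k : Type} [Field k] [PerfectField k] {P : Sch k → Prop} (hP : Bnd True P) (d : ℕ) :
    [(∀ X : Sch k, FT True X → topologicalKrullDim X.left ≤ d → P X),
      (∀ (a b r : ℕ) (t : Fin a → Fin b → Fin r → k), (a ≤ d + 2 ∨ b ≤ d + 2) →
        P (opnS (bform t))),
      (∀ (a b r : ℕ) (t : Fin a → Fin b → Fin r → k), r ≤ d + 2 → P (opnS (bform t)))].TFAE := by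
  have hC := clo2_of_bnd hP
  have h := gen_tfae hP d
  tfae_have 1 ↔ 2 := by
    refine (h.out 0 2 :
      (∀ X : Sch k, FT True X → topologicalKrullDim X.left ≤ d → P X) ↔
        ∀ (a b c : ℕ) (t : Fin a → Fin b → Fin c → k), (a ≤ d + 2 ∨ b ≤ d + 2) → P (bilS t)).trans ?_
    constructor
    · intro h a b r t hm
      exact (opens_block hC a b r).mpr (fun c _ t => h a b c t hm) r le_rfl t
    · intro h a b c t hm
      exact (opens_block hC a b c).mp (fun r _ t => h a b r t hm) c le_rfl t
  tfae_have 1 ↔ 3 := by
    refine (h.out 0 3 :
      (∀ X : Sch k, FT True X → topologicalKrullDim X.left ≤ d → P X) ↔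
        ∀ (a b c : ℕ) (t : Fin a → Fin b → Fin c → k), c ≤ d + 2 → P (bilS t)).trans ?_
    constructor
    · intro h a b r t hr
      exact (opens_block hC a b (d + 2)).mpr (fun c hc t => h a b c t hc) r hr t
    · intro h a b c t hc
      exact (opens_block hC a b (d + 2)).mp (fun r hr t => h a b r t hr) c hc t
  tfae_finish

end Pool.Agent.N882.UE
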