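import Pool.Agent.Q282.UZ.Sys
import Pool.Agent.Z125.UN.Lin

/-!
# Principal open subschemes of affine spaces decide properties closed under closed-open decompositions

For a property of schemes which is closed under closed-open decompositions in all three directions (no
statement on affine bundles is needed), the closed subscheme `f_1 = ⋯ = f_m = 0` of an affine space
has it, if the principal open subschemes defined by the products of the `f_l` have it.
-/

set_option autoImplicit false

open CategoryTheory AlgebraicGeometry MvPolynomial

namespace Pool.Agent.N882.UE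

open Pool.Agent.Y116.UV Pool.Agent.Z125.UN Pool.Agent.Q282.UK Pool.Agent.Q282.UZ

/-- As `Clo`, and the property is true for a closed subscheme if it is true for the scheme and for the
complement. -/
structure Clo2 {R : Type} [CommRing R] (sep : Prop) (P : Sch R → Prop) : Prop extends Clo sep P where
  closed : ∀ {Z X U : Sch R} (i : Z ⟶ X) (j : U ⟶ X), FT sep X → IsTriple i j → P X → P U → P Z

variable {R : Type} [CommRing R] {sep : Prop} {P : Sch R → Prop}

section

variable {σ : Type} (G : Fin 0 → MvPolynomial σ R) (w : MvPolynomial σ R)

lemma aeval_away : aeval (fun s => IsScalarTower.toAlgHom R (MvPolynomial σ R)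
    (Localization.Away w) (X s)) =
    IsScalarTower.toAlgHom R (MvPolynomial σ R) (Localization.Away w) := by
  apply MvPolynomial.algHom_ext
  intro s
  rw [aeval_X]

/-- from the localization -/
noncomputable def awayF : Localization.Away w →ₐ[R] Pc G w :=
  IsLocalization.liftAlgHom (M := Submonoid.powers w) (f := pc G w) (by
    rintro ⟨_, k, rfl⟩
    change IsUnit (pc G w (w ^ k))
    rw [map_pow]
    exact (pc_unit G w).pow k)

/-- to the localization -/
noncomputable def awayG : Pc G w →ₐ[R] Localization.Away w :=
  pcLift G w (fun s => IsScalarTower.toAlgHom R (MvPolynomial σ R) (Localization.Away w) (X s))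
    (fun k => k.elim0)
    (by
      rw [aeval_away]
      exact IsLocalization.map_units (M := Submonoid.powers w) (Localization.Away w)
        ⟨_, Submonoid.mem_powers _⟩)

lemma awayG_pv (s : σ) : awayG G w (pv G w s) =
    algebraMap (MvPolynomial σ R) (Localization.Away w) (X s) := by
  rw [awayG, pcLift_pv]
  rfl

lemma awayF_mk (x : MvPolynomial σ R) :
    awayF G w (algebraMap (MvPolynomial σ R) (Localization.Away w) x) = pc G w x := by
  rw [awayF, IsLocalization.liftAlgHom_apply, IsLocalization.lift_eq]
  rfl

/-- A principal open subscheme, with no equations. -/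
noncomputable def awayE : Localization.Away w ≃ₐ[R] Pc G w :=
  AlgEquiv.ofAlgHom (awayF G w) (awayG G w)
    (by
      apply pc_ext
      intro s
      rw [AlgHom.comp_apply, awayG_pv, awayF_mk]
      rfl)
    (by
      apply IsLocalization.algHom_ext (Submonoid.powers w)
      apply MvPolynomial.algHom_ext
      intro s
      change awayG G w (awayF G w (algebraMap _ _ (X s))) = algebraMap _ _ (X s)
      rw [awayF_mk]
      exact awayG_pv G w s)

end

section

variable (hP : Clo2 sep P) {σ : Type} [Finite σ]

include hP

lemma pc_list (F : Set (MvPolynomial σ R))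
    (h : ∀ L : List (MvPolynomial σ R), (∀ f ∈ L, f ∈ F) → P (aff R (Localization.Away L.prod))) :
    ∀ (m : ℕ) (G : Fin m → MvPolynomial σ R), (∀ l, G l ∈ F) → ∀ L : List (MvPolynomial σ R),
      (∀ f ∈ L, f ∈ F) → P (aff R (Pc G L.prod)) := by
  intro m
  induction m with
  | zero =>
    intro G _ L hL
    have hf : Algebra.FiniteType R (Localization.Away L.prod) :=
      Algebra.FiniteType.trans (S := MvPolynomial σ R) inferInstance inferInstance
    exact clo_alg hP.toClo (awayE G L.prod) (h L hL)
  | succ m ih =>
    intro G hG L hL
    let G' : Fin m → MvPolynomial σ R := fun l => G l.castSucc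
    let e := G (Fin.last m)
    have h1 : P (aff R (Pc G' L.prod)) := ih G' (fun l => hG _) L hL
    have h2 : P (aff R (Pc G' (L.prod * e))) := by
      have h3 : L.prod * e = (L ++ [e]).prod := by rw [List.prod_append, List.prod_singleton]
      rw [h3]
      refine ih G' (fun l => hG _) _ fun f hf => ?_
      rcases List.mem_append.mp hf with hf | hf
      · exact hL f hf
      · rw [List.mem_singleton.mp hf]
        exact hG _
    have h3 : P (aff R (Pc (adj G' e) L.prod)) :=
      clo_alg hP.toClo (cloE G' L.prod e) (hP.closed _ _ (ft_aff sep)
        (triple_away (pc G' L.prod e)) h1 (by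
          have hf : Algebra.FiniteType R (Pc G' (L.prod * e)) := inferInstance
          exact clo_alg hP.toClo (opnE G' L.prod e).symm h2))
    refine clo_alg hP.toClo (pcSame ?_ (pc_unit _ _) ?_ (pc_unit _ _)) h3
    · rintro (_ | k)
      · exact pc_rel G L.prod (Fin.last m)
      · exact pc_rel G L.prod k.castSucc
    · intro k
      refine Fin.lastCases ?_ (fun k => ?_) k
      · exact pc_rel (adj G' e) L.prod none
      · exact pc_rel (adj G' e) L.prod (some k)

/-- The closed subscheme given by the equations `G l = 0`. -/
theorem of_opens (F : Set (MvPolynomial σ R))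
    (h : ∀ L : List (MvPolynomial σ R), (∀ f ∈ L, f ∈ F) → P (aff R (Localization.Away L.prod)))
    {m : ℕ} (G : Fin m → MvPolynomial σ R) (hG : ∀ l, G l ∈ F) :
    P (aff R (MvPolynomial σ R ⧸ Ideal.span (Set.range G))) := by
  have h1 := pc_list hP F h m G hG [] (by simp)
  rw [List.prod_nil] at h1
  exact clo_alg hP.toClo (oneE G).symm h1

omit hP in
/-- A property which is closed under closed-open decompositions (in all directions) and under passing
from `X × 𝔾_m` to `X` is true for all schemes of finite type if and only if it is true for the
principal open subschemes of affine spaces defined by products of bilinear forms with coefficients `1`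
and at most three terms. -/
theorem opens_iff (hR : ShortPresents R) (hP : Clo2 sep P) :
    (∀ X : Sch R, FT sep X → P X) ↔
      ∀ (a b : ℕ) (L : List (Finset (Fin a × Fin b))), (∀ E ∈ L, E.card ≤ 3) →
        P (aff R (Localization.Away (L.map (few R)).prod)) := by
  constructor
  · intro h a b L _
    have hf : Algebra.FiniteType R (Localization.Away (L.map (few R)).prod) :=
      Algebra.FiniteType.trans (S := MvPolynomial (Fin a ⊕ Fin b) R) inferInstance inferInstance
    exact h _ (ft_aff sep)
  · intro h
    rw [three_iff hR hP.toClo]
    intro a b c E hE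
    refine of_opens hP {f | ∃ E : Finset (Fin a × Fin b), E.card ≤ 3 ∧ few R E = f} ?_
      (fun l => few R (E l)) (fun l => ⟨E l, hE l, rfl⟩)
    intro L hL
    choose! g hg hg' using hL
    have h1 : L = (L.map g).map (few R) := by
      rw [List.map_map]
      conv_lhs => rw [← List.map_id L]
      apply List.map_congr_left
      intro f hf
      exact (hg' f hf).symm
    rw [h1]
    refine h a b (L.map g) ?_
    intro E hE'
    obtain ⟨f, hf, rfl⟩ := List.mem_map.mp hE'
    exact hg f hf

end

end Pool.Agent.N882.UE
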