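import Pool.Agent.N882.UE.Tb
import Pool.Agent.N882.UE.Opn

/-!
# Perfect pairings between motivic homology and cohomology with compact supports

Definitions for schemes over a field `k`, and the closure properties of the schemes with a perfect
pairing.
-/

set_option autoImplicit false

open CategoryTheory AlgebraicGeometry MvPolynomial

namespace Pool.Agent.N882.UE

open Pool.Agent.Y116.UV Pool.Agent.Z125.UN Pool.Agent.Q282.UK

noncomputable section

/-- Data of motivic homology with compact supports `H X i n = H_i^c(X, ℚ(n))`, of motivic cohomology with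
compact supports `C X i n = H^i_c(X, ℚ(n))`, and of the pairing between them, for the schemes `X` over
the field `k`. -/
structure Motivic (k : Type) [Field k] where
  /-- motivic homology with compact supports -/
  H : Sch k → ℤ → ℤ → Type
  [hgrp : ∀ X i n, AddCommGroup (H X i n)]
  [hmod : ∀ X i n, Module ℚ (H X i n)]
  /-- motivic cohomology with compact supports -/
  C : Sch k → ℤ → ℤ → Type
  [cgrp : ∀ X i n, AddCommGroup (C X i n)]
  [cmod : ∀ X i n, Module ℚ (C X i n)]
  /-- the pairing -/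
  pair : ∀ X i n, H X i n →ₗ[ℚ] C X i n →ₗ[ℚ] ℚ

attribute [instance] Motivic.hgrp Motivic.hmod Motivic.cgrp Motivic.cmod

variable {k : Type} [Field k] (T : Motivic k)

/-- The pairings of `H_i^c(X, ℚ(n))` and `H^i_c(X, ℚ(n))` are perfect for all `i`: both induced maps to
the dual spaces are bijective. -/
def Perfect (X : Sch k) (n : ℤ) : Prop :=
  ∀ i : ℤ, Function.Bijective (T.pair X i n) ∧ Function.Bijective (T.pair X i n).flip

/-- A homomorphism `f` of the homology groups with an adjoint homomorphism `g` of the cohomology groups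
with compact supports. -/
structure Adj (X : Sch k) (i n : ℤ) (Y : Sch k) (j m : ℤ) where
  /-- the map of the homology groups -/
  f : T.H X i n →ₗ[ℚ] T.H Y j m
  /-- the map of the cohomology groups -/
  g : T.C Y j m →ₗ[ℚ] T.C X i n
  adj : ∀ x y, T.pair Y j m (f x) y = T.pair X i n x (g y)

variable {T} in
/-- Exactness of both sequences. -/
def IsEx {X : Sch k} {i n : ℤ} {X' : Sch k} {i' n' : ℤ} {X'' : Sch k} {i'' n'' : ℤ}
    (a : Adj T X i n X' i' n') (b : Adj T X' i' n' X'' i'' n'') : Prop :=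
  Function.Exact a.f b.f ∧ Function.Exact b.g a.g

/-- The long exact localisation sequences `⋯ → H_i(Z) → H_i(X) → H_i(U) → H_(i-1)(Z) → ⋯` and
`⋯ → C^i(U) → C^i(X) → C^i(Z) → C^(i+1)(U) → ⋯` are adjoint to each other. -/
def Local (Z X U : Sch k) : Prop :=
  ∀ n : ℤ, ∃ (a : ∀ i, Adj T Z i n X i n) (b : ∀ i, Adj T X i n U i n)
    (d : ∀ i, Adj T U (i + 1) n Z i n),
    ∀ i, IsEx (a i) (b i) ∧ IsEx (b (i + 1)) (d i) ∧ IsEx (d i) (a i)

/-- The motive with compact supports `M(X)(r)[p]` is a direct factor of `M(Y)`: the groups of `X` in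
degree `i`, twist `n` are direct factors of those of `Y` in degree `i + p`, twist `n + r`. -/
def Factor (X Y : Sch k) (p r : ℤ) : Prop :=
  ∀ i n : ℤ, ∃ (s : Adj T X i n Y (i + p) (n + r)) (t : Adj T Y (i + p) (n + r) X i n),
    (∀ x, t.f (s.f x) = x) ∧ ∀ y, s.g (t.g y) = y

/-- The standard properties: isomorphic schemes; adjoint localisation sequences for a closed subscheme
and its complement; the motive of a bundle of Jouanolou of relative dimension `m - 1` over `U` is
`M(U)(m - 1)[2 m - 2]`; the motive of `X × 𝔾_m` has the direct factor `M(X)[1]`. -/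
structure IsMotivic : Prop where
  iso : ∀ {X Y : Sch k}, FT True X → Nonempty (X ≅ Y) → Factor T Y X 0 0
  localization : ∀ {Z X U : Sch k} (i : Z ⟶ X) (j : U ⟶ X), FT True X → IsTriple i j → Local T Z X U
  bundle : ∀ (A : Type) [CommRing A] [Algebra k A] [Algebra.FiniteType k A] (m : ℕ) (f : Fin m → A)
    (U : Sch k) (j : U ⟶ aff k A), IsOpenImmersion j.left →
    Set.range j.left = {x : PrimeSpectrum A | ∃ l, f l ∉ x.asIdeal} →
    Factor T U (aff k (Jou f)) (2 * (m - 1)) (m - 1) ∧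
      Factor T (aff k (Jou f)) U (2 * (1 - m)) (1 - m)
  torus : ∀ (A : Type) [CommRing A] [Algebra k A] [Algebra.FiniteType k A],
    Factor T (aff k A) (aff k (LaurentPolynomial A)) 1 0

/-- A pair of vector spaces with a pairing. -/
structure PNode where
  /-- first space -/
  H : Type
  /-- second space -/
  C : Type
  [hg : AddCommGroup H]
  [hm : Module ℚ H]
  [cg : AddCommGroup C]
  [cm : Module ℚ C]
  /-- the pairing -/
  p : H →ₗ[ℚ] C →ₗ[ℚ] ℚ

attribute [instance] PNode.hg PNode.hm PNode.cg PNode.cm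

/-- the flipped pair -/
def PNode.flip (N : PNode) : PNode where
  H := N.C
  C := N.H
  p := N.p.flip

/-- Adjoint maps. -/
structure PArr (N M : PNode) where
  /-- first map -/
  f : N.H →ₗ[ℚ] M.H
  /-- second map -/
  g : M.C →ₗ[ℚ] N.C
  adj : ∀ x y, M.p (f x) y = N.p x (g y)

/-- the flipped arrow -/
def PArr.flip {N M : PNode} (a : PArr N M) : PArr M.flip N.flip where
  f := a.g
  g := a.f
  adj := fun y x => (a.adj x y).symm

/-- exactness of the dual sequence -/
lemma exact_dual {V W Z : Type} [AddCommGroup V] [Module ℚ V] [AddCommGroup W] [Module ℚ W]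
    [AddCommGroup Z] [Module ℚ Z] {f : V →ₗ[ℚ] W} {g : W →ₗ[ℚ] Z} (h : Function.Exact f g) :
    Function.Exact (g.dualMap) (f.dualMap) := by
  rw [LinearMap.exact_iff] at h ⊢
  rw [LinearMap.ker_dualMap_eq_dualAnnihilator_range, ← h,
    LinearMap.range_dualMap_eq_dualAnnihilator_ker]

/-- the square of an arrow -/
lemma PArr.sq {N M : PNode} (a : PArr N M) : a.g.dualMap ∘ₗ N.p = M.p ∘ₗ a.f := by
  ext x y
  change N.p x (a.g y) = M.p (a.f x) y
  rw [a.adj]

/-- The five lemma for one of the two maps. -/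
theorem bij_five {A₁ A₂ A₃ A₄ A₅ : PNode} (a₁ : PArr A₁ A₂) (a₂ : PArr A₂ A₃) (a₃ : PArr A₃ A₄)
    (a₄ : PArr A₄ A₅) (e₁ : Function.Exact a₁.f a₂.f) (e₂ : Function.Exact a₂.f a₃.f)
    (e₃ : Function.Exact a₃.f a₄.f) (e₁' : Function.Exact a₂.g a₁.g)
    (e₂' : Function.Exact a₃.g a₂.g) (e₃' : Function.Exact a₄.g a₃.g)
    (h₁ : Function.Bijective A₁.p) (h₂ : Function.Bijective A₂.p) (h₄ : Function.Bijective A₄.p)
    (h₅ : Function.Bijective A₅.p) : Function.Bijective A₃.p :=
  LinearMap.bijective_of_surjective_of_bijective_of_bijective_of_injective a₁.f a₂.f a₃.f a₄.f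
    a₁.g.dualMap a₂.g.dualMap a₃.g.dualMap a₄.g.dualMap A₁.p A₂.p A₃.p A₄.p A₅.p
    a₁.sq a₂.sq a₃.sq a₄.sq e₁ e₂ e₃ (exact_dual e₁') (exact_dual e₂') (exact_dual e₃')
    h₁.2 h₂ h₄ h₅.1

/-- Direct factors, for one of the two maps. -/
theorem bij_retract {N M : PNode} (s : PArr N M) (t : PArr M N) (h1 : ∀ x, t.f (s.f x) = x)
    (h2 : ∀ y, s.g (t.g y) = y) (h : Function.Bijective M.p) : Function.Bijective N.p := by
  constructor
  · rw [injective_iff_map_eq_zero]
    intro x hx
    have h3 : M.p (s.f x) = 0 := by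
      ext y
      rw [s.adj, hx]
      rfl
    have h4 : s.f x = 0 := h.1 (by rw [h3, map_zero])
    rw [← h1 x, h4, map_zero]
  · intro φ
    obtain ⟨y, hy⟩ := h.2 (φ ∘ₗ s.g)
    refine ⟨t.f y, ?_⟩
    ext c
    rw [t.adj, hy]
    change φ (s.g (t.g c)) = φ c
    rw [h2]

variable {T}

/-- The groups of `X` in degree `i`, twist `n`. -/
def pnode (T : Motivic k) (X : Sch k) (i n : ℤ) : PNode where
  H := T.H X i n
  C := T.C X i n
  p := T.pair X i n

/-- Arrows from adjoint homomorphisms. -/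
def Adj.arr {X Y : Sch k} {i n j m : ℤ} (h : Adj T X i n Y j m) :
    PArr (pnode T X i n) (pnode T Y j m) where
  f := h.f
  g := h.g
  adj := h.adj

/-- both maps are bijective -/
def PNode.Good (N : PNode) : Prop := Function.Bijective N.p ∧ Function.Bijective N.flip.p

theorem good_five {A₁ A₂ A₃ A₄ A₅ : PNode} (a₁ : PArr A₁ A₂) (a₂ : PArr A₂ A₃) (a₃ : PArr A₃ A₄)
    (a₄ : PArr A₄ A₅) (e₁ : Function.Exact a₁.f a₂.f) (e₂ : Function.Exact a₂.f a₃.f)
    (e₃ : Function.Exact a₃.f a₄.f) (e₁' : Function.Exact a₂.g a₁.g)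
    (e₂' : Function.Exact a₃.g a₂.g) (e₃' : Function.Exact a₄.g a₃.g)
    (h₁ : A₁.Good) (h₂ : A₂.Good) (h₄ : A₄.Good) (h₅ : A₅.Good) : A₃.Good :=
  ⟨bij_five a₁ a₂ a₃ a₄ e₁ e₂ e₃ e₁' e₂' e₃' h₁.1 h₂.1 h₄.1 h₅.1,
    bij_five a₄.flip a₃.flip a₂.flip a₁.flip e₃' e₂' e₁' e₃ e₂ e₁ h₅.2 h₄.2 h₂.2 h₁.2⟩

theorem good_factor {N M : PNode} (s : PArr N M) (t : PArr M N) (h1 : ∀ x, t.f (s.f x) = x)
    (h2 : ∀ y, s.g (t.g y) = y) (h : M.Good) : N.Good :=
  ⟨bij_retract s t h1 h2 h.1, bij_retract t.flip s.flip h2 h1 h.2⟩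

theorem perfect_iff (X : Sch k) (n : ℤ) : Perfect T X n ↔ ∀ i, (pnode T X i n).Good := Iff.rfl

theorem perfect_closed {Z X U : Sch k} (h : Local T Z X U) {n : ℤ} (hX : Perfect T X n)
    (hU : Perfect T U n) : Perfect T Z n := by
  rw [perfect_iff] at hX hU ⊢
  intro i
  obtain ⟨a, b, d, h⟩ := h n
  exact good_five (b (i + 1)).arr (d i).arr (a i).arr (b i).arr
    (h i).2.1.1 (h i).2.2.1 (h i).1.1 (h i).2.1.2 (h i).2.2.2 (h i).1.2
    (hX (i + 1)) (hU (i + 1)) (hX i) (hU i)

theorem perfect_total {Z X U : Sch k} (h : Local T Z X U) {n : ℤ} (hZ : Perfect T Z n)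
    (hU : Perfect T U n) : Perfect T X n := by
  rw [perfect_iff] at hZ hU ⊢
  intro i
  obtain ⟨i, rfl⟩ : ∃ k, i = k + 1 := ⟨i - 1, by ring⟩
  obtain ⟨a, b, d, h⟩ := h n
  exact good_five (d (i + 1)).arr (a (i + 1)).arr (b (i + 1)).arr (d i).arr
    (h (i + 1)).2.2.1 (h (i + 1)).1.1 (h i).2.1.1 (h (i + 1)).2.2.2 (h (i + 1)).1.2
    (h i).2.1.2
    (hU (i + 1 + 1)) (hZ (i + 1)) (hU (i + 1)) (hZ i)

theorem perfect_opened {Z X U : Sch k} (h : Local T Z X U) {n : ℤ} (hZ : Perfect T Z n)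
    (hX : Perfect T X n) : Perfect T U n := by
  rw [perfect_iff] at hZ hX ⊢
  intro i
  obtain ⟨i, rfl⟩ : ∃ k, i = k + 1 := ⟨i - 1, by ring⟩
  obtain ⟨a, b, d, h⟩ := h n
  exact good_five (a (i + 1)).arr (b (i + 1)).arr (d i).arr (a i).arr
    (h (i + 1)).1.1 (h i).2.1.1 (h i).2.2.1 (h (i + 1)).1.2 (h i).2.1.2 (h i).2.2.2
    (hZ (i + 1)) (hX (i + 1)) (hZ i) (hX i)

theorem perfect_factor {X Y : Sch k} {p r : ℤ} (h : Factor T X Y p r) {n : ℤ}
    (hY : Perfect T Y (n + r)) : Perfect T X n := by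
  rw [perfect_iff] at hY ⊢
  intro i
  obtain ⟨s, t, h1, h2⟩ := h i n
  exact good_factor s.arr t.arr h1 h2 (hY _)

/-- For every twist `n` the schemes with perfect pairings have the closure properties `Clo2`. -/
theorem clo_perfect (hT : IsMotivic T) (n : ℤ) : Clo2 True fun X => Perfect T X n where
  iso := fun hX e h2 => perfect_factor (hT.iso hX e) (by rw [add_zero]; exact h2)
  total := fun i j hX ht hZ hU => perfect_total (hT.localization i j hX ht) hZ hU
  opened := fun i j hX ht hZ hX' => perfect_opened (hT.localization i j hX ht) hZ hX'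
  closed := fun i j hX ht hX' hU => perfect_closed (hT.localization i j hX ht) hX' hU
  torus := fun B _ _ _ h2 => perfect_factor (hT.torus B) (by rw [add_zero]; exact h2)

/-- The schemes with perfect pairings for all twists have the closure properties `Bnd`. -/
theorem bnd_perfect (hT : IsMotivic T) (h1 : ∀ n, Perfect T (aff k k) n) :
    Bnd True fun X => ∀ n, Perfect T X n := by
  have hbun : ∀ (B : Type) [CommRing B] [Algebra k B] [Algebra.FiniteType k B] (m : ℕ)
      (f : Fin m → B) (U : Sch k) (j : U ⟶ aff k B), IsOpenImmersion j.left →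
      Set.range j.left = {x : PrimeSpectrum B | ∃ l, f l ∉ x.asIdeal} →
      ((∀ n, Perfect T U n) ↔ ∀ n, Perfect T (aff k (Jou f)) n) := by
    intro B _ _ _ m f U j hj hr
    obtain ⟨h2, h3⟩ := hT.bundle B m f U j hj hr
    exact ⟨fun h n => perfect_factor h3 (h _), fun h n => perfect_factor h2 (h _)⟩
  exact
  { iso := fun hX e h2 n => (clo_perfect hT n).iso hX e (h2 n)
    total := fun i j hX ht hZ hU n => (clo_perfect hT n).total i j hX ht (hZ n) (hU n)
    opened := fun i j hX ht hZ hX' n => (clo_perfect hT n).opened i j hX ht (hZ n) (hX' n)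
    closed := fun i j hX ht hX' hU n => (clo_perfect hT n).closed i j hX ht (hX' n) (hU n)
    space := fun N => by
      have h2 := (hbun k (N + 1) (f1 k N) (aff k k) (𝟙 _) inferInstance (range_one N)).mp h1
      intro n
      exact (clo_perfect hT n).iso (ft_aff True) ⟨(affIso (jouOne k N)).symm⟩ (h2 n)
    jouanolou := fun B _ _ _ m f U j hj hr h2 => (hbun B m f U j hj hr).mpr h2
    torus := fun B _ _ _ h2 n => (clo_perfect hT n).torus B (h2 n)
    bundle := fun B _ _ _ m f U j hj hr h2 => (hbun B m f U j hj hr).mp h2 }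

end

end Pool.Agent.N882.UE
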