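import Pool.Agent.N882.UE.Factor

/-!
# Regulators with dense image
-/

set_option autoImplicit false

open MvPolynomial CategoryTheory AlgebraicGeometry

namespace Pool.Agent.N882.UE

open Pool.Agent.Y116.UV Pool.Agent.Z125.UN

/-- a homomorphism `r` from an abelian group `M` to a topological abelian group `H` -/
structure RegMap : Type 1 where
  M : Type
  H : Type
  [gM : AddCommGroup M]
  [gH : AddCommGroup H]
  [top : TopologicalSpace H]
  r : M →+ H

attribute [instance] RegMap.gM RegMap.gH RegMap.top

/-- `r` has dense image -/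
def RegMap.Dense (a : RegMap) : Prop := DenseRange a.r

/-- an isomorphism -/
structure RegMap.Iso (a b : RegMap) where
  f : a.M ≃+ b.M
  g : a.H ≃+ b.H
  cont : Continuous g
  cont' : Continuous g.symm
  comm : ∀ m, g (a.r m) = b.r (f m)

/-- the direct sum of two regulators -/
def RegMap.prod (a b : RegMap) : RegMap := ⟨a.M × b.M, a.H × b.H, a.r.prodMap b.r⟩

/-- the direct sum of finitely many regulators -/
def RegMap.pi {n : ℕ} (a : Fin n → RegMap) : RegMap where
  M := ∀ l, (a l).M
  H := ∀ l, (a l).H
  r :=
    { toFun := fun m l => (a l).r (m l)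
      map_zero' := funext fun l => (a l).r.map_zero
      map_add' := fun x y => funext fun l => (a l).r.map_add (x l) (y l) }

lemma RegMap.dense_iso {a b : RegMap} (e : a.Iso b) (h : a.Dense) : b.Dense := by
  have h1 : DenseRange (fun m => e.g (a.r m)) :=
    e.g.surjective.denseRange.comp h e.cont
  refine h1.mono ?_
  rintro _ ⟨m, rfl⟩
  exact ⟨e.f m, (e.comm m).symm⟩

lemma RegMap.dense_snd {a b : RegMap} (h : (a.prod b).Dense) : b.Dense := by
  have h1 : DenseRange (fun m => ((a.prod b).r m : a.H × b.H).2) :=
    (Prod.snd_surjective (α := a.H) (β := b.H)).denseRange.comp h continuous_snd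
  refine h1.mono ?_
  rintro _ ⟨m, rfl⟩
  exact ⟨(m : a.M × b.M).2, rfl⟩

lemma RegMap.dense_pi {n : ℕ} {a : Fin n → RegMap} (h : ∀ l, (a l).Dense) : (RegMap.pi a).Dense :=
  DenseRange.piMap h

/-- a smooth domain over `k` -/
structure SmDom (k : Type) [Field k] : Type 1 where
  A : Type
  [ring : CommRing A]
  [alg : Algebra k A]
  dom : IsDomain A
  smooth : Algebra.Smooth k A

attribute [instance] SmDom.ring SmDom.alg

/-- its spectrum -/
noncomputable def SmDom.sch {k : Type} [Field k] (D : SmDom k) : Sch k := aff k D.A

/-- The properties of the regulators `T X i j` from motivic cohomology to absolute Hodge cohomology in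
the bidegree `(i, j)` which are used: invariance under isomorphisms; a smooth scheme `X` has the same
regulators as a disjoint union of finitely many spectra of smooth domains (affine bundles over the
components); if the closed subscheme `f = 0` of an affine space is smooth and connected, of codimension
`c > 0`, then the regulator of the cubic `∑ z_l f_l = 1` (an affine bundle over the complement) is the
direct sum of those of the point and, in the bidegree `(i - 2 c + 1, j - c)`, of the closed subscheme;
the same for the complement of the cubic in the affine space, with `c = 1`. -/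
structure IsReg {k : Type} [Field k] (T : Sch k → ℤ → ℤ → RegMap) : Prop where
  iso : ∀ X Y : Sch k, Nonempty (X ≅ Y) → ∀ i j, Nonempty ((T X i j).Iso (T Y i j))
  affine : ∀ X : Sch k, FT True X → Smooth X.hom → ∃ (r : ℕ) (D : Fin r → SmDom k), ∀ i j,
    Nonempty ((RegMap.pi fun l => T (D l).sch i j).Iso (T X i j))
  gysin : ∀ (n m : ℕ) (f : Fin m → MvPolynomial (Fin n) k), IsDomain (Zer f) →
    Algebra.Smooth k (Zer f) → (∃ l, f l ≠ 0) → ∃ c : ℤ, ∀ i j,
      Nonempty ((T (cub f) i j).Iso
        ((T (aff k k) i j).prod (T (aff k (Zer f)) (i - 2 * c + 1) (j - c))))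
  comp : ∀ (n m : ℕ) (f : Fin m → MvPolynomial (Fin n) k) (i j : ℤ),
    Nonempty ((T (cubC f) i j).Iso ((T (aff k k) i j).prod (T (cub f) (i - 1) (j - 1))))

theorem factor_dense {k : Type} [Field k] {T : Sch k → ℤ → ℤ → RegMap} (hT : IsReg T) :
    Factor fun X i j => (T X i j).Dense where
  affine := by
    intro X h1 h2 i j h
    obtain ⟨r, D, hD⟩ := hT.affine X h1 h2
    obtain ⟨e⟩ := hD i j
    exact RegMap.dense_iso e (RegMap.dense_pi fun l => h (D l).A (D l).dom (D l).smooth)
  iso := by
    intro A B _ _ _ _ e i j h
    obtain ⟨e'⟩ := hT.iso _ _ ⟨(affIso e).symm⟩ i j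
    exact RegMap.dense_iso e' h
  gysin := by
    intro n m f h1 h2 h3
    obtain ⟨c, hc⟩ := hT.gysin n m f h1 h2 h3
    refine ⟨c, fun i j h => ?_⟩
    obtain ⟨e⟩ := hc i j
    exact RegMap.dense_snd (RegMap.dense_iso e h)
  comp := by
    intro n m f i j h
    obtain ⟨e⟩ := hT.comp n m f i j
    exact RegMap.dense_snd (RegMap.dense_iso e h)

end Pool.Agent.N882.UE
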