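import Pool.Agent.Z125.UN.Dim2

/-!
# The affine bundles of Jouanolou are smooth
-/

set_option autoImplicit false

open MvPolynomial CategoryTheory AlgebraicGeometry

namespace Pool.Agent.N882.UE

open Pool.Agent.Y116.UV Pool.Agent.Z125.UN

/-- `A[w] / (∑ f_l w_l - 1)` is smooth over `A`. -/
theorem jou_smooth {A : Type} [CommRing A] {m : ℕ} (f : Fin m → A) :
    Algebra.Smooth A (Jou f) where
  formallySmooth := by
    apply Algebra.FormallySmooth.of_comp_surjective
    intro B _ _ I hI g
    have hsur : Function.Surjective (Ideal.Quotient.mkₐ A I) := Ideal.Quotient.mkₐ_surjective A I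
    choose v hv using fun s : Fin m => hsur (g (Ideal.Quotient.mk _ (X s)))
    set p : MvPolynomial (Fin m) A := ∑ l, C (f l) * X l with hp
    have h1 : (Ideal.Quotient.mkₐ A I).comp (aeval v) =
        g.comp (Ideal.Quotient.mkₐ A (Ideal.span {p - 1})) := by
      apply MvPolynomial.algHom_ext
      intro s
      change Ideal.Quotient.mkₐ A I (aeval v (X s)) = _
      rw [aeval_X]
      exact hv s
    have h2 : Ideal.Quotient.mkₐ A I (aeval v p - 1) = 0 := by
      have h3 := congrArg (fun f : MvPolynomial (Fin m) A →ₐ[A] B ⧸ I => f (p - 1)) h1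
      change Ideal.Quotient.mkₐ A I (aeval v (p - 1)) = g (Ideal.Quotient.mk _ (p - 1)) at h3
      rw [Ideal.Quotient.eq_zero_iff_mem.mpr (Ideal.mem_span_singleton_self _), map_zero, map_sub,
        map_one] at h3
      exact h3
    have h4 : aeval v p - 1 ∈ I := Ideal.Quotient.eq_zero_iff_mem.mp h2
    let d : B := aeval v p - 1
    have h5 : d * d = 0 := by
      have : d * d ∈ I ^ 2 := by
        rw [pow_two]
        exact Ideal.mul_mem_mul h4 h4
      rw [hI] at this
      exact this
    let w : Fin m → B := fun s => (1 - d) * v s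
    have h6 : aeval w p = 1 := by
      have h7 : aeval w p = (1 - d) * aeval v p := by
        simp only [hp, map_sum, map_mul, aeval_X, algHom_C, Finset.mul_sum]
        refine Finset.sum_congr rfl fun l _ => ?_
        change _ * ((1 - d) * v l) = _
        ring
      have h8 : aeval v p = 1 + d := by
        change _ = 1 + (aeval v p - 1)
        ring
      rw [h7, h8]
      linear_combination -h5
    refine ⟨Ideal.Quotient.liftₐ _ (aeval w) ?_, ?_⟩
    · intro q hq
      have h9 : Ideal.span {p - 1} ≤ RingHom.ker (aeval w : MvPolynomial (Fin m) A →ₐ[A] B) := by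
        rw [Ideal.span_le, Set.singleton_subset_iff]
        change aeval w (p - 1) = 0
        rw [map_sub, h6, map_one, sub_self]
      exact h9 hq
    · have hd : Ideal.Quotient.mkₐ A I d = 0 := h2
      apply Ideal.Quotient.algHom_ext
      apply MvPolynomial.algHom_ext
      intro i
      change Ideal.Quotient.mkₐ A I (aeval w (X i)) = g (Ideal.Quotient.mk _ (X i))
      rw [aeval_X]
      change Ideal.Quotient.mkₐ A I ((1 - d) * v i) = _
      rw [map_mul, map_sub, hd, map_one, sub_zero, one_mul]
      exact hv _
  finitePresentation :=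
    Algebra.FinitePresentation.quotient ⟨{∑ l, C (f l) * X l - 1}, by rw [Finset.coe_singleton]⟩

/-- over a field -/
theorem jou_smooth' {k : Type} [Field k] {n m : ℕ} (f : Fin m → MvPolynomial (Fin n) k) :
    Algebra.Smooth k (Jou f) := by
  have h1 : Algebra.Smooth k (MvPolynomial (Fin n) k) := {}
  have h2 := jou_smooth f
  exact Algebra.Smooth.comp k (MvPolynomial (Fin n) k) (Jou f)

end Pool.Agent.N882.UE
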