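import Pool.Agent.N882.UE.Quad
import Pool.Agent.N882.UE.JouSm

/-!
# Properties inherited by direct factors: smooth cubics and their complements

If the cohomology of a smooth closed subscheme `Z` of an affine space is a direct factor of the cohomology
of the complement, then a property of smooth schemes which is inherited by direct factors is decided by
the smooth cubic hypersurfaces `∑ z_l f_l(x) = 1` and by their complements, where the `f_l` are sums of
at most three monomials of degree at most two.
-/

set_option autoImplicit false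

open MvPolynomial CategoryTheory AlgebraicGeometry

namespace Pool.Agent.N882.UE

open Pool.Agent.Y116.UV Pool.Agent.Z125.UN

/-- the ring of functions on the closed subscheme `f_1 = … = f_m = 0` of the affine space -/
abbrev Zer {k : Type} [CommRing k] {n m : ℕ} (f : Fin m → MvPolynomial (Fin n) k) : Type :=
  MvPolynomial (Fin n) k ⧸ Ideal.span (Set.range f)

/-- the cubic hypersurface `∑ z_l f_l(x) = 1` -/
noncomputable def cub {k : Type} [CommRing k] {n m : ℕ} (f : Fin m → MvPolynomial (Fin n) k) :
    Sch k :=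
  aff k (Jou f)

/-- the complement `∑ z_l f_l(x) ≠ 1` of the cubic hypersurface in the affine space -/
noncomputable def cubC {k : Type} [CommRing k] {n m : ℕ} (f : Fin m → MvPolynomial (Fin n) k) :
    Sch k :=
  aff k (Localization.Away (∑ l, C (f l) * X l - 1 : MvPolynomial (Fin m) (MvPolynomial (Fin n) k)))

/-- A property `P X i j` of the smooth schemes over `k` with the following closure properties. -/
structure Factor {k : Type} [Field k] (P : Sch k → ℤ → ℤ → Prop) : Prop where
  affine : ∀ X : Sch k, FT True X → Smooth X.hom → ∀ i j,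
    (∀ (A : Type) [CommRing A] [Algebra k A], IsDomain A → Algebra.Smooth k A →
      P (aff k A) i j) → P X i j
  iso : ∀ (A B : Type) [CommRing A] [CommRing B] [Algebra k A] [Algebra k B], (A ≃ₐ[k] B) →
    ∀ i j, P (aff k A) i j → P (aff k B) i j
  gysin : ∀ (n m : ℕ) (f : Fin m → MvPolynomial (Fin n) k), IsDomain (Zer f) →
    Algebra.Smooth k (Zer f) → (∃ l, f l ≠ 0) → ∃ c : ℤ, ∀ i j,
      P (cub f) i j → P (aff k (Zer f)) (i - 2 * c + 1) (j - c)
  comp : ∀ (n m : ℕ) (f : Fin m → MvPolynomial (Fin n) k) (i j : ℤ),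
    P (cubC f) i j → P (cub f) (i - 1) (j - 1)

section

variable {k : Type} [Field k] {P : Sch k → ℤ → ℤ → Prop}

lemma ft_cub {n m : ℕ} (f : Fin m → MvPolynomial (Fin n) k) : FT True (cub f) := by
  have : Algebra.FiniteType k (Jou f) := by
    have h1 : Algebra.FiniteType k (MvPolynomial (Fin m) (MvPolynomial (Fin n) k)) :=
      Algebra.FiniteType.trans (S := MvPolynomial (Fin n) k) inferInstance inferInstance
    exact Algebra.FiniteType.trans (S := MvPolynomial (Fin m) (MvPolynomial (Fin n) k))
      inferInstance inferInstance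
  exact ft_aff True

lemma smooth_cub {n m : ℕ} (f : Fin m → MvPolynomial (Fin n) k) : Smooth (cub f).hom :=
  smooth_aff (jou_smooth' f)

lemma ft_cubC {n m : ℕ} (f : Fin m → MvPolynomial (Fin n) k) : FT True (cubC f) := by
  have h1 : Algebra.FiniteType k (MvPolynomial (Fin m) (MvPolynomial (Fin n) k)) :=
    Algebra.FiniteType.trans (S := MvPolynomial (Fin n) k) inferInstance inferInstance
  have : Algebra.FiniteType k (Localization.Away
      (∑ l, C (f l) * X l - 1 : MvPolynomial (Fin m) (MvPolynomial (Fin n) k))) :=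
    Algebra.FiniteType.trans (S := MvPolynomial (Fin m) (MvPolynomial (Fin n) k))
      inferInstance inferInstance
  exact ft_aff True

lemma smooth_cubC {n m : ℕ} (f : Fin m → MvPolynomial (Fin n) k) : Smooth (cubC f).hom := by
  have h1 : Algebra.Smooth k (MvPolynomial (Fin n) k) := {}
  have h2 : Algebra.Smooth (MvPolynomial (Fin n) k) (MvPolynomial (Fin m) (MvPolynomial (Fin n) k)) :=
    {}
  have h3 : Algebra.Smooth k (MvPolynomial (Fin m) (MvPolynomial (Fin n) k)) :=
    Algebra.Smooth.comp k (MvPolynomial (Fin n) k) _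
  have h4 : Algebra.Smooth (MvPolynomial (Fin m) (MvPolynomial (Fin n) k)) (Localization.Away
      (∑ l, C (f l) * X l - 1 : MvPolynomial (Fin m) (MvPolynomial (Fin n) k))) :=
    Algebra.Smooth.of_isLocalization_Away
      (∑ l, C (f l) * X l - 1 : MvPolynomial (Fin m) (MvPolynomial (Fin n) k))
  exact smooth_aff (Algebra.Smooth.comp k (MvPolynomial (Fin m) (MvPolynomial (Fin n) k)) _)

theorem factor_affine (hP : Factor P) (hQ : QuadPresents k)
    (h : ∀ (n m : ℕ) (f : Fin m → MvPolynomial (Fin n) k), (∀ l, IsQuad (f l)) → ∀ i j,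
      P (cub f) i j) (A : Type) [CommRing A] [Algebra k A] (hA : IsDomain A)
    (hs : Algebra.Smooth k A) (i j : ℤ) : P (aff k A) i j := by
  have hf : Algebra.FiniteType k A := inferInstance
  obtain ⟨n, φ, m, f, h1, h2, h3, l, v, h4⟩ := hQ A
  let e : Zer f ≃ₐ[k] A := (Ideal.quotientEquivAlgOfEq k h2.symm).trans
    (Ideal.quotientKerAlgEquivOfSurjective h1)
  have h5 : IsDomain (Zer f) := e.toRingEquiv.toMulEquiv.isDomain A
  have h6 : Algebra.Smooth k (Zer f) := Algebra.Smooth.of_equiv e.symm
  have h7 : f l ≠ 0 := by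
    rw [h4]
    intro h8
    have := congrArg (MvPolynomial.eval (fun _ : Fin n => (0 : k))) h8
    rw [map_add, eval_X, map_one, map_zero, zero_add] at this
    exact one_ne_zero this
  obtain ⟨c, hc⟩ := hP.gysin n m f h5 h6 ⟨l, h7⟩
  have h8 := hc (i + 2 * c - 1) (j + c) (h n m f h3 _ _)
  have e1 : i + 2 * c - 1 - 2 * c + 1 = i := by ring
  have e2 : j + c - c = j := by ring
  rw [e1, e2] at h8
  exact hP.iso _ _ e i j h8

/-- the smooth cubics and their complements -/
theorem factor_tfae (hP : Factor P) (hQ : QuadPresents k) :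
    [∀ X : Sch k, FT True X → Smooth X.hom → ∀ i j, P X i j,
      ∀ (n m : ℕ) (f : Fin m → MvPolynomial (Fin n) k), (∀ l, IsQuad (f l)) →
        ∀ i j, P (cub f) i j,
      ∀ (n m : ℕ) (f : Fin m → MvPolynomial (Fin n) k), (∀ l, IsQuad (f l)) →
        ∀ i j, P (cubC f) i j].TFAE := by
  tfae_have 1 → 3 := fun h n m f _ i j => h _ (ft_cubC f) (smooth_cubC f) i j
  tfae_have 3 → 2 := by
    intro h n m f hf i j
    have h1 := hP.comp n m f (i + 1) (j + 1) (h n m f hf _ _)
    rwa [add_sub_cancel_right, add_sub_cancel_right] at h1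
  tfae_have 2 → 1 := fun h X h1 h2 i j => hP.affine X h1 h2 i j fun A _ _ hA hs =>
    factor_affine hP hQ h A hA hs i j
  tfae_finish

end

end Pool.Agent.N882.UE
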