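import Pool.Agent.N882.UE.Rat

/-!
# Cycle classes over function fields and Faddeev sequences

For every commutative algebra `L` over a field `F` (we use only fields) let `M L i j` (higher Chow
groups with coefficients), `H L i j` (the cohomology of the generic point over the algebraic closure of
`F`), a cycle class map `c : M L i j → H L i j` and an operator `fr` (the Frobenius of `F`) on `H L i j`
be given. `Onto L i j`: every element of `H L i j` fixed by `fr` is in the image of `c`.
If `M` and `H` have Faddeev sequences (localization and homotopy invariance for the affine line over a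
field) then `Onto K(t) i j` holds iff `Onto K i j` and `Onto k(x) (i - 1) (j - 1)` for all closed points
`x` of the affine line over `K`.
-/

set_option autoImplicit false

open Polynomial CategoryTheory

namespace Pool.Agent.N882.UE

/-- Data on the `F`-algebras `L`: vector spaces `M L i j` and `H L i j` over `E`, cycle class maps `c`
and operators `fr` on `H L i j`. -/
structure Cyc (F E : Type) [Field F] [Field E] where
  M : ∀ (L : Type) [CommRing L] [Algebra F L], ℤ → ℤ → ModuleCat.{0} E
  H : ∀ (L : Type) [CommRing L] [Algebra F L], ℤ → ℤ → ModuleCat.{0} E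
  c : ∀ (L : Type) [CommRing L] [Algebra F L] (i j : ℤ), M L i j ⟶ H L i j
  fr : ∀ (L : Type) [CommRing L] [Algebra F L] (i j : ℤ), H L i j ⟶ H L i j

/-- every element of `H L i j` fixed by `fr` lies in the image of `c` -/
def Cyc.Onto {F E : Type} [Field F] [Field E] (T : Cyc F E) (L : Type) [CommRing L] [Algebra F L]
    (i j : ℤ) : Prop :=
  ∀ h : T.H L i j, (T.fr L i j).hom h = h → ∃ m : T.M L i j, (T.c L i j).hom m = h

/-- A split exact sequence `0 → A → B → ⊕ C x → 0` with the splitting `s : B → A`. -/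
structure Seq {E : Type} [Field E] (A B : ModuleCat.{0} E) {I : Type} (C : I → ModuleCat.{0} E) where
  a : A ⟶ B
  s : B ⟶ A
  d : ∀ x, B ⟶ C x
  split : a ≫ s = 𝟙 A
  zero : ∀ x, a ≫ d x = 0
  exact : ∀ b : B, (∀ x, (d x).hom b = 0) → ∃ y, a.hom y = b
  finite : ∀ b : B, {x | (d x).hom b ≠ 0}.Finite
  onto : ∀ y : ∀ x, C x, {x | y x ≠ 0}.Finite → ∃ b, ∀ x, (d x).hom b = y x

/-- A morphism of such sequences. -/
structure SeqHom {E : Type} [Field E] {A B A' B' : ModuleCat.{0} E} {I : Type}
    {C C' : I → ModuleCat.{0} E} (S : Seq A B C) (S' : Seq A' B' C') (f : A ⟶ A')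
    (g : B ⟶ B') (h : ∀ x, C x ⟶ C' x) : Prop where
  a : S.a ≫ g = f ≫ S'.a
  s : S.s ≫ f = g ≫ S'.s
  d : ∀ x, S.d x ≫ h x = g ≫ S'.d x

/-- the residue field of a closed point of the affine line -/
def Res {K : Type} [Field K] (x : Pts K) : Type := AdjoinRoot x.1

noncomputable instance resRing {K : Type} [Field K] (x : Pts K) : CommRing (Res x) :=
  inferInstanceAs (CommRing (AdjoinRoot x.1))

noncomputable instance resAlgebra {F K : Type} [Field F] [Field K] [Algebra F K] (x : Pts K) :
    Algebra F (Res x) :=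
  inferInstanceAs (Algebra F (AdjoinRoot x.1))

/-- The Faddeev sequences `0 → A(K) → A(K(t)) → ⊕ A(k(x)) → 0` of `M` and `H` for the affine line over
`K` in the bidegree `(i, j)` (in the bidegree `(i - 1, j - 1)` at the closed points `x`), compatible with
`c` and with `fr`. -/
structure Faddeev {F E : Type} [Field F] [Field E] (T : Cyc F E) (K : Type) [Field K] [Algebra F K]
    (i j : ℤ) where
  m : Seq (T.M K i j) (T.M (RatFunc K) i j) fun x : Pts K => T.M (Res x) (i - 1) (j - 1)
  h : Seq (T.H K i j) (T.H (RatFunc K) i j) fun x : Pts K => T.H (Res x) (i - 1) (j - 1)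
  c : SeqHom m h (T.c K i j) (T.c (RatFunc K) i j) fun x => T.c (Res x) (i - 1) (j - 1)
  fr : SeqHom h h (T.fr K i j) (T.fr (RatFunc K) i j) fun x => T.fr (Res x) (i - 1) (j - 1)

/-- isomorphisms of algebras induce isomorphisms of `M` and `H` compatible with `c` and `fr`; all
finitely generated fields have Faddeev sequences -/
structure IsCyc {F E : Type} [Field F] [Field E] (T : Cyc F E) : Prop where
  iso : ∀ (L L' : Type) [CommRing L] [CommRing L'] [Algebra F L] [Algebra F L'], (L ≃ₐ[F] L') →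
    ∀ i j : ℤ, ∃ (f : T.M L i j ≅ T.M L' i j) (g : T.H L i j ≅ T.H L' i j),
      T.c L i j ≫ g.hom = f.hom ≫ T.c L' i j ∧ T.fr L i j ≫ g.hom = g.hom ≫ T.fr L' i j
  faddeev : ∀ (K : Type) [Field K] [Algebra F K] [Algebra.EssFiniteType F K] (i j : ℤ),
    Nonempty (Faddeev T K i j)

section

variable {F E : Type} [Field F] [Field E] {T : Cyc F E}

theorem onto_ratFunc {K : Type} [Field K] [Algebra F K] {i j : ℤ} (D : Faddeev T K i j) :
    T.Onto (RatFunc K) i j ↔ T.Onto K i j ∧ ∀ x : Pts K, T.Onto (Res x) (i - 1) (j - 1) := by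
  classical
  have hs : ∀ y, D.h.s.hom (D.h.a.hom y) = y := fun y => congrArg (fun q => q.hom y) D.h.split
  have ms : ∀ y, D.m.s.hom (D.m.a.hom y) = y := fun y => congrArg (fun q => q.hom y) D.m.split
  have hz : ∀ x y, (D.h.d x).hom (D.h.a.hom y) = 0 := fun x y =>
    congrArg (fun q => q.hom y) (D.h.zero x)
  have mz : ∀ x y, (D.m.d x).hom (D.m.a.hom y) = 0 := fun x y =>
    congrArg (fun q => q.hom y) (D.m.zero x)
  have c_s : ∀ y, (T.c K i j).hom (D.m.s.hom y) = D.h.s.hom ((T.c (RatFunc K) i j).hom y) := fun y =>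
    congrArg (fun q => q.hom y) D.c.s
  have c_d : ∀ x y, (T.c (Res x) (i - 1) (j - 1)).hom ((D.m.d x).hom y) =
      (D.h.d x).hom ((T.c (RatFunc K) i j).hom y) := fun x y => congrArg (fun q => q.hom y) (D.c.d x)
  have fr_a : ∀ y, (T.fr (RatFunc K) i j).hom (D.h.a.hom y) = D.h.a.hom ((T.fr K i j).hom y) :=
    fun y => congrArg (fun q => q.hom y) D.fr.a
  have fr_s : ∀ y, (T.fr K i j).hom (D.h.s.hom y) = D.h.s.hom ((T.fr (RatFunc K) i j).hom y) :=
    fun y => congrArg (fun q => q.hom y) D.fr.s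
  have fr_d : ∀ x y, (T.fr (Res x) (i - 1) (j - 1)).hom ((D.h.d x).hom y) =
      (D.h.d x).hom ((T.fr (RatFunc K) i j).hom y) := fun x y =>
    congrArg (fun q => q.hom y) (D.fr.d x)
  constructor
  · intro h
    refine ⟨fun y hy => ?_, fun x y hy => ?_⟩
    · obtain ⟨m, hm⟩ := h (D.h.a.hom y) (by rw [fr_a, hy])
      exact ⟨D.m.s.hom m, by rw [c_s, hm, hs]⟩
    · let Y : ∀ z : Pts K, T.H (Res z) (i - 1) (j - 1) := Function.update (fun _ => 0) x y
      have hY : Y x = y := Function.update_self _ _ _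
      have hY' : ∀ z, z ≠ x → Y z = 0 := fun z hz => Function.update_of_ne hz _ _
      obtain ⟨b0, hb0⟩ := D.h.onto Y (by
        refine (Set.finite_singleton x).subset fun z hz => ?_
        by_contra hzx
        exact hz (hY' z hzx))
      set b := b0 - D.h.a.hom (D.h.s.hom b0) with hb
      have h1 : D.h.s.hom b = 0 := by rw [hb, map_sub, hs, sub_self]
      have h2 : ∀ z, (D.h.d z).hom b = Y z := by
        intro z
        rw [hb, map_sub, hz, sub_zero, hb0]
      have h3 : (T.fr (RatFunc K) i j).hom b = b := by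
        rw [← sub_eq_zero]
        obtain ⟨u, hu⟩ := D.h.exact ((T.fr (RatFunc K) i j).hom b - b) (by
          intro z
          rw [map_sub, ← fr_d, h2]
          by_cases hzx : z = x
          · subst hzx
            rw [hY, hy, sub_self]
          · rw [hY' z hzx, map_zero, sub_self])
        have h4 : u = 0 := by
          rw [← hs u, hu, map_sub, ← fr_s, h1, map_zero, sub_zero]
        rw [← hu, h4, map_zero]
      obtain ⟨m, hm⟩ := h b h3
      refine ⟨(D.m.d x).hom m, ?_⟩
      rw [c_d, hm, h2, hY]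
  · rintro ⟨h1, h2⟩ y hy
    obtain ⟨m0, hm0⟩ := h1 (D.h.s.hom y) ((fr_s y).trans (congrArg D.h.s.hom hy))
    have h3 : ∀ x : Pts K, ∃ m : T.M (Res x) (i - 1) (j - 1),
        (T.c (Res x) (i - 1) (j - 1)).hom m = (D.h.d x).hom y ∧ ((D.h.d x).hom y = 0 → m = 0) := by
      intro x
      by_cases hx : (D.h.d x).hom y = 0
      · exact ⟨0, by rw [map_zero, hx], fun _ => rfl⟩
      · obtain ⟨m, hm⟩ := h2 x ((D.h.d x).hom y) ((fr_d x y).trans (congrArg (D.h.d x).hom hy))
        exact ⟨m, hm, fun h => absurd h hx⟩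
    choose m hm hm' using h3
    obtain ⟨b, hb⟩ := D.m.onto m ((D.h.finite y).subset fun x hx h => hx (hm' x h))
    set b' := b + D.m.a.hom (m0 - D.m.s.hom b) with hb'
    refine ⟨b', ?_⟩
    rw [← sub_eq_zero]
    obtain ⟨u, hu⟩ := D.h.exact ((T.c (RatFunc K) i j).hom b' - y) (by
      intro x
      rw [map_sub, ← c_d, hb', map_add, mz, add_zero, hb, hm, sub_self])
    have h4 : u = 0 := by
      rw [← hs u, hu, map_sub, ← c_s, hb', map_add, ms, add_sub_cancel, hm0, sub_self]
    rw [← hu, h4, map_zero]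

theorem onto_iso (hT : IsCyc T) {L L' : Type} [CommRing L] [CommRing L'] [Algebra F L]
    [Algebra F L'] (e : L ≃ₐ[F] L') {i j : ℤ} (h : T.Onto L i j) : T.Onto L' i j := by
  obtain ⟨f, g, h1, h2⟩ := hT.iso L L' e i j
  intro y hy
  have e1 : ∀ z, g.hom.hom (g.inv.hom z) = z := fun z => congrArg (fun q => q.hom z) g.inv_hom_id
  have e2 : ∀ z, g.inv.hom (g.hom.hom z) = z := fun z => congrArg (fun q => q.hom z) g.hom_inv_id
  have e3 : ∀ z, g.hom.hom ((T.c L i j).hom z) = (T.c L' i j).hom (f.hom.hom z) := fun z =>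
    congrArg (fun q => q.hom z) h1
  have e4 : ∀ z, g.hom.hom ((T.fr L i j).hom z) = (T.fr L' i j).hom (g.hom.hom z) := fun z =>
    congrArg (fun q => q.hom z) h2
  obtain ⟨m, hm⟩ := h (g.inv.hom y) (by
    rw [← e2 ((T.fr L i j).hom (g.inv.hom y)), e4, e1, hy])
  exact ⟨f.hom.hom m, by rw [← e3, hm, e1]⟩

end

section

variable {F E : Type} [Field F] [Field E] {T : Cyc F E} (hT : IsCyc T)

include hT

theorem onto_pure {K L : Type} [Field K] [Field L] [Algebra F K] [Algebra F L] {n : ℕ}
    (hK : Pure F K n) (hL : Pure F L n) {i j : ℤ} (h : T.Onto K i j) : T.Onto L i j := by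
  obtain ⟨e⟩ := pure_iso hK
  obtain ⟨e'⟩ := pure_iso hL
  exact onto_iso hT (e.symm.trans e') h

/-- from `F(x_1, …, x_{n+1})` to the fields of transcendence degree at most `n` -/
theorem onto_of_rat [PerfectField F] {n : ℕ} {i j : ℤ} (h : T.Onto (rat F (n + 1)) (i + 1) (j + 1)) :
    ∀ (L : Type) [Field L] [Algebra F L] [Algebra.EssFiniteType F L], Algebra.trdeg F L ≤ n →
      T.Onto L i j := by
  have h1 : ∀ k ≤ n, T.Onto (rat F (n + 1 - k)) (i + 1) (j + 1) := by
    intro k
    induction k with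
    | zero => exact fun _ => h
    | succ k ih =>
      intro hk
      have h2 := ih (by omega)
      have h3 : n + 1 - k = (n + 1 - (k + 1)) + 1 := by omega
      rw [h3] at h2
      have h4 : T.Onto (RatFunc (rat F (n + 1 - (k + 1)))) (i + 1) (j + 1) :=
        onto_pure hT (pure_rat F _) (pure_ratFunc (pure_rat F _)) h2
      exact ((onto_ratFunc (hT.faddeev _ _ _).some).mp h4).1
  intro L _ _ _ hL
  obtain ⟨m, hm⟩ : ∃ m : ℕ, Algebra.trdeg F L = m :=
    Cardinal.lt_aleph0.mp (lt_of_le_of_lt hL (Cardinal.natCast_lt_aleph0))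
  rw [hm] at hL
  have hmn : m ≤ n := by exact_mod_cast hL
  obtain ⟨K, hK, x, ⟨e⟩⟩ := exists_point (F := F) (L := L) hm
  have h2 := h1 (n - m) (by omega)
  have h3 : n + 1 - (n - m) = m + 1 := by omega
  rw [h3] at h2
  have h4 : T.Onto (RatFunc K) (i + 1) (j + 1) :=
    onto_pure hT (pure_rat F _) (pure_ratFunc hK) h2
  have : Algebra.EssFiniteType F K := by
    obtain ⟨e'⟩ := pure_iso hK
    have : Algebra.EssFiniteType F (rat F m) := by
      have : Algebra.EssFiniteType (MvPolynomial (Fin m) F) (rat F m) :=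
        Algebra.EssFiniteType.of_isLocalization _ (nonZeroDivisors (MvPolynomial (Fin m) F))
      exact Algebra.EssFiniteType.comp F (MvPolynomial (Fin m) F) (rat F m)
    exact (Algebra.EssFiniteType.iff_of_algEquiv e').mp this
  have h5 := ((onto_ratFunc (hT.faddeev K _ _).some).mp h4).2 x
  rw [add_sub_cancel_right, add_sub_cancel_right] at h5
  exact onto_iso hT e h5

end

end Pool.Agent.N882.UE
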