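import Pool.Agent.N882.UE.Fad

/-!
# One rational function field decides all fields of smaller transcendence degree
-/

set_option autoImplicit false

open Polynomial

namespace Pool.Agent.N882.UE

section

variable {F E : Type} [Field F] [Field E] {T : Cyc F E} (hT : IsCyc T)

theorem pure_zero (F : Type) [Field F] : Pure F F 0 := by
  refine ⟨fun i => i.elim0, ?_, ?_⟩
  · exact algebraicIndependent_empty_type
  · exact Subsingleton.elim _ _

theorem ess_rat (F : Type) [Field F] (m : ℕ) : Algebra.EssFiniteType F (rat F m) := by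
  have : Algebra.EssFiniteType (MvPolynomial (Fin m) F) (rat F m) :=
    Algebra.EssFiniteType.of_isLocalization _ (nonZeroDivisors (MvPolynomial (Fin m) F))
  exact Algebra.EssFiniteType.comp F (MvPolynomial (Fin m) F) (rat F m)

theorem trdeg_rat (F : Type) [Field F] (m : ℕ) : Algebra.trdeg F (rat F m) = m := by
  have h1 : Algebra.IsAlgebraic (MvPolynomial (Fin m) F) (rat F m) :=
    IsLocalization.isAlgebraic (rat F m) (nonZeroDivisors (MvPolynomial (Fin m) F))
  have h2 := (IsTranscendenceBasis.mvPolynomial (Fin m) F).algebraMap_comp (A := rat F m)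
  have h3 := h2.cardinalMk_eq_trdeg
  rw [← h3]
  simp

include hT

/-- from the fields of transcendence degree at most `n` to `F(x_1, …, x_m)`, `m ≤ n + 1` -/
theorem onto_rat_of {n : ℕ} {i j : ℤ} (h0 : T.Onto F (i + 1) (j + 1))
    (h : ∀ (L : Type) [Field L] [Algebra F L] [Algebra.EssFiniteType F L], Algebra.trdeg F L ≤ n →
      T.Onto L i j) : ∀ m ≤ n + 1, T.Onto (rat F m) (i + 1) (j + 1) := by
  intro m
  induction m with
  | zero => exact fun _ => onto_pure hT (pure_zero F) (pure_rat F 0) h0
  | succ m ih =>
    intro hm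
    have := ess_rat F m
    refine onto_pure hT (pure_ratFunc (pure_rat F m)) (pure_rat F (m + 1)) ?_
    refine (onto_ratFunc (hT.faddeev (rat F m) _ _).some).mpr ⟨ih (by omega), fun x => ?_⟩
    rw [add_sub_cancel_right, add_sub_cancel_right]
    have : Fact (Irreducible x.1) := ⟨x.2.2⟩
    have := ess_point (F := F) x
    refine h (AdjoinRoot x.1) ?_
    have h1 := trdeg_point (F := F) x
    rw [trdeg_rat] at h1
    refine le_trans (le_of_eq h1) ?_
    exact_mod_cast (by omega : m ≤ n)

/-- from the fields of transcendence degree `n` to those of transcendence degree at most `n` -/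
theorem onto_le_of {n : ℕ} {i j : ℤ}
    (h : ∀ (L : Type) [Field L] [Algebra F L] [Algebra.EssFiniteType F L], Algebra.trdeg F L = n →
      T.Onto L i j) :
    ∀ (L : Type) [Field L] [Algebra F L] [Algebra.EssFiniteType F L], Algebra.trdeg F L ≤ n →
      T.Onto L i j := by
  have h1 : ∀ k : ℕ, ∀ (L : Type) [Field L] [Algebra F L] [Algebra.EssFiniteType F L] (m : ℕ),
      Algebra.trdeg F L = m → m + k = n → T.Onto L i j := by
    intro k
    induction k with
    | zero =>
      intro L _ _ _ m hm hmk
      exact h L (by rw [hm, ← hmk, add_zero])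
    | succ k ih =>
      intro L _ _ _ m hm hmk
      have := ess_ratFunc (F := F) (K := L)
      have h2 := ih (RatFunc L) (m + 1) (by rw [trdeg_ratFunc, hm]; push_cast; rfl) (by omega)
      exact ((onto_ratFunc (hT.faddeev L _ _).some).mp h2).1
  intro L _ _ _ hL
  obtain ⟨m, hm⟩ : ∃ m : ℕ, Algebra.trdeg F L = m :=
    Cardinal.lt_aleph0.mp (lt_of_le_of_lt hL (Cardinal.natCast_lt_aleph0))
  rw [hm] at hL
  have hmn : m ≤ n := by exact_mod_cast hL
  exact h1 (n - m) L m hm (by omega)

/-- One rational function field decides all fields of smaller transcendence degree. -/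
theorem onto_tfae [PerfectField F] (n : ℕ) (i j : ℤ) (h0 : T.Onto F (i + 1) (j + 1)) :
    [∀ (L : Type) [Field L] [Algebra F L] [Algebra.EssFiniteType F L],
        Algebra.trdeg F L ≤ n → T.Onto L i j,
      ∀ (L : Type) [Field L] [Algebra F L] [Algebra.EssFiniteType F L],
        Algebra.trdeg F L = n → T.Onto L i j,
      T.Onto (FractionRing (MvPolynomial (Fin (n + 1)) F)) (i + 1) (j + 1)].TFAE := by
  tfae_have 1 → 2 := fun h L _ _ _ hL => h L hL.le
  tfae_have 2 → 1 := fun h => onto_le_of hT h
  tfae_have 1 → 3 := fun h => onto_rat_of hT h0 h _ le_rfl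
  tfae_have 3 → 1 := fun h => onto_of_rat hT h
  tfae_finish

end

end Pool.Agent.N882.UE
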