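import Pool.Agent.N882.UE.FadIff

/-!
# The Tate conjecture for divisors on surfaces
-/

set_option autoImplicit false

open Polynomial CategoryTheory

namespace Pool.Agent.N882.UE

/-- A smooth projective surface with function field `L`: `V` is its second cohomology (twisted once),
`ψ` the Frobenius, `N` the span of the classes of divisors, `B` the intersection form, and `r` the
restriction to the generic point. -/
structure Surface {F E : Type} [Field F] [Field E] (T : Cyc F E) (L : Type) [Field L]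
    [Algebra F L] where
  V : ModuleCat.{0} E
  fin : FiniteDimensional E V
  ψ : V ⟶ V
  N : Submodule E V
  B : LinearMap.BilinForm E V
  inv : ∀ v w, B (ψ.hom v) (ψ.hom w) = B v w
  stable : ∀ v ∈ N, ψ.hom v ∈ N
  nondeg : ∀ v ∈ N, (∀ w ∈ N, B v w = 0) → v = 0
  r : V ⟶ T.H L 2 1
  ker : ∀ v, r.hom v = 0 ↔ v ∈ N
  comm : ψ ≫ r = r ≫ T.fr L 2 1
  lift : ∀ h : T.H L 2 1, (T.fr L 2 1).hom h = h → ∃ v, r.hom v = h

/-- the Tate conjecture for divisors -/
def Surface.Tate {F E : Type} [Field F] [Field E] {T : Cyc F E} {L : Type} [Field L]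
    [Algebra F L] (S : Surface T L) : Prop :=
  ∀ v : S.V, S.ψ.hom v = v → v ∈ S.N

/-- Q1 in the bidegree `(i, j)` for all finitely generated fields of transcendence degree at most `n` -/
def Cyc.UpTo {F E : Type} [Field F] [Field E] (T : Cyc F E) (n : ℕ) (i j : ℤ) : Prop :=
  ∀ (L : Type) [Field L] [Algebra F L] [Algebra.EssFiniteType F L], Algebra.trdeg F L ≤ n →
    T.Onto L i j

/-- Q1 in the bidegree `(i, j)` for all finitely generated fields of transcendence degree `n` -/
def Cyc.InDeg {F E : Type} [Field F] [Field E] (T : Cyc F E) (n : ℕ) (i j : ℤ) : Prop :=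
  ∀ (L : Type) [Field L] [Algebra F L] [Algebra.EssFiniteType F L], Algebra.trdeg F L = n →
    T.Onto L i j

/-- `M L i j = 0` for all fields `L` and all `i > j` -/
def Cyc.Van {F E : Type} [Field F] [Field E] (T : Cyc F E) : Prop :=
  ∀ (L : Type) [Field L] [Algebra F L] (i j : ℤ), j < i → ∀ m : T.M L i j, m = 0

/-- all finitely generated fields of transcendence degree `2` are function fields of surfaces -/
def Cyc.HasSurfaces {F E : Type} [Field F] [Field E] (T : Cyc F E) : Prop :=
  ∀ (L : Type) [Field L] [Algebra F L] [Algebra.EssFiniteType F L], Algebra.trdeg F L = 2 →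
    Nonempty (Surface T L)

/-- the Tate conjecture for divisors on all surfaces -/
def Cyc.Divisors {F E : Type} [Field F] [Field E] (T : Cyc F E) : Prop :=
  ∀ (L : Type) [Field L] [Algebra F L] [Algebra.EssFiniteType F L], Algebra.trdeg F L = 2 →
    ∀ S : Surface T L, S.Tate

/-- no nonzero element of `H L i j` is fixed by `fr` -/
def Cyc.NoFixed {F E : Type} [Field F] [Field E] (T : Cyc F E) (L : Type) [CommRing L]
    [Algebra F L] (i j : ℤ) : Prop :=
  ∀ h : T.H L i j, (T.fr L i j).hom h = h → h = 0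

section

variable {F E : Type} [Field F] [Field E] {T : Cyc F E}

lemma surface_proj {L : Type} [Field L] [Algebra F L] (S : Surface T L) (v : S.V) :
    ∃ a ∈ S.N, ∀ w ∈ S.N, S.B (v - a) w = 0 := by
  have := S.fin
  let f : S.N →ₗ[E] Module.Dual E S.N := (S.B.domRestrict S.N).compl₂ S.N.subtype
  have hf : Function.Injective f := by
    rw [injective_iff_map_eq_zero]
    intro a ha
    refine Subtype.ext (S.nondeg a.1 a.2 fun w hw => ?_)
    exact LinearMap.congr_fun ha ⟨w, hw⟩
  have hs : Function.Surjective f :=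
    (LinearMap.injective_iff_surjective_of_finrank_eq_finrank
      (Subspace.dual_finrank_eq (K := E) (V := S.N)).symm).mp hf
  obtain ⟨a, ha⟩ := hs ((S.B v).comp S.N.subtype)
  refine ⟨a.1, a.2, fun w hw => ?_⟩
  have h1 := LinearMap.congr_fun ha ⟨w, hw⟩
  have h2 : S.B a.1 w = S.B v w := h1
  rw [map_sub, LinearMap.sub_apply, h2, sub_self]

lemma surface_surj {L : Type} [Field L] [Algebra F L] (S : Surface T L) {w : S.V} (hw : w ∈ S.N) :
    ∃ u ∈ S.N, S.ψ.hom u = w := by
  have := S.fin
  let g : S.N →ₗ[E] S.N := S.ψ.hom.restrict S.stable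
  have hg : Function.Injective g := by
    rw [injective_iff_map_eq_zero]
    intro a ha
    have h0 : S.ψ.hom a.1 = 0 := congrArg Subtype.val ha
    refine Subtype.ext (S.nondeg a.1 a.2 fun w _ => ?_)
    rw [← S.inv, h0, map_zero, LinearMap.zero_apply]
  obtain ⟨u, hu⟩ := LinearMap.injective_iff_surjective.mp hg ⟨w, hw⟩
  exact ⟨u.1, u.2, congrArg Subtype.val hu⟩

theorem surface_tate {L : Type} [Field L] [Algebra F L] (S : Surface T L)
    (hM : ∀ m : T.M L 2 1, m = 0) : S.Tate ↔ T.Onto L 2 1 := by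
  have hcomm : ∀ v, S.r.hom (S.ψ.hom v) = (T.fr L 2 1).hom (S.r.hom v) := fun v =>
    congrArg (fun q => q.hom v) S.comm
  constructor
  · intro hS h hh
    obtain ⟨v, hv⟩ := S.lift h hh
    obtain ⟨a, ha, hb⟩ := surface_proj S v
    set b := v - a with hbdef
    have h1 : S.ψ.hom v - v ∈ S.N := by
      rw [← S.ker, map_sub, hcomm, hv, hh, sub_self]
    have h2 : S.ψ.hom b - b ∈ S.N := by
      have h3 : S.ψ.hom b - b = (S.ψ.hom v - v) - (S.ψ.hom a - a) := by
        rw [hbdef, map_sub]
        abel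
      rw [h3]
      exact sub_mem h1 (sub_mem (S.stable a ha) ha)
    have h3 : ∀ w ∈ S.N, S.B (S.ψ.hom b - b) w = 0 := by
      intro w hw
      obtain ⟨u, hu, rfl⟩ := surface_surj S hw
      rw [map_sub, LinearMap.sub_apply, S.inv, hb u hu, hb _ (S.stable u hu), sub_self]
    have h4 : b ∈ S.N := hS b (sub_eq_zero.mp (S.nondeg _ h2 h3))
    have h5 : b = 0 := S.nondeg b h4 hb
    have h6 : v ∈ S.N := by
      have : v = a := sub_eq_zero.mp h5
      rw [this]
      exact ha
    refine ⟨0, ?_⟩
    rw [map_zero, ← hv, (S.ker v).mpr h6]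
  · intro h v hv
    obtain ⟨m, hm⟩ := h (S.r.hom v) (by rw [← hcomm, hv])
    rw [hM m, map_zero] at hm
    exact (S.ker v).mp hm.symm

theorem onto_iff_zero {L : Type} [CommRing L] [Algebra F L] {i j : ℤ}
    (hM : ∀ m : T.M L i j, m = 0) : T.Onto L i j ↔ T.NoFixed L i j := by
  constructor
  · intro h y hy
    obtain ⟨m, hm⟩ := h y hy
    rw [← hm, hM m, map_zero]
  · intro h y hy
    exact ⟨0, by rw [map_zero, h y hy]⟩

/-- the Tate conjecture for divisors on all surfaces and the cohomology of `F(x, y, z)` -/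
theorem surfaces_iff [PerfectField F] (hT : IsCyc T) (hM : T.Van) (hF : ∀ h : T.H F 3 2, h = 0)
    (hS : T.HasSurfaces) :
    T.Divisors ↔ T.NoFixed (FractionRing (MvPolynomial (Fin 3) F)) 3 2 := by
  have h0 : T.Onto F ((2 : ℤ) + 1) ((1 : ℤ) + 1) := fun h _ => ⟨0, by rw [map_zero]; exact (hF h).symm⟩
  have h1 := (onto_tfae hT 2 2 1 h0).out 1 2
  rw [← onto_iff_zero (hM _ 3 2 (by norm_num))]
  refine Iff.trans ?_ h1
  constructor
  · intro h L _ _ _ hL
    have hL' : Algebra.trdeg F L = 2 := by exact_mod_cast hL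
    obtain ⟨S⟩ := hS L hL'
    exact (surface_tate S (hM L 2 1 (by norm_num))).mp (h L hL' S)
  · intro h L _ _ _ hL S
    exact (surface_tate S (hM L 2 1 (by norm_num))).mpr (h L (by exact_mod_cast hL))

end

end Pool.Agent.N882.UE
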