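import Pool.Agent.Q282.UZ.Sys
import Pool.Agent.Q193.LT.Prime
import Pool.Agent.N882.UE.Tb
import Pool.Agent.N882.UE.Opn

/-!
# Finite generation of étale motivic cohomology in negative weights, formally
-/

set_option autoImplicit false

open CategoryTheory CategoryTheory.Limits AlgebraicGeometry MvPolynomial

namespace Pool.Agent.N882.UE

open Pool.Agent.Y116.UV Pool.Agent.Z125.UN Pool.Agent.Q193.LT Pool.Agent.Q282.UK
  Pool.Agent.Q282.UZ

/-- The negative integers. -/
abbrev Neg : Type := {n : ℤ // n < 0}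

/-- The weight `n - m`. -/
def nsub (n : Neg) (m : ℕ) : Neg := ⟨n.1 - m, by have := n.2; omega⟩

/-- Data of groups `A n i X = H^i(X_et, ℤ^c(n))` for `n < 0`. -/
abbrev Groups : Type 1 := Neg → ℤ → Sch ℤ → ModuleCat.{0} ℤ

/-- The properties of the groups `A n i X = H^i(X_et, ℤ^c(n))`, `n < 0`, of the arithmetic schemes (the
separated schemes of finite type over `ℤ`) which are used: isomorphic schemes have isomorphic groups;
the exact sequences `⋯ → A n i Z → A n i X → A n i U → A n (i + 1) Z → ⋯` of a closed subscheme `Z` of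
`X` with complement `U`; `A n i` of an affine scheme `X` is a direct factor of `A n (i - 1)` of
`X × 𝔾_m` (exterior product with the coordinate, boundary); for the affine bundles of Jouanolou, of
relative dimension `m - 1`, over the complement `U` of a closed subscheme of an affine scheme, the group
`A (n - 1) i` of the bundle is isomorphic to `A (n - m) (i + 2 (m - 1))` of `U`. -/
structure IsEtMot (A : Groups) : Prop where
  iso : ∀ {X Y : Sch ℤ}, FT True X → Nonempty (X ≅ Y) → ∀ n i, Nonempty (A n i X ≅ A n i Y)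
  les : ∀ {Z X U : Sch ℤ} (i : Z ⟶ X) (j : U ⟶ X), FT True X → IsTriple i j → ∀ n,
    ∃ m : LesMaps (A n) (Equiv.addRight (1 : ℤ)) Z X U, m.IsExact
  torus : ∀ (B : Type) [CommRing B] [Algebra.FiniteType ℤ B] (n : Neg) (i : ℤ),
    ∃ (s : A n i (aff ℤ B) ⟶ A n (i - 1) (aff ℤ (LaurentPolynomial B)))
      (r : A n (i - 1) (aff ℤ (LaurentPolynomial B)) ⟶ A n i (aff ℤ B)), s ≫ r = 𝟙 _
  bundle : ∀ (B : Type) [CommRing B] [Algebra.FiniteType ℤ B] (m : ℕ)
    (f : Fin m → B) (U : Sch ℤ) (j : U ⟶ aff ℤ B), IsOpenImmersion j.left →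
    Set.range j.left = {x : PrimeSpectrum B | ∃ l, f l ∉ x.asIdeal} →
    ∀ (n : Neg) (i : ℤ), Nonempty (A (nsub n 1) i (aff ℤ (Jou f)) ≅ A (nsub n m) (i + 2 * ((m : ℤ) - 1)) U)

/-- All groups `H^i(X_et, ℤ^c(n))`, `n < 0`, `i ∈ ℤ`, are finitely generated. -/
def FinGen (A : Groups) (X : Sch ℤ) : Prop := ∀ n i, Module.Finite ℤ (A n i X)

/-- For almost all `n < 0` the groups `H^i(X_et, ℤ^c(n))`, `i ∈ ℤ`, are finitely generated. -/
def AlmostFinGen (A : Groups) (X : Sch ℤ) : Prop :=
  ∃ N : ℕ, ∀ n : Neg, n.1 ≤ -(N : ℤ) → ∀ i, Module.Finite ℤ (A n i X)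

/-- Transfer for finite flat surjective morphisms of integral schemes. -/
def Transfer (A : Groups) : Prop :=
  ∀ {V U : Sch ℤ} (f : V ⟶ U), FT True U → IsFinite f.left → Flat f.left →
    Surjective f.left → IsIntegral V.left → IsIntegral U.left → ∀ n i, ∃ (s : A n i U ⟶ A n i V)
      (r : A n i V ⟶ A n i U) (d : ℕ), 0 < d ∧ ∀ x, r.hom (s.hom x) = (d : ℤ) • x

/-- The elements killed by an integer `d ≥ 1` form a finitely generated group. -/
def FiniteTorsion (A : Groups) : Prop :=
  ∀ X : Sch ℤ, FT True X → ∀ n i (d : ℕ), 0 < d →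
    (LinearMap.ker (LinearMap.lsmul ℤ (A n i X) (d : ℤ))).FG

variable {A : Groups}

/-- The family with one index. -/
def fam (A : Groups) : Neg × ℤ → Sch ℤ → ModuleCat.{0} ℤ := fun q => A q.1 q.2

lemma finGen_iff {X : Sch ℤ} :
    FinGen A X ↔ InClass (fam A) (fun M : ModuleCat.{0} ℤ => Module.Finite ℤ M) X :=
  ⟨fun h q => h q.1 q.2, fun h n i => h (n, i)⟩

/-- the shift of the degree -/
def dl : Neg × ℤ ≃ Neg × ℤ := (Equiv.refl _).prodCongr (Equiv.addRight (1 : ℤ))

/-- the shift of the degree -/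
def sg : Neg × ℤ ≃ Neg × ℤ := (Equiv.refl _).prodCongr (Equiv.subRight (1 : ℤ))

theorem isLocal (hA : IsEtMot A) : IsLocal True (fam A) dl sg where
  iso hX e q := hA.iso hX e q.1 q.2
  les i j hX ht := by
    choose m hm using hA.les i j hX ht
    exact ⟨{ f := fun q => (m q.1).f q.2
             g := fun q => (m q.1).g q.2
             h := fun q => (m q.1).h q.2 },
      { fg := fun q => (hm q.1).fg q.2
        gh := fun q => (hm q.1).gh q.2
        hf := fun q => (hm q.1).hf q.2 }⟩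
  torus B _ alg _ q := by
    have h1 : alg = Ring.toIntAlgebra B := Subsingleton.elim _ _
    subst h1
    exact hA.torus B q.1 q.2

theorem clo_finGen (hA : IsEtMot A) : Clo True (FinGen A) := by
  have h := clo_class (isLocal hA) serre_finite
  exact
  { iso := fun hX e h1 => finGen_iff.mpr (h.iso hX e (finGen_iff.mp h1))
    total := fun i j hX ht h1 h2 =>
      finGen_iff.mpr (h.total i j hX ht (finGen_iff.mp h1) (finGen_iff.mp h2))
    opened := fun i j hX ht h1 h2 =>
      finGen_iff.mpr (h.opened i j hX ht (finGen_iff.mp h1) (finGen_iff.mp h2))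
    torus := fun B _ _ _ h1 => finGen_iff.mpr (h.torus B (finGen_iff.mp h1)) }

theorem clo2_finGen (hA : IsEtMot A) : Clo2 True (FinGen A) :=
  { clo_finGen hA with
    closed := fun i j hX ht hX' hU n q => by
      obtain ⟨m, h⟩ := hA.les i j hX ht n
      obtain ⟨q, rfl⟩ := (Equiv.addRight (1 : ℤ)).surjective q
      exact serre_exact serre_finite (h.hf q) (hU n q) (hX' n _) }

theorem alt_finGen (hA : IsEtMot A) (hr : Transfer A) (ht : FiniteTorsion A) :
    AltClosed (FinGen A) := by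
  have h := alt_finite (isLocal hA) (fun f h1 h2 h3 h4 h5 h6 q => hr f h1 h2 h3 h4 h5 h6 q.1 q.2)
    (fun X hX q d hd => ht X hX q.1 q.2 d hd)
  exact
  { iso := fun hX e h1 n i => h.iso hX e (fun q => h1 q.1 q.2) (n, i)
    total := fun i j hX ht h1 h2 n q => h.total i j hX ht (fun q => h1 q.1 q.2)
      (fun q => h2 q.1 q.2) (n, q)
    opened := fun i j hX ht h1 h2 n q => h.opened i j hX ht (fun q => h1 q.1 q.2)
      (fun q => h2 q.1 q.2) (n, q)
    finite := fun f a b c d e g h1 n i => h.finite f a b c d e g (fun q => h1 q.1 q.2) (n, i) }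

/-- Closure properties for almost all weights. -/
theorem bnd_almost (hA : IsEtMot A) (h1 : AlmostFinGen A (aff ℤ ℤ)) :
    Bnd True (AlmostFinGen A) := by
  have hS := serre_finite (E := ℤ)
  have hbun : ∀ (B : Type) [CommRing B] [alg : Algebra ℤ B] [Algebra.FiniteType ℤ B] (m : ℕ)
      (f : Fin m → B) (U : Sch ℤ) (j : U ⟶ aff ℤ B), IsOpenImmersion j.left →
      Set.range j.left = {x : PrimeSpectrum B | ∃ l, f l ∉ x.asIdeal} →
      (AlmostFinGen A U ↔ AlmostFinGen A (aff ℤ (Jou f))) := by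
    intro B _ alg _ m f U j hj hr
    have h1 : alg = Ring.toIntAlgebra B := Subsingleton.elim _ _
    subst h1
    have key := hA.bundle B m f U j hj hr
    constructor
    · rintro ⟨N, h⟩
      refine ⟨N + m + 2, fun n hn i => ?_⟩
      have h2 : n.1 + 1 < 0 := by push_cast at hn; omega
      let n' : Neg := ⟨n.1 + 1, h2⟩
      have h3 : nsub n' 1 = n := Subtype.ext (by change n.1 + 1 - ((1 : ℕ) : ℤ) = n.1; push_cast; ring)
      obtain ⟨e⟩ := key n' i
      rw [h3] at e
      refine hS.iso e.symm (h _ ?_ _)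
      change n.1 + 1 - (m : ℤ) ≤ -(N : ℤ)
      push_cast at hn
      omega
    · rintro ⟨N, h⟩
      refine ⟨N + m + 2, fun n hn i => ?_⟩
      push_cast at hn
      have h2 : n.1 + m < 0 := by omega
      let n' : Neg := ⟨n.1 + m, h2⟩
      have h3 : nsub n' m = n := Subtype.ext (by change n.1 + m - (m : ℤ) = n.1; ring)
      obtain ⟨e⟩ := key n' (i - 2 * ((m : ℤ) - 1))
      rw [h3, sub_add_cancel] at e
      refine hS.iso e (h _ ?_ _)
      change n.1 + m - ((1 : ℕ) : ℤ) ≤ -(N : ℤ)
      push_cast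
      omega
  exact
  { iso := fun hX e ⟨N, h⟩ => ⟨N, fun n hn i => by
      obtain ⟨e'⟩ := hA.iso hX e n i
      exact hS.iso e' (h n hn i)⟩
    total := fun i j hX ht ⟨N, hZ⟩ ⟨N', hU⟩ => ⟨N + N', fun n hn q => by
      push_cast at hn
      obtain ⟨m, h⟩ := hA.les i j hX ht n
      exact serre_exact hS (h.fg q) (hZ n (by omega) q) (hU n (by omega) q)⟩
    opened := fun i j hX ht ⟨N, hZ⟩ ⟨N', hX'⟩ => ⟨N + N', fun n hn q => by
      push_cast at hn
      obtain ⟨m, h⟩ := hA.les i j hX ht n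
      exact serre_exact hS (h.gh q) (hX' n (by omega) q) (hZ n (by omega) _)⟩
    closed := fun i j hX ht ⟨N, hX'⟩ ⟨N', hU⟩ => ⟨N + N', fun n hn q => by
      push_cast at hn
      obtain ⟨m, h⟩ := hA.les i j hX ht n
      obtain ⟨q, rfl⟩ := (Equiv.addRight (1 : ℤ)).surjective q
      exact serre_exact hS (h.hf q) (hU n (by omega) q) (hX' n (by omega) _)⟩
    space := fun n => by
      have h2 := (hbun ℤ (n + 1) (f1 ℤ n) (aff ℤ ℤ) (𝟙 _) inferInstance (range_one n)).mp h1
      obtain ⟨N, h2⟩ := h2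
      refine ⟨N, fun q hq i => ?_⟩
      obtain ⟨e⟩ := hA.iso (ft_aff True) ⟨(affIso (jouOne ℤ n)).symm⟩ q i
      exact hS.iso e (h2 q hq i)
    jouanolou := fun B _ _ _ m f U j hj hr h => (hbun B m f U j hj hr).mpr h
    torus := fun B _ alg _ ⟨N, h⟩ => ⟨N, fun n hn i => by
      have h1 : alg = Ring.toIntAlgebra B := Subsingleton.elim _ _
      subst h1
      obtain ⟨s, r, hsr⟩ := hA.torus B n i
      have hm : Mono s := mono_of_mono_fac hsr
      exact hS.of_mono s (h n hn _)⟩
    bundle := fun B _ _ _ m f U j hj hr h => (hbun B m f U j hj hr).mp h }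

end Pool.Agent.N882.UE
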