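import Pool.Agent.N882.UE.RelFM

/-!
# Lisse sheaves over finite fields: reduction to the generic line
-/

set_option autoImplicit false

namespace Pool.Agent.N882.UE.FM

variable {Ω : Type} [Field Ω] {Λ : Type} [Field Λ]

/-- `K(x_1, …, x_n)` -/
def rat (K : Subfield Ω) {n : ℕ} (x : Fin n → Ω) : Subfield Ω := adj K (Set.range x)

/-- `K(x_1, …, x_n)` for `n + 1` elements `x` -/
def ratInit (K : Subfield Ω) {n : ℕ} (x : Fin (n + 1) → Ω) : Subfield Ω :=
  rat K (Fin.init x : Fin n → Ω)

/-- `K` is a finite field and the `x i` are algebraically independent: `rat K x` is the function field of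
the affine space over `K` -/
def Space (K : Subfield Ω) {n : ℕ} (x : Fin n → Ω) : Prop := Finite K ∧ AlgebraicIndependent K x

/-- Properties of representations, in characteristic `p`; the fields are finitely generated.
`Ir F V`: `V` is an irreducible lisse sheaf, with determinant of finite order, on a smooth variety over a
finite field with function field `F`; `Cl F V`: `V` is a lisse sheaf on such a variety, whose
constituents are tensor products of sheaves as in `Ir` and of characters `a ^ deg`, where `a` is a Weil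
number and a unit outside `p`; `Ga F V`: all constituents of `V` are, up to Tate twists, subquotients of
the cohomology of varieties over `F`; `Ge L F V`: the semisimplification of the restriction of `V` to the
group of `F L̄` is of geometric origin: a subquotient of `R^i π_*` for a smooth projective family over an
open subscheme of a smooth model of `F L̄` over `L̄`; `OnA K x V`: `V` is an irreducible lisse sheaf, with
determinant of finite order, on the affine space `Spec K[x_1, …, x_n]`. -/
structure Arith (Ω : Type) [Field Ω] (Λ : Type) [Field Λ] where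
  Ir : ∀ F : Subfield Ω, Rp Λ F → Prop
  Cl : ∀ F : Subfield Ω, Rp Λ F → Prop
  Ga : ∀ F : Subfield Ω, Rp Λ F → Prop
  Ge : Subfield Ω → ∀ F : Subfield Ω, Rp Λ F → Prop
  OnA : ∀ (K : Subfield Ω) (n : ℕ) (x : Fin n → Ω), Rp Λ (rat K x) → Prop

/-- Lafforgue's theorem (dimension one) and dimension zero -/
def FactOne (T : Arith Ω Λ) : Prop := ∀ (n : ℕ) (F : Subfield Ω) (V : Rp Λ F), n ≤ 1 → FG n F →
  T.Ir F V → T.Ga F V

/-- the sheaves in `Ir` are in `Cl`; tensor products with `a ^ deg` (Honda, Tate) -/
def FactCl (T : Arith Ω Λ) : Prop := ∀ F : Subfield Ω, (∀ V : Rp Λ F, T.Ir F V → T.Cl F V) ∧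
  ((∀ V : Rp Λ F, T.Ir F V → T.Ga F V) → ∀ V : Rp Λ F, T.Cl F V → T.Ga F V)

/-- homomorphisms -/
def FactHomA (T : Arith Ω Λ) : Prop := ∀ (F : Subfield Ω) (A B : Rp Λ F), T.Cl F A → T.Cl F B →
  T.Cl F (A.hom B)

/-- quotients -/
def FactQuoA (T : Arith Ω Λ) : Prop := ∀ (F : Subfield Ω) (A B : Rp Λ F), A.Quo B → T.Ga F A →
  T.Ga F B

/-- tensor products, by the Künneth formula -/
def FactTenA (T : Arith Ω Λ) : Prop := ∀ (F : Subfield Ω) (A B : Rp Λ F), T.Ga F A → T.Ga F B →
  T.Ga F (A.ten B)

/-- extension of the ground field -/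
def FactPullA (T : Arith Ω Λ) : Prop := ∀ (L F : Subfield Ω) (h : L ≤ F) (W : Rp Λ L),
  T.Ga L W → T.Ga F (W.res h)

/-- finite étale coverings -/
def FactFin (T : Arith Ω Λ) : Prop := ∀ (F F' : Subfield Ω) (h : F ≤ F') (V : Rp Λ F), Fin' F F' →
  (T.Cl F V → T.Cl F' (V.res h)) ∧ (T.Ga F' (V.res h) → T.Ga F V)

/-- spreading out: if the restriction of `V` to the geometric generic fibre of a fibration by curves is
of geometric origin, then it is a quotient of the restriction of the sheaf `R` given by a smooth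
projective family over an étale neighbourhood -/
def FactSpreadA (T : Arith Ω Λ) : Prop := ∀ (n : ℕ) (L F : Subfield Ω) (V : Rp Λ F), FG n L →
  Reg 1 L F → T.Ir F V → T.Ge L F V →
    ∃ (L' F' : Subfield Ω) (h : F ≤ F') (R : Rp Λ F'), Fin' F F' ∧ FG n L' ∧ Reg 1 L' F' ∧
      T.Cl F' R ∧ T.Ga F' R ∧ (R.res (le_geo L' F')).Quo ((V.res h).res (le_geo L' F'))

/-- direct images are constructible -/
def FactPushA (T : Arith Ω Λ) : Prop := ∀ (n : ℕ) (L F : Subfield Ω) (_ : FG n L)
  (h : Reg 1 L F) (M : Rp Λ F), T.Cl F M → ∃ W : Rp Λ L, T.Cl L W ∧ M.Invariants h.1 W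

/-- Kedlaya: a variety of dimension `n` in characteristic `p` has a nonempty open subscheme which is
finite étale over the affine space; direct images; tensor products with `a ^ deg` -/
def FactKedlaya (T : Arith Ω Λ) : Prop := ∀ (n : ℕ) (F : Subfield Ω) (V : Rp Λ F), FG n F →
  T.Ir F V → ∃ (K : Subfield Ω) (x : Fin n → Ω) (h : rat K x ≤ F) (M : Rp Λ (rat K x)) (W : Rp Λ F),
    Space K x ∧ T.OnA K n x M ∧ (M.res h).Quo W ∧ (T.Ga F W → T.Ga F V)

/-- affine spaces -/
def FactSpace (T : Arith Ω Λ) : Prop := ∀ (n : ℕ) (K : Subfield Ω) (x : Fin n → Ω)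
  (M : Rp Λ (rat K x)), Space K x → T.OnA K n x M → FG n (rat K x) ∧ T.Ir (rat K x) M

/-- the projection of the affine space of dimension `n + 1` to the affine space of dimension `n` -/
def FactProj (_ : Arith Ω Λ) : Prop := ∀ (n : ℕ) (K : Subfield Ω) (x : Fin (n + 1) → Ω), Space K x →
  FG n (ratInit K x) ∧ Reg 1 (ratInit K x) (rat K x)

/-- a sheaf which comes from the cohomology of varieties is of geometric origin on the geometric generic
fibres (de Jong) -/
def FactGeom (T : Arith Ω Λ) : Prop := ∀ (L F : Subfield Ω) (V : Rp Λ F), Reg 1 L F → T.Ir F V →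
  T.Ga F V → T.Ge L F V

/-- The facts which are used. -/
structure FactsA (T : Arith Ω Λ) : Prop where
  one : FactOne T
  cl : FactCl T
  hom : FactHomA T
  quo : FactQuoA T
  ten : FactTenA T
  pull : FactPullA T
  fin : FactFin T
  spread : FactSpreadA T
  push : FactPushA T
  kedlaya : FactKedlaya T
  space : FactSpace T
  proj : FactProj T
  geom : FactGeom T

/-- Q1 in all dimensions at most `N` -/
def AllA (T : Arith Ω Λ) (N : ℕ) : Prop := ∀ (n : ℕ) (F : Subfield Ω), n ≤ N → FG n F →
  ∀ V : Rp Λ F, T.Ir F V → T.Ga F V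

/-- Q1 for the affine spaces of dimension at most `N` over finite fields -/
def SpaceA (T : Arith Ω Λ) (N : ℕ) : Prop := ∀ (n : ℕ) (K : Subfield Ω) (x : Fin n → Ω), n ≤ N →
  Space K x → ∀ M : Rp Λ (rat K x), T.OnA K n x M → T.Ga (rat K x) M

/-- For the affine spaces of dimension `n + 2 ≤ N`: the restriction of the sheaf to the geometric generic
fibre of the projection to the affine space of dimension `n + 1` is of geometric origin. -/
def GenericA (T : Arith Ω Λ) (N : ℕ) : Prop := ∀ (n : ℕ) (K : Subfield Ω) (x : Fin (n + 2) → Ω),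
  n + 2 ≤ N → Space K x → ∀ M : Rp Λ (rat K x), T.OnA K (n + 2) x M →
    T.Ge (ratInit K x) (rat K x) M

theorem generic_tfae {T : Arith Ω Λ} (hT : FactsA T) (N : ℕ) :
    [AllA T N, SpaceA T N, GenericA T N].TFAE := by
  tfae_have 1 → 2 := by
    intro h n K x hn hx M hM
    obtain ⟨h1, h2⟩ := hT.space n K x M hx hM
    exact h n _ hn h1 M h2
  tfae_have 2 → 3 := by
    intro h n K x hn hx M hM
    exact hT.geom _ _ M (hT.proj (n + 1) K x hx).2 (hT.space _ K x M hx hM).2 (h _ K x hn hx M hM)
  tfae_have 3 → 1 := by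
    intro h n
    induction n with
    | zero => exact fun F _ hF V hV => hT.one 0 F V (by omega) hF hV
    | succ n ih =>
      intro F hn hF V hV
      rcases n with _ | n
      · exact hT.one _ F V le_rfl hF hV
      · obtain ⟨K, x, hle, M, W, hx, hM, hq, hW⟩ := hT.kedlaya _ F V hF hV
        have hge := h n K x hn hx M hM
        obtain ⟨hL, hR⟩ := hT.proj (n + 1) K x hx
        have hI := (hT.space _ K x M hx hM).2
        obtain ⟨L', F', h', R, hf, hL', hR', hRc, hRg, hRq⟩ :=
          hT.spread (n + 1) (ratInit K x) (rat K x) M hL hR hI hge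
        have h1 : T.Cl F' (M.res h') := (hT.fin _ F' h' M hf).1 ((hT.cl _).1 M hI)
        obtain ⟨W', hW', hi⟩ := hT.push (n + 1) L' F' hL' hR' (R.hom (M.res h'))
          (hT.hom _ _ _ hRc h1)
        have h2 : T.Ga L' W' := (hT.cl L').2 (ih L' (by omega) hL') W' hW'
        have h3 : T.Ga F' (M.res h') := hT.quo _ _ _ (hom_trick hR'.1 R (M.res h') W' hi hRq)
          (hT.ten _ _ _ hRg (hT.pull L' F' hR'.1 W' h2))
        have h4 : T.Ga (rat K x) M := (hT.fin _ F' h' M hf).2 h3
        exact hW (hT.quo _ _ _ hq (hT.pull _ F hle M h4))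
  tfae_finish

end Pool.Agent.N882.UE.FM
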