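import Pool.Agent.N882.UE.Factor

/-!
# Injective regulators: cubics and their complements
-/

set_option autoImplicit false

open MvPolynomial CategoryTheory AlgebraicGeometry

namespace Pool.Agent.N882.UE

open Pool.Agent.Y116.UV Pool.Agent.Z125.UN

/-- a homomorphism `r` from an abelian group `M` to an abelian group `H` -/
structure AbMap : Type 1 where
  M : Type
  H : Type
  [gM : AddCommGroup M]
  [gH : AddCommGroup H]
  r : M →+ H

attribute [instance] AbMap.gM AbMap.gH

/-- `r` is injective -/
def AbMap.Inj (a : AbMap) : Prop := Function.Injective a.r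

/-- an isomorphism -/
structure AbMap.Iso (a b : AbMap) where
  f : a.M ≃+ b.M
  g : a.H ≃+ b.H
  comm : ∀ m, g (a.r m) = b.r (f m)

/-- the direct sum of two homomorphisms -/
def AbMap.prod (a b : AbMap) : AbMap := ⟨a.M × b.M, a.H × b.H, a.r.prodMap b.r⟩

/-- the direct sum of finitely many homomorphisms -/
def AbMap.pi {n : ℕ} (a : Fin n → AbMap) : AbMap where
  M := ∀ l, (a l).M
  H := ∀ l, (a l).H
  r :=
    { toFun := fun m l => (a l).r (m l)
      map_zero' := funext fun l => (a l).r.map_zero
      map_add' := fun x y => funext fun l => (a l).r.map_add (x l) (y l) }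

lemma AbMap.inj_iso {a b : AbMap} (e : a.Iso b) : a.Inj ↔ b.Inj := by
  have h : ∀ m, e.g (a.r m) = b.r (e.f m) := e.comm
  constructor
  · intro ha x y hxy
    obtain ⟨x, rfl⟩ := e.f.surjective x
    obtain ⟨y, rfl⟩ := e.f.surjective y
    rw [← h, ← h] at hxy
    rw [ha (e.g.injective hxy)]
  · intro hb x y hxy
    apply e.f.injective
    apply hb
    rw [← h, ← h, hxy]

lemma AbMap.inj_prod {a b : AbMap} : (a.prod b).Inj ↔ a.Inj ∧ b.Inj := by
  constructor
  · intro h
    refine ⟨fun x y hxy => ?_, fun x y hxy => ?_⟩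
    · have h1 : (a.prod b).r ((x, 0) : a.M × b.M) = (a.prod b).r ((y, 0) : a.M × b.M) := by
        change ((a.r x, b.r 0) : a.H × b.H) = (a.r y, b.r 0)
        rw [hxy]
      exact congrArg Prod.fst (h h1)
    · have h1 : (a.prod b).r ((0, x) : a.M × b.M) = (a.prod b).r ((0, y) : a.M × b.M) := by
        change ((a.r 0, b.r x) : a.H × b.H) = (a.r 0, b.r y)
        rw [hxy]
      exact congrArg Prod.snd (h h1)
  · rintro ⟨ha, hb⟩ x y hxy
    have h1 : ((a.r (x : a.M × b.M).1, b.r (x : a.M × b.M).2) : a.H × b.H) =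
      (a.r (y : a.M × b.M).1, b.r (y : a.M × b.M).2) := hxy
    exact Prod.ext (ha (congrArg Prod.fst h1)) (hb (congrArg Prod.snd h1))

lemma AbMap.inj_pi {n : ℕ} {a : Fin n → AbMap} (h : ∀ l, (a l).Inj) : (AbMap.pi a).Inj := by
  intro x y hxy
  funext l
  exact h l (congrFun hxy l)

/-- a smooth domain over `k` -/
structure SmoothDomain (k : Type) [Field k] : Type 1 where
  A : Type
  [ring : CommRing A]
  [alg : Algebra k A]
  dom : IsDomain A
  smooth : Algebra.Smooth k A

attribute [instance] SmoothDomain.ring SmoothDomain.alg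

/-- its spectrum -/
noncomputable def SmoothDomain.sch {k : Type} [Field k] (D : SmoothDomain k) : Sch k := aff k D.A

/-- the polynomials `f_l` are sums of at most three monomials of degree at most two, not all zero, and the
closed subscheme `f = 0` of the affine space is smooth and connected -/
structure Good {k : Type} [Field k] {n m : ℕ} (f : Fin m → MvPolynomial (Fin n) k) : Prop where
  quad : ∀ l, IsQuad (f l)
  dom : IsDomain (Zer f)
  smooth : Algebra.Smooth k (Zer f)
  ne : ∃ l, f l ≠ 0

/-- The properties of the maps `T X i j` from motivic cohomology to absolute Hodge cohomology in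
the bidegree `(i, j)` which are used: invariance under isomorphisms; a smooth scheme `X` has the same
maps as a disjoint union of finitely many spectra of smooth domains (affine bundles over the
components); if the closed subscheme `f = 0` of an affine space is smooth and connected, of codimension
`c > 0`, then the map of the cubic `∑ z_l f_l = 1` (an affine bundle over the complement) is the
direct sum of those of the point and, in the bidegree `(i - 2 c + 1, j - c)`, of the closed subscheme;
the same for the complement of the cubic in the affine space, with `c = 1`; for the point the maps in the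
bidegrees `(2 j - 1, j)` and `(2 j - 2, j)` are injective. -/
structure IsClass {k : Type} [Field k] (T : Sch k → ℤ → ℤ → AbMap) : Prop where
  iso : ∀ X Y : Sch k, Nonempty (X ≅ Y) → ∀ i j, Nonempty ((T X i j).Iso (T Y i j))
  affine : ∀ X : Sch k, FT True X → Smooth X.hom → ∃ (r : ℕ) (D : Fin r → SmoothDomain k), ∀ i j,
    Nonempty ((AbMap.pi fun l => T (D l).sch i j).Iso (T X i j))
  gysin : ∀ (n m : ℕ) (f : Fin m → MvPolynomial (Fin n) k), IsDomain (Zer f) →
    Algebra.Smooth k (Zer f) → (∃ l, f l ≠ 0) → ∃ c : ℤ, ∀ i j,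
      Nonempty ((T (cub f) i j).Iso
        ((T (aff k k) i j).prod (T (aff k (Zer f)) (i - 2 * c + 1) (j - c))))
  comp : ∀ (n m : ℕ) (f : Fin m → MvPolynomial (Fin n) k) (i j : ℤ),
    Nonempty ((T (cubC f) i j).Iso ((T (aff k k) i j).prod (T (cub f) (i - 1) (j - 1))))
  point : ∀ j, (T (aff k k) (2 * j - 1) j).Inj
  point' : ∀ j, (T (aff k k) (2 * j - 2) j).Inj

section

variable {k : Type} [Field k] {T : Sch k → ℤ → ℤ → AbMap} (hT : IsClass T) (hQ : QuadPresents k)

include hT

lemma inj_cub {n m : ℕ} {f : Fin m → MvPolynomial (Fin n) k} (hf : Good f) :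
    (∀ j, (T (cub f) (2 * j - 1) j).Inj) ↔ ∀ j, (T (aff k (Zer f)) (2 * j) j).Inj := by
  obtain ⟨c, hc⟩ := hT.gysin n m f hf.dom hf.smooth hf.ne
  have h1 : ∀ j, (T (cub f) (2 * j - 1) j).Inj ↔
      (T (aff k (Zer f)) (2 * (j - c)) (j - c)).Inj := by
    intro j
    obtain ⟨e⟩ := hc (2 * j - 1) j
    have e1 : 2 * j - 1 - 2 * c + 1 = 2 * (j - c) := by ring
    rw [e1] at e
    rw [AbMap.inj_iso e, AbMap.inj_prod]
    exact ⟨fun h => h.2, fun h => ⟨hT.point j, h⟩⟩
  constructor
  · intro h j
    have h2 := (h1 (j + c)).mp (h _)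
    rwa [add_sub_cancel_right] at h2
  · exact fun h j => (h1 j).mpr (h _)

lemma inj_comp {n m : ℕ} (f : Fin m → MvPolynomial (Fin n) k) :
    (∀ j, (T (cubC f) (2 * j - 2) j).Inj) ↔ ∀ j, (T (cub f) (2 * j - 1) j).Inj := by
  have h1 : ∀ j, (T (cubC f) (2 * j - 2) j).Inj ↔ (T (cub f) (2 * (j - 1) - 1) (j - 1)).Inj := by
    intro j
    obtain ⟨e⟩ := hT.comp n m f (2 * j - 2) j
    have e1 : 2 * j - 2 - 1 = 2 * (j - 1) - 1 := by ring
    rw [e1] at e
    rw [AbMap.inj_iso e, AbMap.inj_prod]
    exact ⟨fun h => h.2, fun h => ⟨hT.point' j, h⟩⟩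
  constructor
  · intro h j
    have h2 := (h1 (j + 1)).mp (h _)
    rwa [add_sub_cancel_right] at h2
  · exact fun h j => (h1 j).mpr (h _)

include hQ

/-- the Chow groups of all smooth schemes, `K_1` of cubics and `K_2` of their complements -/
theorem inj_tfae :
    [∀ X : Sch k, FT True X → Smooth X.hom → ∀ j, (T X (2 * j) j).Inj,
      ∀ (n m : ℕ) (f : Fin m → MvPolynomial (Fin n) k), Good f →
        ∀ j, (T (cub f) (2 * j - 1) j).Inj,
      ∀ (n m : ℕ) (f : Fin m → MvPolynomial (Fin n) k), Good f →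
        ∀ j, (T (cubC f) (2 * j - 2) j).Inj].TFAE := by
  tfae_have 2 ↔ 3 := by
    constructor
    · exact fun h n m f hf => (inj_comp hT f).mpr (h n m f hf)
    · exact fun h n m f hf => (inj_comp hT f).mp (h n m f hf)
  tfae_have 1 → 2 := by
    intro h n m f hf
    have h2 := hf.smooth
    exact (inj_cub hT hf).mpr fun j => h _ (ft_aff True) (smooth_aff h2) j
  tfae_have 2 → 1 := by
    intro h X h1 h2 j
    obtain ⟨r, D, hD⟩ := hT.affine X h1 h2
    obtain ⟨e⟩ := hD (2 * j) j
    refine (AbMap.inj_iso e).mp (AbMap.inj_pi fun l => ?_)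
    have hs := (D l).smooth
    have hf : Algebra.FiniteType k (D l).A := inferInstance
    obtain ⟨n, φ, m, f, g1, g2, g3, l', v, g4⟩ := hQ (D l).A
    let e' : Zer f ≃ₐ[k] (D l).A := (Ideal.quotientEquivAlgOfEq k g2.symm).trans
      (Ideal.quotientKerAlgEquivOfSurjective g1)
    have h5 : IsDomain (Zer f) :=
      have := (D l).dom
      e'.toRingEquiv.toMulEquiv.isDomain (D l).A
    have h6 : Algebra.Smooth k (Zer f) := Algebra.Smooth.of_equiv e'.symm
    have h7 : f l' ≠ 0 := by
      rw [g4]
      intro h8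
      have := congrArg (MvPolynomial.eval (fun _ : Fin n => (0 : k))) h8
      rw [map_add, eval_X, map_one, map_zero, zero_add] at this
      exact one_ne_zero this
    have h8 := (inj_cub hT ⟨g3, h5, h6, ⟨l', h7⟩⟩).mp (h n m f ⟨g3, h5, h6, ⟨l', h7⟩⟩) j
    obtain ⟨e2⟩ := hT.iso (aff k (Zer f)) (D l).sch ⟨(affIso e').symm⟩ (2 * j) j
    exact (AbMap.inj_iso e2).mp h8
  tfae_finish

end

end Pool.Agent.N882.UE
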