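import Pool.Agent.N882.UE.K1
import Pool.Agent.N882.UE.WkDim
import Pool.Agent.N882.UE.ParDim

/-!
# Cycle classes of singular varieties over a finite field: dimension, and the order of the L-function
-/

set_option autoImplicit false

open CategoryTheory AlgebraicGeometry MvPolynomial

namespace Pool.Agent.N882.UE

open Pool.Agent.Y116.UV Pool.Agent.W495.FM Pool.Agent.Z125.UN Pool.Agent.Q282.UK

noncomputable section

variable {k Ω : Type} [Field k] [Field Ω] (T : Homology k Ω)

/-- The group `B_j(X)` of the classes of cycles of dimension `j` (with rational coefficients) in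
`H_(2j)(X, ℚ_ℓ(j))`. -/
def classes (X : Sch k) (j : ℤ) : AddSubgroup (T.E X (2 * j) j) := (T.reg X (2 * j) j).range

/-- The order of the pole of `L(X, s) = det(1 - F q^(-s) | H_c^(2j)(X, ℚ_ℓ))⁻¹` at `s = j`: the
multiplicity of the eigenvalue `1` of the Frobenius on `H_(2j)(X, ℚ_ℓ(j))`, the dual space of
`H_c^(2j)(X, ℚ_ℓ(j))`. -/
def poleOrder (X : Sch k) (j : ℤ) : ℕ :=
  Module.finrank Ω (Module.End.maxGenEigenspace (T.frob X (2 * j) j) 1)

/-- Jannsen's three statements for cycles of dimension `j` on `X`: (a) the Frobenius invariant elements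
of `H_(2j)(X, ℚ_ℓ(j))` are linear combinations of classes of cycles; (b) `B_j(X) ⊗ ℚ_ℓ` is the space of
the invariant elements (linearly independent elements of `B_j(X)` are linearly independent over the
field of coefficients); (c) the order of the pole of `L(X, s)` at `s = j` is the rank of `B_j(X)`. -/
structure Jannsen (X : Sch k) (j : ℤ) : Prop where
  a : ∀ e, T.frob X (2 * j) j e = e → e ∈ Submodule.span Ω (classes T X j : Set (T.E X (2 * j) j))
  b : ∀ (r : ℕ) (x : Fin r → T.E X (2 * j) j), (∀ l, x l ∈ classes T X j) →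
    LinearIndependent ℤ x → LinearIndependent Ω x
  c : (poleOrder T X j : Cardinal) = Module.rank ℤ (classes T X j)

variable [CharZero Ω] {T}

lemma int_rank {V W : Type} [AddCommGroup V] [Module ℚ V] [AddCommGroup W] (f : V →+ W)
    (hf : Function.Injective f) : Module.rank ℤ f.range = Module.rank ℚ V := by
  let e : V ≃+ f.range := AddMonoidHom.ofInjective hf
  have h1 : Module.rank ℤ f.range = Module.rank ℤ V := (e.toIntLinearEquiv.rank_eq).symm
  rw [h1]
  exact (IsFractionRing.rank_right_eq ℤ V (S := ℚ)).symm

/-- The multiplicity of the eigenvalue one and the dimension of the motivic group. -/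
lemma good_rank {A : Node Ω} (h : A.Good) :
    (Module.finrank Ω (Module.End.maxGenEigenspace A.φ 1) : Cardinal) = Module.rank ℚ A.M := by
  have h1 : LinearMap.range A.lam = Module.End.maxGenEigenspace A.φ 1 := by
    ext e
    rw [Module.End.mem_maxGenEigenspace, one_smul]
    constructor
    · rintro ⟨t, rfl⟩
      exact A.inG_lam t
    · intro he
      exact h.2 e he
  have h2 : FiniteDimensional Ω (TensorProduct ℚ Ω A.M) := Module.Finite.of_injective A.lam h.1
  rw [← h1, LinearMap.finrank_range_of_inj h.1, Module.finrank_eq_rank, Module.rank_baseChange,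
    Cardinal.lift_id]

/-- `TB` implies Jannsen's three statements. -/
theorem jannsen_of_tb (hT : IsTheory T) {X : Sch k} (h : TB T X) (j : ℤ) : Jannsen T X j := by
  have h1 := h (2 * j) j
  have h2 := (tb_iff hT X).mp h (2 * j) j
  have hinj : Function.Injective (T.reg X (2 * j) j) := by
    rw [injective_iff_map_eq_zero]
    intro x hx
    by_contra hne
    have h3 := h1.2.1 1 (fun _ => x) (LinearIndependent.of_subsingleton (0 : Fin 1) hne)
    exact h3.ne_zero 0 hx
  refine ⟨fun e he => ?_, fun r x hx hli => ?_, ?_⟩
  · exact (h1.1 e).mp he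
  · choose y hy using hx
    have h3 : x = fun l => T.reg X (2 * j) j (y l) := funext fun l => (hy l).symm
    rw [h3] at hli ⊢
    apply h1.2.1
    rw [← LinearIndependent.iff_fractionRing ℤ ℚ]
    exact LinearIndependent.of_comp (T.reg X (2 * j) j).toIntLinearMap hli
  · have h3 := good_rank h2
    have h4 := int_rank (T.reg X (2 * j) j) hinj
    unfold poleOrder classes
    rw [h4]
    exact h3

/-- `Kone` for the hypersurfaces with at most `m` variables in one of the blocks, `Onto` for the
systems with at most `m` variables in the second block. -/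
theorem kone_iff_dim (hT : IsTheory T) (hW : HasWeights T) (h1 : TB T (aff k k)) (m : ℕ) :
    (∀ (a b c : ℕ) (t : Fin a → Fin b → Fin c → k), b ≤ m → Onto T (bilS t)) ↔
      ∀ (a b c : ℕ) (t : Fin a → Fin b → Fin c → k), (a ≤ m ∨ b ≤ m ∨ c ≤ m) →
        Kone T (hypS t) := by
  constructor
  · intro h a b c t hm
    exact of_second (Q := fun X _ => Kone T X) (fun e _ h => kone_alg hT e h)
      (fun a b c t hb => (onto_hyp hT hW h1 t).mp (h a b c t hb)) t hm
  · intro h a b c t hb
    exact (onto_hyp hT hW h1 t).mpr (h a b c t (Or.inr (Or.inl hb)))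

theorem wk_onto (hT : IsTheory T) (hW : HasWeights T) (h1 : TB T (aff k k)) :
    Wk True (Onto T) where
  toClo := clo_onto hT hW
  point := fun j => by
    have h2 := (onto_iff hT _).mpr fun j => ((tb_iff hT _).mp h1 (2 * j) j).2
    exact h2 j
  poly := fun A _ _ _ n h => by
    have h0 : IsOpenImmersion (𝟙 (aff k A) : aff k A ⟶ aff k A).left :=
      inferInstanceAs (IsOpenImmersion (𝟙 (aff k A).left))
    have h2 := hT.bundle A (n + 1) (f1 A n) (aff k A) (𝟙 _) h0 (by
      have h1 : Set.range (𝟙 (aff k A) : aff k A ⟶ aff k A).left = Set.univ := Set.range_id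
      have h2 : {x : PrimeSpectrum A | ∃ l, f1 A n l ∉ x.asIdeal} = Set.univ := by
        rw [Set.eq_univ_iff_forall]
        intro x
        exact ⟨0, fun h => x.isPrime.ne_top ((Ideal.eq_top_iff_one _).mpr h)⟩
      exact h1.trans h2.symm)
    have hf : Algebra.FiniteType k (Jou (f1 A n)) :=
      Algebra.FiniteType.trans (S := A) inferInstance inferInstance
    exact onto_factor hT (hT.iso (ft_aff True) ⟨(affIso ((jouOne A n).restrictScalars k)).symm⟩)
      (onto_factor hT h2.1 h)

end

end Pool.Agent.N882.UE
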