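import Pool.Agent.N882.UE.Opn
import Pool.Agent.N882.UE.Bil

/-!
# Principal open subschemes of affine spaces: finite products
-/

set_option autoImplicit false

open CategoryTheory AlgebraicGeometry MvPolynomial

namespace Pool.Agent.N882.UE

open Pool.Agent.Y116.UV Pool.Agent.Z125.UN Pool.Agent.Q282.UK Pool.Agent.Q282.UZ

variable {R : Type} [CommRing R] {sep : Prop} {P : Sch R → Prop}

/-- The principal open subscheme `∏ l, f l ≠ 0` of the affine space. -/
noncomputable def opnS {R : Type} [CommRing R] {σ : Type} {r : ℕ} (f : Fin r → MvPolynomial σ R) :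
    Sch R :=
  aff R (Localization.Away (∏ l, f l))

lemma prod_list {M : Type} [CommMonoid M] (L : List M) : L.prod = ∏ l : Fin L.length, L.get l := by
  rw [← List.prod_ofFn]
  congr 1
  exact (List.ofFn_get L).symm

/-- Principal opens defined by products of bilinear forms. -/
theorem opens_bil [IsNoetherianRing R] (hP : Clo2 sep P) : (∀ X : Sch R, FT sep X → P X) ↔
    ∀ (a b r : ℕ) (t : Fin a → Fin b → Fin r → R), P (opnS (bform t)) := by
  constructor
  · intro h a b r t
    have hf : Algebra.FiniteType R (Localization.Away (∏ l, bform t l)) :=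
      Algebra.FiniteType.trans (S := MvPolynomial (Fin a ⊕ Fin b) R) inferInstance inferInstance
    exact h _ (ft_aff sep)
  · intro h X hX
    refine clo_universal (S := Set.univ) hP.toClo trivial trivial ?_ presents_univ X hX
    intro a b c t _
    refine of_opens hP {f | ∃ M : Fin a → Fin b → R, bil (Fin a) (Fin b) M = f} ?_ (bform t)
      (fun l => ⟨fun i j => t i j l, (bform_eq t l).symm⟩)
    intro L hL
    have h1 : ∀ l : Fin L.length, ∃ M : Fin a → Fin b → R, bil (Fin a) (Fin b) M = L.get l :=
      fun l => hL _ (List.get_mem L l)
    choose M hM using h1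
    have h2 := h a b L.length fun i j l => M l i j
    have h3 : L.prod = ∏ l, bform (fun i j l => M l i j) l := by
      rw [prod_list]
      refine Finset.prod_congr rfl fun l _ => ?_
      rw [bform_eq]
      exact (hM l).symm
    rw [h3]
    exact h2

/-- Principal opens defined by products of bilinear forms with at most three terms. -/
theorem opens_few (hR : ShortPresents R) (hP : Clo2 sep P) : (∀ X : Sch R, FT sep X → P X) ↔
    ∀ (a b r : ℕ) (E : Fin r → Finset (Fin a × Fin b)), (∀ l, (E l).card ≤ 3) →
      P (opnS fun l => few R (E l)) := by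
  rw [opens_iff hR hP]
  constructor
  · intro h a b r E hE
    have h1 := h a b (List.ofFn E) (by
      intro E' hE'
      obtain ⟨l, rfl⟩ := (List.mem_ofFn' E E').mp hE'
      exact hE l)
    rw [List.map_ofFn, List.prod_ofFn] at h1
    exact h1
  · intro h a b L hL
    have h1 := h a b L.length (fun l => L.get l) (fun l => hL _ (List.get_mem L l))
    have h2 : (L.map (few R)).prod = ∏ l : Fin L.length, few R (L.get l) := by
      conv_lhs => rw [← List.ofFn_get L]
      rw [List.map_ofFn, List.prod_ofFn]
      rfl
    rw [h2]
    exact h1

end Pool.Agent.N882.UE
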