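import Pool.Agent.N882.UE.Common
import Pool.Agent.Q193.LT.Serre

/-!
# Ordinary objects: Newton and Hodge slopes
-/

set_option autoImplicit false

open CategoryTheory CategoryTheory.Limits AlgebraicGeometry MvPolynomial

universe u v

namespace Pool.Agent.N882.UE

open Pool.Agent.Y116.UV Pool.Agent.Z125.UN Pool.Agent.Q193.LT

/-- The Legendre transform `t ↦ sup_x (t x - p(x))` of the convex polygon `p` with the slopes `M`. -/
def legendre (M : Multiset ℚ) (t : ℚ) : ℚ := (M.map fun s => max (t - s) 0).sum

lemma legendre_add (M N : Multiset ℚ) (t : ℚ) :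
    legendre (M + N) t = legendre M t + legendre N t := by
  rw [legendre, Multiset.map_add, Multiset.sum_add]
  rfl

lemma legendre_nonneg (M : Multiset ℚ) (t : ℚ) : 0 ≤ legendre M t := by
  refine Multiset.sum_nonneg fun x hx => ?_
  obtain ⟨s, _, rfl⟩ := Multiset.mem_map.mp hx
  exact le_max_right _ _

lemma legendre_cons (s : ℚ) (M : Multiset ℚ) (t : ℚ) :
    legendre (s ::ₘ M) t = max (t - s) 0 + legendre M t := by
  rw [legendre, Multiset.map_cons, Multiset.sum_cons]
  rfl

lemma legendre_pos {M : Multiset ℚ} {s t : ℚ} (hs : s ∈ M) (h : s < t) : 0 < legendre M t := by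
  obtain ⟨N, rfl⟩ := Multiset.exists_cons_of_mem hs
  rw [legendre_cons]
  have h1 : 0 < max (t - s) 0 := lt_max_of_lt_left (by linarith)
  have := legendre_nonneg N t
  linarith

lemma legendre_zero {M : Multiset ℚ} {t : ℚ} (h : ∀ s ∈ M, t ≤ s) : legendre M t = 0 := by
  rw [legendre]
  refine Multiset.sum_eq_zero fun x hx => ?_
  obtain ⟨s, hs, rfl⟩ := Multiset.mem_map.mp hx
  exact max_eq_right (by linarith [h s hs])

lemma exists_min {M : Multiset ℚ} (h : M ≠ 0) : ∃ s ∈ M, ∀ u ∈ M, s ≤ u := by
  have h1 : M.toFinset.Nonempty := Multiset.toFinset_nonempty.mpr h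
  refine ⟨M.toFinset.min' h1, Multiset.mem_toFinset.mp (Finset.min'_mem _ _), fun u hu => ?_⟩
  exact Finset.min'_le _ _ (Multiset.mem_toFinset.mpr hu)

/-- The slopes are determined by the polygon. -/
theorem legendre_injective {M N : Multiset ℚ} (h : ∀ t, legendre M t = legendre N t) : M = N := by
  induction hn : M.card generalizing M N with
  | zero =>
    obtain rfl := Multiset.card_eq_zero.mp hn
    by_contra hN
    obtain ⟨s, hs, _⟩ := exists_min (Ne.symm hN)
    have h1 := legendre_pos hs (show s < s + 1 by linarith)
    rw [← h] at h1
    exact lt_irrefl _ h1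
  | succ n ih =>
    have hM : M ≠ 0 := by
      rintro rfl
      simp at hn
    obtain ⟨s, hs, hmin⟩ := exists_min hM
    have hN : N ≠ 0 := by
      rintro rfl
      have h1 := legendre_pos hs (show s < s + 1 by linarith)
      rw [h] at h1
      exact lt_irrefl _ h1
    obtain ⟨s', hs', hmin'⟩ := exists_min hN
    have hss : s = s' := by
      rcases lt_trichotomy s s' with h1 | h1 | h1
      · have h2 := legendre_pos hs h1
        rw [h, legendre_zero hmin'] at h2
        exact absurd h2 (lt_irrefl _)
      · exact h1
      · have h2 := legendre_pos hs' h1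
        rw [← h, legendre_zero hmin] at h2
        exact absurd h2 (lt_irrefl _)
    subst hss
    obtain ⟨M', rfl⟩ := Multiset.exists_cons_of_mem hs
    obtain ⟨N', rfl⟩ := Multiset.exists_cons_of_mem hs'
    rw [Multiset.card_cons] at hn
    have h2 : ∀ t, legendre M' t = legendre N' t := by
      intro t
      have h1 := h t
      rw [legendre_cons, legendre_cons] at h1
      linarith
    rw [ih h2 (by omega)]

variable {C : Type u} [Category.{v} C] [Abelian C]

/-- Newton slopes and Hodge slopes (Hodge–Tate weights), with multiplicities, for the objects of an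
abelian category (intended: the de Rham representations of the Galois group of a `p`-adic field, the
slopes of the Frobenius of `D_pst` and the jumps of the Hodge filtration): both are additive in short
exact sequences, and the Newton polygon lies on or above the Hodge polygon (weak admissibility), in terms of
the Legendre transforms. -/
structure Slopes (C : Type u) [Category.{v} C] [Abelian C] where
  /-- Newton slopes -/
  newton : C → Multiset ℚ
  /-- Hodge slopes -/
  hodge : C → Multiset ℚ
  newton_add : ∀ S : ShortComplex C, S.ShortExact → newton S.X₂ = newton S.X₁ + newton S.X₃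
  hodge_add : ∀ S : ShortComplex C, S.ShortExact → hodge S.X₂ = hodge S.X₁ + hodge S.X₃
  above : ∀ (A : C) (t : ℚ), legendre (newton A) t ≤ legendre (hodge A) t

/-- The Newton polygon and the Hodge polygon coincide. -/
def Slopes.Ordinary (S : Slopes C) (A : C) : Prop := S.newton A = S.hodge A

/-- Subobjects and quotients of ordinary objects are ordinary, and conversely. -/
theorem ordinary_iff (S : Slopes C) (T : ShortComplex C) (hT : T.ShortExact) :
    S.Ordinary T.X₂ ↔ S.Ordinary T.X₁ ∧ S.Ordinary T.X₃ := by
  constructor
  · intro h
    have h1 : ∀ t, legendre (S.newton T.X₁) t = legendre (S.hodge T.X₁) t ∧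
        legendre (S.newton T.X₃) t = legendre (S.hodge T.X₃) t := by
      intro t
      have h2 : legendre (S.newton T.X₂) t = legendre (S.hodge T.X₂) t := by
        rw [show S.newton T.X₂ = S.hodge T.X₂ from h]
      rw [S.newton_add T hT, S.hodge_add T hT, legendre_add, legendre_add] at h2
      have h3 := S.above T.X₁ t
      have h4 := S.above T.X₃ t
      constructor <;> linarith
    exact ⟨legendre_injective fun t => (h1 t).1, legendre_injective fun t => (h1 t).2⟩
  · rintro ⟨h1, h2⟩
    change S.newton T.X₂ = S.hodge T.X₂
    rw [S.newton_add T hT, S.hodge_add T hT, show S.newton T.X₁ = S.hodge T.X₁ from h1,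
      show S.newton T.X₃ = S.hodge T.X₃ from h2]

/-- The ordinary objects are a Serre class. -/
theorem serre_ordinary (S : Slopes C) : IsSerre S.Ordinary where
  zero X hX := by
    have h1 : (ShortComplex.mk (0 : X ⟶ X) (0 : X ⟶ X) zero_comp).ShortExact := by
      have hm : Mono (0 : X ⟶ X) := hX.mono _
      have he : Epi (0 : X ⟶ X) := hX.epi _
      exact { exact := ShortComplex.exact_of_isZero_X₂ _ hX, mono_f := hm, epi_g := he }
    have h2 : ∀ M : Multiset ℚ, M = M + M → M = 0 := by
      intro M hM
      have h3 := congrArg Multiset.card hM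
      rw [Multiset.card_add] at h3
      exact Multiset.card_eq_zero.mp (by omega)
    have h3 := h2 _ (S.newton_add _ h1)
    have h4 := h2 _ (S.hodge_add _ h1)
    exact h3.trans h4.symm
  mid {X Y Z} f g w h hX hZ := by
    have he : Epi (kernel.lift g f w) := h.epi_kernelLift
    let p := kernel.lift g f w
    have h1 : (ShortComplex.mk (kernel.ι p) p (kernel.condition p)).ShortExact :=
      { exact := ShortComplex.exact_of_f_is_kernel _ (kernelIsKernel p)
        mono_f := by change Mono (kernel.ι p); infer_instance
        epi_g := he }
    have hK : S.Ordinary (kernel g) := ((ordinary_iff S _ h1).mp hX).2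
    let m := Abelian.factorThruCoimage g
    have hm : Mono m := by change Mono (Abelian.factorThruCoimage g); infer_instance
    have h2 : (ShortComplex.mk m (cokernel.π m) (cokernel.condition m)).ShortExact :=
      { exact := ShortComplex.exact_of_g_is_cokernel _ (cokernelIsCokernel m)
        mono_f := hm
        epi_g := by change Epi (cokernel.π m); infer_instance }
    have hI : S.Ordinary (Abelian.coimage g) := ((ordinary_iff S _ h2).mp hZ).1
    have h3 : (ShortComplex.mk (kernel.ι g) (cokernel.π (kernel.ι g))
        (cokernel.condition _)).ShortExact :=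
      { exact := ShortComplex.exact_of_g_is_cokernel _ (cokernelIsCokernel _)
        mono_f := by change Mono (kernel.ι g); infer_instance
        epi_g := by change Epi (cokernel.π (kernel.ι g)); infer_instance }
    exact (ordinary_iff S _ h3).mpr ⟨hK, hI⟩

end Pool.Agent.N882.UE
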