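import Pool.Agent.N882.UE.Ord

/-!
# Cohomology with compact supports and ordinary places, formally
-/

set_option autoImplicit false

open CategoryTheory CategoryTheory.Limits AlgebraicGeometry MvPolynomial

namespace Pool.Agent.N882.UE

open Pool.Agent.Y116.UV Pool.Agent.Z125.UN Pool.Agent.Q193.LT

/-- Exactness at the object in the middle. -/
def ExactSeq {C : Type 1} [Category.{0} C] [Abelian C] {X Y Z : C} (f : X ⟶ Y) (g : Y ⟶ Z) : Prop :=
  ∃ w : f ≫ g = 0, (ShortComplex.mk f g w).Exact

/-- Data for the schemes over the field `F`: a set of places and for every place `v` an abelian category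
with Newton and Hodge slopes (intended, if `v` divides `p`: the de Rham representations of the Galois group
of the completion `F_v` on vector spaces over `ℚ_p`), the operation of twisting with `ℚ_p(-1)`, and the
objects `H v n X = H^n_c(X, ℚ_p)`, cohomology with compact supports over an algebraic closure of `F`. -/
structure Realizations (F : Type) [Field F] where
  /-- the places -/
  Place : Type
  /-- the category of realizations -/
  C : Place → Type 1
  [cat : ∀ v, Category.{0} (C v)]
  [ab : ∀ v, Abelian (C v)]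
  /-- the Newton slopes and the Hodge slopes -/
  slopes : ∀ v, Slopes (C v)
  /-- the twist -/
  tw : ∀ v, C v → C v
  /-- cohomology with compact supports -/
  H : ∀ v, ℤ → Sch F → C v

attribute [instance] Realizations.cat Realizations.ab

variable {F : Type} [Field F] {T : Realizations F}

/-- The properties of `H v n X = H^n_c(X, ℚ_p)` which are used: isomorphic schemes have isomorphic
cohomology; the exact sequences `⋯ → H^n_c(U) → H^n_c(X) → H^n_c(Z) → H^(n+1)_c(U) → ⋯` of a closed subscheme
`Z` with complement `U`; the point has ordinary cohomology; `H^n_c` of an affine scheme `X` is a direct factor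
of `H^(n+1)_c` of `X × 𝔾_m`; for the affine bundles of Jouanolou, of relative dimension `m - 1`, over the
complement `U` of a closed subscheme of an affine scheme, `H^n_c` of the bundle is `H^(n-2(m-1))_c(U)`,
twisted `m - 1` times; the twist adds one to all slopes. -/
structure IsRealization (T : Realizations F) : Prop where
  newton_tw : ∀ v A, (T.slopes v).newton (T.tw v A) = ((T.slopes v).newton A).map (· + 1)
  hodge_tw : ∀ v A, (T.slopes v).hodge (T.tw v A) = ((T.slopes v).hodge A).map (· + 1)
  iso : ∀ {X Y : Sch F}, FT True X → Nonempty (X ≅ Y) → ∀ v n, Nonempty (T.H v n X ≅ T.H v n Y)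
  les : ∀ {Z X U : Sch F} (i : Z ⟶ X) (j : U ⟶ X), FT True X → IsTriple i j → ∀ v,
    ∃ (a : ∀ n, T.H v n U ⟶ T.H v n X) (b : ∀ n, T.H v n X ⟶ T.H v n Z)
      (d : ∀ n, T.H v n Z ⟶ T.H v (n + 1) U),
      ∀ n, ExactSeq (a n) (b n) ∧ ExactSeq (b n) (d n) ∧ ExactSeq (d n) (a (n + 1))
  point : ∀ v n, (T.slopes v).Ordinary (T.H v n (aff F F))
  torus : ∀ (B : Type) [CommRing B] [Algebra F B] [Algebra.FiniteType F B] v n,
    ∃ (s : T.H v n (aff F B) ⟶ T.H v (n + 1) (aff F (LaurentPolynomial B)))
      (r : T.H v (n + 1) (aff F (LaurentPolynomial B)) ⟶ T.H v n (aff F B)), s ≫ r = 𝟙 _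
  bundle : ∀ (B : Type) [CommRing B] [Algebra F B] [Algebra.FiniteType F B] (m : ℕ)
    (f : Fin m → B) (U : Sch F) (j : U ⟶ aff F B), IsOpenImmersion j.left →
    Set.range j.left = {x : PrimeSpectrum B | ∃ l, f l ∉ x.asIdeal} → ∀ v n,
    Nonempty (T.H v n (aff F (Jou f)) ≅ (T.tw v)^[m - 1] (T.H v (n - 2 * ((m - 1 : ℕ) : ℤ)) U))

/-- `X` is ordinary at the place `v`: for all `n` the Newton polygon and the Hodge polygon of `H^n_c(X, ℚ_p)`
coincide. -/
def OrdAt (T : Realizations F) (v : T.Place) (X : Sch F) : Prop :=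
  ∀ n : ℤ, (T.slopes v).Ordinary (T.H v n X)

lemma ordinary_tw (hT : IsRealization T) (v : T.Place) (A : T.C v) :
    (T.slopes v).Ordinary (T.tw v A) ↔ (T.slopes v).Ordinary A := by
  unfold Slopes.Ordinary
  rw [hT.newton_tw, hT.hodge_tw]
  exact (Multiset.map_injective fun x y h => by simpa using h).eq_iff

lemma ordinary_tw_iter (hT : IsRealization T) (v : T.Place) (m : ℕ) (A : T.C v) :
    (T.slopes v).Ordinary ((T.tw v)^[m] A) ↔ (T.slopes v).Ordinary A := by
  induction m generalizing A with
  | zero => exact Iff.rfl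
  | succ m ih =>
    rw [Function.iterate_succ_apply, ih, ordinary_tw hT]

lemma mid_of {C : Type 1} [Category.{0} C] [Abelian C] {S : C → Prop} (hS : IsSerre S) {X Y Z : C}
    {f : X ⟶ Y} {g : Y ⟶ Z} (h : ExactSeq f g) (hX : S X) (hZ : S Z) : S Y := by
  obtain ⟨w, h⟩ := h
  exact hS.mid f g w h hX hZ

/-- For every place the ordinary schemes have all closure properties. -/
theorem bnd_ord (hT : IsRealization T) (v : T.Place) : Bnd True (OrdAt T v) := by
  have hS := serre_ordinary (T.slopes v)
  have hbun : ∀ (B : Type) [CommRing B] [Algebra F B] [Algebra.FiniteType F B] (m : ℕ)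
      (f : Fin m → B) (U : Sch F) (j : U ⟶ aff F B), IsOpenImmersion j.left →
      Set.range j.left = {x : PrimeSpectrum B | ∃ l, f l ∉ x.asIdeal} →
      (OrdAt T v U ↔ OrdAt T v (aff F (Jou f))) := by
    intro B _ _ _ m f U j hj hr
    constructor
    · intro h n
      obtain ⟨e⟩ := hT.bundle B m f U j hj hr v n
      exact hS.iso e.symm ((ordinary_tw_iter hT v _ _).mpr (h _))
    · intro h n
      obtain ⟨e⟩ := hT.bundle B m f U j hj hr v (n + 2 * ((m - 1 : ℕ) : ℤ))
      rw [add_sub_cancel_right] at e
      exact (ordinary_tw_iter hT v _ _).mp (hS.iso e (h _))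
  exact
  { iso := fun hX e h n => by
      obtain ⟨e'⟩ := hT.iso hX e v n
      exact hS.iso e' (h n)
    total := fun i j hX ht hZ hU n => by
      obtain ⟨a, b, d, h⟩ := hT.les i j hX ht v
      exact mid_of hS (h n).1 (hU n) (hZ n)
    opened := fun i j hX ht hZ hX' n => by
      obtain ⟨a, b, d, h⟩ := hT.les i j hX ht v
      obtain ⟨n, rfl⟩ : ∃ m, n = m + 1 := ⟨n - 1, by ring⟩
      exact mid_of hS (h n).2.2 (hZ n) (hX' (n + 1))
    closed := fun i j hX ht hX' hU n => by
      obtain ⟨a, b, d, h⟩ := hT.les i j hX ht v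
      exact mid_of hS (h n).2.1 (hX' n) (hU (n + 1))
    space := fun n => by
      have h2 := (hbun F (n + 1) (f1 F n) (aff F F) (𝟙 _) inferInstance (range_one n)).mp
        (fun i => hT.point v i)
      intro q
      obtain ⟨e⟩ := hT.iso (ft_aff True) ⟨(affIso (jouOne F n)).symm⟩ v q
      exact hS.iso e (h2 q)
    jouanolou := fun B _ _ _ m f U j hj hr h => (hbun B m f U j hj hr).mpr h
    torus := fun B _ _ _ h n => by
      obtain ⟨s, r, hsr⟩ := hT.torus B v n
      have hm : Mono s := mono_of_mono_fac hsr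
      exact hS.of_mono s (h (n + 1))
    bundle := fun B _ _ _ m f U j hj hr h => (hbun B m f U j hj hr).mp h }

end Pool.Agent.N882.UE
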