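import Pool.Agent.N882.UE.Tb
import Pool.Agent.N882.UE.Bil

/-!
# Vanishing of rational motivic cohomology with compact supports
-/

set_option autoImplicit false

open CategoryTheory AlgebraicGeometry MvPolynomial

namespace Pool.Agent.N882.UE

open Pool.Agent.Y116.UV Pool.Agent.Z125.UN Pool.Agent.Q282.UK

noncomputable section

/-- Data of rational motivic cohomology with compact supports `C X i n = H^i_c(X, ℚ(n))` of the schemes
`X` over the field `k`. -/
structure Compact (k : Type) [Field k] where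
  /-- motivic cohomology with compact supports -/
  C : Sch k → ℤ → ℤ → Type
  [grp : ∀ X i n, AddCommGroup (C X i n)]
  [mod : ∀ X i n, Module ℚ (C X i n)]

attribute [instance] Compact.grp Compact.mod

variable {k : Type} [Field k] (T : Compact k)

/-- The long exact sequences `⋯ → H^i_c(U) → H^i_c(X) → H^i_c(Z) → H^(i+1)_c(U) → ⋯`. -/
def CLocal (Z X U : Sch k) : Prop :=
  ∀ n : ℤ, ∃ (b : ∀ i, T.C U i n →ₗ[ℚ] T.C X i n) (a : ∀ i, T.C X i n →ₗ[ℚ] T.C Z i n)
    (d : ∀ i, T.C Z i n →ₗ[ℚ] T.C U (i + 1) n),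
    ∀ i, Function.Exact (b i) (a i) ∧ Function.Exact (a i) (d i) ∧
      Function.Exact (d i) (b (i + 1))

/-- The groups of `Y` are those of `X`, with degree raised by `2 r` and twist raised by `r`. -/
def SameGroups (X Y : Sch k) (r : ℤ) : Prop :=
  ∀ i n : ℤ, Nonempty (T.C X i n ≃ₗ[ℚ] T.C Y (i + 2 * r) (n + r))

/-- The groups of `Y = X × 𝔾_m`: `H^(i+2)_c(Y, ℚ(n + 1)) = H^(i+1)_c(X, ℚ(n + 1)) × H^i_c(X, ℚ(n))`. -/
def TorusGroups (X Y : Sch k) : Prop :=
  ∀ i n : ℤ, Nonempty (T.C Y (i + 2) (n + 1) ≃ₗ[ℚ] T.C X (i + 1) (n + 1) × T.C X i n)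

/-- `H^i_c(X, ℚ(n)) = 0` for `i > n + dim X`. -/
def Above : Prop :=
  ∀ X : Sch k, FT True X → ∀ (d : ℕ) (i n : ℤ), topologicalKrullDim X.left < d →
    n + d ≤ i → Subsingleton (T.C X i n)

/-- The known properties of rational motivic cohomology with compact supports over a finite field which
are used: isomorphisms; localisation sequences; an affine bundle of Jouanolou of relative dimension
`m - 1` shifts the degree by `2 (m - 1)` and the twist by `m - 1`; the groups of `X × 𝔾_m`; the groups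
of the point (`K_i(k) ⊗ ℚ = 0` for `i > 0`); `H^i_c(X, ℚ(n)) = 0` for `i > n + dim X`. -/
structure IsCompact : Prop where
  iso : ∀ {X Y : Sch k}, FT True X → Nonempty (X ≅ Y) → SameGroups T X Y 0
  localization : ∀ {Z X U : Sch k} (i : Z ⟶ X) (j : U ⟶ X), FT True X → IsTriple i j →
    CLocal T Z X U
  bundle : ∀ (A : Type) [CommRing A] [Algebra k A] [Algebra.FiniteType k A] (m : ℕ) (f : Fin m → A)
    (U : Sch k) (j : U ⟶ aff k A), IsOpenImmersion j.left →
    Set.range j.left = {x : PrimeSpectrum A | ∃ l, f l ∉ x.asIdeal} →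
    SameGroups T U (aff k (Jou f)) (m - 1)
  torus : ∀ (A : Type) [CommRing A] [Algebra k A] [Algebra.FiniteType k A],
    TorusGroups T (aff k A) (aff k (LaurentPolynomial A))
  point : ∀ i n : ℤ, ¬ (i = 0 ∧ n = 0) → Subsingleton (T.C (aff k k) i n)
  rank : Module.rank ℚ (T.C (aff k k) 0 0) = 1
  above : Above T

/-- `H^i_c(X, ℚ(n)) = 0` for all `n` and all `i < 2 n`. -/
def Par (X : Sch k) : Prop := ∀ n i : ℤ, i < 2 * n → Subsingleton (T.C X i n)

/-- In the degrees `i ≤ 2 n` the groups `H^i_c(X, ℚ(n))` are those of the affine space of dimension `D`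
or zero: they are zero for `(i, n) ≠ (2 D, D)`, and the dimension of `H^(2D)_c(X, ℚ(D))` is at most
one. -/
def LikeSpace (X : Sch k) (D : ℤ) : Prop :=
  (∀ n i : ℤ, i ≤ 2 * n → ¬ (i = 2 * D ∧ n = D) → Subsingleton (T.C X i n)) ∧
    Module.rank ℚ (T.C X (2 * D) D) ≤ 1

variable {T}

lemma same_zero {X Y : Sch k} (h : SameGroups T X Y 0) (i n : ℤ) :
    Nonempty (T.C X i n ≃ₗ[ℚ] T.C Y i n) := by
  have h1 := h i n
  rwa [mul_zero, add_zero, add_zero] at h1

lemma sub_mid {A B C : Type} [AddCommGroup A] [Module ℚ A] [AddCommGroup B] [Module ℚ B]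
    [AddCommGroup C] [Module ℚ C] {f : A →ₗ[ℚ] B} {g : B →ₗ[ℚ] C} (h : Function.Exact f g)
    (hA : Subsingleton A) (hC : Subsingleton C) : Subsingleton B := by
  refine ⟨fun x y => ?_⟩
  have h1 : ∀ x : B, x = 0 := by
    intro x
    obtain ⟨z, rfl⟩ := (h x).mp (Subsingleton.elim _ _)
    rw [Subsingleton.elim z 0, map_zero]
  rw [h1 x, h1 y]

theorem par_total (hT : IsCompact T) {Z X U : Sch k} (i : Z ⟶ X) (j : U ⟶ X) (hX : FT True X)
    (ht : IsTriple i j) (hZ : Par T Z) (hU : Par T U) : Par T X := by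
  intro n q hq
  obtain ⟨b, a, d, h⟩ := hT.localization i j hX ht n
  exact sub_mid (h q).1 (hU n q hq) (hZ n q hq)

theorem par_opened (hT : IsCompact T) {Z X U : Sch k} (i : Z ⟶ X) (j : U ⟶ X) (hX : FT True X)
    (ht : IsTriple i j) (hZ : Par T Z) (hX' : Par T X) : Par T U := by
  intro n q hq
  obtain ⟨b, a, d, h⟩ := hT.localization i j hX ht n
  obtain ⟨q, rfl⟩ : ∃ p, q = p + 1 := ⟨q - 1, by ring⟩
  exact sub_mid (h q).2.2 (hZ n q (by omega)) (hX' n (q + 1) hq)

/-- The class of schemes with vanishing groups is closed under closed-open decompositions. -/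
theorem clo_par (hT : IsCompact T) : Clo True (Par T) where
  iso := fun hX e h n i hi => by
    obtain ⟨e⟩ := same_zero (hT.iso hX e) i n
    have := h n i hi
    exact e.symm.toEquiv.subsingleton
  total := fun i j hX ht hZ hU => par_total hT i j hX ht hZ hU
  opened := fun i j hX ht hZ hX' => par_opened hT i j hX ht hZ hX'
  torus := fun B _ _ _ h n i hi => by
    obtain ⟨e⟩ := hT.torus B i n
    have h1 := h (n + 1) (i + 2) (by omega)
    have h2 : Subsingleton (T.C (aff k B) (i + 1) (n + 1) × T.C (aff k B) i n) :=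
      e.symm.toEquiv.subsingleton
    refine ⟨fun x y => ?_⟩
    exact congrArg Prod.snd (Subsingleton.elim (α := T.C (aff k B) (i + 1) (n + 1) × T.C (aff k B) i n)
      (0, x) (0, y))

/-- The groups of the affine space. -/
theorem likeSpace_space (hT : IsCompact T) (N : ℕ) (n i : ℤ) :
    Nonempty (T.C (aff k k) i n ≃ₗ[ℚ]
      T.C (aff k (MvPolynomial (Fin N) k)) (i + 2 * N) (n + N)) := by
  obtain ⟨e⟩ := hT.bundle k (N + 1) (f1 k N) (aff k k) (𝟙 _) inferInstance (range_one N) i n
  obtain ⟨e'⟩ := same_zero (hT.iso (ft_aff True) ⟨(affIso (jouOne k N)).symm⟩)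
    (i + 2 * (((N + 1 : ℕ) : ℤ) - 1)) (n + (((N + 1 : ℕ) : ℤ) - 1))
  have h1 : ((N + 1 : ℕ) : ℤ) - 1 = N := by push_cast; ring
  rw [h1] at e e'
  exact ⟨e.trans e'⟩

/-- Transport of `LikeSpace`. -/
lemma likeSpace_of_equiv {X Y : Sch k} {D r : ℤ}
    (h : ∀ i n : ℤ, Nonempty (T.C X i n ≃ₗ[ℚ] T.C Y (i + 2 * r) (n + r))) (hX : LikeSpace T X D) :
    LikeSpace T Y (D + r) := by
  constructor
  · intro n i hi hne
    obtain ⟨e⟩ := h (i - 2 * r) (n - r)
    rw [show i - 2 * r + 2 * r = i by ring, show n - r + r = n by ring] at e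
    have h1 := hX.1 (n - r) (i - 2 * r) (by omega) (by omega)
    exact e.symm.toEquiv.subsingleton
  · obtain ⟨e⟩ := h (2 * D) D
    rw [show 2 * D + 2 * r = 2 * (D + r) by ring] at e
    rw [← e.rank_eq]
    exact hX.2

lemma likeSpace_of_equiv' {X Y : Sch k} {D r : ℤ}
    (h : ∀ i n : ℤ, Nonempty (T.C X i n ≃ₗ[ℚ] T.C Y (i + 2 * r) (n + r)))
    (hY : LikeSpace T Y (D + r)) : LikeSpace T X D := by
  constructor
  · intro n i hi hne
    obtain ⟨e⟩ := h i n
    have h1 := hY.1 (n + r) (i + 2 * r) (by omega) (by omega)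
    exact e.toEquiv.subsingleton
  · obtain ⟨e⟩ := h (2 * D) D
    rw [show 2 * D + 2 * r = 2 * (D + r) by ring] at e
    rw [e.rank_eq]
    exact hY.2

lemma likeSpace_iso (hT : IsCompact T) {A B : Type} [CommRing A] [CommRing B] [Algebra k A]
    [Algebra k B] [Algebra.FiniteType k A] (e : A ≃ₐ[k] B) {D : ℤ} (h : LikeSpace T (aff k A) D) :
    LikeSpace T (aff k B) D := by
  have h1 := likeSpace_of_equiv (r := 0) (Y := aff k B) (hT.iso (ft_aff True)
    ⟨(affIso e).symm⟩) h
  rwa [add_zero] at h1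

lemma space_vanish (hT : IsCompact T) {σ : Type} [Fintype σ] (n i : ℤ)
    (h : ¬ (i = 2 * (Fintype.card σ : ℤ) ∧ n = Fintype.card σ)) :
    Subsingleton (T.C (aff k (MvPolynomial σ k)) i n) := by
  obtain ⟨e⟩ := likeSpace_space hT (Fintype.card σ) (n - Fintype.card σ) (i - 2 * Fintype.card σ)
  rw [show i - 2 * (Fintype.card σ : ℤ) + 2 * (Fintype.card σ : ℤ) = i by ring,
    show n - (Fintype.card σ : ℤ) + (Fintype.card σ : ℤ) = n by ring] at e
  obtain ⟨e'⟩ := same_zero (hT.iso (ft_aff True)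
    ⟨(affIso (renameEquiv k (Fintype.equivFin σ).symm)).symm⟩) i n
  have h1 := hT.point (i - 2 * Fintype.card σ) (n - Fintype.card σ) (by omega)
  exact (e.trans e').symm.toEquiv.subsingleton

lemma space_rank (hT : IsCompact T) {σ : Type} [Fintype σ] :
    Module.rank ℚ (T.C (aff k (MvPolynomial σ k)) (2 * (Fintype.card σ : ℤ)) (Fintype.card σ)) = 1 := by
  obtain ⟨e⟩ := likeSpace_space hT (Fintype.card σ) 0 0
  rw [zero_add, zero_add] at e
  obtain ⟨e'⟩ := same_zero (hT.iso (ft_aff True)
    ⟨(affIso (renameEquiv k (Fintype.equivFin σ).symm)).symm⟩) (2 * (Fintype.card σ : ℤ))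
      (Fintype.card σ)
  rw [← (e.trans e').rank_eq]
  exact hT.rank

lemma par_space (hT : IsCompact T) {σ : Type} [Fintype σ] : Par T (aff k (MvPolynomial σ k)) :=
  fun n i hi => space_vanish hT n i (by omega)

/-- A linear map from a space of dimension at most one onto a non-zero space is injective. -/
lemma inj_of_rank {V W : Type} [AddCommGroup V] [Module ℚ V] [AddCommGroup W] [Module ℚ W]
    (hV : Module.rank ℚ V ≤ 1) (f : V →ₗ[ℚ] W) (hf : f ≠ 0) : Function.Injective f := by
  obtain ⟨v, hv⟩ := rank_le_one_iff.mp hV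
  rw [injective_iff_map_eq_zero]
  intro x hx
  obtain ⟨r, rfl⟩ := hv x
  by_cases hr : r = 0
  · rw [hr, zero_smul]
  · exfalso
    apply hf
    have h1 : f v = 0 := by
      rw [map_smul] at hx
      exact (smul_eq_zero.mp hx).resolve_left hr
    ext y
    obtain ⟨s, rfl⟩ := hv y
    rw [map_smul, h1, smul_zero]
    rfl

/-- The zero set of `f` in an affine space and its complement. -/
theorem par_complement (hT : IsCompact T) {σ : Type} [Fintype σ] {Z U : Sch k}
    (h : CLocal T Z (aff k (MvPolynomial σ k)) U)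
    (hc : Par T Z ∨ ∀ n : ℤ, n = Fintype.card σ → Subsingleton (T.C Z (2 * n) n)) :
    Par T Z ↔ LikeSpace T U (Fintype.card σ) := by
  constructor
  · intro hZ
    constructor
    · intro n i hi hne
      obtain ⟨b, a, d, h⟩ := h n
      obtain ⟨i, rfl⟩ : ∃ p, i = p + 1 := ⟨i - 1, by ring⟩
      exact sub_mid (h i).2.2 (hZ n i (by omega)) (space_vanish hT n (i + 1) hne)
    · obtain ⟨b, a, d, h⟩ := h (Fintype.card σ)
      obtain ⟨i, hi⟩ : ∃ p, 2 * (Fintype.card σ : ℤ) = p + 1 := ⟨2 * (Fintype.card σ : ℤ) - 1, by ring⟩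
      have hr := space_rank hT (σ := σ)
      rw [hi] at hr ⊢
      have h1 := hZ (Fintype.card σ) i (by omega)
      have h2 : Function.Injective (b (i + 1)) := by
        rw [injective_iff_map_eq_zero]
        intro x hx
        obtain ⟨z, rfl⟩ := ((h i).2.2 x).mp hx
        rw [Subsingleton.elim z 0, map_zero]
      exact (LinearMap.rank_le_of_injective _ h2).trans hr.le
  · intro hU
    rcases hc with hc | hc
    · exact hc
    · intro n i hi
      obtain ⟨b, a, d, h⟩ := h n
      have h0 : Subsingleton (T.C (aff k (MvPolynomial σ k)) i n) := space_vanish hT n i (by omega)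
      by_cases hne : i + 1 = 2 * (Fintype.card σ : ℤ) ∧ n = Fintype.card σ
      · have h1 : Function.Injective (b (i + 1)) := by
          have hr : Module.rank ℚ (T.C U (i + 1) n) ≤ 1 := by
            rw [hne.1, hne.2]
            exact hU.2
          apply inj_of_rank hr
          intro hb
          have h3 := hc n hne.2
          rw [show 2 * n = i + 1 by rw [hne.1, hne.2]] at h3
          have h4 : ∀ x : T.C (aff k (MvPolynomial σ k)) (i + 1) n, x = 0 := by
            intro x
            obtain ⟨z, rfl⟩ := ((h (i + 1)).1 x).mp (Subsingleton.elim _ _)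
            rw [hb]
            rfl
          have h5 : Subsingleton (T.C (aff k (MvPolynomial σ k)) (i + 1) n) :=
            ⟨fun x y => by rw [h4 x, h4 y]⟩
          have h6 := space_rank hT (σ := σ)
          rw [← hne.1, ← hne.2, rank_subsingleton'] at h6
          exact zero_ne_one h6
        refine ⟨fun x y => ?_⟩
        have h4 : ∀ x : T.C Z i n, x = 0 := by
          intro x
          have h5 : b (i + 1) (d i x) = 0 := ((h i).2.2 _).mpr ⟨x, rfl⟩
          have h6 : d i x = 0 := h1 (by rw [h5, map_zero])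
          obtain ⟨z, rfl⟩ := ((h i).2.1 x).mp h6
          rw [Subsingleton.elim z 0, map_zero]
        rw [h4 x, h4 y]
      · exact sub_mid (h i).2.1 h0 (hU.1 n (i + 1) (by omega) hne)

lemma dim_lt {σ : Type} [Fintype σ] (I : Ideal (MvPolynomial σ k)) {g : MvPolynomial σ k}
    (hg : g ∈ I) (h0 : g ≠ 0) :
    ringKrullDim (MvPolynomial σ k ⧸ I) < (Fintype.card σ : ℕ) := by
  have h1 : ringKrullDim (MvPolynomial σ k) = (Fintype.card σ : ℕ) := by
    rw [MvPolynomial.ringKrullDim_of_isNoetherianRing, ringKrullDim_eq_zero_of_field, zero_add,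
      Nat.card_eq_fintype_card]
  have h2 := ringKrullDim_quotient_succ_le_of_nonZeroDivisor (mem_nonZeroDivisors_of_ne_zero h0)
  have h3 : ringKrullDim (MvPolynomial σ k ⧸ I) ≤
      ringKrullDim (MvPolynomial σ k ⧸ Ideal.span {g}) :=
    ringKrullDim_le_of_surjective (Ideal.Quotient.factor
      ((Ideal.span_singleton_le_iff_mem I).mpr hg)) (Ideal.Quotient.factor_surjective _)
  rw [h1] at h2
  refine lt_of_le_of_lt h3 ?_
  revert h2
  generalize ringKrullDim (MvPolynomial σ k ⧸ Ideal.span {g}) = x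
  intro h2
  induction x with
  | bot => exact WithBot.bot_lt_coe _
  | coe x =>
    have h4 : x + 1 ≤ (Fintype.card σ : ℕ∞) := by exact_mod_cast h2
    have h5 : x ≠ ⊤ := by
      rintro rfl
      rw [top_add] at h4
      exact ENat.natCast_ne_top _ (top_le_iff.mp h4)
    have h6 : x < (Fintype.card σ : ℕ∞) := (ENat.add_one_le_iff h5).mp h4
    exact_mod_cast h6

/-- The zero set of `f` and Jouanolou's affine bundle over its complement. -/
theorem par_jou (hT : IsCompact T) {σ : Type} [Fintype σ] {m : ℕ} (f : Fin m → MvPolynomial σ k) :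
    Par T (aff k (MvPolynomial σ k ⧸ Ideal.span (Set.range f))) ↔
      LikeSpace T (aff k (Jou f)) (Fintype.card σ + (m - 1)) := by
  have ht : IsTriple (affMap (R := k) (Ideal.Quotient.mkₐ k (Ideal.span (Set.range f))))
      (opnMap (aff k (MvPolynomial σ k)) (neOpen k f)) := by
    refine ⟨closed_affMap _ (Ideal.Quotient.mkₐ_surjective k _), inferInstance, ?_⟩
    rw [range_affMap _ (Ideal.Quotient.mkₐ_surjective k _), range_opnMap]
    ext x
    change (∀ a, Ideal.Quotient.mk (Ideal.span (Set.range f)) a = 0 → a ∈ x.asIdeal) ↔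
      ¬ ∃ l, f l ∉ x.asIdeal
    push Not
    constructor
    · intro h l
      exact h (f l) (Ideal.Quotient.eq_zero_iff_mem.mpr (Ideal.subset_span ⟨l, rfl⟩))
    · intro h a ha
      rw [Ideal.Quotient.eq_zero_iff_mem] at ha
      refine (Ideal.span_le.mpr ?_ : Ideal.span (Set.range f) ≤ x.asIdeal) ha
      rintro _ ⟨l, rfl⟩
      exact h l
  have hb := hT.bundle (MvPolynomial σ k) m f (opn (aff k (MvPolynomial σ k)) (neOpen k f))
    (opnMap (aff k (MvPolynomial σ k)) (neOpen k f)) inferInstance (range_opnMap _ _)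
  rw [par_complement hT (hT.localization _ _ (ft_aff True) ht)]
  · exact ⟨likeSpace_of_equiv hb, likeSpace_of_equiv' hb⟩
  · by_cases h0 : ∀ l, f l = 0
    · left
      have h1 : Ideal.span (Set.range f) = ⊥ := by
        rw [Ideal.span_eq_bot]
        rintro _ ⟨l, rfl⟩
        exact h0 l
      rw [h1]
      exact clo_alg (clo_par hT) (AlgEquiv.quotientBot k (MvPolynomial σ k)).symm (par_space hT)
    · right
      push Not at h0
      obtain ⟨l, hl⟩ := h0
      intro n hn
      refine hT.above _ (ft_aff True) (Fintype.card σ) (2 * n) n ?_ (by omega)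
      rw [topDim_aff]
      exact dim_lt _ (Ideal.subset_span ⟨l, rfl⟩) hl

/-- The systems of bilinear equations and the hypersurfaces of trilinear forms. -/
theorem par_hyp (hT : IsCompact T) {a b c : ℕ} (t : Fin a → Fin b → Fin c → k) :
    Par T (bilS t) ↔ LikeSpace T (hypS t) ((a : ℤ) + b + c - 1) := by
  let t' : Fin c → Fin a → Fin b → k := fun l i j => t i j l
  have h : bform t = bl t' := funext fun l => bform_eq t l
  have h3 : Par T (bilS t) ↔ LikeSpace T (aff k (Jou (bl t'))) ((a : ℤ) + b + c - 1) := by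
    unfold bilS
    rw [h, par_jou hT (bl t')]
    have h5 : (Fintype.card (Fin a ⊕ Fin b) : ℤ) + (c - 1) = (a : ℤ) + b + c - 1 := by
      rw [Fintype.card_sum, Fintype.card_fin, Fintype.card_fin]
      push_cast
      ring
    rw [h5]
  have h4 : Algebra.FiniteType k (Jou (bl t')) :=
    Algebra.FiniteType.trans (S := MvPolynomial (Fin a ⊕ Fin b) k) inferInstance inferInstance
  have e1 : Hyp t' ≃ₐ[k] Hyp fun i l j => t' l i j := swapL t'
  have e2 : (Hyp fun i l j => t' l i j) ≃ₐ[k] Hyp t := swapR fun i l j => t' l i j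
  have e3 : Hyp t' ≃ₐ[k] Jou (bl t') := hypEquiv t'
  rw [h3]
  exact ⟨likeSpace_iso hT (e3.symm.trans (e1.trans e2)),
    likeSpace_iso hT ((e3.symm.trans (e1.trans e2)).symm)⟩

end

end Pool.Agent.N882.UE
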