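import Pool.Agent.N882.UE.ShortFrac
import Pool.Agent.Y116.UV.Cone

/-!
# Presentations by quadratic polynomials with at most three terms and coefficients one
-/

set_option autoImplicit false

open MvPolynomial Pool.Agent.Y116.UV Pool.Agent.Q282.UZ

namespace Pool.Agent.N882.UE

/-- `g` is a sum of at most three different monomials of degree at most two, with coefficients `1`. -/
def IsQuad {R : Type} [CommRing R] {V : Type} (g : MvPolynomial V R) : Prop :=
  ∃ F : Finset (V →₀ ℕ), F.card ≤ 3 ∧ (∀ m ∈ F, m.degree ≤ 2) ∧ g = ∑ m ∈ F, monomial m 1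

section

variable {R : Type} [CommRing R]

lemma quad_zero {V : Type} : IsQuad (0 : MvPolynomial V R) := ⟨∅, by simp, by simp, by simp⟩

lemma quad_pair {V : Type} {a b : V →₀ ℕ} (h : a ≠ b) (ha : a.degree ≤ 2) (hb : b.degree ≤ 2) :
    IsQuad (monomial a 1 + monomial b 1 : MvPolynomial V R) := by
  classical
  refine ⟨{a, b}, Finset.card_le_two.trans (by norm_num), ?_, by rw [Finset.sum_pair h]⟩
  intro m hm
  rcases Finset.mem_insert.mp hm with rfl | hm
  · exact ha
  · rwa [Finset.mem_singleton.mp hm]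

lemma quad_rename {V W : Type} (e : V ≃ W) {g : MvPolynomial V R} (h : IsQuad g) :
    IsQuad (rename e g) := by
  classical
  obtain ⟨F, h1, h2, rfl⟩ := h
  refine ⟨F.image (Finsupp.mapDomain e), Finset.card_image_le.trans h1, ?_, ?_⟩
  · intro m hm
    obtain ⟨m', hm', rfl⟩ := Finset.mem_image.mp hm
    refine le_trans (le_of_eq ?_) (h2 m' hm')
    rw [Finsupp.degree_mapDomain]
  · rw [map_sum, Finset.sum_image fun x _ y _ h => Finsupp.mapDomain_injective e.injective h]
    exact Finset.sum_congr rfl fun x _ => rename_monomial _ _ _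

/-- Presentations by quadratic polynomials with at most three terms. -/
def QuadPresents (R : Type) [CommRing R] : Prop :=
  ∀ (A : Type) [CommRing A] [Algebra R A] [Algebra.FiniteType R A],
    ∃ (n : ℕ) (φ : MvPolynomial (Fin n) R →ₐ[R] A) (m : ℕ) (f : Fin m → MvPolynomial (Fin n) R),
      Function.Surjective φ ∧ RingHom.ker φ = Ideal.span (Set.range f) ∧
      (∀ l, IsQuad (f l)) ∧ ∃ l, ∃ v, f l = X v + 1

lemma quad_fin {A : Type} [CommRing A] [Algebra R A] {V κ : Type} [Fintype V] [Fintype κ]
    (φ : MvPolynomial V R →ₐ[R] A) (f : κ → MvPolynomial V R) (hφ : Function.Surjective φ)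
    (hK : RingHom.ker φ = Ideal.span (Set.range f)) (hq : ∀ l, IsQuad (f l)) {l : κ} {v : V}
    (hl : f l = X v + 1) :
    ∃ (n : ℕ) (φ : MvPolynomial (Fin n) R →ₐ[R] A) (m : ℕ) (f : Fin m → MvPolynomial (Fin n) R),
      Function.Surjective φ ∧ RingHom.ker φ = Ideal.span (Set.range f) ∧
      (∀ l, IsQuad (f l)) ∧ ∃ l, ∃ v, f l = X v + 1 := by
  let e := Fintype.equivFin V
  let d := Fintype.equivFin κ
  let E : MvPolynomial V R ≃ₐ[R] MvPolynomial (Fin (Fintype.card V)) R := renameEquiv R e
  refine ⟨_, φ.comp (E.symm : _ →ₐ[R] _), _, fun l => rename e (f (d.symm l)), ?_, ?_, ?_, ?_⟩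
  · intro a
    obtain ⟨p, rfl⟩ := hφ a
    refine ⟨E p, ?_⟩
    change φ (E.symm (E p)) = φ p
    rw [E.symm_apply_apply]
  · let E1 : MvPolynomial V R →+* MvPolynomial (Fin (Fintype.card V)) R :=
      (rename e : MvPolynomial V R →ₐ[R] _).toRingHom
    have h1 : (Set.range fun l => rename e (f (d.symm l))) = E1 '' Set.range f := by
      rw [← Set.range_comp]
      exact d.symm.surjective.range_comp (fun l => rename e (f l))
    rw [h1, ← Ideal.map_span, ← hK]
    ext p
    constructor
    · intro hp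
      have h2 : E.symm p ∈ RingHom.ker φ := hp
      have h3 := Ideal.mem_map_of_mem E1 h2
      have h4 : E1 (E.symm p) = p := E.apply_symm_apply p
      rwa [h4] at h3
    · intro hp
      obtain ⟨q, hq, rfl⟩ := (Ideal.mem_map_iff_of_surjective E1
        (fun p => ⟨E.symm p, E.apply_symm_apply p⟩)).mp hp
      change φ (E.symm (E q)) = 0
      rw [E.symm_apply_apply]
      exact hq
  · exact fun l => quad_rename e (hq _)
  · refine ⟨d l, e v, ?_⟩
    change rename e (f (d.symm (d l))) = _
    rw [d.symm_apply_apply, hl, map_add, rename_X, map_one]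

end

section

variable {R : Type} [CommRing R] {n D : ℕ} (hD : 1 ≤ D) {G : Finset (MvPolynomial (Fin n) R)}
  (F : G → Finset (Fin n →₀ ℕ))

open Classical in
/-- the relations -/
noncomputable def qrel : Unit ⊕ Unit ⊕ (Mon n D × Fin n) ⊕ G → MvPolynomial (Option (Mon n D)) R
  | Sum.inl _ => X none + 1
  | Sum.inr (Sum.inl _) => X (some (mo n D)) + X none
  | Sum.inr (Sum.inr (Sum.inl p)) => if h : (p.1.1 + Finsupp.single p.2 1).degree ≤ D then
      X (some p.1) * X (some (me hD p.2)) + X none * X (some ⟨_, h⟩) else 0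
  | Sum.inr (Sum.inr (Sum.inr g)) =>
      ∑ m ∈ Finset.univ.filter (fun m : Mon n D => m.1 ∈ F g), X (some m)

lemma quad_qrel (hF : ∀ g, (F g).card ≤ 3) (l : Unit ⊕ Unit ⊕ (Mon n D × Fin n) ⊕ G) :
    IsQuad (qrel hD F l) := by
  classical
  rcases l with _ | _ | p | g
  · have h1 : (X none + 1 : MvPolynomial (Option (Mon n D)) R) =
        monomial (Finsupp.single none 1) 1 + monomial 0 1 := rfl
    change IsQuad (X none + 1 : MvPolynomial (Option (Mon n D)) R)
    rw [h1]
    exact quad_pair (by simp) (by rw [Finsupp.degree_single]; omega) (by simp)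
  · have h1 : (X (some (mo n D)) + X none : MvPolynomial (Option (Mon n D)) R) =
        monomial (Finsupp.single (some (mo n D)) 1) 1 + monomial (Finsupp.single none 1) 1 := rfl
    change IsQuad (X (some (mo n D)) + X none : MvPolynomial (Option (Mon n D)) R)
    rw [h1]
    refine quad_pair ?_ (by rw [Finsupp.degree_single]; omega)
      (by rw [Finsupp.degree_single]; omega)
    intro h
    have := DFunLike.congr_fun h none
    rw [Finsupp.single_eq_same, Finsupp.single_eq_of_ne (by simp)] at this
    omega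
  · change IsQuad (if h : (p.1.1 + Finsupp.single p.2 1).degree ≤ D then
      X (some p.1) * X (some (me hD p.2)) + X none * X (some ⟨_, h⟩) else 0 :
        MvPolynomial (Option (Mon n D)) R)
    split_ifs with h
    · have h1 : (X (some p.1) * X (some (me hD p.2)) + X none * X (some ⟨_, h⟩) :
          MvPolynomial (Option (Mon n D)) R) =
          monomial (Finsupp.single (some p.1) 1 + Finsupp.single (some (me hD p.2)) 1) 1 +
          monomial (Finsupp.single none 1 +
            Finsupp.single (some ⟨p.1.1 + Finsupp.single p.2 1, h⟩) 1) 1 := by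
        rw [X, X, X, X, monomial_mul, monomial_mul, one_mul]
      rw [h1]
      refine quad_pair ?_ (by rw [map_add, Finsupp.degree_single, Finsupp.degree_single])
        (by rw [map_add, Finsupp.degree_single, Finsupp.degree_single])
      intro h2
      have := DFunLike.congr_fun h2 none
      rw [Finsupp.add_apply, Finsupp.add_apply, Finsupp.single_eq_same,
        Finsupp.single_eq_of_ne (by simp), Finsupp.single_eq_of_ne (by simp)] at this
      omega
    · exact quad_zero
  · change IsQuad (∑ m ∈ Finset.univ.filter (fun m : Mon n D => m.1 ∈ F g), X (some m) :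
      MvPolynomial (Option (Mon n D)) R)
    refine ⟨(Finset.univ.filter (fun m : Mon n D => m.1 ∈ F g)).image
      fun m => Finsupp.single (some m) 1, ?_, ?_, ?_⟩
    · refine Finset.card_image_le.trans (le_trans ?_ (hF g))
      exact Finset.card_le_card_of_injOn (fun m => m.1)
        (fun m hm => (Finset.mem_filter.mp hm).2) fun m _ m' _ h => Subtype.ext h
    · intro m hm
      obtain ⟨m', _, rfl⟩ := Finset.mem_image.mp hm
      rw [Finsupp.degree_single]
      omega
    · rw [Finset.sum_image]
      · rfl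
      · intro x _ y _ h
        have := (Finsupp.single_left_injective (one_ne_zero (α := ℕ))) h
        exact Option.some_injective _ this

/-- the values of the variables -/
noncomputable def qψ : MvPolynomial (Option (Mon n D)) R →ₐ[R] MvPolynomial (Fin n) R :=
  aeval fun o => o.elim (-1) fun m => monomial m.1 1

lemma qψ_none : qψ (R := R) (n := n) (D := D) (X none) = -1 := by
  rw [qψ, aeval_X]
  rfl

lemma qψ_some (m : Mon n D) : qψ (R := R) (X (some m)) = monomial m.1 1 := by
  rw [qψ, aeval_X]
  rfl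

include hD in
lemma qψ_surj : Function.Surjective (qψ (R := R) (n := n) (D := D)) := by
  intro p
  refine ⟨aeval (fun i => X (some (me hD i))) p, ?_⟩
  have h : (qψ (R := R) (n := n) (D := D)).comp (aeval fun i => X (some (me hD i))) =
      AlgHom.id R _ := by
    apply MvPolynomial.algHom_ext
    intro i
    rw [AlgHom.comp_apply, aeval_X, qψ_some]
    rfl
  exact DFunLike.congr_fun h p

/-- the ideal of the relations -/
noncomputable abbrev qJ : Ideal (MvPolynomial (Option (Mon n D)) R) :=
  Ideal.span (Set.range (qrel hD F))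

lemma mk_rel (l) : Ideal.Quotient.mkₐ R (qJ hD F) (qrel hD F l) = 0 :=
  Ideal.Quotient.eq_zero_iff_mem.mpr (Ideal.subset_span ⟨l, rfl⟩)

lemma mk_none : Ideal.Quotient.mkₐ R (qJ hD F) (X none) = -1 := by
  have h := mk_rel hD F (Sum.inl ())
  change Ideal.Quotient.mkₐ R (qJ hD F) (X none + 1) = 0 at h
  rw [map_add, map_one] at h
  exact eq_neg_of_add_eq_zero_left h

lemma mk_mo : Ideal.Quotient.mkₐ R (qJ hD F) (X (some (mo n D))) = 1 := by
  have h := mk_rel hD F (Sum.inr (Sum.inl ()))
  change Ideal.Quotient.mkₐ R (qJ hD F) (X (some (mo n D)) + X none) = 0 at h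
  rw [map_add, mk_none] at h
  exact eq_of_sub_eq_zero (by rw [sub_eq_add_neg]; exact h)

lemma mk_mul (m : Mon n D) (i : Fin n) (h : (m.1 + Finsupp.single i 1).degree ≤ D) :
    Ideal.Quotient.mkₐ R (qJ hD F) (X (some ⟨_, h⟩)) =
      Ideal.Quotient.mkₐ R (qJ hD F) (X (some m)) *
        Ideal.Quotient.mkₐ R (qJ hD F) (X (some (me hD i))) := by
  have h1 := mk_rel hD F (Sum.inr (Sum.inr (Sum.inl (m, i))))
  have h2 : qrel hD F (Sum.inr (Sum.inr (Sum.inl (m, i)))) =
      X (some m) * X (some (me hD i)) + X none * X (some ⟨_, h⟩) := dif_pos h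
  rw [h2, map_add, map_mul, map_mul, mk_none] at h1
  linear_combination -h1

/-- the inverse homomorphism -/
noncomputable def qθ : MvPolynomial (Fin n) R →ₐ[R]
    MvPolynomial (Option (Mon n D)) R ⧸ qJ hD F :=
  aeval fun i => Ideal.Quotient.mkₐ R (qJ hD F) (X (some (me hD i)))

lemma qθ_monomial (d : ℕ) : ∀ m : Mon n D, m.1.degree = d →
    qθ hD F (monomial m.1 1) = Ideal.Quotient.mkₐ R (qJ hD F) (X (some m)) := by
  classical
  induction d with
  | zero =>
    intro m hm
    have h1 : m = mo n D := Subtype.ext ((Finsupp.degree_eq_zero_iff _).mp hm)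
    subst h1
    rw [mk_mo]
    exact map_one _
  | succ d ih =>
    intro m hm
    obtain ⟨i, hi⟩ : ∃ i, m.1 i ≠ 0 := by
      by_contra hc
      push Not at hc
      have : m.1 = 0 := Finsupp.ext hc
      rw [this, map_zero] at hm
      omega
    obtain ⟨m', hm'⟩ : ∃ m' : Fin n →₀ ℕ, m.1 = m' + Finsupp.single i 1 := by
      refine ⟨m.1 - Finsupp.single i 1, ?_⟩
      ext j
      rw [Finsupp.add_apply, Finsupp.tsub_apply]
      by_cases hj : j = i
      · subst hj
        rw [Finsupp.single_eq_same]
        omega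
      · rw [Finsupp.single_eq_of_ne hj]
        omega
    have hd : m'.degree = d := by
      have := hm
      rw [hm', map_add, Finsupp.degree_single] at this
      omega
    have hle : m'.degree ≤ D := by
      have h3 := m.2
      rw [hm', map_add, Finsupp.degree_single] at h3
      omega
    have hle' : (m' + Finsupp.single i 1).degree ≤ D := by
      rw [← hm']
      exact m.2
    have h4 : m = ⟨m' + Finsupp.single i 1, hle'⟩ := Subtype.ext hm'
    rw [h4]
    have h5 := mk_mul hD F ⟨m', hle⟩ i hle'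
    rw [h5, ← ih ⟨m', hle⟩ hd]
    have h6 : (monomial (m' + Finsupp.single i 1) 1 : MvPolynomial (Fin n) R) =
        monomial m' 1 * X i := by
      rw [X, monomial_mul, one_mul]
    change qθ hD F (monomial (m' + Finsupp.single i 1) 1) = _
    rw [h6, map_mul]
    congr 1
    rw [qθ, aeval_X]

lemma qθ_qψ : (qθ hD F).comp (qψ (R := R) (n := n) (D := D)) =
    Ideal.Quotient.mkₐ R (qJ hD F) := by
  apply MvPolynomial.algHom_ext
  intro o
  rw [AlgHom.comp_apply]
  match o with
  | none => rw [qψ_none, map_neg, map_one, mk_none]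
  | some m => rw [qψ_some, qθ_monomial hD F _ m rfl]

lemma qψ_r1 : qψ (R := R) (n := n) (D := D) (X none + 1) = 0 := by
  rw [map_add, qψ_none, map_one, neg_add_cancel]

lemma qψ_r2 : qψ (R := R) (n := n) (D := D) (X (some (mo n D)) + X none) = 0 := by
  rw [map_add, qψ_none, qψ_some]
  have : (monomial (mo n D).1 1 : MvPolynomial (Fin n) R) = 1 := rfl
  rw [this, add_neg_cancel]

lemma qψ_r3 (m : Mon n D) (i : Fin n) (h : (m.1 + Finsupp.single i 1).degree ≤ D) :
    qψ (R := R) (n := n) (D := D) (X (some m) * X (some (me hD i)) + X none * X (some ⟨_, h⟩)) =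
      0 := by
  rw [map_add, map_mul, map_mul, qψ_none, qψ_some, qψ_some, qψ_some]
  have : (monomial m.1 1 * monomial (me hD i).1 1 : MvPolynomial (Fin n) R) =
      monomial (m.1 + Finsupp.single i 1) 1 := by
    rw [monomial_mul, one_mul]
    rfl
  rw [this, neg_one_mul, add_neg_cancel]

theorem qker {A : Type} [CommRing A] [Algebra R A] (φ : MvPolynomial (Fin n) R →ₐ[R] A)
    (hK : RingHom.ker φ = Ideal.span (G : Set (MvPolynomial (Fin n) R)))
    (hF : ∀ g : G, g.1 = ∑ m ∈ F g, monomial m 1) (hd : ∀ g, ∀ m ∈ F g, m.degree ≤ D) :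
    RingHom.ker (φ.comp (qψ (R := R) (n := n) (D := D))) = qJ hD F := by
  classical
  have hsum : ∀ (B : Type) [CommRing B] (χ : (Fin n →₀ ℕ) → B) (g : G),
      ∑ m ∈ Finset.univ.filter (fun m : Mon n D => m.1 ∈ F g), χ m.1 = ∑ m ∈ F g, χ m := by
    intro B _ χ g
    refine Finset.sum_bij (fun m _ => m.1) ?_ ?_ ?_ ?_
    · exact fun m hm => (Finset.mem_filter.mp hm).2
    · exact fun m _ m' _ h => Subtype.ext h
    · exact fun m hm => ⟨⟨m, hd g m hm⟩, Finset.mem_filter.mpr ⟨Finset.mem_univ _, hm⟩, rfl⟩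
    · exact fun m _ => rfl
  apply le_antisymm
  · intro q hq
    have h1 : qψ q ∈ RingHom.ker φ := hq
    rw [hK] at h1
    have h2 : Ideal.span (G : Set (MvPolynomial (Fin n) R)) ≤ RingHom.ker (qθ hD F) := by
      rw [Ideal.span_le]
      intro g hg
      change qθ hD F g = 0
      have h3 := hF ⟨g, hg⟩
      have h3' : g = ∑ m ∈ F ⟨g, hg⟩, monomial m 1 := h3
      rw [h3', map_sum, ← hsum]
      have h4 : ∀ m ∈ Finset.univ.filter (fun m : Mon n D => m.1 ∈ F ⟨g, hg⟩),
          qθ hD F (monomial m.1 1) = Ideal.Quotient.mkₐ R (qJ hD F) (X (some m)) :=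
        fun m _ => qθ_monomial hD F _ m rfl
      rw [Finset.sum_congr rfl h4, ← map_sum]
      exact mk_rel hD F (Sum.inr (Sum.inr (Sum.inr ⟨g, hg⟩)))
    have h5 : qθ hD F (qψ q) = 0 := h2 h1
    have h6 : Ideal.Quotient.mkₐ R (qJ hD F) q = 0 := by
      rw [← qθ_qψ]
      exact h5
    exact Ideal.Quotient.eq_zero_iff_mem.mp h6
  · rw [Ideal.span_le]
    rintro _ ⟨l, rfl⟩
    change φ (qψ (qrel hD F l)) = 0
    have hz : ∀ q : MvPolynomial (Fin n) R, q = 0 → φ q = 0 := fun q hq => by rw [hq, map_zero]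
    rcases l with _ | _ | p | g
    · exact hz _ qψ_r1
    · exact hz _ qψ_r2
    · by_cases h : (p.1.1 + Finsupp.single p.2 1).degree ≤ D
      · have h2 : qrel hD F (Sum.inr (Sum.inr (Sum.inl p))) =
          X (some p.1) * X (some (me hD p.2)) + X none * X (some ⟨_, h⟩) := dif_pos h
        rw [h2]
        exact hz _ (qψ_r3 hD p.1 p.2 h)
      · have h2 : qrel hD F (Sum.inr (Sum.inr (Sum.inl p))) = 0 := dif_neg h
        rw [h2, map_zero, map_zero]
    · change φ (qψ (∑ m ∈ Finset.univ.filter (fun m : Mon n D => m.1 ∈ F g), X (some m))) = 0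
      rw [map_sum]
      simp only [qψ_some]
      rw [hsum _ (fun m => (monomial m 1 : MvPolynomial (Fin n) R)) g, ← hF g]
      have : g.1 ∈ RingHom.ker φ := by
        rw [hK]
        exact Ideal.subset_span g.2
      exact this

end

theorem quad_presents {R : Type} [CommRing R] (hR : ShortPresents R) : QuadPresents R := by
  classical
  intro A _ _ _
  obtain ⟨n, φ, G, hs, hK, hc⟩ := hR A
  choose F hF hg using fun g : G => hc g.1 g.2
  let D : ℕ := 1 + ∑ g : G, ∑ m ∈ F g, m.degree
  have hD : 1 ≤ D := by omega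
  have hd : ∀ g, ∀ m ∈ F g, m.degree ≤ D := by
    intro g m hm
    have h1 : m.degree ≤ ∑ m ∈ F g, m.degree :=
      Finset.single_le_sum (f := fun m : Fin n →₀ ℕ => m.degree) (fun _ _ => Nat.zero_le _) hm
    have h2 : ∑ m ∈ F g, m.degree ≤ ∑ g : G, ∑ m ∈ F g, m.degree :=
      Finset.single_le_sum (f := fun g : G => ∑ m ∈ F g, m.degree)
        (fun _ _ => Nat.zero_le _) (Finset.mem_univ g)
    omega
  have hK' := qker (D := D) hD F φ hK (fun g => hg g) hd
  exact quad_fin (φ.comp qψ) (qrel hD F) (hs.comp (qψ_surj hD)) hK' (quad_qrel hD F hF)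
    (l := Sum.inl ()) (v := none) rfl

end Pool.Agent.N882.UE
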