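import Mathlib

/-!
# Finitely generated fields as residue fields of the affine line over a rational function field

`rat F n` is the field of rational functions in `n` variables. Every finitely generated field of
transcendence degree `n` over a perfect field is the residue field of a closed point of the affine line
over a purely transcendental extension of degree `n`, and the field of rational functions in one
variable over a purely transcendental extension of degree `n` is purely transcendental of degree
`n + 1`.
-/

set_option autoImplicit false

open Polynomial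

namespace Pool.Agent.N882.UE

/-- the field of rational functions in `n` variables -/
abbrev rat (F : Type) [Field F] (n : ℕ) : Type := FractionRing (MvPolynomial (Fin n) F)

/-- purely transcendental of degree `n` -/
def Pure (F L : Type) [Field F] [Field L] [Algebra F L] (n : ℕ) : Prop :=
  ∃ x : Fin n → L, AlgebraicIndependent F x ∧ IntermediateField.adjoin F (Set.range x) = ⊤

section

variable {F L : Type} [Field F] [Field L] [Algebra F L]

theorem pure_iso {n : ℕ} (h : Pure F L n) : Nonempty (rat F n ≃ₐ[F] L) := by
  obtain ⟨x, hx, h1⟩ := h
  exact ⟨hx.aevalEquivField.trans ((IntermediateField.equivOfEq h1).trans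
    IntermediateField.topEquiv)⟩

theorem pure_of_equiv {ι : Type} [Fintype ι] {x : ι → L} (hx : AlgebraicIndependent F x)
    (h : IntermediateField.adjoin F (Set.range x) = ⊤) {n : ℕ} (hn : Fintype.card ι = n) :
    Pure F L n := by
  subst hn
  refine ⟨x ∘ (Fintype.equivFin ι).symm, hx.comp _ (Fintype.equivFin ι).symm.injective, ?_⟩
  rwa [(Fintype.equivFin ι).symm.surjective.range_comp]

theorem pure_map {L' : Type} [Field L'] [Algebra F L'] (e : L ≃ₐ[F] L') {n : ℕ} (h : Pure F L n) :
    Pure F L' n := by
  obtain ⟨x, hx, h1⟩ := h
  refine ⟨e ∘ x, ?_, ?_⟩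
  · exact hx.map' (f := e.toAlgHom) e.injective
  · rw [Set.range_comp]
    have h2 := IntermediateField.adjoin_map F (Set.range x) e.toAlgHom
    have h3 : e.toAlgHom '' Set.range x = e '' Set.range x := rfl
    rw [h3, h1] at h2
    rw [← h2, ← AlgHom.fieldRange_eq_map]
    exact AlgHom.fieldRange_eq_top.mpr e.surjective

theorem pure_rat (F : Type) [Field F] (n : ℕ) : Pure F (rat F n) n := by
  have h0 : AlgebraicIndependent F (fun i : Fin n => algebraMap (MvPolynomial (Fin n) F) (rat F n)
      (MvPolynomial.X i)) :=
    (MvPolynomial.algebraicIndependent_X (Fin n) F).map' (f := IsScalarTower.toAlgHom F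
      (MvPolynomial (Fin n) F) (rat F n)) (IsFractionRing.injective _ _)
  refine ⟨_, h0, ?_⟩
  rw [eq_top_iff]
  intro z _
  obtain ⟨a, b, hb, rfl⟩ := IsFractionRing.div_surjective (A := MvPolynomial (Fin n) F) z
  have h1 : ∀ a : MvPolynomial (Fin n) F, algebraMap (MvPolynomial (Fin n) F) (rat F n) a ∈
      IntermediateField.adjoin F (Set.range (fun i : Fin n =>
        algebraMap (MvPolynomial (Fin n) F) (rat F n) (MvPolynomial.X i))) := by
    intro a
    induction a using MvPolynomial.induction_on with
    | C r =>
      have : algebraMap (MvPolynomial (Fin n) F) (rat F n) (MvPolynomial.C r) =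
          algebraMap F (rat F n) r := by
        rw [IsScalarTower.algebraMap_apply F (MvPolynomial (Fin n) F) (rat F n)]
        rfl
      rw [this]
      exact IntermediateField.algebraMap_mem _ _
    | add p q hp hq =>
      rw [map_add]
      exact add_mem hp hq
    | mul_X p i hp =>
      rw [map_mul]
      exact mul_mem hp (IntermediateField.subset_adjoin _ _ ⟨i, rfl⟩)
  exact div_mem (h1 a) (h1 b)

/-- the field of rational functions in one variable over a purely transcendental extension -/
theorem pure_ratFunc {n : ℕ} (h : Pure F L n) : Pure F (RatFunc L) (n + 1) := by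
  obtain ⟨x, hx, h1⟩ := h
  have hX : AlgebraicIndependent L (fun _ : Unit => (RatFunc.X : RatFunc L)) := by
    have := (IsTranscendenceBasis.polynomial (ι := Unit) (R := L)).1.map'
      (f := IsScalarTower.toAlgHom L L[X] (RatFunc L)) (IsFractionRing.injective _ _)
    have e : (⇑(IsScalarTower.toAlgHom L L[X] (RatFunc L)) ∘ fun _ : Unit => (X : L[X])) =
        fun _ : Unit => (RatFunc.X : RatFunc L) := funext fun _ => RatFunc.algebraMap_X
    rw [e] at this
    exact this
  have h2 := hx.sumElim_comp hX
  refine pure_of_equiv h2 ?_ (by simp [add_comm])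
  rw [eq_top_iff]
  intro z _
  set A := IntermediateField.adjoin F (Set.range (Sum.elim (fun _ : Unit => (RatFunc.X : RatFunc L))
    (algebraMap L (RatFunc L) ∘ x))) with hA
  have hc : ∀ a : L, algebraMap L (RatFunc L) a ∈ A := by
    intro a
    have ha : a ∈ IntermediateField.adjoin F (Set.range x) := by
      rw [h1]
      trivial
    have h3 : (IntermediateField.adjoin F (Set.range x)) ≤
        A.comap (IsScalarTower.toAlgHom F L (RatFunc L)) := by
      rw [IntermediateField.adjoin_le_iff]
      rintro _ ⟨i, rfl⟩
      exact IntermediateField.subset_adjoin _ _ ⟨Sum.inr i, rfl⟩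
    exact h3 ha
  have hp : ∀ p : L[X], algebraMap L[X] (RatFunc L) p ∈ A := by
    intro p
    induction p using Polynomial.induction_on' with
    | add p q hp hq =>
      rw [map_add]
      exact add_mem hp hq
    | monomial m a =>
      rw [← Polynomial.C_mul_X_pow_eq_monomial, map_mul, map_pow]
      refine mul_mem ?_ (pow_mem ?_ m)
      · exact hc a
      · rw [RatFunc.algebraMap_X]
        exact IntermediateField.subset_adjoin _ _ ⟨Sum.inl (), rfl⟩
  rw [← RatFunc.num_div_denom z]
  exact div_mem (hp _) (hp _)

/-- the closed points of the affine line over `K`: the monic irreducible polynomials -/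
abbrev Pts (K : Type) [Field K] : Type := {f : K[X] // f.Monic ∧ Irreducible f}

/-- A finitely generated field of transcendence degree `n` over a perfect field is the residue field of
a closed point of the affine line over a purely transcendental extension of degree `n`. -/
theorem exists_point [PerfectField F] [Algebra.EssFiniteType F L] {n : ℕ}
    (hn : Algebra.trdeg F L = n) : ∃ K : IntermediateField F L, Pure F K n ∧
      ∃ f : Pts K, Nonempty (AdjoinRoot f.1 ≃ₐ[F] L) := by
  obtain ⟨s, hs, hs2⟩ := exists_isTranscendenceBasis_and_isSeparable_of_perfectField F L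
  have hcard : Fintype.card s = n := by
    have := hs.cardinalMk_eq_trdeg
    rw [hn, Cardinal.mk_fintype] at this
    exact_mod_cast this
  let K : IntermediateField F L := IntermediateField.adjoin F (s : Set L)
  have hK : Pure F K n := by
    have hx : AlgebraicIndependent F (((↑) : s → L) ∘ ((finCongr hcard.symm).trans
        (Fintype.equivFin s).symm)) := hs.1.comp _ (Equiv.injective _)
    have h1 : Set.range (((↑) : s → L) ∘ ((finCongr hcard.symm).trans
        (Fintype.equivFin s).symm)) = (s : Set L) := by
      rw [(Equiv.surjective _).range_comp]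
      simp
    exact pure_map (hx.aevalEquivField.trans (IntermediateField.equivOfEq
      (congrArg (IntermediateField.adjoin F) h1))) (pure_rat F n)
  have : Algebra.IsSeparable K L := hs2
  have : Algebra.EssFiniteType K L := Algebra.EssFiniteType.of_comp F K L
  have : Algebra.IsAlgebraic K L := inferInstance
  have : FiniteDimensional K L := Algebra.finite_of_essFiniteType_of_isAlgebraic
  obtain ⟨a, ha⟩ := Field.exists_primitive_element K L
  have hi : IsIntegral K a := Algebra.IsIntegral.isIntegral a
  refine ⟨K, hK, ⟨minpoly K a, minpoly.monic hi, minpoly.irreducible hi⟩, ⟨?_⟩⟩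
  exact (((IntermediateField.adjoinRootEquivAdjoin K hi).trans
    ((IntermediateField.equivOfEq ha).trans IntermediateField.topEquiv)).restrictScalars F)

end

section

variable {F K : Type} [Field F] [Field K] [Algebra F K] [Algebra.EssFiniteType F K]

theorem ess_point (f : Pts K) : Algebra.EssFiniteType F (AdjoinRoot f.1) := by
  have : Algebra.EssFiniteType K (AdjoinRoot f.1) := by
    have : Algebra.FiniteType K (AdjoinRoot f.1) := inferInstance
    infer_instance
  exact Algebra.EssFiniteType.comp F K (AdjoinRoot f.1)

theorem trdeg_point (f : Pts K) : Algebra.trdeg F (AdjoinRoot f.1) = Algebra.trdeg F K := by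
  have : Fact (Irreducible f.1) := ⟨f.2.2⟩
  have : Module.Finite K (AdjoinRoot f.1) := f.2.1.finite_adjoinRoot
  have h1 := trdeg_add_eq F K (A := AdjoinRoot f.1)
  have h2 : Algebra.IsAlgebraic K (AdjoinRoot f.1) := inferInstance
  have h3 : Algebra.trdeg K (AdjoinRoot f.1) = 0 := trdeg_eq_zero_iff.mpr h2
  rw [← h1, h3, add_zero]

theorem ess_ratFunc : Algebra.EssFiniteType F (RatFunc K) := by
  have : Algebra.EssFiniteType K[X] (RatFunc K) := Algebra.EssFiniteType.of_isLocalization _
    (nonZeroDivisors K[X])
  have : Algebra.EssFiniteType F K[X] := Algebra.EssFiniteType.comp F K K[X]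
  exact Algebra.EssFiniteType.comp F K[X] (RatFunc K)

theorem trdeg_ratFunc : Algebra.trdeg F (RatFunc K) = Algebra.trdeg F K + 1 := by
  have h1 := trdeg_add_eq F K (A := RatFunc K)
  have h2 : Algebra.trdeg K (RatFunc K) = 1 := by
    have h4 : Algebra.IsAlgebraic K[X] (RatFunc K) :=
      IsLocalization.isAlgebraic (RatFunc K) (nonZeroDivisors K[X])
    have := (IsTranscendenceBasis.polynomial (ι := Unit) (R := K)).algebraMap_comp
      (A := RatFunc K)
    have h3 := this.cardinalMk_eq_trdeg
    rw [← h3]
    simp
  rw [← h1, h2]

end

end Pool.Agent.N882.UE
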