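import Pool.Agent.W495.FM.HomFive
import Pool.Agent.Y116.UV.Uni

/-!
# Motivic and `ℓ`-adic homology of schemes over a finite field

Definitions for schemes over a field `k`, as in `Pool.Agent.W495.FM.HomDefs`, and the closure properties
of Jannsen's conjecture `TB` and of the surjectivity of the cycle class maps. The linear algebra is in
`Pool.Agent.W495.FM.HomFive`; the arguments for surjectivity are those of `Pool.Agent.W495.FM.Spread`.
-/

set_option autoImplicit false

open CategoryTheory AlgebraicGeometry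

namespace Pool.Agent.N882.UE

open Pool.Agent.Y116.UV Pool.Agent.W495.FM

noncomputable section

/-- Data of motivic and `ℓ`-adic homology of the schemes over the field `k`: the motivic homology
`M X i j = H_i^M(X, ℚ(j)) = CH_j(X, i - 2 j) ⊗ ℚ`, the `ℓ`-adic homology
`E X i j = H_i(X, ℚ_ℓ(j)) ⊗ Ω` over the algebraic closure, the operation `frob` of the Frobenius on it,
and the regulator `reg`. -/
structure Homology (k Ω : Type) [Field k] [Field Ω] where
  /-- motivic homology -/
  M : Sch k → ℤ → ℤ → Type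
  [mgrp : ∀ X i j, AddCommGroup (M X i j)]
  [mmod : ∀ X i j, Module ℚ (M X i j)]
  /-- `ℓ`-adic homology -/
  E : Sch k → ℤ → ℤ → Type
  [egrp : ∀ X i j, AddCommGroup (E X i j)]
  [emod : ∀ X i j, Module Ω (E X i j)]
  /-- the Frobenius -/
  frob : ∀ X i j, E X i j →ₗ[Ω] E X i j
  /-- the regulator -/
  reg : ∀ X i j, M X i j →+ E X i j

attribute [instance] Homology.mgrp Homology.mmod Homology.egrp Homology.emod

variable {k Ω : Type} [Field k] [Field Ω] (T : Homology k Ω)

/-- Jannsen's generalised conjecture of Tate and Beilinson for `X`: in all degrees and for all twists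
the regulator is, after extension of scalars, an isomorphism of the motivic homology with the space of
the Frobenius invariant elements (these are the linear combinations of the images, and linearly
independent elements have linearly independent images), and the eigenvalue one of the Frobenius is
semisimple. -/
def TB (X : Sch k) : Prop :=
  ∀ i j : ℤ,
    (∀ e, T.frob X i j e = e ↔ e ∈ Submodule.span Ω (Set.range (T.reg X i j))) ∧
    (∀ (r : ℕ) (x : Fin r → T.M X i j), LinearIndependent ℚ x →
      LinearIndependent Ω fun l => T.reg X i j (x l)) ∧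
    ∀ e, T.frob X i j (T.frob X i j e - e) = T.frob X i j e - e → T.frob X i j e = e

/-- For all `j` the cycle class map of `X` for cycles of dimension `j` is surjective onto the Frobenius
invariant elements of `H_(2j)(X, ℚ_ℓ(j))` (with coefficients `Ω`), and the eigenvalue one of the
Frobenius on this space is semisimple. -/
def Onto (X : Sch k) : Prop :=
  ∀ j : ℤ, (∀ e, T.frob X (2 * j) j e = e →
      e ∈ Submodule.span Ω (Set.range (T.reg X (2 * j) j))) ∧
    ∀ e, T.frob X (2 * j) j (T.frob X (2 * j) j e - e) = T.frob X (2 * j) j e - e →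
      T.frob X (2 * j) j e = e

/-- A homomorphism of motivic and `ℓ`-adic homology groups which is compatible with the regulators and
the Frobenius. -/
structure Hom (X : Sch k) (i j : ℤ) (X' : Sch k) (i' j' : ℤ) where
  /-- the map of the motivic groups -/
  f : T.M X i j →+ T.M X' i' j'
  /-- the map of the `ℓ`-adic groups -/
  g : T.E X i j →ₗ[Ω] T.E X' i' j'
  reg : ∀ x, T.reg X' i' j' (f x) = g (T.reg X i j x)
  frob : ∀ x, T.frob X' i' j' (g x) = g (T.frob X i j x)

variable {T} in
/-- Exactness for both homology theories. -/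
def IsExact {X : Sch k} {i j : ℤ} {X' : Sch k} {i' j' : ℤ} {X'' : Sch k} {i'' j'' : ℤ}
    (a : Hom T X i j X' i' j') (b : Hom T X' i' j' X'' i'' j'') : Prop :=
  Function.Exact a.f b.f ∧ Function.Exact a.g b.g

/-- The long exact localisation sequences of motivic and of `ℓ`-adic homology. -/
def Localization (Z X U : Sch k) : Prop :=
  ∀ j : ℤ, ∃ (a : ∀ i, Hom T Z i j X i j) (b : ∀ i, Hom T X i j U i j)
    (d : ∀ i, Hom T U (i + 1) j Z i j),
    ∀ i, IsExact (a i) (b i) ∧ IsExact (b (i + 1)) (d i) ∧ IsExact (d i) (a i)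

/-- The homology groups of `X` are direct factors of those of `Y`, with degree raised by `2 r` and
twist raised by `r`. -/
def IsFactor (X Y : Sch k) (r : ℤ) : Prop :=
  ∀ i j : ℤ, ∃ (s : Hom T X i j Y (i + 2 * r) (j + r)) (t : Hom T Y (i + 2 * r) (j + r) X i j),
    (∀ x, t.f (s.f x) = x) ∧ ∀ x, t.g (s.g x) = x

/-- The standard properties of motivic and `ℓ`-adic homology of the separated schemes of finite type
over the field `k`: finite-dimensional `ℓ`-adic groups; invariance of the images of the regulator;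
isomorphic schemes; localisation sequences for a closed subscheme and its complement; homotopy
invariance for the affine bundles of Jouanolou (the groups of a bundle of relative dimension `m - 1`
are those of the base, twisted `m - 1` times, and conversely); the groups of an affine scheme are direct
factors of those of its product with `𝔾_m`, by the pull-backs under the projection and the unit
section. -/
structure IsTheory : Prop where
  finite : ∀ X i j, FiniteDimensional Ω (T.E X i j)
  frob_reg : ∀ X i j x, T.frob X i j (T.reg X i j x) = T.reg X i j x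
  iso : ∀ {X Y : Sch k}, FT True X → Nonempty (X ≅ Y) → IsFactor T Y X 0
  localization : ∀ {Z X U : Sch k} (i : Z ⟶ X) (j : U ⟶ X), FT True X → IsTriple i j →
    Localization T Z X U
  bundle : ∀ (A : Type) [CommRing A] [Algebra k A] [Algebra.FiniteType k A] (m : ℕ) (f : Fin m → A)
    (U : Sch k) (j : U ⟶ aff k A), IsOpenImmersion j.left →
    Set.range j.left = {x : PrimeSpectrum A | ∃ l, f l ∉ x.asIdeal} →
    IsFactor T (aff k (Jou f)) U (1 - m) ∧ IsFactor T U (aff k (Jou f)) (m - 1)
  torus : ∀ (A : Type) [CommRing A] [Algebra k A] [Algebra.FiniteType k A],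
    IsFactor T (aff k A) (aff k (LaurentPolynomial A)) 1

/-- The motivic homology groups `H_n^M(X, ℚ(j)) = CH_j(X, n - 2 j) ⊗ ℚ` vanish for `n < 2 j`, and the
Frobenius has no eigenvalue one on `H_n(X, ℚ_ℓ(j))` for `n < 2 j` (the weights are at least `2 j - n`,
Deligne). -/
structure HasWeights : Prop where
  motivic : ∀ X n j, n < 2 * j → ∀ x : T.M X n j, x = 0
  weights : ∀ X n j, n < 2 * j → ∀ e : T.E X n j, T.frob X n j e = e → e = 0

variable [CharZero Ω] {T}

/-- The groups of `X` in degree `i`, twist `j`. -/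
def node (hT : IsTheory T) (X : Sch k) (i j : ℤ) : Node Ω :=
  haveI := hT.finite X i j
  { M := T.M X i j
    E := T.E X i j
    φ := T.frob X i j
    ρ := T.reg X i j
    inv := hT.frob_reg X i j }

theorem tb_iff (hT : IsTheory T) (X : Sch k) : TB T X ↔ ∀ i j, (node hT X i j).Good := by
  unfold TB
  refine forall_congr' fun i => forall_congr' fun j => ?_
  rw [(node hT X i j).good_iff]
  exact Iff.rfl

/-- Arrows from homomorphisms. -/
def Hom.arr (hT : IsTheory T) {X X' : Sch k} {i j i' j' : ℤ} (h : Hom T X i j X' i' j') :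
    Arrow (node hT X i j) (node hT X' i' j') where
  f := h.f
  g := h.g
  comm := h.reg
  frob := h.frob

theorem tb_closed (hT : IsTheory T) {Z X U : Sch k} (h : Localization T Z X U)
    (hX : TB T X) (hU : TB T U) : TB T Z := by
  rw [tb_iff hT] at hX hU ⊢
  intro i j
  obtain ⟨a, b, d, h⟩ := h j
  exact five ((b (i + 1)).arr hT) ((d i).arr hT) ((a i).arr hT) ((b i).arr hT)
    (h i).2.1.1 (h i).2.2.1 (h i).1.1 (h i).2.1.2 (h i).2.2.2 (h i).1.2
    (hX (i + 1) j) (hU (i + 1) j) (hX i j) (hU i j)

theorem tb_total (hT : IsTheory T) {Z X U : Sch k} (h : Localization T Z X U)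
    (hZ : TB T Z) (hU : TB T U) : TB T X := by
  rw [tb_iff hT] at hZ hU ⊢
  intro i j
  obtain ⟨i, rfl⟩ : ∃ k, i = k + 1 := ⟨i - 1, by ring⟩
  obtain ⟨a, b, d, h⟩ := h j
  exact five ((d (i + 1)).arr hT) ((a (i + 1)).arr hT) ((b (i + 1)).arr hT) ((d i).arr hT)
    (h (i + 1)).2.2.1 (h (i + 1)).1.1 (h i).2.1.1 (h (i + 1)).2.2.2 (h (i + 1)).1.2
    (h i).2.1.2
    (hU (i + 1 + 1) j) (hZ (i + 1) j) (hU (i + 1) j) (hZ i j)

theorem tb_opened (hT : IsTheory T) {Z X U : Sch k} (h : Localization T Z X U)
    (hZ : TB T Z) (hX : TB T X) : TB T U := by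
  rw [tb_iff hT] at hZ hX ⊢
  intro i j
  obtain ⟨i, rfl⟩ : ∃ k, i = k + 1 := ⟨i - 1, by ring⟩
  obtain ⟨a, b, d, h⟩ := h j
  exact five ((a (i + 1)).arr hT) ((b (i + 1)).arr hT) ((d i).arr hT) ((a i).arr hT)
    (h (i + 1)).1.1 (h i).2.1.1 (h i).2.2.1 (h (i + 1)).1.2 (h i).2.1.2 (h i).2.2.2
    (hZ (i + 1) j) (hX (i + 1) j) (hZ i j) (hX i j)

theorem tb_factor (hT : IsTheory T) {X Y : Sch k} {r : ℤ} (h : IsFactor T X Y r)
    (hY : TB T Y) : TB T X := by
  rw [tb_iff hT] at hY ⊢
  intro i j
  obtain ⟨s, t, h1, h2⟩ := h i j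
  exact good_retract (s.arr hT) (t.arr hT) h1 h2 (hY _ _)

/-- The extension of the regulator is surjective onto the generalised eigenspace. -/
def NOnto (A : Node Ω) : Prop := ∀ e, A.InG e → ∃ t, A.lam t = e

theorem mem_span (A : Node Ω) (e : A.E) :
    e ∈ Submodule.span Ω (Set.range A.ρ) ↔ ∃ t, A.lam t = e := by
  constructor
  · intro he
    induction he using Submodule.span_induction with
    | mem x hx =>
      obtain ⟨y, rfl⟩ := hx
      exact ⟨TensorProduct.tmul ℚ 1 y, by rw [A.lam_tmul, one_smul]⟩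
    | zero => exact ⟨0, map_zero _⟩
    | add x y _ _ hx hy =>
      obtain ⟨t, ht⟩ := hx
      obtain ⟨s, hs⟩ := hy
      exact ⟨t + s, by rw [map_add, ht, hs]⟩
    | smul c x _ hx =>
      obtain ⟨t, ht⟩ := hx
      exact ⟨c • t, by rw [map_smul, ht]⟩
  · rintro ⟨t, rfl⟩
    induction t using TensorProduct.induction_on with
    | zero => rw [map_zero]; exact Submodule.zero_mem _
    | tmul c x =>
      rw [A.lam_tmul]
      exact Submodule.smul_mem _ _ (Submodule.subset_span ⟨x, rfl⟩)
    | add x y hx hy => rw [map_add]; exact Submodule.add_mem _ hx hy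

theorem nonto_iff (A : Node Ω) : NOnto A ↔
    (∀ e, A.φ e = e → e ∈ Submodule.span Ω (Set.range A.ρ)) ∧
    ∀ e, A.φ (A.φ e - e) = A.φ e - e → A.φ e = e := by
  have hφ : ∀ e, (A.φ - 1) e = A.φ e - e := fun e => rfl
  constructor
  · intro h
    refine ⟨fun e he => ?_, fun e he => ?_⟩
    · rw [mem_span]
      refine h e ⟨1, ?_⟩
      rw [pow_one, hφ, he, sub_self]
    · obtain ⟨t, rfl⟩ := h e ⟨2, by
        rw [pow_two, Module.End.mul_apply, hφ, hφ, he, sub_self]⟩
      exact A.φ_lam t
  · rintro ⟨h1, h3⟩ e ⟨k, hk⟩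
    rw [← mem_span]
    apply h1
    induction k generalizing e with
    | zero =>
      have : e = 0 := hk
      rw [this, map_zero]
    | succ k ih =>
      rw [pow_succ, Module.End.mul_apply, hφ] at hk
      exact h3 e (ih _ hk)

/-- Surjectivity: the four lemma. -/
theorem four {A₂ A₃ A₄ A₅ : Node Ω} (a₂ : Arrow A₂ A₃) (a₃ : Arrow A₃ A₄)
    (a₄ : Arrow A₄ A₅) (e₃ : Function.Exact a₃.f a₄.f)
    (e₂' : Function.Exact a₂.g a₃.g) (e₃' : Function.Exact a₃.g a₄.g)
    (h₂ : NOnto A₂) (h₄ : NOnto A₄) (h₅ : A₅.Good) : NOnto A₃ := by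
  have t₃ := a₃.exact_ten a₄ e₃
  intro e he
  obtain ⟨u, hu⟩ := h₄ _ (a₃.inG he)
  have h1 : a₄.ten u = 0 := by
    apply h₅.1
    rw [a₄.lam_ten, hu, map_zero]
    exact (e₃' _).2 ⟨e, rfl⟩
  obtain ⟨t, rfl⟩ := (t₃ u).1 h1
  rw [a₃.lam_ten] at hu
  have h2 : a₃.g (e + -A₃.lam t) = 0 := by
    rw [map_add, map_neg, hu, add_neg_cancel]
  obtain ⟨v, hv, hv'⟩ := a₂.fitting a₃ e₂' _ (he.add (A₃.inG_lam t).neg) h2
  obtain ⟨w, rfl⟩ := h₂ v hv
  refine ⟨t + a₂.ten w, ?_⟩
  rw [map_add, a₂.lam_ten, hv']
  abel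

/-- Nodes without motivic part and without eigenvalue one. -/
theorem good_of_zero (A : Node Ω) (h : ∀ x : A.M, x = 0) (h' : ∀ e, A.φ e = e → e = 0) :
    A.Good := by
  constructor
  · rw [injective_iff_map_eq_zero]
    intro t ht
    clear ht
    induction t using TensorProduct.induction_on with
    | zero => rfl
    | tmul c x => rw [h x, TensorProduct.tmul_zero]
    | add x y hx hy => rw [hx, hy, add_zero]
  · rintro e ⟨k, hk⟩
    refine ⟨0, ?_⟩
    rw [map_zero]
    symm
    induction k generalizing e with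
    | zero => exact hk
    | succ k ih =>
      rw [pow_succ, Module.End.mul_apply] at hk
      have h1 := ih _ hk
      apply h'
      rw [LinearMap.sub_apply, sub_eq_zero] at h1
      exact h1

theorem onto_iff (hT : IsTheory T) (X : Sch k) :
    Onto T X ↔ ∀ j, NOnto (node hT X (2 * j) j) := by
  refine forall_congr' fun j => ?_
  rw [nonto_iff]
  exact Iff.rfl

/-- The groups in degree below `2 i`. -/
theorem good_below (hT : IsTheory T) (hW : HasWeights T) (X : Sch k) {n i : ℤ}
    (h : n < 2 * i) : (node hT X n i).Good :=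
  good_of_zero _ (hW.motivic X n i h) (hW.weights X n i h)

/-- The complement of a closed subscheme: surjectivity. -/
theorem onto_opened (hT : IsTheory T) (hW : HasWeights T) {Z X U : Sch k}
    (h : Localization T Z X U) (hX : Onto T X) : Onto T U := by
  rw [onto_iff hT] at hX ⊢
  intro i
  have hX := hX i
  obtain ⟨n, hn⟩ : ∃ n, 2 * i = n + 1 := ⟨2 * i - 1, by ring⟩
  have hlt : n < 2 * i := by omega
  rw [hn] at hX ⊢
  obtain ⟨a, b, d, h⟩ := h i
  exact four ((b (n + 1)).arr hT) ((d n).arr hT) ((a n).arr hT)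
    (h n).2.2.1 (h n).2.1.2 (h n).2.2.2 hX (good_below hT hW Z hlt).2
    (good_below hT hW X hlt)

/-- The union: surjectivity. -/
theorem onto_total (hT : IsTheory T) (hW : HasWeights T) {Z X U : Sch k}
    (h : Localization T Z X U) (hZ : Onto T Z) (hU : Onto T U) : Onto T X := by
  rw [onto_iff hT] at hZ hU ⊢
  intro i
  have hZ := hZ i
  have hU := hU i
  obtain ⟨n, hn⟩ : ∃ n, 2 * i = n + 1 := ⟨2 * i - 1, by ring⟩
  have hlt : n < 2 * i := by omega
  rw [hn] at hZ hU ⊢
  obtain ⟨a, b, d, h⟩ := h i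
  exact four ((a (n + 1)).arr hT) ((b (n + 1)).arr hT) ((d n).arr hT)
    (h n).2.1.1 (h (n + 1)).1.2 (h n).2.1.2 hZ hU (good_below hT hW Z hlt)

/-- Direct factors: surjectivity. -/
theorem onto_factor (hT : IsTheory T) {X Y : Sch k} {r : ℤ} (h : IsFactor T X Y r)
    (hY : Onto T Y) : Onto T X := by
  rw [onto_iff hT] at hY ⊢
  intro j e he
  obtain ⟨s, t, h1, h2⟩ := h (2 * j) j
  have h4 := hY (j + r)
  have h5 : 2 * (j + r) = 2 * j + 2 * r := by ring
  rw [h5] at h4
  obtain ⟨u, hu⟩ := h4 _ ((s.arr hT).inG he)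
  refine ⟨(t.arr hT).ten u, ?_⟩
  rw [(t.arr hT).lam_ten, hu]
  exact h2 e

end

end Pool.Agent.N882.UE
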