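import Pool.Agent.N882.UE.Opn2
import Pool.Agent.N882.UE.Tb
import Pool.Agent.Q193.LT.Mod

/-!
# Regulators of zero-cycles on arithmetic schemes, formally
-/

set_option autoImplicit false

open CategoryTheory CategoryTheory.Limits AlgebraicGeometry MvPolynomial

namespace Pool.Agent.N882.UE

open Pool.Agent.Y116.UV Pool.Agent.Z125.UN Pool.Agent.Q193.LT Pool.Agent.Q282.UK
  Pool.Agent.Q282.UZ

/-- Data of real vector spaces for the schemes `X` over `ℤ`: `M i X = CH_0(X, i) ⊗ ℝ` (higher Chow groups of
zero-cycles; for regular `X` of dimension `d` this is `H^(2d-i)(X, ℚ(d)) ⊗ ℝ`), `D i X`, the invariants of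
the real conjugation in the Borel–Moore homology `H_i(X(ℂ), ℝ)` (for regular proper flat `X` of dimension
`d` this is `H_𝒟^(2d-1-i)(X_{/ℝ}, ℝ(d))`), the regulators `r i X : M (i + 1) X → D i X`, and the homology
groups `V i X` of the total complex of
`RΓ(X, ℝ^c(0)) → RΓ^BM(X(ℂ), ℝ)⁺ → Hom(RΓ_c(X, ℝ(0)), ℝ)`. -/
structure Regulators where
  /-- the homology of the total complex -/
  V : ℤ → Sch ℤ → ModuleCat.{0} ℝ
  /-- higher Chow groups of zero-cycles -/
  M : ℤ → Sch ℤ → ModuleCat.{0} ℝ
  /-- Deligne homology -/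
  D : ℤ → Sch ℤ → ModuleCat.{0} ℝ
  /-- the regulators -/
  r : ∀ (i : ℤ) (X : Sch ℤ), M (i + 1) X ⟶ D i X

/-- All local rings of `X` are regular. -/
def RegularScheme (X : Sch ℤ) : Prop := ∀ x : X.left, IsRegularLocalRing (X.left.presheaf.stalk x)

/-- `X` is proper over `ℤ`, regular and connected. -/
structure IsModel (X : Sch ℤ) : Prop where
  ft : FT True X
  proper : IsProper X.hom
  regular : RegularScheme X
  connected : ConnectedSpace X.left

/-- The assertion of the problem for `X`: the regulators `r_i`, `i ≥ 1`, are bijective, and there is a short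
exact sequence `0 → M_1 → D_0 → ℝ → 0` with first map `r_0` (`ℝ = CH^0(X)^* ⊗ ℝ` for connected `X`). -/
def Assertion (T : Regulators) (X : Sch ℤ) : Prop :=
  (∀ i : ℤ, 1 ≤ i → Function.Bijective (T.r i X).hom) ∧
    Function.Injective (T.r 0 X).hom ∧
    ∃ f : T.D 0 X →ₗ[ℝ] ℝ, Function.Exact (T.r 0 X).hom f ∧ Function.Surjective f

/-- All groups of the total complex vanish. -/
def Vanish (T : Regulators) (X : Sch ℤ) : Prop := ∀ m, Subsingleton (T.V m X)

/-- The properties of the groups `V m X` of the arithmetic schemes which are used: isomorphic schemes have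
isomorphic groups; the exact sequences `⋯ → V m Z → V m X → V m U → V (m - 1) Z → ⋯` of a closed subscheme
`Z` of `X` with complement `U`; `V m` of an affine scheme `X` is a direct factor of `V (m + 1)` of
`X × 𝔾_m`; transfer for finite flat surjective morphisms of integral schemes; for proper regular connected
flat `X` the groups vanish if and only if the assertion of the problem is true, and for proper regular
connected `X` over a finite field if and only if `CH_0(X, i) ⊗ ℝ = 0` for `i ≥ 1` (Bloch, Kato–Saito: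
`CH_0(X)` is finite in the first case, and `CH_0(X) ⊗ ℝ = ℝ` in the second case). -/
structure IsRegulator (T : Regulators) : Prop where
  iso : ∀ {X Y : Sch ℤ}, FT True X → Nonempty (X ≅ Y) → ∀ m, Nonempty (T.V m X ≅ T.V m Y)
  les : ∀ {Z X U : Sch ℤ} (i : Z ⟶ X) (j : U ⟶ X), FT True X → IsTriple i j →
    ∃ m : LesMaps T.V (Equiv.subRight (1 : ℤ)) Z X U, m.IsExact
  torus : ∀ (B : Type) [CommRing B] [Algebra.FiniteType ℤ B] (m : ℤ),
    ∃ (s : T.V m (aff ℤ B) ⟶ T.V (m + 1) (aff ℤ (LaurentPolynomial B)))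
      (r : T.V (m + 1) (aff ℤ (LaurentPolynomial B)) ⟶ T.V m (aff ℤ B)), s ≫ r = 𝟙 _
  transfer : ∀ {V U : Sch ℤ} (f : V ⟶ U), FT True U → IsFinite f.left → Flat f.left →
    Surjective f.left → IsIntegral V.left → IsIntegral U.left → ∀ m, ∃ (s : T.V m U ⟶ T.V m V)
      (r : T.V m V ⟶ T.V m U) (d : ℕ), 0 < d ∧ ∀ x, r.hom (s.hom x) = (d : ℝ) • x
  flat : ∀ X : Sch ℤ, IsModel X → Flat X.hom → (Vanish T X ↔ Assertion T X)
  finite : ∀ X : Sch ℤ, IsModel X → ¬ Flat X.hom →
    (Vanish T X ↔ ∀ i : ℤ, 1 ≤ i → Subsingleton (T.M i X))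

/-- The zero modules are a Serre class. -/
lemma serre_zero {E : Type} [CommRing E] : IsSerre fun M : ModuleCat.{0} E => Subsingleton M where
  zero X h := ModuleCat.subsingleton_of_isZero h
  mid {X Y Z} f g w h hX hZ := by
    have h1 : Function.Exact f.hom g.hom :=
      (ShortComplex.ShortExact.moduleCat_exact_iff_function_exact _).mp h
    refine ⟨fun x y => ?_⟩
    have h2 : ∀ z : Y, z = 0 := by
      intro z
      obtain ⟨w, rfl⟩ := (h1 z).mp (Subsingleton.elim _ _)
      rw [Subsingleton.elim w 0, map_zero]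
    rw [h2 x, h2 y]

variable {T : Regulators}

theorem isLocal_reg (hT : IsRegulator T) :
    IsLocal True T.V (Equiv.subRight (1 : ℤ)) (Equiv.addRight (1 : ℤ)) where
  iso hX e m := hT.iso hX e m
  les i j hX ht := hT.les i j hX ht
  torus B _ alg _ m := by
    have h1 : alg = Ring.toIntAlgebra B := Subsingleton.elim _ _
    subst h1
    exact hT.torus B m

theorem clo2_vanish (hT : IsRegulator T) : Clo2 True (Vanish T) :=
  { clo_class (isLocal_reg hT) serre_zero with
    closed := fun i j hX ht hX' hU m => by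
      obtain ⟨q, h⟩ := hT.les i j hX ht
      obtain ⟨m, rfl⟩ := (Equiv.subRight (1 : ℤ)).surjective m
      exact serre_exact serre_zero (h.hf m) (hU m) (hX' _) }

theorem alt_vanish (hT : IsRegulator T) : AltClosed (Vanish T) where
  iso := (clo2_vanish hT).iso
  total := (clo2_vanish hT).total
  opened := (clo2_vanish hT).opened
  finite {V U} f hU h1 h2 h3 h4 h5 h m := by
    obtain ⟨s, r, d, hd, hsr⟩ := hT.transfer f hU h1 h2 h3 h4 h5 m
    have hs := h m
    have h6 : ∀ x : T.V m U, x = 0 := by
      intro x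
      have h7 := hsr x
      rw [Subsingleton.elim (s.hom x) 0, map_zero] at h7
      have h8 : (d : ℝ) ≠ 0 := by positivity
      exact (smul_eq_zero.mp h7.symm).resolve_left h8
    exact ⟨fun x y => by rw [h6 x, h6 y]⟩

end Pool.Agent.N882.UE
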