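import Mathlib.RepresentationTheory.Basic
import Mathlib.FieldTheory.IsAlgClosed.Basic
import Mathlib.FieldTheory.Separable
import Mathlib.RingTheory.AlgebraicIndependent.Basic
import Mathlib.Algebra.Field.Subfield.Basic
import Mathlib.LinearAlgebra.TensorProduct.Finiteness
import Mathlib.LinearAlgebra.FiniteDimensional.Basic

/-!
# Representations of the groups of a universal domain

`Ω` is an algebraically closed field. For a subfield `F` let `Gal F` be the group of automorphisms of
`Ω` which are trivial on `F`. A representation of the absolute Galois group of `F` is a representation of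
`Gal F`, via restriction to the separable closure of `F` in `Ω`.
-/

set_option autoImplicit false

open scoped TensorProduct

namespace Pool.Agent.N882.UE.FM

variable {Ω : Type} [Field Ω]

/-- the automorphisms of `Ω` over `F` -/
def Gal (F : Subfield Ω) : Subgroup (Ω ≃+* Ω) where
  carrier := {σ | ∀ x ∈ F, σ x = x}
  mul_mem' := fun {a b} ha hb x hx => by
    change a (b x) = x
    rw [hb x hx, ha x hx]
  one_mem' := fun x _ => rfl
  inv_mem' := fun {a} ha x hx => by
    change a.symm x = x
    rw [RingEquiv.symm_apply_eq, ha x hx]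

/-- the group of automorphisms of `Ω` over `F` -/
def G (F : Subfield Ω) : Type := Gal F

instance instGroupG (F : Subfield Ω) : Group (G F) := Subgroup.toGroup (Gal F)

/-- the inclusion -/
def incl {K F : Subfield Ω} (h : K ≤ F) (g : G F) : G K := ⟨g.1, fun x hx => g.2 x (h hx)⟩

lemma incl_one {K F : Subfield Ω} (h : K ≤ F) : incl h 1 = 1 := rfl

lemma incl_mul {K F : Subfield Ω} (h : K ≤ F) (g g' : G F) :
    incl h (g * g') = incl h g * incl h g' := rfl

/-- the algebraic closure of `K` in `Ω` -/
def acl (K : Subfield Ω) : Set Ω := {x | IsAlgebraic K x}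

/-- `K(S)` -/
def adj (K : Subfield Ω) (S : Set Ω) : Subfield Ω := Subfield.closure ((K : Set Ω) ∪ S)

/-- the field `F K̄`, where `K̄` is the algebraic closure of `K` in `Ω` -/
def geo (K F : Subfield Ω) : Subfield Ω := adj F (acl K)

lemma le_geo (K F : Subfield Ω) : F ≤ geo K F := fun _ hx =>
  Subfield.subset_closure (Or.inl hx)

/-- `K` is a finitely generated field of transcendence degree `r` over the prime field: a finite
separable extension of a rational function field in `r` variables. -/
def FG (r : ℕ) (K : Subfield Ω) : Prop :=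
  (∃ s : Finset Ω, K = Subfield.closure (s : Set Ω)) ∧
    ∃ t : Fin r → Ω, AlgebraicIndependent (⊥ : Subfield Ω) t ∧ (∀ i, t i ∈ K) ∧
      ∀ x ∈ K, IsSeparable (adj ⊥ (Set.range t)) x

/-- `F` is a regular extension of `K` of transcendence degree `n`: the function field of a smooth
geometrically connected scheme of dimension `n` over `K`. -/
def Reg (n : ℕ) (K F : Subfield Ω) : Prop :=
  K ≤ F ∧ (∃ s : Finset Ω, F = adj K (s : Set Ω)) ∧ (∀ x ∈ F, IsAlgebraic K x → x ∈ K) ∧
    ∃ t : Fin n → Ω, AlgebraicIndependent K t ∧ (∀ i, t i ∈ F) ∧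
      ∀ x ∈ F, IsSeparable (adj K (Set.range t)) x

/-- `E` is a finite separable extension of `K` -/
def Fin' (K E : Subfield Ω) : Prop :=
  K ≤ E ∧ (∃ s : Finset Ω, E = adj K (s : Set Ω)) ∧ ∀ x ∈ E, IsSeparable K x

/-- a finite dimensional representation over `Λ` of the group of `F` -/
structure Rp (Λ : Type) [Field Λ] (F : Subfield Ω) : Type 1 where
  V : Type
  [grp : AddCommGroup V]
  [mod : Module Λ V]
  [fin : FiniteDimensional Λ V]
  act : G F → V →ₗ[Λ] V
  one : act 1 = LinearMap.id
  mul : ∀ g h, act (g * h) = act g ∘ₗ act h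

attribute [instance] Rp.grp Rp.mod Rp.fin

variable {Λ : Type} [Field Λ]

/-- the action of `g` on the vector `v` -/
def Rp.ap {F : Subfield Ω} (A : Rp Λ F) (g : G F) (v : A.V) : A.V := A.act g v

/-- the restriction to the group of a larger field -/
def Rp.res {K : Subfield Ω} (A : Rp Λ K) {F : Subfield Ω} (h : K ≤ F) : Rp Λ F where
  V := A.V
  act := fun g => A.act (incl h g)
  one := by rw [incl_one, A.one]
  mul := fun g g' => by rw [incl_mul, A.mul]

/-- the tensor product, with `g (a ⊗ b) = g a ⊗ g b` -/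
noncomputable def Rp.ten {F : Subfield Ω} (A B : Rp Λ F) : Rp Λ F where
  V := A.V ⊗[Λ] B.V
  act := fun g => TensorProduct.map (A.act g) (B.act g)
  one := by rw [A.one, B.one, TensorProduct.map_id]
  mul := fun g g' => by rw [A.mul, B.mul, TensorProduct.map_comp]

/-- the map `f ↦ b f a` -/
def sandwich {V W : Type} [AddCommGroup V] [Module Λ V] [AddCommGroup W] [Module Λ W]
    (a : V →ₗ[Λ] V) (b : W →ₗ[Λ] W) : (V →ₗ[Λ] W) →ₗ[Λ] (V →ₗ[Λ] W) where
  toFun := fun f => b ∘ₗ f ∘ₗ a
  map_add' := fun f g => by rw [LinearMap.add_comp, LinearMap.comp_add]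
  map_smul' := fun c f => by rw [LinearMap.smul_comp, LinearMap.comp_smul, RingHom.id_apply]

/-- linear maps from `A` to `B`, with `g f = g ∘ f ∘ g⁻¹` -/
noncomputable def Rp.hom {F : Subfield Ω} (A B : Rp Λ F) : Rp Λ F where
  V := A.V →ₗ[Λ] B.V
  act := fun g => sandwich (A.act g⁻¹) (B.act g)
  one := by
    rw [inv_one, A.one, B.one]
    rfl
  mul := fun g g' => by
    rw [mul_inv_rev, A.mul, B.mul]
    rfl

/-- the subspace `W` is invariant -/
def Rp.Stable {F : Subfield Ω} (A : Rp Λ F) (W : Submodule Λ A.V) : Prop :=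
  ∀ g w, w ∈ W → A.ap g w ∈ W

/-- semisimple: each invariant subspace has an invariant complement -/
def Rp.Semisimple {F : Subfield Ω} (A : Rp Λ F) : Prop :=
  ∀ W : Submodule Λ A.V, A.Stable W → ∃ W' : Submodule Λ A.V, A.Stable W' ∧ IsCompl W W'

/-- linear maps -/
def Lin {F F' : Subfield Ω} (A : Rp Λ F) (B : Rp Λ F') : Type := A.V →ₗ[Λ] B.V

/-- the value of a linear map -/
def Lin.ap {F F' : Subfield Ω} {A : Rp Λ F} {B : Rp Λ F'} (f : Lin A B) (v : A.V) : B.V :=
  (show A.V →ₗ[Λ] B.V from f) v

/-- `B` is a quotient of `A` -/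
def Rp.Quo {F : Subfield Ω} (A B : Rp Λ F) : Prop :=
  ∃ f : Lin A B, Function.Surjective f.ap ∧ ∀ g v, f.ap (A.ap g v) = B.ap g (f.ap v)

/-- `W` is the representation of the group of `L` on the vectors in `M` which are invariant under the
group of `F L̄` -/
def Rp.Invariants {L F : Subfield Ω} (M : Rp Λ F) (h : L ≤ F) (W : Rp Λ L) : Prop :=
  ∃ j : Lin W M, Function.Injective j.ap ∧ (∀ g v, j.ap ((W.res h).ap g v) = M.ap g (j.ap v)) ∧
    ∀ m : M.V, (∀ g, (M.res (le_geo L F)).ap g m = m) → ∃ w, j.ap w = m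

lemma hom_core {G : Type} [Group G] {R V W : Type} [AddCommGroup R] [Module Λ R] [AddCommGroup V]
    [Module Λ V] [AddCommGroup W] [Module Λ W] (a : G → R →ₗ[Λ] R) (b : G → V →ₗ[Λ] V)
    (c : G → W →ₗ[Λ] W) (ha : ∀ g r, a g⁻¹ (a g r) = r) (j : W →ₗ[Λ] (R →ₗ[Λ] V))
    (hj : ∀ g w, j (c g w) = b g ∘ₗ j w ∘ₗ a g⁻¹) (s : R →ₗ[Λ] V) (hs : Function.Surjective s)
    (w : W) (hw : j w = s) :
    ∃ f : R ⊗[Λ] W →ₗ[Λ] V, Function.Surjective f ∧
      ∀ g x, f (TensorProduct.map (a g) (c g) x) = b g (f x) := by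
  refine ⟨TensorProduct.lift j.flip, ?_, ?_⟩
  · intro v
    obtain ⟨r, hr⟩ := hs v
    refine ⟨r ⊗ₜ w, ?_⟩
    rw [TensorProduct.lift.tmul, LinearMap.flip_apply, hw, hr]
  · intro g x
    induction x using TensorProduct.induction_on with
    | zero => rw [map_zero, map_zero, map_zero]
    | add x y hx hy => rw [map_add, map_add, hx, hy, map_add, map_add]
    | tmul r w =>
      rw [TensorProduct.map_tmul, TensorProduct.lift.tmul,
        TensorProduct.lift.tmul, LinearMap.flip_apply, LinearMap.flip_apply, hj]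
      change b g (j w (a g⁻¹ (a g r))) = _
      rw [ha]

lemma Rp.inv_act {F : Subfield Ω} (A : Rp Λ F) (g : G F) (v : A.V) : A.act g⁻¹ (A.act g v) = v := by
  rw [← LinearMap.comp_apply, ← A.mul, inv_mul_cancel, A.one, LinearMap.id_apply]

lemma Rp.act_inv {F : Subfield Ω} (A : Rp Λ F) (g : G F) (v : A.V) : A.act g (A.act g⁻¹ v) = v := by
  rw [← LinearMap.comp_apply, ← A.mul, mul_inv_cancel, A.one, LinearMap.id_apply]

/-- the Hom trick: if `V` is a quotient of `R` over the geometric generic fibre, then `V` is a quotient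
of `R ⊗ W` where `W` is the pullback of `Hom(R, V)^{geo}` -/
theorem hom_trick {L F : Subfield Ω} (h : L ≤ F) (R V : Rp Λ F) (W : Rp Λ L)
    (hW : (R.hom V).Invariants h W) (hq : (R.res (le_geo L F)).Quo (V.res (le_geo L F))) :
    (R.ten (W.res h)).Quo V := by
  obtain ⟨j, -, hj, hi⟩ := hW
  obtain ⟨s, hs, hc⟩ := hq
  have key : ∀ g, ((R.hom V).res (le_geo L F)).ap g s = s := by
    intro g
    change V.act (incl (le_geo L F) g) ∘ₗ (s : R.V →ₗ[Λ] V.V) ∘ₗ R.act (incl (le_geo L F) g)⁻¹ =
      (s : R.V →ₗ[Λ] V.V)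
    ext x
    have h1 := hc g (R.act (incl (le_geo L F) g)⁻¹ x)
    have h2 : (R.res (le_geo L F)).ap g (R.act (incl (le_geo L F) g)⁻¹ x) = x := R.act_inv _ x
    rw [h2] at h1
    exact h1.symm
  obtain ⟨w, hw⟩ := hi s key
  exact hom_core R.act V.act (W.res h).act R.inv_act j hj s hs w hw

/-- Properties of representations: `Un K F V`: `V` is a lisse sheaf on a nonempty open subscheme of a
smooth model of `F` over `K`; `Go K F V`: the semisimplification of `V`, restricted to the group of
`F K̄`, is of geometric origin over `K̄`; `On K t V`, for `V` over `K(t)`: `V` is a lisse sheaf on the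
line (in characteristic `p`: on the affine line `Spec K[t]`; in characteristic `0`: on the complement of
finitely many points of `Spec K[t]` which are rational over `K`, and of `{0, 1}` if `K` is a number
field). -/
structure Sheaves (Ω : Type) [Field Ω] (Λ : Type) [Field Λ] where
  Un : Subfield Ω → ∀ F : Subfield Ω, Rp Λ F → Prop
  Go : Subfield Ω → ∀ F : Subfield Ω, Rp Λ F → Prop
  On : ∀ (K : Subfield Ω) (t : Ω), Rp Λ (adj K {t}) → Prop

/-- semisimplification -/
def FactSemi (T : Sheaves Ω Λ) : Prop := ∀ (K F : Subfield Ω) (V : Rp Λ F), T.Un K F V →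
  ∃ V' : Rp Λ F, V'.Semisimple ∧ T.Un K F V' ∧ (T.Go K F V' → T.Go K F V)

/-- dimension zero -/
def FactZero (T : Sheaves Ω Λ) : Prop := ∀ (r : ℕ) (K F : Subfield Ω) (V : Rp Λ F), FG r K →
  Reg 0 K F → T.Un K F V → T.Go K F V

/-- if `A` and `B` are lisse, then also the sheaf of homomorphisms from `A` to `B` -/
def FactHom (T : Sheaves Ω Λ) : Prop := ∀ (K F : Subfield Ω) (A B : Rp Λ F), T.Un K F A →
  T.Un K F B → T.Un K F (A.hom B)

/-- quotients of sheaves of geometric origin -/
def FactQuo (T : Sheaves Ω Λ) : Prop := ∀ (K F : Subfield Ω) (A B : Rp Λ F), A.Quo B →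
  T.Go K F A → T.Go K F B

/-- tensor products of sheaves of geometric origin: products of families and the Künneth formula -/
def FactTen (T : Sheaves Ω Λ) : Prop := ∀ (K F : Subfield Ω) (A B : Rp Λ F), T.Go K F A →
  T.Go K F B → T.Go K F (A.ten B)

/-- pullback of families -/
def FactPull (T : Sheaves Ω Λ) : Prop := ∀ (K L F : Subfield Ω) (h : L ≤ F) (W : Rp Λ L), K ≤ L →
  T.Go K L W → T.Go K F (W.res h)

/-- the restriction of a lisse sheaf to a finite étale covering is lisse -/
def FactRes (T : Sheaves Ω Λ) : Prop := ∀ (K K' F F' : Subfield Ω) (h : F ≤ F') (V : Rp Λ F),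
  Fin' K K' → Fin' F F' → K' ≤ F' → T.Un K F V → T.Un K' F' (V.res h)

/-- direct images of families under finite étale morphisms: a sheaf is of geometric origin if its
pullback to a finite étale covering is -/
def FactDesc (T : Sheaves Ω Λ) : Prop := ∀ (K K' F F' : Subfield Ω) (h : F ≤ F') (V : Rp Λ F),
  Fin' K K' → Fin' F F' → K' ≤ F' → T.Go K' F' (V.res h) → T.Go K F V

/-- fibrations by curves: a smooth connected scheme of dimension `n + 1` has a nonempty open subscheme
which is smooth, with geometrically connected fibres of dimension one, over a smooth scheme of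
dimension `n` with function field `L` -/
def FactFib (T : Sheaves Ω Λ) : Prop := ∀ (r n : ℕ) (K F : Subfield Ω), FG r K → Reg (n + 1) K F →
  ∃ L : Subfield Ω, FG (r + n) L ∧ Reg n K L ∧ Reg 1 L F ∧ ∀ V : Rp Λ F, T.Un K F V → T.Un L F V

/-- `K'`, `L'`, `F'`: finite separable extensions of `K`, `L`, `F`, such that `F'` is the function field
of a fibration by curves over a smooth scheme over `K'` with function field `L'` -/
def Tower (r n : ℕ) (K F K' L' F' : Subfield Ω) : Prop :=
  Fin' K K' ∧ Fin' F F' ∧ K' ≤ F' ∧ FG r K' ∧ Reg n K' L' ∧ Reg 1 L' F'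

/-- spreading out: if the restriction of `V` to the geometric generic fibre of the fibration is of
geometric origin, then the family is defined over a finite separable extension, and gives a sheaf `R` of
geometric origin, such that `V` is a quotient of `R` over the geometric generic fibre -/
def FactSpread (T : Sheaves Ω Λ) : Prop := ∀ (r n : ℕ) (K L F : Subfield Ω) (V : Rp Λ F), FG r K →
  Reg n K L → Reg 1 L F → V.Semisimple → T.Un K F V → T.Go L F V →
    ∃ (K' L' F' : Subfield Ω) (h : F ≤ F') (R : Rp Λ F'), Tower r n K F K' L' F' ∧ T.Un K' F' R ∧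
      T.Go K' F' R ∧ (R.res (le_geo L' F')).Quo ((V.res h).res (le_geo L' F'))

/-- direct images are constructible: for a fibration with generic fibre over `L`, the invariants of the
geometric generic fibre form a sheaf which is lisse on an open subscheme of the base -/
def FactPush (T : Sheaves Ω Λ) : Prop := ∀ (n : ℕ) (K L F : Subfield Ω) (_ : Reg n K L)
  (h : Reg 1 L F) (M : Rp Λ F), T.Un K F M → ∃ W : Rp Λ L, T.Un K L W ∧ M.Invariants h.1 W

/-- `K'`, `F'`: finite separable extensions of `K`, `F` -/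
def Pair (r : ℕ) (K F K' F' : Subfield Ω) : Prop := Fin' K K' ∧ Fin' F F' ∧ K' ≤ F' ∧ FG r K'

/-- up to finitely many points, curves are finite étale over the line, after a finite separable
extension of `K` (Katz, Kedlaya in characteristic `p`; Belyi for number fields); direct images under
finite étale morphisms -/
def FactLine (T : Sheaves Ω Λ) : Prop := ∀ (r : ℕ) (K F : Subfield Ω) (V : Rp Λ F), FG r K →
  Reg 1 K F → V.Semisimple → T.Un K F V →
    ∃ (K' F' : Subfield Ω) (hF : F ≤ F') (t : Ω) (h : adj K' {t} ≤ F') (M : Rp Λ (adj K' {t})),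
      Pair r K F K' F' ∧ Transcendental K' t ∧ M.Semisimple ∧ T.On K' t M ∧ (M.res h).Quo (V.res hF)

/-- the line is a curve -/
def FactOn (T : Sheaves Ω Λ) : Prop := ∀ (r : ℕ) (K : Subfield Ω) (t : Ω) (M : Rp Λ (adj K {t})),
  FG r K → Transcendental K t → T.On K t M → Reg 1 K (adj K {t}) ∧ T.Un K (adj K {t}) M

/-- The facts which are used. -/
structure Facts (T : Sheaves Ω Λ) : Prop where
  semi : FactSemi T
  zero : FactZero T
  hom : FactHom T
  quo : FactQuo T
  ten : FactTen T
  pull : FactPull T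
  res : FactRes T
  desc : FactDesc T
  fib : FactFib T
  spread : FactSpread T
  push : FactPush T
  line : FactLine T
  on : FactOn T

/-- Q1 for all smooth geometrically connected schemes of dimension `n` over all finitely generated fields
of transcendence degree `r` (over the prime field), where `r + n ≤ N` -/
def AllUpTo (T : Sheaves Ω Λ) (N : ℕ) : Prop :=
  ∀ (r n : ℕ) (K F : Subfield Ω), r + n ≤ N → FG r K → Reg n K F → ∀ V : Rp Λ F, V.Semisimple →
    T.Un K F V → T.Go K F V

/-- Q1 for curves over all finitely generated fields of transcendence degree less than `N` -/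
def CurvesUpTo (T : Sheaves Ω Λ) (N : ℕ) : Prop :=
  ∀ (r : ℕ) (K F : Subfield Ω), r + 1 ≤ N → FG r K → Reg 1 K F → ∀ V : Rp Λ F, V.Semisimple →
    T.Un K F V → T.Go K F V

/-- Q1 for the line over all finitely generated fields of transcendence degree less than `N` -/
def LineUpTo (T : Sheaves Ω Λ) (N : ℕ) : Prop :=
  ∀ (r : ℕ) (K : Subfield Ω) (t : Ω), r + 1 ≤ N → FG r K → Transcendental K t →
    ∀ V : Rp Λ (adj K {t}), V.Semisimple → T.On K t V → T.Go K (adj K {t}) V

theorem line_tfae {T : Sheaves Ω Λ} (hT : Facts T) (N : ℕ) :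
    [AllUpTo T N, CurvesUpTo T N, LineUpTo T N].TFAE := by
  tfae_have 1 → 2 := fun h r K F hr hK hF V hs hV => h r 1 K F hr hK hF V hs hV
  tfae_have 2 → 3 := by
    intro h r K t hr hK ht V hs hV
    obtain ⟨h1, h2⟩ := hT.on r K t V hK ht hV
    exact h r K _ hr hK h1 V hs h2
  tfae_have 3 → 2 := by
    intro h r K F hr hK hF V hs hV
    obtain ⟨K', F', hFF, t, hle, M, ⟨hK1, hF1, hKF, hK'⟩, ht, hM, hon, hq⟩ :=
      hT.line r K F V hK hF hs hV
    exact hT.desc K K' F F' hFF V hK1 hF1 hKF (hT.quo _ _ _ _ hq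
      (hT.pull K' _ F' hle M (fun x hx => Subfield.subset_closure (Or.inl hx))
        (h r K' t hr hK' ht M hM hon)))
  tfae_have 2 → 1 := by
    intro h
    have key : ∀ (n r : ℕ) (K F : Subfield Ω), r + n ≤ N → FG r K → Reg n K F → ∀ V : Rp Λ F,
        V.Semisimple → T.Un K F V → T.Go K F V := by
      intro n
      induction n with
      | zero => exact fun r K F _ hK hF V _ hV => hT.zero r K F V hK hF hV
      | succ n ih =>
        intro r K F hr hK hF V hs hV
        obtain ⟨L, hL, hKL, hLF, hU⟩ := hT.fib r n K F hK hF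
        have h1 : T.Go L F V := h (r + n) L F (by omega) hL hLF V hs (hU V hV)
        obtain ⟨K', L', F', hle, R, ⟨hKK, hFF, hKF, hK', hKL', hLF'⟩, hR, hRg, hq⟩ :=
          hT.spread r n K L F V hK hKL hLF hs hV h1
        have h2 : T.Un K' F' (V.res hle) := hT.res K K' F F' hle V hKK hFF hKF hV
        obtain ⟨W, hW, hi⟩ := hT.push n K' L' F' hKL' hLF' (R.hom (V.res hle))
          (hT.hom _ _ _ _ hR h2)
        obtain ⟨W', hW's, hW'u, hW'⟩ := hT.semi K' L' W hW
        have h3 : T.Go K' L' W := hW' (ih r K' L' (by omega) hK' hKL' W' hW's hW'u)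
        have h4 : T.Go K' F' (W.res hLF'.1) := hT.pull K' L' F' hLF'.1 W hKL'.1 h3
        have h5 : T.Go K' F' (V.res hle) :=
          hT.quo _ _ _ _ (hom_trick hLF'.1 R (V.res hle) W hi hq) (hT.ten _ _ _ _ hRg h4)
        exact hT.desc K K' F F' hle V hKK hFF hKF h5
    exact fun r n K F hr hK hF V hs hV => key n r K F hr hK hF V hs hV
  tfae_finish

end Pool.Agent.N882.UE.FM
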