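import Pool.Agent.N882.UE.Factor
import Mathlib.LinearAlgebra.JordanChevalley
import Mathlib.LinearAlgebra.Trace
import Mathlib.RingTheory.SimpleModule.Basic
import Mathlib.RingTheory.Nilpotent.Basic
import Mathlib.LinearAlgebra.Dual.Lemmas
import Mathlib.LinearAlgebra.BilinearForm.Properties

/-!
# Frobenius modules: semisimplicity and partial semisimplicity
-/

set_option autoImplicit false

open MvPolynomial CategoryTheory AlgebraicGeometry

namespace Pool.Agent.N882.UE

open Pool.Agent.Y116.UV Pool.Agent.Z125.UN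

/-- a finite dimensional vector space over `E` with a bijective endomorphism `F` (Frobenius) -/
structure FrobMod (E : Type) [Field E] : Type 1 where
  V : Type
  [grp : AddCommGroup V]
  [mod : Module E V]
  [fin : FiniteDimensional E V]
  F : V ≃ₗ[E] V

attribute [instance] FrobMod.grp FrobMod.mod FrobMod.fin

namespace FrobMod

variable {E : Type} [Field E]

/-- `F` is semisimple -/
def SS (a : FrobMod E) : Prop := Module.End.IsSemisimple (a.F : Module.End E a.V)

/-- partial semisimplicity at `x`: the generalised eigenvectors of `F` of the eigenvalue `x` are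
eigenvectors -/
def SSat (a : FrobMod E) (x : E) : Prop := ∀ v : a.V, (∀ w, w = a.F v - x • v → a.F w = x • w) →
  a.F v = x • v

/-- an injective map compatible with `F` -/
structure Sub (a b : FrobMod E) where
  f : a.V →ₗ[E] b.V
  inj : Function.Injective f
  comm : ∀ v, f (a.F v) = b.F (f v)

/-- a surjective map compatible with `F` -/
structure Quo (a b : FrobMod E) where
  f : a.V →ₗ[E] b.V
  surj : Function.Surjective f
  comm : ∀ v, f (a.F v) = b.F (f v)

/-- the twist: `F` is multiplied by a constant `x ≠ 0` -/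
noncomputable def twist (a : FrobMod E) (x : E) (hx : x ≠ 0) : FrobMod E :=
  ⟨a.V, a.F.trans (LinearEquiv.smulOfNeZero E a.V x hx)⟩

/-- direct sum of finitely many -/
def pi {n : ℕ} (a : Fin n → FrobMod E) : FrobMod E :=
  ⟨∀ l, (a l).V, LinearEquiv.piCongrRight fun l => (a l).F⟩

/-- the endomorphisms `A` of the vector space, with `A ↦ F A F⁻¹` -/
noncomputable def ad (a : FrobMod E) : FrobMod E := ⟨Module.End E a.V, a.F.conj⟩

/-- the morphism of modules over `E[X]` -/
noncomputable def hom {a b : FrobMod E} (f : a.V →ₗ[E] b.V) (h : ∀ v, f (a.F v) = b.F (f v)) :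
    Module.AEval' (a.F : Module.End E a.V) →ₗ[Polynomial E]
      Module.AEval' (b.F : Module.End E b.V) :=
  LinearMap.ofAEval _ ((Module.AEval'.of (b.F : Module.End E b.V)).toLinearMap ∘ₗ f) fun v => by
    change (Module.AEval'.of (b.F : Module.End E b.V)) (f (a.F v)) = _
    rw [h]
    exact (Module.AEval'.X_smul_of (b.F : Module.End E b.V) (f v)).symm

lemma ss_sub {a b : FrobMod E} (e : a.Sub b) (h : b.SS) : a.SS := by
  have h1 : IsSemisimpleModule (Polynomial E) (Module.AEval' (b.F : Module.End E b.V)) := h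
  exact IsSemisimpleModule.of_injective (hom e.f e.comm) fun x y hxy => by
    have := (Module.AEval'.of (b.F : Module.End E b.V)).injective hxy
    exact (Module.AEval'.of (a.F : Module.End E a.V)).symm.injective (e.inj this)

lemma ss_quo {a b : FrobMod E} (e : a.Quo b) (h : a.SS) : b.SS := by
  have h1 : IsSemisimpleModule (Polynomial E) (Module.AEval' (a.F : Module.End E a.V)) := h
  exact IsSemisimpleModule.of_surjective (hom e.f e.comm) fun y => by
    obtain ⟨v, hv⟩ := e.surj ((Module.AEval'.of (b.F : Module.End E b.V)).symm y)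
    refine ⟨Module.AEval'.of (a.F : Module.End E a.V) v, ?_⟩
    change Module.AEval'.of (b.F : Module.End E b.V) (e.f v) = y
    rw [hv, LinearEquiv.apply_symm_apply]

lemma ss_pi {n : ℕ} {a : Fin n → FrobMod E} (h : ∀ l, (a l).SS) : (pi a).SS := by
  have h1 : ∀ l, IsSemisimpleModule (Polynomial E)
    (Module.AEval' ((a l).F : Module.End E (a l).V)) := h
  let φ : Module.AEval' ((pi a).F : Module.End E (pi a).V) →ₗ[Polynomial E]
      ∀ l, Module.AEval' ((a l).F : Module.End E (a l).V) :=
    LinearMap.pi fun l => hom (a := pi a) (b := a l) (LinearMap.proj l) fun v => rfl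
  refine IsSemisimpleModule.of_injective φ fun x y hxy => ?_
  refine (Module.AEval'.of ((pi a).F : Module.End E (pi a).V)).symm.injective (funext fun l => ?_)
  have := congrFun hxy l
  exact (Module.AEval'.of ((a l).F : Module.End E (a l).V)).injective this

lemma ss_twist {a : FrobMod E} {x : E} (hx : x ≠ 0) : (a.twist x hx).SS ↔ a.SS :=
  Module.End.IsSemisimple_smul_iff (f := (a.F : Module.End E a.V)) hx

/-- partial semisimplicity -/
lemma ssat_iff {a : FrobMod E} {x : E} : a.SSat x ↔
    ∀ v : a.V, a.F (a.F v - x • v) = x • (a.F v - x • v) → a.F v = x • v :=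
  ⟨fun h v hv => h v fun w hw => by rw [hw]; exact hv, fun h v hv => h v (hv _ rfl)⟩

lemma ssat_sub {a b : FrobMod E} {x : E} (e : a.Sub b) (h : b.SSat x) : a.SSat x := by
  rw [ssat_iff] at h ⊢
  intro v hv
  apply e.inj
  rw [e.comm, map_smul]
  apply h
  rw [← e.comm, ← map_smul, ← map_sub, ← e.comm, hv, map_smul]

lemma ssat_pi {n : ℕ} {a : Fin n → FrobMod E} {x : E} (h : ∀ l, (a l).SSat x) :
    (pi a).SSat x := by
  rw [ssat_iff]
  intro v hv
  funext l
  exact (ssat_iff.mp (h l)) (v l) (congrFun hv l)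

lemma ssat_twist {a : FrobMod E} {x y : E} (hx : x ≠ 0) (h : (a.twist x hx).SSat (x * y)) :
    a.SSat y := by
  rw [ssat_iff] at h ⊢
  intro v hv
  have h1 : ∀ w, (a.twist x hx).F w = x • a.F w := fun w => rfl
  have h2 := h v (by
    change x • a.F (x • a.F v - (x * y) • v) = (x * y) • (x • a.F v - (x * y) • v)
    rw [mul_smul, ← smul_sub, map_smul, hv, mul_smul, smul_comm y x])
  have h3 : x • a.F v = (x * y) • v := h2
  rw [mul_smul] at h3
  exact smul_right_injective a.V hx h3

lemma ss_ssat {a : FrobMod E} (h : a.SS) (x : E) : a.SSat x := by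
  rw [ssat_iff]
  intro v hv
  let T : Module.End E a.V := (a.F : Module.End E a.V) - algebraMap E (Module.End E a.V) x
  have h1 : T.IsSemisimple := Module.End.isSemisimple_sub_algebraMap_iff.mpr h
  have h2 : Squarefree (minpoly E T) := h1.minpoly_squarefree
  have h3 : T (T v) = 0 := by
    change a.F (a.F v - x • v) - x • (a.F v - x • v) = 0
    rw [hv, sub_self]
  have h4 : T v = 0 := by
    by_contra h5
    have h6 : (LinearMap.ker T) ∈ T.invtSubmodule := fun w hw => by
      change T (T w) = 0
      rw [LinearMap.mem_ker.mp hw, map_zero]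
    obtain ⟨q, hq, hc⟩ := Module.End.isSemisimple_iff.mp h1 _ h6
    obtain ⟨u, hu, w, hw, huw⟩ := Submodule.mem_sup.mp (hc.codisjoint.eq_top ▸ Submodule.mem_top :
      v ∈ LinearMap.ker T ⊔ q)
    have h7 : T w ∈ q := hq hw
    have h8 : T w ∈ LinearMap.ker T := by
      rw [LinearMap.mem_ker]
      have : T v = T w := by rw [← huw, map_add, LinearMap.mem_ker.mp hu, zero_add]
      rw [← this]
      exact h3
    have h9 : T w = 0 := by
      have := hc.disjoint.eq_bot ▸ (Submodule.mem_inf.mpr ⟨h8, h7⟩)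
      exact (Submodule.mem_bot E).mp this
    apply h5
    rw [← huw, map_add, LinearMap.mem_ker.mp hu, h9, zero_add]
  have h5 : a.F v - x • v = 0 := h4
  exact sub_eq_zero.mp h5

lemma range_sup_ker {V : Type} [AddCommGroup V] [Module E V] [FiniteDimensional E V]
    (T : Module.End E V) (h : ∀ v, T (T v) = 0 → T v = 0) :
    LinearMap.range T ⊔ LinearMap.ker T = ⊤ := by
  have h1 : Disjoint (LinearMap.range T) (LinearMap.ker T) := by
    rw [Submodule.disjoint_def]
    rintro _ ⟨v, rfl⟩ hv
    exact h v hv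
  apply Submodule.eq_top_of_disjoint _ _ _ h1
  exact (LinearMap.finrank_range_add_finrank_ker T).ge

/-- partial semisimplicity of `A ↦ F A F⁻¹` at `1` implies semisimplicity of `F` -/
theorem ss_of_ad [CharZero E] {a : FrobMod E} (h : a.ad.SSat 1) : a.SS := by
  classical
  let f : Module.End E a.V := (a.F : Module.End E a.V)
  let g : Module.End E a.V := (a.F.symm : Module.End E a.V)
  have hfg : f * g = 1 := LinearMap.ext fun v => a.F.apply_symm_apply v
  have hgf : g * f = 1 := LinearMap.ext fun v => a.F.symm_apply_apply v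
  obtain ⟨n, hn, s, hs, hnil, hss, hns⟩ := f.exists_isNilpotent_isSemisimple
  let T : Module.End E (Module.End E a.V) :=
    ((a.F.conj : _ ≃ₗ[E] _) : Module.End E (Module.End E a.V)) - 1
  have hT : ∀ A, T A = f * A * g - A := fun A => rfl
  have h0 := ssat_iff.mp h
  simp only [one_smul] at h0
  have h1 : ∀ A, T (T A) = 0 → T A = 0 := fun A hA =>
    sub_eq_zero.mpr (h0 A (sub_eq_zero.mp hA))
  have h2 := range_sup_ker T h1
  have hcomm : ∀ B : Module.End E a.V, Commute f B → Commute n B := by
    intro B hB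
    have : n ∈ Subalgebra.centralizer E {B} := by
      have h3 : Algebra.adjoin E {f} ≤ Subalgebra.centralizer E {B} := by
        rw [Algebra.adjoin_le_iff, Set.singleton_subset_iff]
        intro x hx
        rw [Set.mem_singleton_iff.mp hx]
        exact hB.symm.eq
      exact h3 hn
    exact (this B rfl).symm
  have h3 : ∀ B : Module.End E a.V, LinearMap.trace E a.V (n * B) = 0 := by
    intro B
    obtain ⟨_, ⟨A, rfl⟩, C, hC, rfl⟩ := Submodule.mem_sup.mp (h2 ▸ Submodule.mem_top :
      B ∈ LinearMap.range T ⊔ LinearMap.ker T)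
    have hC' : f * C * g = C := sub_eq_zero.mp (LinearMap.mem_ker.mp hC)
    have hC2 : f * C = C * f := by
      calc f * C = f * C * (g * f) := by rw [hgf, mul_one]
        _ = (f * C * g) * f := by simp only [mul_assoc]
        _ = C * f := by rw [hC']
    have h4 : LinearMap.trace E a.V (n * C) = 0 := by
      have h5 : IsNilpotent (n * C) := (hcomm C hC2).isNilpotent_mul_right hnil
      exact (LinearMap.isNilpotent_trace_of_isNilpotent h5).eq_zero
    have h5 : n * f = f * n := (hcomm f rfl).eq
    have h6 : LinearMap.trace E a.V (n * (f * A * g)) = LinearMap.trace E a.V (n * A) := by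
      calc LinearMap.trace E a.V (n * (f * A * g)) = LinearMap.trace E a.V ((n * f * A) * g) := by
            simp only [mul_assoc]
        _ = LinearMap.trace E a.V (g * (n * f * A)) := LinearMap.trace_mul_comm E _ _
        _ = LinearMap.trace E a.V (g * f * (n * A)) := by rw [h5]; simp only [mul_assoc]
        _ = LinearMap.trace E a.V (n * A) := by rw [hgf, one_mul]
    rw [mul_add, map_add, h4, add_zero, hT, mul_sub, map_sub, h6, sub_self]
  have h4 : n = 0 := by
    by_contra hne
    have : ∃ v, n v ≠ 0 := by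
      by_contra h5
      push Not at h5
      exact hne (LinearMap.ext h5)
    obtain ⟨v, hv⟩ := this
    apply hv
    rw [← Module.forall_dual_apply_eq_zero_iff E]
    intro φ
    have h5 := h3 (φ.smulRight v)
    have h6 : n * φ.smulRight v = φ.smulRight (n v) := by
      ext w
      change n (φ w • v) = φ w • n v
      rw [map_smul]
    rwa [h6, LinearMap.trace_smulRight] at h5
  have h5 : f = s := by rw [hns, h4, zero_add]
  change f.IsSemisimple
  rw [h5]
  exact hss

end FrobMod

/-- a smooth domain over `k` -/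
structure SmDo (k : Type) [Field k] : Type 1 where
  A : Type
  [ring : CommRing A]
  [alg : Algebra k A]
  dom : IsDomain A
  smooth : Algebra.Smooth k A

attribute [instance] SmDo.ring SmDo.alg

/-- its spectrum -/
noncomputable def SmDo.sch {k : Type} [Field k] (D : SmDo k) : Sch k := aff k D.A

/-- smooth and proper -/
def SmProper {k : Type} [Field k] (V : Sch k) : Prop := IsProper V.hom ∧ Smooth V.hom

section

variable {E : Type} [Field E] [CharZero E] {p : ℕ} [hp : Fact p.Prime]

/-- the twist by `ℚ_ℓ(-c)` over the field with `p` elements: `F` is multiplied by `p ^ c` -/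
noncomputable def FrobMod.tw (p : ℕ) [hp : Fact p.Prime] (a : FrobMod E) (c : ℤ) : FrobMod E :=
  a.twist ((p : E) ^ c) (zpow_ne_zero c (Nat.cast_ne_zero.mpr hp.out.ne_zero))

/-- `a` is a subquotient of `b` -/
def FrobMod.SubQuo (a b : FrobMod E) : Prop := ∃ c : FrobMod E, Nonempty (c.Sub b) ∧ Nonempty (c.Quo a)

/-- The properties of the cohomology groups `T X i = H^i(X, ℚ_ℓ)` (geometric cohomology, with the
Frobenius) of the smooth schemes `X` over the field with `p` elements which are used:
invariance under isomorphisms; the cohomology of a smooth scheme is a direct sum of the cohomology of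
finitely many smooth connected affine schemes (affine bundles over the components); the Gysin sequence
for a smooth connected closed subscheme of codimension `c` of an affine space and the affine bundle
`∑ z_l f_l = 1` over the complement; the same for the complement of this cubic (`c = 1`); weights:
the cohomology of a smooth scheme is a direct sum of subquotients of twists of the cohomology of smooth
proper schemes; Künneth formula and Poincaré duality: the endomorphisms of `H^i(V)`, twisted by `-d`,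
are contained in `H^(2 d)(W)`, where `V`, `W` are smooth and proper. -/
structure IsFrob (p : ℕ) [Fact p.Prime] (T : Sch (ZMod p) → ℤ → FrobMod E) : Prop where
  iso : ∀ X Y : Sch (ZMod p), Nonempty (X ≅ Y) → ∀ i, Nonempty ((T X i).Sub (T Y i))
  affine : ∀ X : Sch (ZMod p), FT True X → Smooth X.hom → ∃ (r : ℕ) (D : Fin r → SmDo (ZMod p)),
    ∀ i, Nonempty ((T X i).Sub (FrobMod.pi fun l => T (D l).sch i))
  gysin : ∀ (n m : ℕ) (f : Fin m → MvPolynomial (Fin n) (ZMod p)), IsDomain (Zer f) →
    Algebra.Smooth (ZMod p) (Zer f) → (∃ l, f l ≠ 0) → ∃ c : ℤ, ∀ i,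
      Nonempty (((T (aff (ZMod p) (Zer f)) (i - 2 * c + 1)).tw p c).Sub (T (cub f) i))
  comp : ∀ (n m : ℕ) (f : Fin m → MvPolynomial (Fin n) (ZMod p)) (i : ℤ),
    Nonempty (((T (cub f) (i - 1)).tw p 1).Sub (T (cubC f) i))
  weights : ∀ X : Sch (ZMod p), FT True X → Smooth X.hom → ∀ i,
    ∃ (r : ℕ) (V : Fin r → Sch (ZMod p)) (a c : Fin r → ℤ) (N : Fin r → FrobMod E),
      (∀ l, SmProper (V l)) ∧ (∀ l, (N l).SubQuo ((T (V l) (a l)).tw p (c l))) ∧
      Nonempty ((T X i).Sub (FrobMod.pi N))
  dual : ∀ V : Sch (ZMod p), SmProper V → ∀ i, ∃ (W : Sch (ZMod p)) (d : ℤ), SmProper W ∧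
    Nonempty (((T V i).ad.tw p d).Sub (T W (2 * d)))

/-- semisimplicity is inherited by direct factors -/
theorem factor_ss {T : Sch (ZMod p) → ℤ → FrobMod E} (hT : IsFrob p T) :
    Factor fun X i _ => (T X i).SS where
  affine := by
    intro X h1 h2 i j h
    obtain ⟨r, D, hD⟩ := hT.affine X h1 h2
    obtain ⟨e⟩ := hD i
    exact FrobMod.ss_sub e (FrobMod.ss_pi fun l => h (D l).A (D l).dom (D l).smooth)
  iso := by
    intro A B _ _ _ _ e i j h
    obtain ⟨e'⟩ := hT.iso _ _ ⟨(affIso e)⟩ i
    exact FrobMod.ss_sub e' h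
  gysin := by
    intro n m f h1 h2 h3
    obtain ⟨c, hc⟩ := hT.gysin n m f h1 h2 h3
    refine ⟨c, fun i j h => ?_⟩
    obtain ⟨e⟩ := hc i
    exact (FrobMod.ss_twist _).mp (FrobMod.ss_sub e h)
  comp := by
    intro n m f i j h
    obtain ⟨e⟩ := hT.comp n m f i
    exact (FrobMod.ss_twist _).mp (FrobMod.ss_sub e h)

lemma FrobMod.ssat_tw {a : FrobMod E} {c j : ℤ} (h : (a.tw p c).SSat ((p : E) ^ j)) :
    a.SSat ((p : E) ^ (j - c)) := by
  have hx : (p : E) ≠ 0 := Nat.cast_ne_zero.mpr hp.out.ne_zero
  have h1 : (p : E) ^ j = (p : E) ^ c * (p : E) ^ (j - c) := by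
    rw [← zpow_add₀ hx]
    congr 1
    ring
  rw [h1] at h
  exact FrobMod.ssat_twist _ h

/-- partial semisimplicity is inherited by direct factors -/
theorem factor_ssat {T : Sch (ZMod p) → ℤ → FrobMod E} (hT : IsFrob p T) :
    Factor fun X i j => (T X i).SSat ((p : E) ^ j) where
  affine := by
    intro X h1 h2 i j h
    obtain ⟨r, D, hD⟩ := hT.affine X h1 h2
    obtain ⟨e⟩ := hD i
    exact FrobMod.ssat_sub e (FrobMod.ssat_pi fun l => h (D l).A (D l).dom (D l).smooth)
  iso := by
    intro A B _ _ _ _ e i j h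
    obtain ⟨e'⟩ := hT.iso _ _ ⟨(affIso e)⟩ i
    exact FrobMod.ssat_sub e' h
  gysin := by
    intro n m f h1 h2 h3
    obtain ⟨c, hc⟩ := hT.gysin n m f h1 h2 h3
    refine ⟨c, fun i j h => ?_⟩
    obtain ⟨e⟩ := hc i
    exact FrobMod.ssat_tw (FrobMod.ssat_sub e h)
  comp := by
    intro n m f i j h
    obtain ⟨e⟩ := hT.comp n m f i
    exact FrobMod.ssat_tw (FrobMod.ssat_sub e h)

lemma smooth_of_ss {T : Sch (ZMod p) → ℤ → FrobMod E} (hT : IsFrob p T)
    (h : ∀ V : Sch (ZMod p), SmProper V → ∀ i, (T V i).SS) (X : Sch (ZMod p)) (h1 : FT True X)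
    (h2 : Smooth X.hom) (i : ℤ) : (T X i).SS := by
  obtain ⟨r, V, a, c, N, h3, h4, ⟨e⟩⟩ := hT.weights X h1 h2 i
  refine FrobMod.ss_sub e (FrobMod.ss_pi fun l => ?_)
  obtain ⟨M, ⟨e1⟩, ⟨e2⟩⟩ := h4 l
  exact FrobMod.ss_quo e2 (FrobMod.ss_sub e1 ((FrobMod.ss_twist _).mpr (h _ (h3 l) _)))

lemma ss_of_ssat {T : Sch (ZMod p) → ℤ → FrobMod E} (hT : IsFrob p T)
    (h : ∀ V : Sch (ZMod p), SmProper V → ∀ i j : ℤ, (T V i).SSat ((p : E) ^ j)) (V : Sch (ZMod p))
    (hV : SmProper V) (i : ℤ) : (T V i).SS := by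
  obtain ⟨W, d, hW, ⟨e⟩⟩ := hT.dual V hV i
  apply FrobMod.ss_of_ad
  have h1 := FrobMod.ssat_tw (FrobMod.ssat_sub e (h W hW (2 * d) d))
  rwa [sub_self, zpow_zero] at h1

lemma SmProper.ft {k : Type} [Field k] {V : Sch k} (h : SmProper V) : FT True V := by
  have := h.1
  exact ⟨inferInstance, inferInstance, fun _ => inferInstance⟩

theorem semi_tfae {T : Sch (ZMod p) → ℤ → FrobMod E} (hT : IsFrob p T)
    (hQ : QuadPresents (ZMod p)) :
    [∀ V : Sch (ZMod p), SmProper V → ∀ i, (T V i).SS,
      ∀ X : Sch (ZMod p), FT True X → Smooth X.hom → ∀ i, (T X i).SS,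
      ∀ (n m : ℕ) (f : Fin m → MvPolynomial (Fin n) (ZMod p)), (∀ l, IsQuad (f l)) →
        ∀ i j : ℤ, (T (cub f) i).SSat ((p : E) ^ j),
      ∀ (n m : ℕ) (f : Fin m → MvPolynomial (Fin n) (ZMod p)), (∀ l, IsQuad (f l)) →
        ∀ i j : ℤ, (T (cubC f) i).SSat ((p : E) ^ j)].TFAE := by
  have h0 := factor_tfae (factor_ssat hT) hQ
  tfae_have 1 → 2 := fun h X h1 h2 i => smooth_of_ss hT h X h1 h2 i
  tfae_have 3 ↔ 4 := h0.out 1 2
  tfae_have 2 → 3 := fun h n m f _ i j => FrobMod.ss_ssat (h _ (ft_cub f) (smooth_cub f) i) _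
  tfae_have 3 → 1 := by
    intro h
    have h1 : ∀ X : Sch (ZMod p), FT True X → Smooth X.hom → ∀ i j : ℤ,
        (T X i).SSat ((p : E) ^ j) := by
      have h2 := h0.out 1 0
      exact h2.mp h
    exact ss_of_ssat hT fun V hV => h1 V hV.ft hV.2
  tfae_finish

end

end Pool.Agent.N882.UE
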