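import Pool.Agent.N882.UE.Gen
import Pool.Agent.Q193.LT.Mod

/-!
# Weil-étale Borel–Moore homology of the schemes over a finite field, formally
-/

set_option autoImplicit false

open CategoryTheory CategoryTheory.Limits AlgebraicGeometry MvPolynomial

namespace Pool.Agent.N882.UE

open Pool.Agent.Y116.UV Pool.Agent.Z125.UN Pool.Agent.Q193.LT Pool.Agent.Q282.UK
  Pool.Agent.Q282.UZ

/-- The ring `ℤ[1/p]`, where `p` is the characteristic of `k`. -/
abbrev Zp (k : Type) [Field k] : Type := Localization.Away ((ringChar k : ℕ) : ℤ)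

/-- Data of modules `A n i X = H_i(X_W, ℤ[1/p](n))`, Weil-étale Borel–Moore homology. -/
abbrev Weil (k : Type) [Field k] : Type 1 := ℤ → ℤ → Sch k → ModuleCat.{0} (Zp k)

variable {k : Type} [Field k] {A : Weil k}

/-- The properties of the groups `A n i X = H_i(X_W, ℤ[1/p](n))`, `n, i ∈ ℤ`, which are used: isomorphic
schemes have isomorphic groups; the exact sequences `⋯ → A n i Z → A n i X → A n i U → A n (i - 1) Z → ⋯`
of a closed subscheme `Z` of `X` with complement `U`; `A n i` of an affine scheme `X` is a direct factor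
of `A n (i + 1)` of `X × 𝔾_m`; for the affine bundles of Jouanolou, of relative dimension `m - 1`, over
the complement `U` of a closed subscheme of an affine scheme, the group `A n i` of the bundle is
isomorphic to `A (n - (m - 1)) (i - 2 (m - 1))` of `U`. -/
structure IsWeil (A : Weil k) : Prop where
  iso : ∀ {X Y : Sch k}, FT True X → Nonempty (X ≅ Y) → ∀ n i, Nonempty (A n i X ≅ A n i Y)
  les : ∀ {Z X U : Sch k} (i : Z ⟶ X) (j : U ⟶ X), FT True X → IsTriple i j → ∀ n,
    ∃ m : LesMaps (A n) (Equiv.subRight (1 : ℤ)) Z X U, m.IsExact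
  torus : ∀ (B : Type) [CommRing B] [Algebra k B] [Algebra.FiniteType k B] (n i : ℤ),
    ∃ (s : A n i (aff k B) ⟶ A n (i + 1) (aff k (LaurentPolynomial B)))
      (r : A n (i + 1) (aff k (LaurentPolynomial B)) ⟶ A n i (aff k B)), s ≫ r = 𝟙 _
  bundle : ∀ (B : Type) [CommRing B] [Algebra k B] [Algebra.FiniteType k B] (m : ℕ)
    (f : Fin m → B) (U : Sch k) (j : U ⟶ aff k B), IsOpenImmersion j.left →
    Set.range j.left = {x : PrimeSpectrum B | ∃ l, f l ∉ x.asIdeal} →
    ∀ (n i : ℤ), Nonempty (A n i (aff k (Jou f)) ≅ A (n - (m - 1)) (i - 2 * (m - 1)) U)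

/-- All groups `H_i(X_W, ℤ[1/p](n))`, `n, i ∈ ℤ`, are finitely generated `ℤ[1/p]`-modules. -/
def WeilFin (A : Weil k) (X : Sch k) : Prop := ∀ n i, Module.Finite (Zp k) (A n i X)

/-- The family with one index. -/
def wfam (A : Weil k) : ℤ × ℤ → Sch k → ModuleCat.{0} (Zp k) := fun q => A q.1 q.2

lemma weilFin_iff {X : Sch k} :
    WeilFin A X ↔ InClass (wfam A) (fun M : ModuleCat.{0} (Zp k) => Module.Finite (Zp k) M) X :=
  ⟨fun h q => h q.1 q.2, fun h n i => h (n, i)⟩

/-- the shift of the degree -/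
def wdl : ℤ × ℤ ≃ ℤ × ℤ := (Equiv.refl _).prodCongr (Equiv.subRight (1 : ℤ))

/-- the shift of the degree -/
def wsg : ℤ × ℤ ≃ ℤ × ℤ := (Equiv.refl _).prodCongr (Equiv.addRight (1 : ℤ))

/-- the shift of twist and degree -/
def wtau : Equiv.Perm (ℤ × ℤ) := Equiv.addRight ((1, 2) : ℤ × ℤ)

lemma wtau_apply (q : ℤ × ℤ) : wtau q = (q.1 + 1, q.2 + 2) := rfl

lemma wtau_zpow (z : ℤ) (q : ℤ × ℤ) : (wtau ^ z) q = (q.1 + z, q.2 + 2 * z) := by
  induction z using Int.induction_on generalizing q with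
  | zero => simp
  | succ z hz =>
    rw [zpow_add, Equiv.Perm.mul_apply, zpow_one, wtau_apply, hz]
    ext
    · change q.1 + 1 + (z : ℤ) = q.1 + ((z : ℤ) + 1)
      ring
    · change q.2 + 2 + 2 * (z : ℤ) = q.2 + 2 * ((z : ℤ) + 1)
      ring
  | pred z hz =>
    have h : (wtau⁻¹ : Equiv.Perm (ℤ × ℤ)) q = (q.1 - 1, q.2 - 2) := by
      rw [Equiv.Perm.inv_eq_iff_eq, wtau_apply]
      ext
      · change q.1 = q.1 - 1 + 1
        ring
      · change q.2 = q.2 - 2 + 2
        ring
    rw [zpow_sub, zpow_one, Equiv.Perm.mul_apply, h, hz]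
    ext
    · change q.1 - 1 + -(z : ℤ) = q.1 + (-(z : ℤ) - 1)
      ring
    · change q.2 - 2 + 2 * -(z : ℤ) = q.2 + 2 * (-(z : ℤ) - 1)
      ring

theorem isMod_weil (hA : IsWeil A) : IsMod True (wfam A) wdl wtau wsg where
  iso hX e q := hA.iso hX e q.1 q.2
  les i j hX ht := by
    right
    choose m hm using hA.les i j hX ht
    exact ⟨{ f := fun q => (m q.1).f q.2
             g := fun q => (m q.1).g q.2
             h := fun q => (m q.1).h q.2 },
      { fg := fun q => (hm q.1).fg q.2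
        gh := fun q => (hm q.1).gh q.2
        hf := fun q => (hm q.1).hf q.2 }⟩
  bundle B _ _ _ m f U j hj hr q := by
    obtain ⟨e⟩ := hA.bundle B m f U j hj hr q.1 q.2
    have h : ((wtau : Equiv.Perm (ℤ × ℤ)) ^ (1 - m : ℤ)) q =
        (q.1 - ((m : ℤ) - 1), q.2 - 2 * ((m : ℤ) - 1)) := by
      rw [wtau_zpow]
      ext
      · change q.1 + (1 - (m : ℤ)) = q.1 - ((m : ℤ) - 1)
        ring
      · change q.2 + 2 * (1 - (m : ℤ)) = q.2 - 2 * ((m : ℤ) - 1)
        ring
    rw [h]
    exact ⟨e⟩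
  torus B _ _ _ q := hA.torus B q.1 q.2

theorem bnd_weil (hA : IsWeil A) (h : WeilFin A (aff k k)) : Bnd True (WeilFin A) := by
  have h1 := bnd_mod (isMod_weil hA) serre_finite (weilFin_iff.mp h)
  have h2 : WeilFin A = InClass (wfam A)
      (fun M : ModuleCat.{0} (Zp k) => Module.Finite (Zp k) M) :=
    funext fun X => propext weilFin_iff
  rw [h2]
  exact h1

end Pool.Agent.N882.UE
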