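import Pool.Agent.Z125.UN.Dim2
import Pool.Agent.Q282.UK.Bil
import Pool.Agent.N882.UE.Bil

/-!
# Properties closed under closed-open decompositions: dimension

Let `P` be a property of schemes of finite type which is inherited by a scheme from a closed subscheme
and its complement, by the complement from the scheme and the closed subscheme, which descends from
`X × 𝔾_m` to `X`, and passes from `X` to `X × 𝔸^n` (it is NOT assumed to be inherited by closed
subschemes from the scheme and the complement). It is true for all schemes of dimension at most `n` over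
a perfect field iff it is true for the systems of bilinear equations with at most `n + 2` variables in
one of the blocks of variables. This is a modification of `Pool.Agent.Z125.UN.Bnd`, `Deh`, `Lin`, `NI`,
`Grad`, `Dim`, `Dim2`, where closure in the third direction is assumed.
-/

set_option autoImplicit false

open CategoryTheory AlgebraicGeometry MvPolynomial

namespace Pool.Agent.N882.UE

open Pool.Agent.Y116.UV Pool.Agent.Z125.UN Pool.Agent.Q282.UK

/-- The property `P` has the closure properties `Clo`, is true for `Spec R`, and passes from an affine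
scheme `X` to `X × 𝔸^n`. -/
structure Wk {R : Type} [CommRing R] (sep : Prop) (P : Sch R → Prop) : Prop extends Clo sep P where
  point : P (aff R R)
  poly : ∀ (A : Type) [CommRing A] [Algebra R A] [Algebra.FiniteType R A] (n : ℕ),
    P (aff R A) → P (aff R (MvPolynomial (Fin n) A))

section

variable {R : Type} [CommRing R] {sep : Prop} {P : Sch R → Prop} (hP : Wk sep P)

section split

variable {σ κ : Type} [Finite σ] {G : κ → MvPolynomial σ R} {w e : MvPolynomial σ R}

include hP

lemma w_pc_total (hc : P (aff R (Pc (adj G e) w))) (ho : P (aff R (Pc G (w * e)))) :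
    P (aff R (Pc G w)) :=
  hP.total _ _ (ft_aff sep) (triple_away (pc G w e))
    (clo_alg hP.toClo (cloE G w e).symm hc) (clo_alg hP.toClo (opnE G w e).symm ho)

lemma w_pc_open (hw : P (aff R (Pc G w))) (hc : P (aff R (Pc (adj G e) w))) :
    P (aff R (Pc G (w * e))) :=
  have : Algebra.FiniteType R (Localization.Away (pc G w e)) :=
    Algebra.FiniteType.trans (S := Pc G w) inferInstance inferInstance
  clo_alg hP.toClo (opnE G w e) (hP.opened _ _ (ft_aff sep) (triple_away (pc G w e))
    (clo_alg hP.toClo (cloE G w e).symm hc) hw)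

end split

section poly

variable {A : Type} [CommRing A] [Algebra R A] [Algebra.FiniteType R A]

include hP

lemma w_p_poly (τ : Type) [Fintype τ] (h : P (aff R A)) : P (aff R (MvPolynomial τ A)) := by
  have : Algebra.FiniteType R (MvPolynomial (Fin (Fintype.card τ)) A) :=
    Algebra.FiniteType.trans (S := A) inferInstance inferInstance
  exact clo_alg hP.toClo ((renameEquiv A (Fintype.equivFin τ).symm).restrictScalars R)
    (hP.poly A _ h)

lemma w_pc_poly {σ κ : Type} [Finite σ] {G : κ → MvPolynomial σ R} {w : MvPolynomial σ R} (τ : Type)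
    [Fintype τ] (h : P (aff R (Pc G w))) : P (aff R (Pc (rl G τ) (rename Sum.inl w))) := by
  have : Algebra.FiniteType R (MvPolynomial τ (Pc G w)) :=
    Algebra.FiniteType.trans (S := Pc G w) inferInstance inferInstance
  exact clo_alg hP.toClo (polyE G w τ) (w_p_poly hP τ h)

end poly

end

section

variable {R : Type} [CommRing R] {sep : Prop} {P : Sch R → Prop} (hP : Wk sep P)

include hP

/-- the product with the multiplicative group -/
lemma w_pc_gm {σ κ : Type} [Finite σ] {G : κ → MvPolynomial σ R} {w : MvPolynomial σ R}
    (h : P (aff R (Pc G w))) : P (aff R (Pc (rl G Unit) (rename Sum.inl w * xs))) :=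
  w_pc_open hP (w_pc_poly hP Unit h) (clo_alg hP.toClo (lineE G w) h)

/-- affine spaces -/
lemma w_pc_space {σ : Type} [Fintype σ] :
    P (aff R (Pc (fun k : Empty => (k.elim : MvPolynomial σ R)) 1)) := by
  have h1 : P (aff R (MvPolynomial σ R)) :=
    clo_alg hP.toClo (renameEquiv R (Fintype.equivFin σ).symm) (hP.poly R _ hP.point)
  have h2 : Ideal.span (Set.range (fun k : Empty => (k.elim : MvPolynomial σ R))) = ⊥ := by
    rw [Set.range_eq_empty, Ideal.span_empty]
  have h3 : P (aff R (MvPolynomial σ R ⧸
      Ideal.span (Set.range (fun k : Empty => (k.elim : MvPolynomial σ R))))) := by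
    rw [h2]
    exact clo_alg hP.toClo (AlgEquiv.quotientBot R (MvPolynomial σ R)).symm h1
  exact clo_alg hP.toClo (oneE _) h3

end

section

variable {R : Type} [CommRing R] {τ : Type} {sep : Prop} {P : Sch R → Prop} (hP : Wk sep P) [Finite τ]

include hP

/-- If the property is true for all locally closed subschemes of an affine space, then it is true for
the solutions of systems of linear equations over these. -/
theorem w_pieces (hN : ∀ (κ : Type) (g : κ → MvPolynomial τ R) (w : MvPolynomial τ R),
      P (aff R (Pc g w))) (n : ℕ) :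
    ∀ (β : Type) (_ : Fintype β), Fintype.card β = n → ∀ (α : Type) (_ : Fintype α) (q : ℕ)
      (κ : Type) (g : κ → MvPolynomial τ R) (w : MvPolynomial τ R)
      (M : α → β → MvPolynomial τ R),
      Nat.card {p : α × β // M p.1 p.2 ≠ 0} ≤ q → P (aff R (Pc (sys g M) (rename Sum.inl w))) := by
  classical
  induction n using Nat.strong_induction_on with
  | _ n ihn =>
  intro β _ hβ α _ q
  induction q with
  | zero =>
    intro κ g w M hM
    have h0 : ∀ i j, M i j = 0 := by
      intro i j
      by_contra h
      have h1 : Nat.card {p : α × β // M p.1 p.2 ≠ 0} = 0 := Nat.le_zero.mp hM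
      rw [Nat.card_eq_zero] at h1
      rcases h1 with h1 | h1
      · exact h1.false ⟨(i, j), h⟩
      · exact h1.not_finite inferInstance
    exact clo_alg hP.toClo (zeroE g w M h0) (w_pc_poly hP β (hN κ g w))
  | succ q ihq =>
    intro κ g w M hM
    by_cases h0 : ∀ i j, M i j = 0
    · exact clo_alg hP.toClo (zeroE g w M h0) (w_pc_poly hP β (hN κ g w))
    · push Not at h0
      obtain ⟨i, j, hij⟩ := h0
      refine w_pc_total hP (e := rename Sum.inl (M i j)) ?_ ?_
      · refine clo_alg hP.toClo (zapE g w M i j) (ihq (Option κ) _ w _ ?_)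
        have h1 : Nat.card {p : α × β // zap M i j p.1 p.2 ≠ 0} <
            Nat.card {p : α × β // M p.1 p.2 ≠ 0} := by
          let f : {p : α × β // zap M i j p.1 p.2 ≠ 0} → {p : α × β // M p.1 p.2 ≠ 0} := fun p =>
            ⟨p.1, by
              have h2 := p.2
              by_cases h3 : p.1.1 = i ∧ p.1.2 = j
              · rw [h3.1, h3.2, zap_self] at h2
                exact absurd rfl h2
              · rwa [zap_ne M i j h3] at h2⟩
          rw [Nat.card_eq_fintype_card, Nat.card_eq_fintype_card]
          refine Fintype.card_lt_of_injective_of_notMem f ?_ (b := ⟨(i, j), hij⟩) ?_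
          · intro x y h
            exact Subtype.ext (congrArg (fun z => z.1) h)
          · rintro ⟨x, hx⟩
            have h3 : x.1 = (i, j) := congrArg (fun z => z.1) hx
            have h2 := x.2
            rw [h3] at h2
            exact h2 (zap_self M i j)
        omega
      · refine clo_alg hP.toClo (pivE g w M i j) ?_
        have hc : Fintype.card {j' : β // j' ≠ j} = n - 1 := by
          rw [Fintype.card_subtype_compl, Fintype.card_subtype_eq, hβ]
        have hn : 0 < n := by
          rw [← hβ]
          exact Fintype.card_pos_iff.mpr ⟨j⟩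
        have h1 := ihn (n - 1) (by omega) {j' : β // j' ≠ j} inferInstance hc α inferInstance
          _ κ g (w * M i j) (piv M i j) le_rfl
        rwa [map_mul] at h1


end

section

variable {R : Type} [CommRing R] {sep : Prop} {P : Sch R → Prop} (hP : Wk sep P)

include hP

/-- Bilinear systems with `c` variables `z` in the second block. -/
theorem w_bilin {α β : Type} [Fintype α] [Fintype β] : ∀ (c : ℕ)
    (_ : ∀ c' < c, ∀ (κ : Type) (g : κ → MvPolynomial (Fin c') R) (w : MvPolynomial (Fin c') R),
      P (aff R (Pc g w))) (T : α → β → Fin c → R), P (aff R (Pc (bl T) 1)) := by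
  intro c
  induction c with
  | zero =>
    intro _ T
    refine clo_alg hP.toClo (pcSame ?_ ?_ ?_ ?_) (w_pc_space hP (σ := β ⊕ Fin 0))
    · exact fun k => k.elim
    · rw [map_one]
      exact isUnit_one
    · intro i
      rw [bl, bil_apply]
      simp
    · rw [map_one]
      exact isUnit_one
  | succ c ih =>
    intro h T
    refine w_pc_total hP (e := zl β R c) ?_ ?_
    · exact clo_alg hP.toClo (hypE T) (ih (fun c' hc' => h c' (by omega)) (tl T))
    · refine clo_alg hP.toClo (opE T) (w_pc_gm hP ?_)
      exact w_pieces hP (h c (by omega)) _ β inferInstance rfl α inferInstance _ Empty (nor c) 1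
        (dm T) le_rfl


end

section

variable {R : Type} [CommRing R] {sep : Prop} {P : Sch R → Prop} {σ κ : Type} [Finite σ]
  (G : κ → MvPolynomial σ R) (w : MvPolynomial σ R)

lemma w_pc_torus (hP : Wk sep P) (h : P (aff R (Gm G w))) : P (aff R (Pc G w)) :=
  hP.torus _ (clo_alg hP.toClo (gE G w) h)

end

section

variable {R : Type} [CommRing R] {sep : Prop} {P : Sch R → Prop} (hP : Wk sep P)

include hP

section split

variable {A : Type} [CommRing A] [Algebra R A] [Algebra.FiniteType R A]

lemma w_ring_total (w : A) (h1 : P (aff R (A ⧸ Ideal.span {w})))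
    (h2 : P (aff R (Localization.Away w))) : P (aff R A) :=
  hP.total _ _ (ft_aff sep) (triple_away w) h1 h2

lemma w_ring_open (w : A) (h1 : P (aff R (A ⧸ Ideal.span {w}))) (h2 : P (aff R A)) :
    P (aff R (Localization.Away w)) :=
  hP.opened _ _ (ft_aff sep) (triple_away w) h1 h2

/-- quotients of quotients -/
lemma w_quot_ideal (I J : Ideal A) (h : P (aff R (A ⧸ (I ⊔ J)))) :
    P (aff R ((A ⧸ I) ⧸ Ideal.map (Ideal.Quotient.mkₐ R I) J)) :=
  clo_alg hP.toClo (DoubleQuot.quotQuotEquivQuotSupₐ R I J).symm h

/-- quotients of quotients -/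
lemma w_quot_mk (I : Ideal A) (a : A) (h : P (aff R (A ⧸ (I ⊔ Ideal.span {a})))) :
    P (aff R ((A ⧸ I) ⧸ Ideal.span {Ideal.Quotient.mk I a})) := by
  have h2 : Ideal.map (Ideal.Quotient.mkₐ R I) (Ideal.span {a}) =
      Ideal.span {Ideal.Quotient.mk I a} := by
    rw [Ideal.map_span, Set.image_singleton]
    rfl
  rw [← h2]
  exact w_quot_ideal hP I _ h

end split

section

variable {A : Type} [CommRing A] [Algebra R A] [Algebra.FiniteType R A]

/-- If `a b = 0` then `A_a` is the localisation of `A / b`. -/
lemma w_zero_div {a b : A} (hab : a * b = 0) (h1 : P (aff R (A ⧸ Ideal.span {b})))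
    (h2 : P (aff R ((A ⧸ Ideal.span {b}) ⧸ Ideal.span {Ideal.Quotient.mk (Ideal.span {b}) a}))) :
    P (aff R (Localization.Away a)) := by
  have h3 := w_ring_open hP (Ideal.Quotient.mk (Ideal.span {b}) a) h2 h1
  -- the two localisations are isomorphic
  let B := A ⧸ Ideal.span {b}
  let S := Localization.Away (Ideal.Quotient.mk (Ideal.span {b}) a)
  let f : A →+* S := (algebraMap B S).comp (Ideal.Quotient.mk (Ideal.span {b}))
  let _ : Algebra A S := f.toAlgebra
  have hloc : IsLocalization.Away a S := by
    have hu : IsUnit (algebraMap A S a) := IsLocalization.Away.algebraMap_isUnit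
      (S := S) (Ideal.Quotient.mk (Ideal.span {b}) a)
    refine ⟨?_, ?_, ?_⟩
    · rintro ⟨_, n, rfl⟩
      change IsUnit (algebraMap A S (a ^ n))
      rw [map_pow]
      exact hu.pow n
    · intro z
      obtain ⟨⟨y, ⟨_, n, rfl⟩⟩, hy⟩ := IsLocalization.surj
        (Submonoid.powers (Ideal.Quotient.mk (Ideal.span {b}) a)) z
      obtain ⟨y, rfl⟩ := Ideal.Quotient.mk_surjective y
      refine ⟨(y, ⟨a ^ n, n, rfl⟩), ?_⟩
      change z * algebraMap A S (a ^ n) = _
      have h4 : algebraMap A S (a ^ n) =
          algebraMap B S ((Ideal.Quotient.mk (Ideal.span {b}) a) ^ n) := by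
        rw [← map_pow]
        rfl
      rw [h4]
      exact hy
    · intro x y hxy
      have h5 : algebraMap B S (Ideal.Quotient.mk _ x) = algebraMap B S (Ideal.Quotient.mk _ y) :=
        hxy
      obtain ⟨⟨_, n, rfl⟩, hc⟩ := (IsLocalization.eq_iff_exists
        (Submonoid.powers (Ideal.Quotient.mk (Ideal.span {b}) a)) S).mp h5
      have h6 : Ideal.Quotient.mk (Ideal.span {b}) (a ^ n * x - a ^ n * y) = 0 := by
        rw [map_sub, map_mul, map_mul, map_pow]
        exact sub_eq_zero.mpr hc
      rw [Ideal.Quotient.eq_zero_iff_mem, Ideal.mem_span_singleton] at h6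
      obtain ⟨c, hc⟩ := h6
      refine ⟨⟨a ^ (n + 1), n + 1, rfl⟩, ?_⟩
      change a ^ (n + 1) * x = a ^ (n + 1) * y
      have h7 : a ^ (n + 1) * x - a ^ (n + 1) * y = (a * b) * c := by
        linear_combination a * hc
      rw [hab, zero_mul, sub_eq_zero] at h7
      exact h7
  let e : Localization.Away a ≃ₐ[A] S :=
    IsLocalization.algEquiv (Submonoid.powers a) (Localization.Away a) S
  let e2 : S ≃ₐ[R] Localization.Away a := AlgEquiv.ofRingEquiv (f := e.symm.toRingEquiv) (by
    intro r
    have h8 : algebraMap R S r = algebraMap A S (algebraMap R A r) := rfl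
    change e.symm (algebraMap R S r) = _
    rw [h8, e.symm.commutes, ← IsScalarTower.algebraMap_apply])
  have : Algebra.FiniteType R S :=
    Algebra.FiniteType.trans (S := A ⧸ Ideal.span {b}) inferInstance inferInstance
  exact clo_alg hP.toClo e2 h3

end

/-- Noetherian induction: it is enough to find, for each domain of finite type, a non-empty open
subscheme for which the property is true. -/
theorem w_noeth [IsNoetherianRing R] {A : Type} [CommRing A] [Algebra R A] [Algebra.FiniteType R A]
    (h0 : ∀ (B : Type) [CommRing B] [Algebra R B], Subsingleton B → P (aff R B))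
    (hD : ∀ p : Ideal A, p.IsPrime → ∃ w : A ⧸ p, w ≠ 0 ∧ P (aff R (Localization.Away w))) :
    P (aff R A) := by
  have hN : IsNoetherianRing A := Algebra.FiniteType.isNoetherianRing R A
  have key : ∀ I : Ideal A, P (aff R (A ⧸ I)) := by
    intro I
    induction I using IsNoetherian.induction with
    | hgt I ih =>
    by_cases hI : I = ⊤
    · subst hI
      exact h0 _ (Ideal.Quotient.subsingleton_iff.mpr rfl)
    by_cases hp : Ideal.IsPrime I
    · obtain ⟨w, hw, hPw⟩ := hD I hp
      obtain ⟨w, rfl⟩ := Ideal.Quotient.mk_surjective w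
      refine w_ring_total hP _ (w_quot_mk hP I w (ih _ ?_)) hPw
      refine lt_of_le_of_ne le_sup_left fun h => hw ?_
      rw [Ideal.Quotient.eq_zero_iff_mem, h]
      exact Ideal.mem_sup_right (Ideal.mem_span_singleton_self w)
    · have h1 : ∃ a b, a * b ∈ I ∧ a ∉ I ∧ b ∉ I := by
        by_contra hcon
        push Not at hcon
        exact hp ⟨hI, fun {a b} hab => by
          by_contra h
          push Not at h
          exact h.2 (hcon a b hab h.1)⟩
      obtain ⟨a, b, hab, ha, hb⟩ := h1
      have hJ : ∀ c, c ∉ I → I < I ⊔ Ideal.span {c} := fun c hc =>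
        lt_of_le_of_ne le_sup_left fun h => hc (by
          rw [h]
          exact Ideal.mem_sup_right (Ideal.mem_span_singleton_self c))
      have hPa := w_quot_mk hP I a (ih _ (hJ a ha))
      have hPb := w_quot_mk hP I b (ih _ (hJ b hb))
      refine w_ring_total hP _ hPa (w_zero_div hP (b := Ideal.Quotient.mk I b) ?_ hPb ?_)
      · rw [← map_mul, Ideal.Quotient.eq_zero_iff_mem]
        exact hab
      · have h2 := ih (I ⊔ (Ideal.span {b} ⊔ Ideal.span {a}))
          (lt_of_lt_of_le (hJ b hb) (sup_le_sup_left le_sup_left I))
        have h3 := w_quot_ideal hP I _ h2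
        have h4 : Ideal.map (Ideal.Quotient.mkₐ R I) (Ideal.span {b} ⊔ Ideal.span {a}) =
            Ideal.span {Ideal.Quotient.mk I b} ⊔ Ideal.span {Ideal.Quotient.mk I a} := by
          rw [Ideal.map_sup, Ideal.map_span, Ideal.map_span, Set.image_singleton,
            Set.image_singleton]
          rfl
        rw [h4] at h3
        exact w_quot_mk hP _ _ h3
  have h := key ⊥
  exact clo_alg hP.toClo (AlgEquiv.quotientBot R A) h


end

end Pool.Agent.N882.UE
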